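import Pool.Agent.Lib.MP_410da7_agT.SpecG

/-!
# MP_410da7_ag, T2: ALG1, ALG2, ALG3 (polynomials in one variable)
-/

set_option autoImplicit false

namespace Pool.Agent.Lib.MP_410da7_agT

open Module

/-- ALG1. Greatest common divisors. -/
theorem alg1 : Alg1Stmt := by
  intro F ι _ _ U h0
  obtain ⟨g, hg⟩ := (IsPrincipalIdealRing.principal (Ideal.span (Set.range U))).principal
  have h1 : ∀ m, ∃ q, U m = g * q := by
    intro m
    have h2 : U m ∈ Ideal.span (Set.range U) := Ideal.subset_span ⟨m, rfl⟩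
    rw [hg, Ideal.submodule_span_eq, Ideal.mem_span_singleton] at h2
    exact h2
  choose V hV using h1
  have h3 : g ∈ Ideal.span (Set.range U) := by
    rw [hg, Ideal.submodule_span_eq]
    exact Ideal.mem_span_singleton_self g
  obtain ⟨c, hc⟩ := Ideal.mem_span_range_iff_exists_fun.1 h3
  have hg0 : g ≠ 0 := by
    rintro rfl
    obtain ⟨l, hl⟩ := h0
    exact hl (by rw [hV l, zero_mul])
  refine ⟨g, V, c, hg0, hV, ?_⟩
  apply mul_left_cancel₀ hg0
  rw [mul_one, Finset.mul_sum]
  calc ∑ m, g * (c m * V m) = ∑ m, c m * U m :=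
        Finset.sum_congr rfl fun m _ => by rw [hV m]; ring
    _ = g := hc

/-- ALG2. Coefficients of bounded degree. -/
theorem alg2 : Alg2Stmt := by
  classical
  intro F ι _ _ V c B hB h1
  obtain ⟨l₁, hl₁⟩ : ∃ l, V l ≠ 0 := by
    by_contra hc
    push Not at hc
    rw [Finset.sum_eq_zero fun l _ => by rw [hc l, mul_zero]] at h1
    exact zero_ne_one h1
  obtain ⟨q, hq⟩ : ∃ q : ι → Polynomial F, q = fun l => c l / V l₁ := ⟨_, rfl⟩
  obtain ⟨r, hr⟩ : ∃ r : ι → Polynomial F, r = fun l => c l % V l₁ := ⟨_, rfl⟩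
  have hqr : ∀ l, c l = V l₁ * q l + r l := by
    intro l
    rw [hq, hr]
    exact (EuclideanDomain.div_add_mod (c l) (V l₁)).symm
  have hrd : ∀ l, (r l).natDegree ≤ (V l₁).natDegree := by
    intro l
    rw [hr]
    exact Polynomial.natDegree_le_natDegree (Polynomial.degree_mod_lt (c l) hl₁).le
  obtain ⟨a, ha⟩ : ∃ a : Polynomial F, a = c l₁ + ∑ l ∈ Finset.univ.erase l₁, q l * V l := ⟨_, rfl⟩
  have hsum : a * V l₁ + ∑ l ∈ Finset.univ.erase l₁, r l * V l = 1 := by
    rw [← h1, ← Finset.add_sum_erase Finset.univ _ (Finset.mem_univ l₁), ha, add_mul, Finset.sum_mul,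
      add_assoc, ← Finset.sum_add_distrib]
    congr 1
    refine Finset.sum_congr rfl fun l _ => ?_
    rw [hqr l]
    ring
  have had : a.natDegree ≤ B := by
    rcases eq_or_ne a 0 with h0 | h0
    · rw [h0, Polynomial.natDegree_zero]
      exact Nat.zero_le B
    · have h2 : a * V l₁ = 1 - ∑ l ∈ Finset.univ.erase l₁, r l * V l := eq_sub_of_add_eq hsum
      have h3 : (a * V l₁).natDegree ≤ (V l₁).natDegree + B := by
        rw [h2]
        refine (Polynomial.natDegree_sub_le _ _).trans (max_le ?_ ?_)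
        · rw [Polynomial.natDegree_one]
          exact Nat.zero_le _
        · refine Polynomial.natDegree_sum_le_of_forall_le _ _ fun l _ => ?_
          exact Polynomial.natDegree_mul_le.trans (add_le_add (hrd l) (hB l))
      rw [Polynomial.natDegree_mul h0 hl₁] at h3
      omega
  refine ⟨fun l => if l = l₁ then a else r l, ?_, ?_⟩
  · intro l
    show (if l = l₁ then a else r l).natDegree ≤ B
    split_ifs with h
    · exact had
    · exact (hrd l).trans (hB l₁)
  · rw [← Finset.add_sum_erase Finset.univ _ (Finset.mem_univ l₁)]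
    show (if l₁ = l₁ then a else r l₁) * V l₁ +
      ∑ l ∈ Finset.univ.erase l₁, (if l = l₁ then a else r l) * V l = 1
    rw [if_pos rfl, ← hsum]
    congr 1
    refine Finset.sum_congr rfl fun l hl => ?_
    rw [if_neg (Finset.ne_of_mem_erase hl)]

/-- ALG3. A root of greater multiplicity. -/
theorem alg3 : Alg3Stmt := by
  classical
  intro F _ _ g g' hg hg' hd
  by_contra hc
  push Not at hc
  refine hd ((IsAlgClosed.dvd_iff_roots_le_roots hg' hg).2 (Multiset.le_iff_count.2 fun z => ?_))
  rw [Polynomial.count_roots, Polynomial.count_roots]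
  exact hc z

end Pool.Agent.Lib.MP_410da7_agT
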