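import Pool.Agent.Lib.MP_410da7_agT.SpecG

/-!
# MP_410da7_ag, T2: ALG4, ALG5 (valuation rings of algebraically closed fields)
-/

set_option autoImplicit false

namespace Pool.Agent.Lib.MP_410da7_agT

open Module

namespace AlgVAux

variable {Ω : Type} [Field Ω] (𝒱 : ValuationSubring Ω)

/-- A polynomial with constant term `1` and no zeros in the open unit disc has its coefficients in
the valuation ring. -/
theorem coeff_le_one [IsAlgClosed Ω] (p : Polynomial Ω) (h0 : p.coeff 0 = 1)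
    (hz : ∀ z, p.eval z = 0 → 1 ≤ 𝒱.valuation z) (m : ℕ) : 𝒱.valuation (p.coeff m) ≤ 1 := by
  have hp0 : p ≠ 0 := by
    intro h
    rw [h, Polynomial.coeff_zero] at h0
    exact zero_ne_one h0
  have hs := (IsAlgClosed.splits p).eq_prod_roots
  have hroot : ∀ z ∈ p.roots, z ≠ 0 ∧ z⁻¹ ∈ 𝒱 := by
    intro z hz1
    have h1 := (Polynomial.mem_roots hp0).1 hz1
    have h2 := hz z h1
    refine ⟨?_, ?_⟩
    · rintro rfl
      rw [map_zero] at h2
      exact absurd h2 (not_le.2 zero_lt_one)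
    · rw [← 𝒱.valuation_le_one_iff, map_inv₀]
      exact inv_le_one_of_one_le₀ h2
  have h1 : (p.roots.map fun z => Polynomial.X - Polynomial.C z) =
      p.roots.map fun z => Polynomial.C (-z) * (1 - Polynomial.C z⁻¹ * Polynomial.X) := by
    refine Multiset.map_congr rfl fun z hz1 => ?_
    have h2 := (hroot z hz1).1
    have h3 : Polynomial.C (-z) * (1 - Polynomial.C z⁻¹ * Polynomial.X) =
        Polynomial.C (-z) + Polynomial.C (z * z⁻¹) * Polynomial.X := by
      rw [Polynomial.C_mul, Polynomial.C_neg]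
      ring
    rw [h3, mul_inv_cancel₀ h2, Polynomial.C_neg, Polynomial.C_1]
    ring
  rw [h1, Multiset.prod_map_mul, ← mul_assoc] at hs
  have h2 : (p.roots.map fun z => (Polynomial.C (-z) : Polynomial Ω)).prod =
      Polynomial.C (p.roots.map fun z => -z).prod := by
    rw [map_multiset_prod, Multiset.map_map]
    rfl
  rw [h2, ← Polynomial.C_mul] at hs
  have h3 : ((p.roots.map fun z => (1 - Polynomial.C z⁻¹ * Polynomial.X : Polynomial Ω)).prod).coeff
      0 = 1 := by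
    rw [Polynomial.coeff_zero_eq_eval_zero, Polynomial.eval_multiset_prod, Multiset.map_map]
    rw [Multiset.prod_eq_one]
    intro x hx
    rw [Multiset.mem_map] at hx
    obtain ⟨z, _, rfl⟩ := hx
    simp
  have h4 := congrArg (fun q => Polynomial.coeff q 0) hs
  simp only [Polynomial.coeff_C_mul] at h4
  rw [h0, h3, mul_one] at h4
  rw [← h4, Polynomial.C_1, one_mul] at hs
  have h5 : p ∈ Polynomial.lifts 𝒱.subtype := by
    rw [hs]
    refine Subsemiring.multiset_prod_mem _ _ fun x hx => ?_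
    rw [Multiset.mem_map] at hx
    obtain ⟨z, hz1, rfl⟩ := hx
    refine ⟨1 - Polynomial.C ⟨z⁻¹, (hroot z hz1).2⟩ * Polynomial.X, ?_⟩
    simp
  rw [Polynomial.lifts_iff_coeff_lifts] at h5
  obtain ⟨x, hx⟩ := h5 m
  rw [← hx]
  exact (𝒱.valuation_le_one_iff _).2 x.2

end AlgVAux

/-- ALG4. The residue field is algebraically closed. -/
theorem alg4 : Alg4Stmt := by
  intro Ω _ _ 𝒱
  refine IsAlgClosed.of_exists_root _ fun p hp hirr => ?_
  have hl : p ∈ Polynomial.lifts (IsLocalRing.residue 𝒱) := by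
    rw [Polynomial.lifts_iff_coeff_lifts]
    intro n
    exact IsLocalRing.residue_surjective (p.coeff n)
  obtain ⟨q, hqp, hqd, hqm⟩ := Polynomial.lifts_and_degree_eq_and_monic hl hp
  obtain ⟨z, hz⟩ : ∃ z : Ω, (q.map (algebraMap 𝒱 Ω)).eval z = 0 := by
    refine IsAlgClosed.exists_root _ ?_
    rw [Polynomial.degree_map_eq_of_injective (IsFractionRing.injective 𝒱 Ω), hqd]
    exact (Polynomial.degree_pos_of_irreducible hirr).ne'
  have hint : IsIntegral 𝒱 z := ⟨q, hqm, by rw [← Polynomial.eval_map]; exact hz⟩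
  obtain ⟨y, hy⟩ := IsIntegrallyClosed.isIntegral_iff.1 hint
  refine ⟨IsLocalRing.residue 𝒱 y, ?_⟩
  rw [← hqp, Polynomial.eval_map, Polynomial.eval₂_at_apply]
  have h1 : q.eval y = 0 := by
    apply IsFractionRing.injective 𝒱 Ω
    rw [map_zero, ← hz, Polynomial.eval_map, ← hy, Polynomial.eval₂_at_apply]
  rw [h1, map_zero]

/-- ALG5. A root in the open unit disc. -/
theorem alg5 : Alg5Stmt := by
  intro Ω _ _ 𝒱 f b h0 hb
  by_contra hc
  push Not at hc
  have hf0 : f.coeff 0 ≠ 0 := by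
    intro h
    refine hc 0 (Ideal.zero_mem _) ?_
    rw [← Polynomial.coeff_zero_eq_eval_zero]
    exact h
  have hf0' : ((f.coeff 0 : 𝒱) : Ω) ≠ 0 := fun h => hf0 (Subtype.ext h)
  obtain ⟨p, hp⟩ : ∃ p : Polynomial Ω,
      p = Polynomial.C ((f.coeff 0 : 𝒱) : Ω)⁻¹ * f.map 𝒱.subtype := ⟨_, rfl⟩
  have hcoef : ∀ m, p.coeff m = ((f.coeff 0 : 𝒱) : Ω)⁻¹ * ((f.coeff m : 𝒱) : Ω) := by
    intro m
    rw [hp, Polynomial.coeff_C_mul, Polynomial.coeff_map]
    rfl
  have h1 := AlgVAux.coeff_le_one 𝒱 p (by rw [hcoef 0, inv_mul_cancel₀ hf0']) ?_ b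
  · rw [hcoef b, map_mul, map_inv₀] at h1
    have h2 : 𝒱.valuation ((f.coeff 0 : 𝒱) : Ω) < 1 := (𝒱.valuation_lt_one_iff _).1 h0
    have h3 : ¬ 𝒱.valuation ((f.coeff b : 𝒱) : Ω) < 1 := fun h => hb ((𝒱.valuation_lt_one_iff _).2 h)
    have h4 : 0 < 𝒱.valuation ((f.coeff 0 : 𝒱) : Ω) := by
      rw [zero_lt_iff]
      exact (Valuation.ne_zero_iff _).2 hf0'
    rw [inv_mul_le_iff₀ h4, mul_one] at h1
    exact h3 (h1.trans_lt h2)
  · intro z hz
    by_contra hlt
    rw [not_le] at hlt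
    have hmem : z ∈ 𝒱 := (𝒱.valuation_le_one_iff z).1 hlt.le
    refine hc ⟨z, hmem⟩ ((𝒱.valuation_lt_one_iff _).2 hlt) ?_
    apply Subtype.ext
    have h2 : (f.map 𝒱.subtype).eval z = 0 := by
      have h3 := hz
      rw [hp, Polynomial.eval_mul, Polynomial.eval_C] at h3
      exact (mul_eq_zero.1 h3).resolve_left (inv_ne_zero hf0')
    have h4 : (f.map 𝒱.subtype).eval (𝒱.subtype ⟨z, hmem⟩) = 𝒱.subtype (f.eval ⟨z, hmem⟩) := by
      rw [Polynomial.eval_map, Polynomial.eval₂_at_apply]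
    exact h4.symm.trans h2

end Pool.Agent.Lib.MP_410da7_agT
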