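import Pool.Agent.Lib.MP_410da7_agT.SpecH
import Pool.Agent.Lib.MP_410da7_agB.AssemblyH

/-!
# MP_410da7_ag, T2 (C46 without nefness): the assembly
-/

set_option autoImplicit false

namespace Pool.Agent.Lib.MP_410da7_agT

open Pool.Agent.Lib.MP_410da7_agA Pool.Agent.Lib.MP_410da7_agB
open Pool.Agent.Lib.MP_410da7_ag (regDiff logDiff)
open Pool.Agent.Lib.MP_410da7_agV (Line isFractionRing_adjoin)
open MvPolynomial KaehlerDifferential WithZero Module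

open asmAux in
/-- From the negative family to the curve. -/
theorem a1_of_negT (hW : HWTStmt) (hS : HSTStmt) (hN : HNTStmt) (hC : CTStmt) (hTA : HTAStmt)
    (hTB : HTBStmt) (hTC : HTCStmt)
    (K : Type) [Field K] [Algebra ℂ K] (n N s d₀ m₀ e₀ : ℕ) (Ψ : Ω[K⁄ℂ] [⋀^Fin n]→ₗ[K] K)
    (x : Fin N → K) (G : Fin (s + 1) → MvPolynomial (Fin (N + 1)) ℂ)
    (hG : ∀ j, (G j).IsHomogeneous d₀) (hsit : Sit Ψ x)
    (hne : ∃ j, aeval (cons1 x) (G j) ≠ 0) (hrat : NonnegOnRat d₀ (cons1 x) G)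
    (hloc : ∀ v : Valuation K ℤᵐ⁰, Triv v → ∃ (b : Fin (N + 1)) (p : Fin (N + 1) → ℂ)
      (z : Fin n → pointRing (cons1 x) b p) (lam : Fin n → ℕ), AtPoint (cons1 x) b p v ∧
      IsPairChart (cons1 x) G b p z lam ∧ LSP (cons1 x) G b v (fun i => (z i : K)) lam)
    (L Λ : Type) [Field L] [Field Λ] [Algebra ℂ L] [Algebra L Λ] [Algebra K Λ] [Algebra ℂ Λ]
    [IsScalarTower ℂ L Λ] [IsScalarTower ℂ K Λ] (a : Λ)
    (hneg : PairNegFamily (cons1 x) G Ψ m₀ e₀ L Λ a) :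
    A1UniruledCompl n (cons1 x) G := by
  have hY0 : cons1 x 0 = 1 := rfl
  obtain ⟨ω, Mw, W, tt, hWS⟩ := hW K N s d₀ (cons1 x) G hY0 hne
  obtain ⟨-, hgenW⟩ := hS K N s d₀ Mw (cons1 x) G ω W tt hG hY0 hWS
  have hgen : IntermediateField.adjoin ℂ (Set.range (cons1 x)) = ⊤ := by
    rw [eq_top_iff, ← hsit.gen]
    refine IntermediateField.adjoin.mono _ _ _ ?_
    rintro _ ⟨l, rfl⟩
    exact ⟨l.succ, rfl⟩
  have hSN : SitN Ψ W tt W 1 := by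
    refine ⟨hWS.W0, hWS.tt0, fun l => ⟨l, rfl⟩, hgenW hgen, hsit.trdeg, hsit.Ψ0, ?_⟩
    intro v _ t _
    rw [pow_one, size]
    exact (Finset.le_sup (f := fun l => v (W l)) (Finset.mem_univ t)).trans le_sup_left
  have hNC := hN K n N s d₀ Mw m₀ e₀ Ψ (cons1 x) G ω W tt hG hY0 hWS hloc L Λ a hneg
  obtain ⟨Ω', i1, i2, hdich⟩ := hC K n (Mw + 1) Mw ((d₀ + 1) * m₀) e₀ 1 Ψ W tt W hSN L Λ _ hNC
  rcases hdich with ⟨ι, Yp, h1, h2, h3, h4⟩ | ⟨V', U', e, h1, h2, h3, h4, h5, h6⟩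
  · obtain ⟨V, hV, hgen'⟩ := hTA K N s d₀ Mw (cons1 x) G ω W tt hG hY0 hWS Ω' ι Yp h1 h2 h3 h4
    obtain ⟨B, j1, j2, j3, W', hB, hd, hl, hg⟩ := hV.cut rfl hgen'
    refine ⟨B, j1, j2, j3, W', hB, ?_, fun d P hP => ⟨hg d P hP, hl.rel d P hP⟩, ?_⟩
    · rw [hd, trdeg_adjoin x hsit.gen, hsit.trdeg]
    · obtain ⟨c, hc⟩ := hl.miss
      rw [Ideal.eq_top_iff_one, ← hc]
      exact Ideal.sum_mem _ fun j _ => Ideal.mul_mem_left _ _ (Ideal.subset_span ⟨j, rfl⟩)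
  · exfalso
    obtain ⟨V, U, hVU, hD, j, hj⟩ := hTB K N s d₀ Mw (cons1 x) G ω W tt hG hY0 hWS Ω' V' U' e h1
      h2 h3 h4 h6
    obtain ⟨l, hl⟩ := hTC K N s d₀ (cons1 x) G hrat Ω' V U hVU hD j
    exact absurd hl (not_le.2 (hj l))

open asmAux in
/-- THE THEOREM T2 from the statements of the blocks. -/
theorem t2Thm (hA : HAStmt) (hF : HFStmt) (hS' : HSStmt) (hH : HHStmt) (hG : HGStmt)
    (hW : HWTStmt) (hS : HSTStmt) (hN : HNTStmt) (hC : CTStmt) (hTA : HTAStmt)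
    (hTB : HTBStmt) (hTC : HTCStmt) : T2Thm := by
  classical
  intro K _ _ n N s d₀ x G Ψ hx htr hΨ hd₀ hGh hne0 hsm hrat0
  have hrat : NonnegOnRat d₀ (cons1 x) G := hrat0
  have hne : ∃ j, aeval (cons1 x) (G j) ≠ 0 := hne0
  have hsit : Sit Ψ x := ⟨hx, htr, hΨ⟩
  have hlsp : ∀ (v : Valuation K ℤᵐ⁰), Triv v → ∀ (b : Fin (N + 1)) (p : Fin (N + 1) → ℂ)
      (z : Fin n → pointRing (cons1 x) b p) (lam : Fin n → ℕ), AtPoint (cons1 x) b p v →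
      IsPairChart (cons1 x) G b p z lam → LSP (cons1 x) G b v (fun i => (z i : K)) lam :=
    fun v hv b p z lam hat hch => hA K n N s d₀ (cons1 x) G hGh hne b p v hv hat z lam hch
  have hloc' : ∀ v : Valuation K ℤᵐ⁰, Triv v → ∃ (b : Fin (N + 1)) (p : Fin (N + 1) → ℂ)
      (z : Fin n → pointRing (cons1 x) b p) (lam : Fin n → ℕ), AtPoint (cons1 x) b p v ∧
      IsPairChart (cons1 x) G b p z lam ∧ LSP (cons1 x) G b v (fun i => (z i : K)) lam := by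
    intro v hv
    obtain ⟨b, p, hat, hpt⟩ := exists_atPoint x hv
    obtain ⟨z, lam, hch⟩ := hsm b p hpt
    exact ⟨b, p, z, lam, hat, hch, hlsp v hv b p z lam hat hch⟩
  have hloc : ∀ v : Valuation K ℤᵐ⁰, Triv v → ∃ (b : Fin (N + 1)) (z : Fin n → K)
      (lam : Fin n → ℕ), LSP (cons1 x) G b v z lam := by
    intro v hv
    obtain ⟨b, p, z, lam, -, -, h⟩ := hloc' v hv
    exact ⟨b, _, lam, h⟩
  have hsec : ∀ (m e : ℕ) (F : K), IsPairSection d₀ (cons1 x) G Ψ m e F ↔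
      F ∈ SecH (CenterOn d₀ (cons1 x) G) Ψ x m e := fun m e F => hS' K n N s d₀ Ψ x G m e F
  have h12 : A1UniruledCompl n (cons1 x) G → PairNotPseff d₀ (cons1 x) G Ψ := by
    intro h
    obtain ⟨δ, h1, h2⟩ := hH K n N s d₀ Ψ x G hd₀ hGh hx htr hΨ h
    exact ⟨δ, h1, fun m e hme F hF => h2 m e hme F ((hsec m e F).1 hF)⟩
  have htfae : List.TFAE [A1UniruledCompl n (cons1 x) G, PairNotPseff d₀ (cons1 x) G Ψ,
      HasNegFamily (cons1 x) G Ψ] := by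
    tfae_have 1 → 2 := h12
    tfae_have 2 → 3 := by
      rintro ⟨δ, h1, h2⟩
      obtain ⟨m₀, L, Λ, i1, i2, i3, i4, i5, i6, i7, i8, a, hm, ha, ht, hfg, hgen, hneg⟩ :=
        hF K n N s d₀ δ Ψ x G hGh hsit hloc h1 fun m e hme F hF => h2 m e hme F
          ((hsec m e F).2 hF)
      refine ⟨m₀, 1, L, Λ, i1, i2, i3, i4, i5, i6, i7, i8, a, hm, le_rfl, ha, ht, hfg, hgen, ?_⟩
      intro w hw b p z lam hat hch
      have hv : Triv (w.comap (algebraMap K Λ)) := DAux.triv_comap hw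
      have h3 := hlsp _ hv b p z lam hat hch
      have h4 := hneg w hw b _ lam h3
      rw [neg_iff Ψ w _ lam h3.ne0, ← vmax_eq] at h4
      rw [pow_one]
      exact h4
    tfae_have 3 → 1 := by
      rintro ⟨m₀, e₀, L, Λ, i1, i2, i3, i4, i5, i6, i7, i8, a, ha⟩
      exact a1_of_negT hW hS hN hC hTA hTB hTC K n N s d₀ m₀ e₀ Ψ x G hGh hsit hne hrat hloc' L Λ
        a ha
    tfae_finish
  refine ⟨htfae, fun hfg => ⟨fun h => ?_, fun h => ?_⟩⟩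
  · obtain ⟨δ, h1, h2⟩ := h12 h
    exact fun m hm F hF => h2 m 0 (by omega) F hF
  · have h21 : PairNotPseff d₀ (cons1 x) G Ψ → A1UniruledCompl n (cons1 x) G :=
      (htfae.out 1 0).1
    apply h21
    have hset : {p : MvPolynomial (Fin 2) K | ∃ (m e : ℕ) (F : K),
        IsPairSection d₀ (cons1 x) G Ψ m e F ∧ p = C F * X 0 ^ m * X 1 ^ e} =
        {p : MvPolynomial (Fin 2) K | ∃ (m e : ℕ) (F : K),
          F ∈ SecH (CenterOn d₀ (cons1 x) G) Ψ x m e ∧ p = C F * X 0 ^ m * X 1 ^ e} := by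
      ext p
      simp only [Set.mem_ofPred_eq, hsec]
    have hfg' : (Algebra.adjoin ℂ {p : MvPolynomial (Fin 2) K | ∃ (m e : ℕ) (F : K),
        IsPairSection d₀ (cons1 x) G Ψ m e F ∧ p = C F * X 0 ^ m * X 1 ^ e}).FG := hfg
    rw [hset] at hfg'
    obtain ⟨δ, h1, h2⟩ := hG K n N (CenterOn d₀ (cons1 x) G) Ψ x hfg'
      fun m hm F hF => h m hm F ((hsec m 0 F).2 hF)
    exact ⟨δ, h1, fun m e hme F hF => h2 m e hme F ((hsec m e F).1 hF)⟩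

end Pool.Agent.Lib.MP_410da7_agT
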