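import Pool.Agent.Lib.MP_410da7_agT.SpecG

/-!
# MP_410da7_ag, T2: the largest smaller radius where an order drops
-/

set_option autoImplicit false

namespace Pool.Agent.Lib.MP_410da7_agT

open MvPolynomial

namespace crossT

theorem exists_root {Ω : Type} [Field Ω] [IsAlgClosed Ω] (𝒱 : ValuationSubring Ω) (x : 𝒱)
    (e : ℕ) (he : 1 ≤ e) (hx : x ∈ IsLocalRing.maximalIdeal 𝒱) :
    ∃ τ : 𝒱, τ ^ e = x ∧ τ ∈ IsLocalRing.maximalIdeal 𝒱 := by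
  obtain ⟨z, hz⟩ := IsAlgClosed.exists_pow_nat_eq (x : Ω) (by omega : 0 < e)
  have hzV : z ∈ 𝒱 := by
    rcases 𝒱.mem_or_inv_mem z with h | h
    · exact h
    · by_cases hz0 : z = 0
      · rw [hz0]
        exact 𝒱.zero_mem
      · have h1 : z = z ^ e * z⁻¹ ^ (e - 1) := by
          obtain ⟨n, rfl⟩ : ∃ n, e = n + 1 := ⟨e - 1, by omega⟩
          rw [Nat.add_sub_cancel, pow_succ, inv_pow, mul_comm (z ^ n) z, mul_assoc,
            mul_inv_cancel₀ (pow_ne_zero n hz0), mul_one]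
        rw [h1, hz]
        exact 𝒱.mul_mem _ _ x.2 (pow_mem h _)
  have hτ : (⟨z, hzV⟩ : 𝒱) ^ e = x := by
    apply Subtype.ext
    exact hz
  refine ⟨⟨z, hzV⟩, hτ, ?_⟩
  refine Ideal.IsPrime.mem_of_pow_mem (IsLocalRing.maximalIdeal.isMaximal 𝒱).isPrime e ?_
  rw [hτ]
  exact hx

theorem exists_max {Ω : Type} [Field Ω] [IsAlgClosed Ω] (𝒱 : ValuationSubring Ω) {ι : Type}
    [Finite ι] (x : ι → 𝒱) (e : ι → ℕ) (he : ∀ i, 1 ≤ e i)
    (hx : ∀ i, x i ∈ IsLocalRing.maximalIdeal 𝒱) (hne : ∃ i, x i ≠ 0) :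
    ∃ τ : 𝒱, τ ≠ 0 ∧ τ ∈ IsLocalRing.maximalIdeal 𝒱 ∧ (∀ i, τ ^ e i ∣ x i) ∧
      ∃ i, x i = τ ^ e i := by
  choose t ht htm using fun i => exists_root 𝒱 (x i) (e i) (he i) (hx i)
  obtain ⟨i1, hi1⟩ := hne
  have : Nonempty ι := ⟨i1⟩
  obtain ⟨i0, hi0⟩ := Finite.exists_max fun i => 𝒱.valuation (t i : Ω)
  have hd : ∀ i, t i0 ∣ t i := by
    intro i
    obtain ⟨c, hc⟩ := (𝒱.valuation_le_iff _ _).1 (hi0 i)
    refine ⟨c, ?_⟩
    apply Subtype.ext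
    rw [mul_comm]
    exact hc.symm
  refine ⟨t i0, ?_, htm i0, fun i => ?_, i0, (ht i0).symm⟩
  · intro h0
    have h1 : t i1 = 0 := by
      have := hd i1
      rw [h0] at this
      exact zero_dvd_iff.1 this
    refine hi1 ?_
    rw [← ht i1, h1, zero_pow (by have := he i1; omega)]
  · rw [← ht i]
    exact pow_dvd_pow_of_dvd (hd i) _

theorem exists_quot {Ω : Type} [Field Ω] (𝒱 : ValuationSubring Ω) (P : Polynomial 𝒱) (τ : 𝒱)
    (a : ℕ) (h : ∀ m < a, τ ^ (a - m) ∣ P.coeff m) :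
    ∃ R : Polynomial 𝒱, P.comp (Polynomial.C τ * Polynomial.X) = Polynomial.C (τ ^ a) * R := by
  have h1 : Polynomial.C (τ ^ a) ∣ P.comp (Polynomial.C τ * Polynomial.X) := by
    rw [Polynomial.C_dvd_iff_dvd_coeff]
    intro m
    rw [Polynomial.comp_C_mul_X_coeff]
    by_cases hm : m < a
    · have h2 : τ ^ a = τ ^ (a - m) * τ ^ m := by
        rw [← pow_add]
        congr 1
        omega
      rw [h2]
      exact mul_dvd_mul_right (h m hm) _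
    · exact dvd_mul_of_dvd_right (pow_dvd_pow _ (by omega)) _
  obtain ⟨R, hR⟩ := h1
  exact ⟨R, hR⟩

theorem quot_coeff {Ω : Type} [Field Ω] (𝒱 : ValuationSubring Ω) (P R : Polynomial 𝒱) (τ : 𝒱)
    (a m : ℕ) (hτ : τ ≠ 0) (hm : m < a) (hP : P.coeff m = τ ^ (a - m))
    (hR : P.comp (Polynomial.C τ * Polynomial.X) = Polynomial.C (τ ^ a) * R) :
    R.coeff m ∉ IsLocalRing.maximalIdeal 𝒱 := by
  have h1 := congrArg (fun f => Polynomial.coeff f m) hR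
  simp only [Polynomial.comp_C_mul_X_coeff, Polynomial.coeff_C_mul] at h1
  have h2 : τ ^ a * 1 = τ ^ a * R.coeff m := by
    rw [← h1, hP, ← pow_add, mul_one]
    congr 1
    omega
  have h3 := mul_left_cancel₀ (pow_ne_zero a hτ) h2
  rw [← h3]
  exact fun h => (Ideal.ne_top_iff_one _).1 (IsLocalRing.maximalIdeal.isMaximal 𝒱).ne_top h

end crossT

open crossT

theorem crossT : CrossTStmt := by
  intro Ω _ _ 𝒱 ι₁ ι₂ _ _ P P' a b hP hP' hb hne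
  obtain ⟨τ, hτ, hτm, hdvd, i, hi⟩ := exists_max 𝒱 (ι := (ι₁ × Fin a) ⊕ (ι₂ × Fin b))
    (Sum.elim (fun q => (P q.1).coeff q.2) fun q => (P' q.1).coeff q.2)
    (Sum.elim (fun q => a - q.2) fun q => b - q.2)
    (by
      rintro (⟨l, m⟩ | ⟨l, m⟩)
      · show 1 ≤ a - (m : ℕ)
        have := m.2
        omega
      · show 1 ≤ b - (m : ℕ)
        have := m.2
        omega)
    (by
      rintro (⟨l, m⟩ | ⟨l, m⟩)
      · exact hP.lt l m m.2
      · exact hP'.lt l m m.2)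
    (by
      obtain ⟨l, hl⟩ := hne
      exact ⟨Sum.inr (l, ⟨0, hb⟩), hl⟩)
  choose R hR using fun l => exists_quot 𝒱 (P l) τ a fun m hm => hdvd (Sum.inl (l, ⟨m, hm⟩))
  choose R' hR' using fun l => exists_quot 𝒱 (P' l) τ b fun m hm => hdvd (Sum.inr (l, ⟨m, hm⟩))
  refine ⟨τ, R, R', hτ, hτm, hR, hR', ?_⟩
  rcases i with ⟨l, m⟩ | ⟨l, m⟩
  · exact Or.inl ⟨l, m, m.2, quot_coeff 𝒱 (P l) (R l) τ a m hτ m.2 hi (hR l)⟩
  · exact Or.inr ⟨l, m, m.2, quot_coeff 𝒱 (P' l) (R' l) τ b m hτ m.2 hi (hR' l)⟩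

end Pool.Agent.Lib.MP_410da7_agT
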