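import Pool.Agent.Lib.MP_410da7_agT.BiHom

/-!
# MP_410da7_ag, T2: discs (translation, scaling, reduction)
-/

set_option autoImplicit false

namespace Pool.Agent.Lib.MP_410da7_agT

open MvPolynomial

namespace discL

/-- `taylor` and ideals of constants. -/
theorem coeff_taylor_mem {A : Type} [CommRing A] (I : Ideal A) (f : Polynomial A)
    (hf : ∀ m, f.coeff m ∈ I) (z : A) (m : ℕ) : (Polynomial.taylor z f).coeff m ∈ I := by
  rw [Polynomial.taylor_coeff, Polynomial.eval_eq_sum]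
  refine Ideal.sum_mem _ fun i _ => ?_
  rw [Polynomial.hasseDeriv_coeff]
  exact Ideal.mul_mem_right _ _ (Ideal.mul_mem_left _ _ (hf _))

theorem taylor_eval₂ {k A : Type} [CommSemiring k] [CommRing A] (φ : k →+* A) {σ : Type}
    (v : σ → Polynomial A) (Q : MvPolynomial σ k) (z : A) :
    Polynomial.taylor z (eval₂ (Polynomial.C.comp φ) v Q) =
      eval₂ (Polynomial.C.comp φ) (fun i => Polynomial.taylor z (v i)) Q := by
  have h := eval₂_comp_left ((Polynomial.taylorAlgHom z : Polynomial A →ₐ[A] Polynomial A) :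
    Polynomial A →+* Polynomial A) (Polynomial.C.comp φ) v Q
  have h1 : ((Polynomial.taylorAlgHom z : Polynomial A →ₐ[A] Polynomial A) :
      Polynomial A →+* Polynomial A).comp (Polynomial.C.comp φ) = Polynomial.C.comp φ := by
    refine RingHom.ext fun x => ?_
    show Polynomial.taylor z (Polynomial.C (φ x)) = Polynomial.C (φ x)
    rw [Polynomial.taylor_C]
  rw [h1] at h
  exact h

theorem comp_eval₂ {k A : Type} [CommSemiring k] [CommRing A] (φ : k →+* A) {σ : Type}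
    (v : σ → Polynomial A) (Q : MvPolynomial σ k) (q : Polynomial A) :
    (eval₂ (Polynomial.C.comp φ) v Q).comp q =
      eval₂ (Polynomial.C.comp φ) (fun i => (v i).comp q) Q := by
  have h := eval₂_comp_left (Polynomial.compRingHom q) (Polynomial.C.comp φ) v Q
  have h1 : (Polynomial.compRingHom q).comp (Polynomial.C.comp φ) = Polynomial.C.comp φ := by
    refine RingHom.ext fun x => ?_
    show (Polynomial.C (φ x)).comp q = Polynomial.C (φ x)
    rw [Polynomial.C_comp]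
  rw [h1] at h
  exact h

theorem map_eval₂' {k A B : Type} [CommSemiring k] [CommRing A] [CommRing B] (φ : k →+* A)
    (ρ : A →+* B) {σ : Type} (v : σ → Polynomial A) (Q : MvPolynomial σ k) :
    (eval₂ (Polynomial.C.comp φ) v Q).map ρ =
      eval₂ (Polynomial.C.comp (ρ.comp φ)) (fun i => (v i).map ρ) Q := by
  have h := eval₂_comp_left (Polynomial.mapRingHom ρ) (Polynomial.C.comp φ) v Q
  have h1 : (Polynomial.mapRingHom ρ).comp (Polynomial.C.comp φ) =
      Polynomial.C.comp (ρ.comp φ) := by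
    refine RingHom.ext fun x => ?_
    show (Polynomial.C (φ x)).map ρ = Polynomial.C (ρ (φ x))
    rw [Polynomial.map_C]
  rw [h1] at h
  exact h

/-- The nonvanishing condition under scaling. -/
theorem scale_nz {A ι : Type} [CommRing A] [IsDomain A] (P R : ι → Polynomial A) (δ τ : A)
    (a : ℕ) (hτ : τ ≠ 0) (hδ : δ ≠ 0) (hnz : ∀ z : A, ∃ l, (P l).eval z ∣ δ)
    (hR : ∀ l, (P l).comp (Polynomial.C τ * Polynomial.X) = Polynomial.C (τ ^ a) * R l) :
    ∃ δ₁ : A, δ = τ ^ a * δ₁ ∧ δ₁ ≠ 0 ∧ ∀ z : A, ∃ l, (R l).eval z ∣ δ₁ := by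
  have hev : ∀ l z, (P l).eval (τ * z) = τ ^ a * (R l).eval z := by
    intro l z
    have h := congrArg (Polynomial.eval z) (hR l)
    rw [Polynomial.eval_comp, Polynomial.eval_mul, Polynomial.eval_mul, Polynomial.eval_C,
      Polynomial.eval_C, Polynomial.eval_X] at h
    exact h
  have hτa : τ ^ a ≠ 0 := pow_ne_zero a hτ
  obtain ⟨l0, hl0⟩ := hnz (τ * 0)
  rw [hev] at hl0
  obtain ⟨δ₁, hδ₁⟩ : τ ^ a ∣ δ := (dvd_mul_right _ _).trans hl0
  refine ⟨δ₁, hδ₁, ?_, fun z => ?_⟩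
  · rintro rfl
    exact hδ (by rw [hδ₁, mul_zero])
  · obtain ⟨l, hl⟩ := hnz (τ * z)
    rw [hev, hδ₁] at hl
    exact ⟨l, (mul_dvd_mul_iff_left hτa).1 hl⟩

end discL

open discL

theorem disc1 : Disc1Stmt := by
  intro k Ω _ _ 𝒱 φ ι₁ ι₂ γ Q dQ P P' δ δ' h z
  refine ⟨h.ne, h.ne', fun z' => ?_, fun z' => ?_, fun j m => ?_⟩
  · obtain ⟨l, hl⟩ := h.nz (z' + z)
    exact ⟨l, by rw [Polynomial.taylor_eval]; exact hl⟩
  · obtain ⟨l, hl⟩ := h.nz' (z' + z)
    exact ⟨l, by rw [Polynomial.taylor_eval]; exact hl⟩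
  · have h1 : (Sum.elim (fun l => Polynomial.taylor z (P l)) fun l => Polynomial.taylor z (P' l)) =
        fun i => Polynomial.taylor z (Sum.elim P P' i) := by
      funext i
      rcases i with i | i
      · rfl
      · rfl
    rw [h1, ← taylor_eval₂]
    exact coeff_taylor_mem _ _ (h.small j) z m

theorem disc2 : Disc2Stmt := by
  intro k Ω _ _ 𝒱 φ ι₁ ι₂ γ Q dQ hQ P P' δ δ' h τ a b R R' hτ hR hR'
  obtain ⟨δ₁, hδ₁, hne, hnz⟩ := scale_nz P R δ τ a hτ h.ne h.nz hR
  obtain ⟨δ₁', hδ₁', hne', hnz'⟩ := scale_nz P' R' δ' τ b hτ h.ne' h.nz' hR'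
  refine ⟨δ₁, δ₁', hne, hne', hnz, hnz', fun j m => ?_⟩
  have h1 : (fun i => (Sum.elim P P' i).comp (Polynomial.C τ * Polynomial.X)) =
      Sum.elim (fun l => Polynomial.C (τ ^ a) * R l) fun l => Polynomial.C (τ ^ b) * R' l := by
    funext i
    rcases i with i | i
    · exact hR i
    · exact hR' i
  have h2 := comp_eval₂ φ (Sum.elim P P') (Q j) (Polynomial.C τ * Polynomial.X)
  rw [h1, biHom.scale _ _ _ _ _ (hQ j), ← Polynomial.C_pow, ← Polynomial.C_pow,
    ← Polynomial.C_mul] at h2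
  have h3 := congrArg (fun f => Polynomial.coeff f m) h2
  simp only [Polynomial.comp_C_mul_X_coeff, Polynomial.coeff_C_mul] at h3
  have h4 := h.small j m
  rw [Ideal.mem_mul_span_singleton] at h4 ⊢
  obtain ⟨z, hz, hz2⟩ := h4
  refine ⟨z * τ ^ m, Ideal.mul_mem_right _ _ hz, ?_⟩
  have hc : (τ ^ a) ^ (dQ j).1 * (τ ^ b) ^ (dQ j).2 ≠ 0 :=
    mul_ne_zero (pow_ne_zero _ (pow_ne_zero _ hτ)) (pow_ne_zero _ (pow_ne_zero _ hτ))
  refine mul_left_cancel₀ hc ?_
  rw [← h3, ← hz2, hδ₁, hδ₁']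
  ring

theorem disc3 : Disc3Stmt := by
  intro k Ω _ _ 𝒱 φ ι₁ ι₂ γ Q dQ hQ P P' δ δ' h g g' V U hg hg' hV hU j
  have h0 : (eval₂ (Polynomial.C.comp φ) (Sum.elim P P') (Q j)).map (IsLocalRing.residue 𝒱) = 0 := by
    ext m
    have h4 := h.small j m
    rw [Ideal.mem_mul_span_singleton] at h4
    obtain ⟨z, hz, hz2⟩ := h4
    rw [Polynomial.coeff_map, Polynomial.coeff_zero, ← hz2, map_mul,
      (IsLocalRing.residue_eq_zero_iff z).2 hz, zero_mul]
  have h1 : (fun i => (Sum.elim P P' i).map (IsLocalRing.residue 𝒱)) =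
      Sum.elim (fun l => g * V l) fun l => g' * U l := by
    funext i
    rcases i with i | i
    · exact hV i
    · exact hU i
  rw [map_eval₂', h1, biHom.scale _ _ _ _ _ (hQ j)] at h0
  have h2 := (mul_eq_zero.1 h0).resolve_left
    (mul_ne_zero (pow_ne_zero _ hg) (pow_ne_zero _ hg'))
  rw [aeval_def, eval₂_map]
  exact h2

end Pool.Agent.Lib.MP_410da7_agT
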