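import Pool.Agent.Lib.MP_410da7_agT.SpecG

/-!
# MP_410da7_ag, T2: DISC4, from polynomials over `Ω` to polynomials over the valuation ring
-/

set_option autoImplicit false

namespace Pool.Agent.Lib.MP_410da7_agT

open Pool.Agent.Lib.MP_410da7_agA Pool.Agent.Lib.MP_410da7_agB
open MvPolynomial Module

namespace DiscMAux

/-- Bihomogeneity. -/
theorem bih_smul {k A : Type} [CommRing k] [CommRing A] {ι₁ ι₂ : Type} (f : k →+* A)
    {G : MvPolynomial (ι₁ ⊕ ι₂) k} {d : ℕ × ℕ} (hG : BiH G d) (c c' : A) (g : ι₁ → A)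
    (g' : ι₂ → A) :
    eval₂ f (Sum.elim (fun l => c * g l) (fun l => c' * g' l)) G =
      c ^ d.1 * c' ^ d.2 * eval₂ f (Sum.elim g g') G := by
  rw [eval₂_eq, eval₂_eq, Finset.mul_sum]
  refine Finset.sum_congr rfl fun m hm => ?_
  have h1 : Finsupp.weight (wt2 (ι₁ := ι₁) (ι₂ := ι₂)) m = d := hG (mem_support_iff.1 hm)
  have h2 : ∀ i : ι₁ ⊕ ι₂, Sum.elim (fun l => c * g l) (fun l => c' * g' l) i =
      (c ^ (wt2 i).1 * c' ^ (wt2 i).2) * Sum.elim g g' i := by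
    rintro (i | i) <;> simp [wt2]
  have h4 : d.1 = ∑ i ∈ m.support, (wt2 i).1 * m i := by
    rw [← h1, Finsupp.weight_apply, Finsupp.sum, Prod.fst_sum]
    refine Finset.sum_congr rfl fun i _ => ?_
    rw [Prod.smul_fst, smul_eq_mul, mul_comm]
  have h5 : d.2 = ∑ i ∈ m.support, (wt2 i).2 * m i := by
    rw [← h1, Finsupp.weight_apply, Finsupp.sum, Prod.snd_sum]
    refine Finset.sum_congr rfl fun i _ => ?_
    rw [Prod.smul_snd, smul_eq_mul, mul_comm]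
  have h3 : ∏ i ∈ m.support, (c ^ (wt2 i).1 * c' ^ (wt2 i).2) ^ m i = c ^ d.1 * c' ^ d.2 := by
    simp only [mul_pow, ← pow_mul]
    rw [Finset.prod_mul_distrib, Finset.prod_pow_eq_pow_sum, Finset.prod_pow_eq_pow_sum,
      ← h4, ← h5]
  rw [Finset.prod_congr rfl fun i _ => by rw [h2 i, mul_pow], Finset.prod_mul_distrib, h3]
  ring

variable {Ω : Type} [Field Ω] (𝒱 : ValuationSubring Ω)

/-- Coefficients of a composition with a polynomial over the valuation ring. -/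
theorem comp_lt' {f : Polynomial Ω} {x : Ω} (hx : x ≠ 0) (g : Polynomial 𝒱)
    (h : ∀ m, 𝒱.valuation (f.coeff m) < 𝒱.valuation x) (m : ℕ) :
    𝒱.valuation ((f.comp (g.map 𝒱.subtype)).coeff m) < 𝒱.valuation x := by
  have h1 : (f.comp (g.map 𝒱.subtype)).coeff m =
      ∑ i ∈ f.support, f.coeff i * (((g ^ i).coeff m : 𝒱) : Ω) := by
    rw [Polynomial.comp, Polynomial.eval₂_eq_sum, Polynomial.sum, Polynomial.finsetSum_coeff]
    refine Finset.sum_congr rfl fun i _ => ?_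
    rw [Polynomial.coeff_C_mul, ← Polynomial.map_pow, Polynomial.coeff_map]
    rfl
  rw [h1]
  refine 𝒱.valuation.map_sum_lt ((Valuation.ne_zero_iff _).2 hx) fun i _ => ?_
  rw [map_mul]
  exact lt_of_le_of_lt (mul_le_of_le_one_right' (𝒱.valuation_le_one _)) (h i)

/-- One half of the nonvanishing. -/
theorem nz_half {ι : Type} (P : ι → Polynomial Ω) (R : ι → Polynomial 𝒱) (δ ν : Ω) (z τ : 𝒱)
    (hδ : δ ≠ 0) (hν : ν ≠ 0)
    (hnz : ∀ z ∈ 𝒱, ∃ l, 𝒱.valuation δ ≤ 𝒱.valuation ((P l).eval z))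
    (hP : ∀ l, (P l).comp (Polynomial.C (z : Ω) + Polynomial.C (τ : Ω) * Polynomial.X) =
      Polynomial.C ν * (R l).map 𝒱.subtype) :
    ∃ δ₁ : 𝒱, (δ₁ : Ω) * ν = δ ∧ δ₁ ≠ 0 ∧ ∀ z' : 𝒱, ∃ l, (R l).eval z' ∣ δ₁ := by
  have hev : ∀ (l : ι) (z' : 𝒱), (P l).eval ((z + τ * z' : 𝒱) : Ω) = ν * (((R l).eval z' : 𝒱) : Ω) := by
    intro l z'
    have h1 := congrArg (Polynomial.eval (z' : Ω)) (hP l)
    rw [Polynomial.eval_comp] at h1
    simp only [Polynomial.eval_add, Polynomial.eval_C, Polynomial.eval_mul, Polynomial.eval_X] at h1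
    have h2 : Polynomial.eval (z' : Ω) ((R l).map 𝒱.subtype) = (((R l).eval z' : 𝒱) : Ω) := by
      have := Polynomial.eval_map_apply (f := 𝒱.subtype) (p := R l) z'
      exact this
    rw [h2] at h1
    rw [← h1]
    rfl
  have hle : 𝒱.valuation δ ≤ 𝒱.valuation ν := by
    obtain ⟨l, hl⟩ := hnz _ (z + τ * 0 : 𝒱).2
    rw [hev l 0, map_mul] at hl
    exact hl.trans (mul_le_of_le_one_right' (𝒱.valuation_le_one _))
  have hν0 : 𝒱.valuation ν ≠ 0 := (Valuation.ne_zero_iff _).2 hν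
  have hmem : δ / ν ∈ 𝒱 := by
    rw [← 𝒱.valuation_le_one_iff, map_div₀]
    exact div_le_one_of_le₀ hle zero_le
  refine ⟨⟨δ / ν, hmem⟩, div_mul_cancel₀ δ hν, ?_, fun z' => ?_⟩
  · intro h
    have h1 : δ / ν = 0 := congrArg Subtype.val h
    rcases div_eq_zero_iff.1 h1 with h2 | h2
    · exact hδ h2
    · exact hν h2
  · obtain ⟨l, hl⟩ := hnz _ (z + τ * z' : 𝒱).2
    rw [hev l z'] at hl
    have hR0 : (((R l).eval z' : 𝒱) : Ω) ≠ 0 := by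
      intro h
      rw [h, mul_zero, map_zero] at hl
      exact hδ ((Valuation.zero_iff _).1 (le_antisymm hl zero_le))
    refine ⟨l, ⟨⟨δ / (ν * (((R l).eval z' : 𝒱) : Ω)), ?_⟩, ?_⟩⟩
    · rw [← 𝒱.valuation_le_one_iff, map_div₀]
      exact div_le_one_of_le₀ hl zero_le
    · apply Subtype.ext
      change δ / ν = (((R l).eval z' : 𝒱) : Ω) * (δ / (ν * (((R l).eval z' : 𝒱) : Ω)))
      field_simp

end DiscMAux

open DiscMAux in
theorem disc4 : Disc4Stmt := by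
  intro k Ω _ _ _ 𝒱 φ hφ ι₁ ι₂ γ Q dQ hQ P P' δ δ' hD z τ ν ν' R R' hν hν' hP hP'
  obtain ⟨δ₁, hδ₁, hδ₁0, hnz⟩ := nz_half 𝒱 P R δ ν z τ hD.ne hν hD.nz hP
  obtain ⟨δ₁', hδ₁', hδ₁0', hnz'⟩ := nz_half 𝒱 P' R' δ' ν' z τ hD.ne' hν' hD.nz' hP'
  refine ⟨δ₁, δ₁', hδ₁0, hδ₁0', hnz, hnz', fun j m => ?_⟩
  obtain ⟨d, hd⟩ : ∃ d, d = dQ j := ⟨_, rfl⟩
  rw [← hd]
  have hBj : BiH (Q j) d := by
    rw [hd]
    exact hQ j
  -- the composition
  have h1 : (aeval (Sum.elim P P') (Q j) : Polynomial Ω).comp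
      (Polynomial.C (z : Ω) + Polynomial.C (τ : Ω) * Polynomial.X) =
      Polynomial.C (ν ^ d.1 * ν' ^ d.2) *
        (eval₂ (Polynomial.C.comp φ) (Sum.elim R R') (Q j)).map 𝒱.subtype := by
    have e1 : (aeval (Sum.elim P P') (Q j) : Polynomial Ω).comp
        (Polynomial.C (z : Ω) + Polynomial.C (τ : Ω) * Polynomial.X) =
        eval₂ (Polynomial.C.comp (algebraMap k Ω))
          (Sum.elim (fun l => Polynomial.C ν * (R l).map 𝒱.subtype)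
            (fun l => Polynomial.C ν' * (R' l).map 𝒱.subtype)) (Q j) := by
      have e2 := MvPolynomial.eval₂_comp_left
        (Polynomial.compRingHom (Polynomial.C (z : Ω) + Polynomial.C (τ : Ω) * Polynomial.X))
        (algebraMap k (Polynomial Ω)) (Sum.elim P P') (Q j)
      rw [aeval_def]
      refine e2.trans ?_
      congr 1
      · ext x
        simp [Polynomial.algebraMap_apply]
      · funext i
        rcases i with i | i
        · exact hP i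
        · exact hP' i
    have e3 : (eval₂ (Polynomial.C.comp φ) (Sum.elim R R') (Q j)).map 𝒱.subtype =
        eval₂ (Polynomial.C.comp (algebraMap k Ω))
          (Sum.elim (fun l => (R l).map 𝒱.subtype) (fun l => (R' l).map 𝒱.subtype)) (Q j) := by
      have e4 := MvPolynomial.eval₂_comp_left (Polynomial.mapRingHom 𝒱.subtype)
        (Polynomial.C.comp φ) (Sum.elim R R') (Q j)
      refine e4.trans ?_
      congr 1
      · ext x
        simp [hφ]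
      · funext i
        rcases i with i | i <;> rfl
    rw [e1, bih_smul _ hBj, e3, Polynomial.C_mul, Polynomial.C_pow, Polynomial.C_pow]
  have hg : Polynomial.C (z : Ω) + Polynomial.C (τ : Ω) * Polynomial.X =
      (Polynomial.C z + Polynomial.C τ * Polynomial.X : Polynomial 𝒱).map 𝒱.subtype := by
    simp
  have hδδ : δ ^ d.1 * δ' ^ d.2 ≠ 0 := mul_ne_zero (pow_ne_zero _ hD.ne) (pow_ne_zero _ hD.ne')
  have h2 := comp_lt' 𝒱 hδδ (Polynomial.C z + Polynomial.C τ * Polynomial.X)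
    (fun m => by
      have := hD.small j m
      rwa [← hd] at this) m
  rw [← hg, h1, Polynomial.coeff_C_mul, Polynomial.coeff_map] at h2
  obtain ⟨a, ha⟩ : ∃ a, a = (eval₂ (Polynomial.C.comp φ) (Sum.elim R R') (Q j)).coeff m :=
    ⟨_, rfl⟩
  rw [← ha] at h2 ⊢
  have h2' : 𝒱.valuation (ν ^ d.1 * ν' ^ d.2 * (a : Ω)) < 𝒱.valuation (δ ^ d.1 * δ' ^ d.2) := h2
  have hνν : ν ^ d.1 * ν' ^ d.2 ≠ 0 := mul_ne_zero (pow_ne_zero _ hν) (pow_ne_zero _ hν')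
  have hy : δ ^ d.1 * δ' ^ d.2 =
      ν ^ d.1 * ν' ^ d.2 * ((δ₁ ^ d.1 * δ₁' ^ d.2 : 𝒱) : Ω) := by
    rw [← hδ₁, ← hδ₁', mul_pow, mul_pow]
    push_cast
    ring
  rw [hy, map_mul, map_mul (𝒱.valuation) (ν ^ d.1 * ν' ^ d.2)
    ((δ₁ ^ d.1 * δ₁' ^ d.2 : 𝒱) : Ω)] at h2'
  have h3 : 𝒱.valuation (a : Ω) < 𝒱.valuation ((δ₁ ^ d.1 * δ₁' ^ d.2 : 𝒱) : Ω) :=
    lt_of_mul_lt_mul_left' h2'
  have hy0 : ((δ₁ ^ d.1 * δ₁' ^ d.2 : 𝒱) : Ω) ≠ 0 := by
    intro h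
    rw [h, mul_zero] at hy
    exact hδδ hy
  have hvy : 0 < 𝒱.valuation ((δ₁ ^ d.1 * δ₁' ^ d.2 : 𝒱) : Ω) := (Valuation.pos_iff _).2 hy0
  have h4 : 𝒱.valuation ((a : Ω) / ((δ₁ ^ d.1 * δ₁' ^ d.2 : 𝒱) : Ω)) < 1 := by
    rw [map_div₀]
    exact (div_lt_one₀ hvy).2 h3
  have h5 : (a : Ω) / ((δ₁ ^ d.1 * δ₁' ^ d.2 : 𝒱) : Ω) ∈ 𝒱 :=
    (𝒱.valuation_le_one_iff _).1 h4.le
  have h6 : (⟨_, h5⟩ : 𝒱) ∈ IsLocalRing.maximalIdeal 𝒱 := (𝒱.valuation_lt_one_iff _).2 h4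
  have h7 : a = ⟨_, h5⟩ * (δ₁ ^ d.1 * δ₁' ^ d.2) := by
    apply Subtype.ext
    change (a : Ω) = (a : Ω) / ((δ₁ ^ d.1 * δ₁' ^ d.2 : 𝒱) : Ω) *
      ((δ₁ ^ d.1 * δ₁' ^ d.2 : 𝒱) : Ω)
    rw [div_mul_cancel₀ _ hy0]
  rw [h7]
  exact Ideal.mul_mem_mul h6 (Ideal.mem_span_singleton_self _)

end Pool.Agent.Lib.MP_410da7_agT
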