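import Pool.Agent.Lib.MP_410da7_agT.SpecE

/-!
# MP_410da7_ag, T2, E8T: the numerical data (adapted from E8N)
-/

set_option autoImplicit false

namespace Pool.Agent.Lib.MP_410da7_agT

open Pool.Agent.Lib.MP_410da7_agA Pool.Agent.Lib.MP_410da7_agB
open MvPolynomial Module

theorem e8T (he7n : E7NStmt) : E8TStmt := by
  intro k Λ _ _ _ C q M κ r d n m₀ e₀ E₁ E₂ B S tt y b₀ α g hc hB hpole P hP
  classical
  have hz : y b₀ ≠ 0 := by
    intro h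
    have := hc.cert.trans
    rw [h] at this
    exact this isAlgebraic_zero
  obtain ⟨R, hR⟩ : ∃ R : C.pt → ℤ, ∀ w, R w =
      tt.sup' ⟨0, hc.cert.tt0⟩ fun t => -(C.ord w (y t)) := ⟨_, fun _ => rfl⟩
  have hR1 : ∀ w, ∀ t ∈ tt, -(C.ord w (y t)) ≤ R w := fun w t ht => by
    rw [hR w]
    exact Finset.le_sup' (fun t => -(C.ord w (y t))) ht
  have hR2 : ∀ w, ∃ t ∈ tt, -(C.ord w (y t)) = R w := fun w => by
    obtain ⟨t, ht, h⟩ := Finset.exists_mem_eq_sup' ⟨0, hc.cert.tt0⟩ fun t => -(C.ord w (y t))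
    exact ⟨t, ht, by rw [hR w]; exact h.symm⟩
  choose hyP hR0 hRP J μ h hJ hμ0 hP0 hPh hRh hineq hT using
    fun w => he7n k Λ C q M κ r d n m₀ e₀ E₁ E₂ S tt y b₀ α g hc w (P w) (R w) (hP w) (hR1 w)
      (hR2 w)
  obtain ⟨ℓ, hℓ⟩ : ∃ ℓ : C.pt → ℤ, ∀ w, ℓ w =
      C.ord w (minor S.F S.I₀ y (J w)) + r * ((d : ℤ) - 1) * P w := ⟨_, fun _ => rfl⟩
  have hPnn : ∀ w, 0 ≤ P w := fun w => by rw [hP w]; exact le_max_left _ _
  have hPfin : {w | P w ≠ 0}.Finite := by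
    refine (C.finite (y b₀) hz).subset fun w hw => ?_
    intro h0
    apply hw
    have h0' : C.ord w (y b₀) = 0 := h0
    rw [hP w, h0']
    simp
  have hμfin : {w | μ w ≠ 0}.Finite :=
    hPfin.subset fun w hw h0 => hw (hP0 w h0).1
  have hhfin : {w | h w ≠ 0}.Finite :=
    hPfin.subset fun w hw h0 => hw (hP0 w h0).2
  have hRfin : {w | R w ≠ 0}.Finite :=
    hPfin.subset fun w hw h0 => hw (le_antisymm (h0 ▸ hRP w) (hR0 w))
  have hαfin : {w | C.ord w α ≠ 0}.Finite := C.finite α hc.cert.α0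
  have hgfin : {w | C.ord w g ≠ 0}.Finite := C.finite g hc.cert.gne
  have hℓfin : {w | ℓ w ≠ 0}.Finite := by
    have h2 : ({w | P w ≠ 0} ∪ ⋃ J ∈ {J : Fin r → Fin κ | minor S.F S.I₀ y J ≠ 0},
        {w | C.ord w (minor S.F S.I₀ y J) ≠ 0}).Finite := by
      refine hPfin.union (Set.Finite.biUnion (Set.toFinite _) fun J hJ => ?_)
      exact C.finite _ hJ
    refine h2.subset fun w hw => ?_
    by_cases h0 : P w = 0
    · right
      rw [Set.mem_iUnion₂]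
      refine ⟨J w, hJ w, ?_⟩
      intro h3
      apply hw
      rw [hℓ w, h3, h0]
      simp
    · left
      exact h0
  -- the finite set
  obtain ⟨T, hTP, hTμ, hTh, hTα, hTℓ, hTR, hTg⟩ : ∃ T : Finset C.pt, (∀ w, P w ≠ 0 → w ∈ T) ∧
      (∀ w, μ w ≠ 0 → w ∈ T) ∧ (∀ w, h w ≠ 0 → w ∈ T) ∧ (∀ w, C.ord w α ≠ 0 → w ∈ T) ∧
      (∀ w, ℓ w ≠ 0 → w ∈ T) ∧ (∀ w, R w ≠ 0 → w ∈ T) ∧ ∀ w, C.ord w g ≠ 0 → w ∈ T := by
    refine ⟨hPfin.toFinset ∪ (hμfin.toFinset ∪ (hhfin.toFinset ∪ (hαfin.toFinset ∪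
      (hℓfin.toFinset ∪ (hRfin.toFinset ∪ hgfin.toFinset))))), ?_, ?_, ?_, ?_, ?_, ?_, ?_⟩ <;>
      intro w hw <;>
      simp only [Finset.mem_union, Set.Finite.mem_toFinset, Set.mem_ofPred_eq] <;> tauto
  have sP : ∑ᶠ w, P w = ∑ w ∈ T, P w := finsum_eq_sum_of_support_subset _ fun w hw => hTP w hw
  have sμ : ∑ᶠ w, μ w = ∑ w ∈ T, μ w := finsum_eq_sum_of_support_subset _ fun w hw => hTμ w hw
  have sℓ : ∑ᶠ w, ℓ w = ∑ w ∈ T, ℓ w := finsum_eq_sum_of_support_subset _ fun w hw => hTℓ w hw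
  have sR : ∑ᶠ w, R w = ∑ w ∈ T, R w := finsum_eq_sum_of_support_subset _ fun w hw => hTR w hw
  have sα : ∑ w ∈ T, C.ord w α = 0 := by
    rw [← C.sum α hc.cert.α0]
    exact (finsum_eq_sum_of_support_subset _ fun w hw => hTα w hw).symm
  have sg : ∑ w ∈ T, C.ord w g = 0 := by
    rw [← C.sum g hc.cert.gne]
    exact (finsum_eq_sum_of_support_subset _ fun w hw => hTg w hw).symm
  obtain ⟨SP, hSP⟩ : ∃ SP, SP = ∑ w ∈ T, P w := ⟨_, rfl⟩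
  obtain ⟨Sμ, hSμ⟩ : ∃ Sμ, Sμ = ∑ w ∈ T, μ w := ⟨_, rfl⟩
  obtain ⟨Sℓ, hSℓ⟩ : ∃ Sℓ, Sℓ = ∑ w ∈ T, ℓ w := ⟨_, rfl⟩
  obtain ⟨Sh, hSh⟩ : ∃ Sh, Sh = ∑ w ∈ T, h w := ⟨_, rfl⟩
  obtain ⟨SR, hSR⟩ : ∃ SR, SR = ∑ w ∈ T, R w := ⟨_, rfl⟩
  have k1 : (m₀ : ℤ) * (Sℓ + Sμ) ≤ (n + 1) * m₀ * SP - e₀ * Sh := by
    have h2 : ∑ w ∈ T, (m₀ : ℤ) * (ℓ w + μ w) ≤
        ∑ w ∈ T, (((n : ℤ) + 1) * m₀ * P w - C.ord w α - e₀ * h w) := by
      refine Finset.sum_le_sum fun w _ => ?_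
      rw [hℓ w]
      exact hineq w
    rw [← Finset.mul_sum, Finset.sum_add_distrib, Finset.sum_sub_distrib, Finset.sum_sub_distrib,
      sα, ← Finset.mul_sum, ← Finset.mul_sum, ← hSP, ← hSμ, ← hSℓ, ← hSh] at h2
    linarith
  have k2 : SP ≤ E₁ * Sh := by
    have h2 : ∑ w ∈ T, P w ≤ ∑ w ∈ T, ((E₁ : ℤ) * h w + C.ord w g) :=
      Finset.sum_le_sum fun w _ => hPh w
    rwa [Finset.sum_add_distrib, sg, add_zero, ← Finset.mul_sum, ← hSP, ← hSh] at h2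
  have k3 : 1 ≤ SP := by
    obtain ⟨w0, hw0⟩ := hpole
    have h2 : 1 ≤ P w0 := by rw [hP w0]; omega
    rw [hSP]
    refine h2.trans (Finset.single_le_sum (fun w _ => hPnn w) (hTP w0 (by omega)))
  have hm0 : (1 : ℤ) ≤ m₀ := by exact_mod_cast hc.cert.m0
  have he0 : (1 : ℤ) ≤ e₀ := by exact_mod_cast hc.cert.e0
  have hE0 : (0 : ℤ) ≤ E₁ := by positivity
  have k4 : 1 ≤ Sh := by
    by_contra h2
    push Not at h2
    have h3 : Sh ≤ 0 := by omega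
    have h4 : (E₁ : ℤ) * Sh ≤ 0 := mul_nonpos_of_nonneg_of_nonpos hE0 h3
    omega
  obtain ⟨a', ha'⟩ : ∃ a', a' = ((n : ℤ) + 1) * SP - Sℓ - Sμ := ⟨_, rfl⟩
  have k5 : (e₀ : ℤ) * Sh ≤ m₀ * a' := by
    rw [ha']
    nlinarith
  have k6 : 1 ≤ a' := by
    by_contra h2
    push Not at h2
    have h3 : a' ≤ 0 := by omega
    have h4 : (m₀ : ℤ) * a' ≤ 0 := mul_nonpos_of_nonneg_of_nonpos (by omega) h3
    have h5 : 0 < (e₀ : ℤ) * Sh := by positivity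
    omega
  have k7 : ((n : ℤ) + 1) * SP < (B + 1) * a' := by
    have h2 : ((n : ℤ) + 1) * m₀ * E₁ < (B + 1) * e₀ := by exact_mod_cast hB
    have h4 : (m₀ : ℤ) * ((n + 1) * SP) ≤ (n + 1) * m₀ * E₁ * Sh := by
      calc (m₀ : ℤ) * ((n + 1) * SP) = (m₀ * (n + 1)) * SP := by ring
        _ ≤ (m₀ * (n + 1)) * (E₁ * Sh) := mul_le_mul_of_nonneg_left k2 (by positivity)
        _ = (n + 1) * m₀ * E₁ * Sh := by ring
    have h5 : ((n : ℤ) + 1) * m₀ * E₁ * Sh < (B + 1) * e₀ * Sh :=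
      mul_lt_mul_of_pos_right h2 (by omega)
    have h6 : ((B : ℤ) + 1) * (e₀ * Sh) ≤ (B + 1) * (m₀ * a') :=
      mul_le_mul_of_nonneg_left k5 (by positivity)
    have h7 : (m₀ : ℤ) * ((n + 1) * SP) < m₀ * ((B + 1) * a') := by
      calc (m₀ : ℤ) * ((n + 1) * SP) < (B + 1) * e₀ * Sh := h4.trans_lt h5
        _ = (B + 1) * (e₀ * Sh) := by ring
        _ ≤ (B + 1) * (m₀ * a') := h6
        _ = m₀ * ((B + 1) * a') := by ring
    exact lt_of_mul_lt_mul_left h7 (by omega)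
  refine ⟨R, ℓ, μ, a', ?_, hR2, ?_, k6, ?_, ?_⟩
  · exact
      { Y0 := hc.cert.y0
        tt0 := hc.cert.tt0
        YF := hc.cert.yF
        gY := hc.cert.g0
        mY := hc.cert.J0
        R0 := hR0
        RP := hRP
        Pfin := hPfin
        YP := fun l w i hi => hyP w l i hi
        YR := fun t ht w i hi => HahnSeries.coeff_eq_zero_of_lt_order (by
          have h2 := hR1 w t ht
          show i < C.ord w (y t)
          omega)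
        Yb := fun w hw => by
          refine ⟨hz, ?_⟩
          have h2 := hP w
          omega
        ℓfin := hℓfin
        hℓ := fun w => ⟨J w, hJ w, (hℓ w).ge⟩
        μ0 := hμ0
        μP := fun w hw => (hP0 w hw).1
        log := fun w hw => by
          obtain ⟨T', μ', -, -, h2, h3, h4, h5, h6⟩ := hT w hw
          exact ⟨T', μ', h2, h3, h4, h5, h6⟩ }
  · exact fun w hw => hT w hw
  · rw [sℓ, sμ, sP, ← hSP, ← hSμ, ← hSℓ, ha']
    linarith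
  · rw [sP, ← hSP]
    exact k7

end Pool.Agent.Lib.MP_410da7_agT
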