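import Pool.Agent.Lib.MP_410da7_agT.SpecE

/-!
# MP_410da7_ag, T2: block E9A, nonexistence of the curves alpha is inherited by specializations
-/

set_option autoImplicit false

namespace Pool.Agent.Lib.MP_410da7_agT

open MvPolynomial

namespace e9AAux

variable {A A' : Type} [CommRing A] [CommRing A'] {M γ : ℕ} {tt : Finset (Fin (M + 1))}

/-- The curve with constant terms `y`. -/
noncomputable def cv (y : Fin (M + 1) → A) (l : Fin (M + 1)) :
    MvPolynomial (Option (Fin (M + 1) ⊕ tt)) A :=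
  C (y l) + X none * X (some (Sum.inl l))

/-- The equations of the curves alpha and of the Bezout coefficients. -/
noncomputable def eqs (y : Fin (M + 1) → A) (Q : Fin γ → MvPolynomial (Fin (M + 1) ⊕ tt) A) :
    Fin γ ⊕ Unit → MvPolynomial (Option (Fin (M + 1) ⊕ tt)) A
  | Sum.inl j => bind₁ (Sum.elim (cv y) fun t : tt => cv y t) (Q j)
  | Sum.inr _ => ∑ t : tt, X (some (Sum.inr t)) * cv y t - 1

theorem cv_map (f : A →+* A') (y : Fin (M + 1) → A) (l : Fin (M + 1)) :
    map f (cv (tt := tt) y l) = cv (fun l => f (y l)) l := by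
  simp only [cv, map_add, map_mul, map_C, map_X]

theorem eqs_map (f : A →+* A') (y : Fin (M + 1) → A)
    (Q : Fin γ → MvPolynomial (Fin (M + 1) ⊕ tt) A) (i : Fin γ ⊕ Unit) :
    map f (eqs y Q i) = eqs (fun l => f (y l)) (fun j => map f (Q j)) i := by
  rcases i with j | _
  · simp only [eqs]
    rw [map_bind₁]
    congr 2
    funext i
    rcases i with i | i
    · exact cv_map f y i
    · exact cv_map f y i
  · simp only [eqs, map_sub, map_sum, map_mul, map_X, map_one, cv_map]

/-- The curve for the values `x` of the unknowns. -/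
noncomputable def yp (f : A →+* A') (y : Fin (M + 1) → A) (x : Fin (M + 1) ⊕ tt → Polynomial A')
    (l : Fin (M + 1)) : Polynomial A' :=
  Polynomial.C (f (y l)) + Polynomial.X * x (Sum.inl l)

theorem cv_eval (f : A →+* A') (y : Fin (M + 1) → A) (x : Fin (M + 1) ⊕ tt → Polynomial A')
    (l : Fin (M + 1)) :
    eval₂Hom (Polynomial.C.comp f) (fun o : Option (Fin (M + 1) ⊕ tt) =>
      o.elim Polynomial.X x) (cv y l) = yp f y x l := by
  simp only [cv, map_add, map_mul, eval₂Hom_C, eval₂Hom_X']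
  rfl

theorem eqs_inl (f : A →+* A') (y : Fin (M + 1) → A)
    (Q : Fin γ → MvPolynomial (Fin (M + 1) ⊕ tt) A) (x : Fin (M + 1) ⊕ tt → Polynomial A')
    (j : Fin γ) :
    eval₂ (Polynomial.C.comp f) (fun o : Option (Fin (M + 1) ⊕ tt) =>
      o.elim Polynomial.X x) (eqs y Q (Sum.inl j)) =
      aeval (Sum.elim (yp f y x) fun t : tt => yp f y x t) (map f (Q j)) := by
  rw [aeval_def, eval₂_map, ← coe_eval₂Hom, ← coe_eval₂Hom]
  simp only [eqs]
  rw [eval₂Hom_bind₁]
  congr 2
  funext i
  rcases i with i | i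
  · exact cv_eval f y x i
  · exact cv_eval f y x i

theorem eqs_inr (f : A →+* A') (y : Fin (M + 1) → A)
    (Q : Fin γ → MvPolynomial (Fin (M + 1) ⊕ tt) A) (x : Fin (M + 1) ⊕ tt → Polynomial A')
    (u : Unit) :
    eval₂ (Polynomial.C.comp f) (fun o : Option (Fin (M + 1) ⊕ tt) =>
      o.elim Polynomial.X x) (eqs y Q (Sum.inr u)) =
      ∑ t : tt, x (Sum.inr t) * yp f y x t - 1 := by
  rw [← coe_eval₂Hom]
  simp only [eqs]
  rw [map_sub, map_sum, map_one]
  congr 1
  refine Finset.sum_congr rfl fun t _ => ?_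
  rw [map_mul, eval₂Hom_X', cv_eval]
  rfl

end e9AAux

open e9AAux

/-- E9A. -/
theorem e9A (hP : PSysStmt) : E9AStmt := by
  classical
  intro Λ _ M γ B tt Q y hy0 hno
  rcases Nat.eq_zero_or_pos B with hB0 | hB0
  · subst hB0
    refine ⟨∅, ?_⟩
    intro R hR QR yR hQR hyR k' _ ε Yp hA
    obtain ⟨l, hl⟩ := hA.moves
    have h1 : ∀ l, Yp l = Polynomial.C (ε (yR l)) := by
      intro l
      have h2 := Polynomial.eq_C_of_natDegree_le_zero (hA.deg l)
      rw [h2, hA.start l]
    have h2 : yR 0 = 1 := Subtype.ext (by rw [hyR 0, hy0]; rfl)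
    apply hl
    rw [h1 l, h1 0, h2, map_one, map_one, mul_one]
  obtain ⟨b, rfl⟩ : ∃ b, B = b + 1 := ⟨B - 1, by omega⟩
  have hsys : ∀ q : Fin (b + 1) × Fin (M + 1), ∃ E : Finset Λ, ∀ (R : Subring Λ),
      (∀ e ∈ E, e ∈ R) → ∀ (QR : Fin γ → MvPolynomial (Fin (M + 1) ⊕ tt) R)
      (yR : Fin (M + 1) → R), (∀ j, map R.subtype (QR j) = Q j) → (∀ l, (yR l : Λ) = y l) →
      ∀ (k' : Type) [Field k'] (ε : R →+* k') (Yp : Fin (M + 1) → Polynomial k')
      (z : Fin (M + 1) → Polynomial k') (c : tt → Polynomial k'),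
      (∀ l, Yp l = Polynomial.C (ε (yR l)) + Polynomial.X * z l) →
      (∀ l, (z l).natDegree ≤ b) → (∀ t, (c t).natDegree ≤ b + 1) →
      (∀ j, aeval (Sum.elim Yp fun t : tt => Yp t) (map ε (QR j)) = 0) →
      ∑ t : tt, c t * Yp t = 1 →
      (Yp q.2 - Polynomial.C (ε (yR q.2)) * Yp 0).coeff ((q.1 : ℕ) + 1) = 0 := by
    intro q
    obtain ⟨E, hE⟩ := hP Λ (Fin (M + 1) ⊕ tt) (Fin γ ⊕ Unit)
      (Sum.elim (fun _ => b) fun _ => b + 1) (eqs y Q) (cv y q.2 - C (y q.2) * cv y 0)
      ((q.1 : ℕ) + 1) (by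
        intro Ω _ _ x hx hx0
        have hx0' : ∀ i, eval₂ (Polynomial.C.comp (algebraMap Λ Ω))
            (fun o : Option (Fin (M + 1) ⊕ tt) => o.elim Polynomial.X x) (eqs y Q i) = 0 :=
          hx0
        have h1 : aeval (fun o : Option (Fin (M + 1) ⊕ tt) => o.elim Polynomial.X x)
            (cv y q.2 - C (y q.2) * cv y 0) =
            yp (algebraMap Λ Ω) y x q.2 -
              Polynomial.C (algebraMap Λ Ω (y q.2)) * yp (algebraMap Λ Ω) y x 0 := by
          have h2 : ∀ p : MvPolynomial (Option (Fin (M + 1) ⊕ tt)) Λ,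
              aeval (fun o : Option (Fin (M + 1) ⊕ tt) => o.elim Polynomial.X x) p =
              eval₂Hom (Polynomial.C.comp (algebraMap Λ Ω))
                (fun o : Option (Fin (M + 1) ⊕ tt) => o.elim Polynomial.X x) p := fun p => rfl
          rw [h2, map_sub, map_mul, cv_eval, cv_eval, eval₂Hom_C]
          rfl
        rw [h1]
        by_contra hne
        refine hno ⟨Ω, inferInstance, inferInstance, yp (algebraMap Λ Ω) y x, ?_, ?_, ?_, ?_, ?_⟩
        · intro j
          have h2 := hx0' (Sum.inl j)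
          rw [eqs_inl] at h2
          exact h2
        · intro l
          refine (Polynomial.natDegree_add_le _ _).trans (max_le ?_ ?_)
          · rw [Polynomial.natDegree_C]
            exact Nat.zero_le _
          · refine Polynomial.natDegree_mul_le.trans ?_
            have h2 : (x (Sum.inl l)).natDegree ≤ b := hx (Sum.inl l)
            have h3 := Polynomial.natDegree_X_le (R := Ω)
            omega
        · intro l
          simp [yp]
        · refine ⟨q.2, fun h0 => hne ?_⟩
          rw [h0, sub_self, Polynomial.coeff_zero]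
        · refine ⟨fun t => x (Sum.inr t), fun t => hx (Sum.inr t), ?_⟩
          have h2 := hx0' (Sum.inr ())
          rw [eqs_inr, sub_eq_zero] at h2
          exact h2)
    refine ⟨E, ?_⟩
    intro R hR QR yR hQR hyR k' _ ε Yp z c hYp hz hc hrel hmiss
    have hyy : (fun l => R.subtype (yR l)) = y := funext hyR
    have h1 := hE R hR (eqs yR QR) (cv yR q.2 - C (yR q.2) * cv yR 0)
      (fun i => by
        rw [eqs_map, hyy]
        congr 1
        funext j
        exact hQR j) (by
        rw [map_sub, map_mul, cv_map, cv_map, map_C, hyy]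
        congr 3
        exact hyR _) k' ε (Sum.elim z c) (by
        rintro (l | t)
        · exact hz l
        · exact hc t) ?_
    · have hYe : Yp = yp ε yR (Sum.elim z c) := funext hYp
      rw [← coe_eval₂Hom, map_sub, map_mul, cv_eval, cv_eval, eval₂Hom_C, ← hYe] at h1
      exact h1
    · have hYe : Yp = yp ε yR (Sum.elim z c) := funext hYp
      rintro (j | u)
      · rw [eqs_inl, ← hYe]
        exact hrel j
      · rw [eqs_inr, ← hYe, sub_eq_zero]
        exact hmiss
  choose E hE using hsys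
  refine ⟨Finset.univ.biUnion E, ?_⟩
  intro R hR QR yR hQR hyR k' _ ε Yp hA
  obtain ⟨l, hl⟩ := hA.moves
  obtain ⟨c, hc, hc1⟩ := hA.miss
  have hz : ∀ l, Yp l = Polynomial.C (ε (yR l)) + Polynomial.X * (Yp l).divX := by
    intro l
    rw [← hA.start l, add_comm]
    exact (Polynomial.X_mul_divX_add (Yp l)).symm
  have hcoef : ∀ (l : Fin (M + 1)) (n : ℕ), n < b + 1 →
      (Yp l - Polynomial.C (ε (yR l)) * Yp 0).coeff (n + 1) = 0 := by
    intro l n hn
    exact hE (⟨n, hn⟩, l) R (fun e he => hR e (Finset.mem_biUnion.2 ⟨_, Finset.mem_univ _, he⟩))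
      QR yR hQR hyR k' ε Yp (fun l => (Yp l).divX) c hz (fun l => by
        rw [Polynomial.natDegree_divX_eq_natDegree_tsub_one]
        have := hA.deg l
        omega) hc hA.rel hc1
  apply hl
  rw [← sub_eq_zero]
  ext n
  rw [Polynomial.coeff_zero]
  rcases n with _ | n
  · have h2 : yR 0 = 1 := Subtype.ext (by rw [hyR 0, hy0]; rfl)
    rw [Polynomial.coeff_sub, Polynomial.coeff_C_mul, hA.start l, hA.start 0, h2, map_one,
      mul_one, sub_self]
  · by_cases hn : n < b + 1
    · exact hcoef l n hn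
    · have h3 : ∀ l, (Yp l).coeff (n + 1) = 0 := fun l =>
        Polynomial.coeff_eq_zero_of_natDegree_lt (by have := hA.deg l; omega)
      rw [Polynomial.coeff_sub, Polynomial.coeff_C_mul, h3, h3, mul_zero, sub_zero]

end Pool.Agent.Lib.MP_410da7_agT
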