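import Pool.Agent.Lib.MP_410da7_agT.SpecE

/-!
# MP_410da7_ag, T2: block E9B, nonexistence of the curves beta is inherited by specializations
-/

set_option autoImplicit false

namespace Pool.Agent.Lib.MP_410da7_agT

open MvPolynomial

namespace e9BAux

variable {A A' : Type} [CommRing A] [CommRing A'] {ι₁ ι₂ : Type} [Fintype ι₁] [Fintype ι₂] {γ : ℕ}

/-- The equations of the curves beta and of the Bezout coefficients. -/
noncomputable def eqs (Q : Fin γ → MvPolynomial (ι₁ ⊕ ι₂) A) :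
    Fin γ ⊕ Bool → MvPolynomial (Option ((ι₁ ⊕ ι₂) ⊕ (ι₁ ⊕ ι₂))) A
  | Sum.inl j => rename (fun i => some (Sum.inl i)) (Q j)
  | Sum.inr true => ∑ l, X (some (Sum.inr (Sum.inl l))) * X (some (Sum.inl (Sum.inl l))) - 1
  | Sum.inr false => ∑ l, X (some (Sum.inr (Sum.inr l))) * X (some (Sum.inl (Sum.inr l))) - 1

theorem eqs_map (f : A →+* A') (Q : Fin γ → MvPolynomial (ι₁ ⊕ ι₂) A) (i : Fin γ ⊕ Bool) :
    map f (eqs Q i) = eqs (fun j => map f (Q j)) i := by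
  rcases i with j | b
  · exact map_rename f _ (Q j)
  · cases b
    · simp only [eqs, map_sub, map_sum, map_mul, map_X, map_one]
    · simp only [eqs, map_sub, map_sum, map_mul, map_X, map_one]

theorem eqs_inl (f : A →+* A') (Q : Fin γ → MvPolynomial (ι₁ ⊕ ι₂) A)
    (x : (ι₁ ⊕ ι₂) ⊕ (ι₁ ⊕ ι₂) → Polynomial A') (j : Fin γ) :
    eval₂ (Polynomial.C.comp f) (fun o : Option ((ι₁ ⊕ ι₂) ⊕ (ι₁ ⊕ ι₂)) =>
      o.elim Polynomial.X x) (eqs Q (Sum.inl j)) =
      aeval (fun i => x (Sum.inl i)) (map f (Q j)) := by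
  rw [aeval_def, eval₂_map]
  simp only [eqs]
  rw [eval₂_rename]
  rfl

theorem eqs_true (f : A →+* A') (Q : Fin γ → MvPolynomial (ι₁ ⊕ ι₂) A)
    (x : (ι₁ ⊕ ι₂) ⊕ (ι₁ ⊕ ι₂) → Polynomial A') :
    eval₂ (Polynomial.C.comp f) (fun o : Option ((ι₁ ⊕ ι₂) ⊕ (ι₁ ⊕ ι₂)) =>
      o.elim Polynomial.X x) (eqs Q (Sum.inr true)) =
      ∑ l, x (Sum.inr (Sum.inl l)) * x (Sum.inl (Sum.inl l)) - 1 := by
  simp only [eqs]
  rw [← coe_eval₂Hom, map_sub, map_sum, map_one]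
  congr 1
  refine Finset.sum_congr rfl fun l _ => ?_
  rw [map_mul, eval₂Hom_X', eval₂Hom_X']
  rfl

theorem eqs_false (f : A →+* A') (Q : Fin γ → MvPolynomial (ι₁ ⊕ ι₂) A)
    (x : (ι₁ ⊕ ι₂) ⊕ (ι₁ ⊕ ι₂) → Polynomial A') :
    eval₂ (Polynomial.C.comp f) (fun o : Option ((ι₁ ⊕ ι₂) ⊕ (ι₁ ⊕ ι₂)) =>
      o.elim Polynomial.X x) (eqs Q (Sum.inr false)) =
      ∑ l, x (Sum.inr (Sum.inr l)) * x (Sum.inl (Sum.inr l)) - 1 := by
  simp only [eqs]
  rw [← coe_eval₂Hom, map_sub, map_sum, map_one]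
  congr 1
  refine Finset.sum_congr rfl fun l _ => ?_
  rw [map_mul, eval₂Hom_X', eval₂Hom_X']
  rfl

end e9BAux

open e9BAux

/-- E9B. -/
theorem e9B (hP : PSysStmt) : E9BStmt := by
  classical
  intro Λ _ ι₁ ι₂ _ _ γ B Q hno
  have hsys : ∀ q : Fin B × ι₂, ∃ E : Finset Λ, ∀ (R : Subring Λ), (∀ e ∈ E, e ∈ R) →
      ∀ (QR : Fin γ → MvPolynomial (ι₁ ⊕ ι₂) R), (∀ j, map R.subtype (QR j) = Q j) →
      ∀ (k' : Type) [Field k'] (ε : R →+* k') (V c : ι₁ → Polynomial k')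
      (U c' : ι₂ → Polynomial k'), (∀ l, (V l).natDegree ≤ (q.1 : ℕ)) →
      (∀ l, (U l).natDegree ≤ (q.1 : ℕ) + 1) → (∀ l, (c l).natDegree ≤ B) →
      (∀ l, (c' l).natDegree ≤ B) → (∀ j, aeval (Sum.elim V U) (map ε (QR j)) = 0) →
      ∑ l, c l * V l = 1 → ∑ l, c' l * U l = 1 → (U q.2).coeff ((q.1 : ℕ) + 1) = 0 := by
    intro q
    obtain ⟨E, hE⟩ := hP Λ ((ι₁ ⊕ ι₂) ⊕ (ι₁ ⊕ ι₂)) (Fin γ ⊕ Bool)
      (Sum.elim (Sum.elim (fun _ => (q.1 : ℕ)) fun _ => (q.1 : ℕ) + 1)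
        (Sum.elim (fun _ => B) fun _ => B)) (eqs Q) (X (some (Sum.inl (Sum.inr q.2))))
      ((q.1 : ℕ) + 1) (by
        intro Ω _ _ x hx hx0
        rw [aeval_X]
        by_contra hne
        have hx0' : ∀ i, eval₂ (Polynomial.C.comp (algebraMap Λ Ω))
            (fun o : Option ((ι₁ ⊕ ι₂) ⊕ (ι₁ ⊕ ι₂)) => o.elim Polynomial.X x) (eqs Q i) = 0 :=
          hx0
        refine hno ⟨Ω, inferInstance, inferInstance, fun l => x (Sum.inl (Sum.inl l)),
          fun l => x (Sum.inl (Sum.inr l)), ?_, ?_, ?_, ?_⟩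
        · intro j
          have h1 := hx0' (Sum.inl j)
          rw [eqs_inl] at h1
          have h2 : (Sum.elim (fun l => x (Sum.inl (Sum.inl l)))
              fun l => x (Sum.inl (Sum.inr l))) = fun i => x (Sum.inl i) := by
            funext i
            cases i <;> rfl
          rw [h2]
          exact h1
        · refine ⟨fun l => x (Sum.inr (Sum.inl l)), fun l => hx (Sum.inr (Sum.inl l)), ?_⟩
          have h1 := hx0' (Sum.inr true)
          rw [eqs_true, sub_eq_zero] at h1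
          exact h1
        · refine ⟨fun l => x (Sum.inr (Sum.inr l)), fun l => hx (Sum.inr (Sum.inr l)), ?_⟩
          have h1 := hx0' (Sum.inr false)
          rw [eqs_false, sub_eq_zero] at h1
          exact h1
        · exact ⟨(q.1 : ℕ) + 1, q.1.2, fun l => Nat.lt_succ_of_le (hx (Sum.inl (Sum.inl l))),
            fun l => hx (Sum.inl (Sum.inr l)), q.2, hne⟩)
    refine ⟨E, ?_⟩
    intro R hR QR hQR k' _ ε V c U c' hV hU hc hc' hrel hcV hcU
    have h1 := hE R hR (eqs QR) (X (some (Sum.inl (Sum.inr q.2))))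
      (fun i => by
        rw [eqs_map]
        congr 1
        funext j
        exact hQR j) (map_X _ _) k' ε
      (Sum.elim (Sum.elim V U) (Sum.elim c c')) (by
        rintro ((l | l) | (l | l))
        · exact hV l
        · exact hU l
        · exact hc l
        · exact hc' l) (by
        rintro (j | b)
        · rw [eqs_inl]
          exact hrel j
        · cases b
          · rw [eqs_false, sub_eq_zero]
            exact hcU
          · rw [eqs_true, sub_eq_zero]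
            exact hcV)
    rw [eval₂_X] at h1
    exact h1
  choose E hE using hsys
  refine ⟨Finset.univ.biUnion E, ?_⟩
  intro R hR QR hQR k' _ ε V U hB
  obtain ⟨c, hc, hcV⟩ := hB.cV
  obtain ⟨c', hc', hcU⟩ := hB.cU
  obtain ⟨e, heB, hV, hU, l₂, hl₂⟩ := hB.deg
  have hne : Nonempty ι₁ := by
    by_contra hemp
    rw [not_nonempty_iff] at hemp
    rw [Finset.univ_eq_empty, Finset.sum_empty] at hcV
    exact zero_ne_one hcV
  obtain ⟨l₁⟩ := hne
  obtain ⟨e', rfl⟩ : ∃ e', e = e' + 1 := ⟨e - 1, by have := hV l₁; omega⟩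
  exact hl₂ (hE (⟨e', heB⟩, l₂) R (fun x hx => hR x (Finset.mem_biUnion.2
    ⟨_, Finset.mem_univ _, hx⟩)) QR hQR k' ε V c U c' (fun l => Nat.le_of_lt_succ (hV l)) hU hc hc'
    hB.rel hcV hcU)

end Pool.Agent.Lib.MP_410da7_agT
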