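import Pool.Agent.Lib.MP_410da7_agT.SpecE
import Pool.Agent.Lib.MP_410da7_agB.SpecF
import Pool.Agent.Lib.MP_410da7_agA.E9
import Pool.Agent.Lib.MP_410da7_agA.F1
import Pool.Agent.Lib.MP_410da7_agA.F2
import Pool.Agent.Lib.MP_410da7_agA.E1
import Pool.Agent.Lib.MP_410da7_agA.E2
import Pool.Agent.Lib.MP_410da7_agA.E3
import Pool.Agent.Lib.MP_410da7_agA.E4
import Pool.Agent.Lib.MP_410da7_agA.E5
import Pool.Agent.Lib.MP_410da7_agA.FF1
import Pool.Agent.Lib.MP_410da7_agA.FF2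
import Pool.Agent.Lib.MP_410da7_agA.FF3
import Pool.Agent.Lib.MP_410da7_agA.FF4
import Pool.Agent.Lib.MP_410da7_agA.FF5
import Pool.Agent.Lib.MP_410da7_agA.FF6
import Pool.Agent.Lib.MP_410da7_agA.FF7
import Pool.Agent.Lib.MP_410da7_agA.FF8
import Pool.Agent.Lib.MP_410da7_agA.FF9
import Pool.Agent.Lib.MP_410da7_agA.FF10

/-!
# MP_410da7_ag, T2 (C46 without nefness), EFGT: the end theorem of the blocks E, F, G
-/

set_option autoImplicit false

namespace Pool.Agent.Lib.MP_410da7_agT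

open Pool.Agent.Lib.MP_410da7_agA Pool.Agent.Lib.MP_410da7_agB
open MvPolynomial Module

namespace efgtAux

variable {L Λ k Λ' : Type} [Field L] [Field Λ] [Algebra L Λ] [Field k] [Field Λ'] [Algebra k Λ']

theorem in_of_cl (s : Spz L Λ k Λ') {Q : ℕ} {CL : Finset L} {E : Finset Λ} (hOk : s.Ok Q CL E)
    {V : Type} (G : MvPolynomial V L) (h : ∀ m ∈ G.support, coeff m G ∈ CL) : s.In G := by
  intro m
  by_cases hm : m ∈ G.support
  · exact (hOk.hC _ (h m hm)).1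
  · rw [notMem_support_iff.1 hm]
    exact s.A.zero_mem

theorem biH_red (s : Spz L Λ k Λ') {ι₁ ι₂ : Type} {G : MvPolynomial (ι₁ ⊕ ι₂) L} {d : ℕ × ℕ}
    (h : BiH G d) : BiH (s.red G) d := by
  intro m hm
  refine h fun h0 => hm ?_
  rw [e5Aux.coeff_red, h0, e5Aux.c_zero]

/-- The relations are inherited. -/
theorem span_red (s : Spz L Λ k Λ') {M κ N : ℕ} {ι : Type} (f : ι → Fin (M + 1))
    (F : Fin κ → MvPolynomial (Fin (M + 1)) L) (F' : Fin κ → MvPolynomial (Fin (M + 1)) k)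
    (hF : ∀ i, s.In (F i)) (hF' : ∀ i, F' i = s.red (F i)) (G : MvPolynomial ι L) (hG : s.In G)
    (W : Fin κ → MvPolynomial (Fin (M + 1)) L) (hW : ∀ i, s.In (W i))
    (h : ∑ i, W i * F i = X 0 ^ N * rename f G) :
    X 0 ^ N * rename f (s.red G) ∈ Ideal.span (Set.range F') := by
  choose FA hFA using fun i => e5Aux.lift_In s (hF i)
  choose WA hWA using fun i => e5Aux.lift_In s (hW i)
  obtain ⟨GA, hGA⟩ := e5Aux.lift_In s hG
  have hinj : Function.Injective (map (σ := Fin (M + 1)) s.A.subtype) :=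
    map_injective _ Subtype.val_injective
  have h1 : ∑ i, WA i * FA i = X 0 ^ N * rename f GA := by
    apply hinj
    rw [map_sum, map_mul, map_pow, map_X, map_rename, ← hGA, ← h]
    refine Finset.sum_congr rfl fun i _ => ?_
    rw [map_mul, ← hWA, ← hFA]
  rw [Ideal.mem_span_range_iff_exists_fun]
  refine ⟨fun i => map s.χ (WA i), ?_⟩
  have h2 := congrArg (map s.χ) h1
  rw [map_sum, map_mul, map_pow, map_X, map_rename] at h2
  rw [hGA, e5Aux.red_map, ← h2]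
  refine Finset.sum_congr rfl fun i _ => ?_
  rw [map_mul, hF' i, hFA i, e5Aux.red_map]

end efgtAux

open efgAux efgtAux

theorem eFGT (he3n : E3NStmt) (he8t : E8TStmt) (he9a : E9AStmt) (he9b : E9BStmt)
    (hfg16t : FG16TStmt) : EFGTStmt := by
  have hff5 : FF5Stmt := ff5 ff2 ff3 ff4
  have hff7 : FF7Stmt := ff7 f1
  have hff10 : FF10Stmt := ff10 f2 ff8 (ff9 f2 ff6)
  have he4 : E4Stmt := e4 e1 e2 e3
  intro L Λ _ _ _ _ M κ r d n m₀ e₀ E₁ E₂ B S tt y b₀ α g hc hB γ Q dQ hQ hspan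
  classical
  by_contra hno
  -- E9A, E9B
  obtain ⟨EA, hEA⟩ := he9a Λ M γ B tt (fun j => map (algebraMap L Λ) (Q j)) y hc.y0 (by
    rintro ⟨Ω, iF, iA, Yp, hYp⟩
    exact hno ⟨Ω, iF, iA, Or.inl ⟨Yp, hYp⟩⟩)
  obtain ⟨EB, hEB⟩ := he9b Λ (Fin (M + 1)) tt γ B (fun j => map (algebraMap L Λ) (Q j)) (by
    rintro ⟨Ω, iF, iA, V, U, h⟩
    exact hno ⟨Ω, iF, iA, Or.inr ⟨V, U, h⟩⟩)
  -- the coefficients
  choose N hN using hspan
  have hN' : ∀ j, ∃ W : Fin κ → MvPolynomial (Fin (M + 1)) L,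
      ∑ i, W i * S.F i = X 0 ^ N j * rename (Sum.elim id Subtype.val) (Q j) := fun j =>
    Ideal.mem_span_range_iff_exists_fun.1 (hN j)
  choose W hW using hN'
  obtain ⟨CQ, hCQ⟩ : ∃ CQ : Finset L, ∀ j, ∀ m ∈ (Q j).support, coeff m (Q j) ∈ CQ :=
    ⟨Finset.univ.biUnion fun j => (Q j).support.image fun m => coeff m (Q j), fun j m hm =>
      Finset.mem_biUnion.2 ⟨j, Finset.mem_univ _, Finset.mem_image_of_mem _ hm⟩⟩
  obtain ⟨CW, hCW⟩ : ∃ CW : Finset L, ∀ j i, ∀ m ∈ (W j i).support, coeff m (W j i) ∈ CW :=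
    ⟨Finset.univ.biUnion fun j => Finset.univ.biUnion fun i =>
      (W j i).support.image fun m => coeff m (W j i), fun j i m hm =>
      Finset.mem_biUnion.2 ⟨j, Finset.mem_univ _,
        Finset.mem_biUnion.2 ⟨i, Finset.mem_univ _, Finset.mem_image_of_mem _ hm⟩⟩⟩
  -- E3N, E4
  obtain ⟨CL, E, hyE, hFC, hE⟩ := he3n L Λ M κ r d n m₀ e₀ E₁ E₂ S tt y b₀ α g hc
  obtain ⟨E', hE'def⟩ : ∃ E' : Finset Λ, E' = EA ∪ EB := ⟨_, rfl⟩
  obtain ⟨p, e, hp, k, Λ', i1, i2, i3, i4, i5, s, he, hOk, -, htr, hfd⟩ :=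
    he4 L Λ (y b₀) hc.trans hc.fin (CL ∪ (CQ ∪ CW)) (E ∪ E')
  have hOk' : s.Ok (p ^ e) CL E :=
    ⟨fun a ha => hOk.hC a (Finset.mem_union_left _ ha),
      fun u hu => hOk.hE u (Finset.mem_union_left _ hu), hOk.frob⟩
  obtain ⟨S', hS', hcQ⟩ := hE k Λ' s (p ^ e) hOk' htr hfd
  have hInF : ∀ i, s.In (S.F i) := fun i => in_of_cl s hOk _ fun m hm =>
    Finset.mem_union_left _ (hFC i m hm)
  have hInQ : ∀ j, s.In (Q j) := fun j => in_of_cl s hOk _ fun m hm =>
    Finset.mem_union_right _ (Finset.mem_union_left _ (hCQ j m hm))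
  have hInW : ∀ j i, s.In (W j i) := fun j i => in_of_cl s hOk _ fun m hm =>
    Finset.mem_union_right _ (Finset.mem_union_right _ (hCW j i m hm))
  -- the curve
  obtain ⟨x, hx⟩ := ff1 k Λ' (s.v (y b₀)) htr hfd
  obtain ⟨C, hC⟩ := hff5 k Λ' x hx
  obtain ⟨hinf, hpole⟩ := hff7 k Λ' C hC x hx
  obtain ⟨P, hP⟩ : ∃ P : C.pt → ℤ, P = fun w => max 0 (-(C.ord w (s.v (y b₀)))) := ⟨_, rfl⟩
  obtain ⟨R, ℓ, μ, a', hPt, hRat, hlog, ha', hsum, hlt⟩ := he8t k Λ' C (p ^ e) M κ r d n m₀ e₀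
    E₁ E₂ B S' tt (fun l => s.v (y l)) b₀ (s.v α) (s.v g) hcQ hB (hpole _ htr) P
    (fun w => by rw [hP])
  obtain ⟨c', hc'⟩ := hff10 k Λ' C hC x hx
  -- the set of good points
  obtain ⟨U, hU⟩ : ∃ U : Set C.pt, U = {w | P w = 0 ∧ ∀ u ∈ E ∪ E', 0 ≤ C.ord w (s.v u)} :=
    ⟨_, rfl⟩
  have hUinf : U.Infinite := by
    have hfin : Uᶜ.Finite := by
      have h10 : ({w | P w ≠ 0} ∪ ⋃ u ∈ (E ∪ E' : Finset Λ),
          {w | C.ord w (s.v u) ≠ 0}).Finite := by
        refine hPt.Pfin.union (Set.Finite.biUnion (Finset.finite_toSet _) fun u _ => ?_)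
        by_cases hu : s.v u = 0
        · have h11 : {w | C.ord w (s.v u) ≠ 0} = ∅ := by
            ext w
            simp [hu, Curve.ord]
          rw [h11]
          exact Set.finite_empty
        · exact C.finite _ hu
      refine h10.subset fun w hw => ?_
      rw [hU, Set.mem_compl_iff, Set.mem_ofPred_eq] at hw
      by_cases hw0 : P w = 0
      · right
        by_contra h11
        apply hw
        refine ⟨hw0, fun u hu => ?_⟩
        by_contra h12
        apply h11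
        rw [Set.mem_iUnion₂]
        exact ⟨u, hu, fun h13 => h12 h13.ge⟩
      · left
        exact hw0
    intro hUf
    exact Set.infinite_univ (α := C.pt) (by
      rw [← Set.union_compl_self U]
      exact hUf.union hfin)
  obtain ⟨m, w, hwU, k', i6, i7, hAB⟩ := hfg16t k Λ' p e C M κ r d n
    S' tt (fun l => s.v (y l)) P R ℓ μ b₀ hc.dimM he hcQ.F_fix hcQ.g_fix hPt hRat hlog a' c' B
    ha' hsum hlt
    (by
      intro m
      have h10 := hc' ((m : ℤ) • P) (hPt.Pfin.subset fun w hw h0 => hw (by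
        change (m : ℤ) • P w = 0
        rw [h0, smul_zero]))
      have h11 : ∑ᶠ w, ((m : ℤ) • P) w = (m : ℤ) * ∑ᶠ w, P w := by
        rw [mul_finsum]
        rfl
      rwa [h11] at h10)
    γ (fun j => s.red (Q j)) dQ (fun j => biH_red s (hQ j))
    (fun j => ⟨N j, span_red s _ S.F S'.F hInF hS' (Q j) (hInQ j) (W j) (hInW j) (hW j)⟩)
    U hUinf (fun w hw => by rw [hU] at hw; exact hw.1)
  rw [hU] at hwU
  obtain ⟨-, hwU⟩ := hwU
  -- the homomorphism
  obtain ⟨ε, hε⟩ : ∃ ε : rr s C w →+* k', ∀ u : rr s C w,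
      ε u = algebraMap k k' ((C.exp w (s.v u)).coeff 0 ^ (p ^ e) ^ m) := by
    refine ⟨(algebraMap k k').comp
      ((iterateFrobenius k p (e * m)).comp ((vh C w).comp (rh s C w))), fun u => ?_⟩
    rw [← pow_mul]
    rfl
  have hmem : ∀ u ∈ E ∪ E', u ∈ rr s C w := fun u hu =>
    ⟨(hOk.hE u hu).1, mem_vr_of_ord C w (hwU u hu)⟩
  -- the polynomials over `rr`
  choose QA hQA using fun j => e5Aux.lift_In s (hInQ j)
  have hθmem : ∀ a : s.A, algebraMap L Λ a ∈ rr s C w := fun a => by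
    refine ⟨s.incl a, ?_⟩
    rw [v_alg s a.2]
    exact alg_mem_vr C w _
  obtain ⟨θ, hθ⟩ : ∃ θ : s.A →+* rr s C w, ∀ a, ((θ a : rr s C w) : Λ) = algebraMap L Λ a :=
    ⟨((algebraMap L Λ).comp s.A.subtype).codRestrict (rr s C w) hθmem, fun _ => rfl⟩
  have hθ1 : (rr s C w).subtype.comp θ = (algebraMap L Λ).comp s.A.subtype := RingHom.ext hθ
  have hθ2 : ε.comp θ = (algebraMap k k').comp s.χ := by
    ext a
    rw [RingHom.comp_apply, RingHom.comp_apply, hε, hθ, v_alg s a.2, cf_alg,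
      pow_fix (hOk.frob _ a.2), e5Aux.c_coe]
  have hQR : ∀ j, map (rr s C w).subtype (map θ (QA j)) = map (algebraMap L Λ) (Q j) := by
    intro j
    rw [map_map, hθ1, ← map_map, ← hQA j]
  have hQε : (fun j => map ε (map θ (QA j))) = fun j => map (algebraMap k k') (s.red (Q j)) := by
    funext j
    rw [map_map, hθ2, ← map_map, hQA j, e5Aux.red_map]
  rcases hAB with ⟨Yp, hYp⟩ | ⟨V, U', hVU⟩
  · refine hEA (rr s C w) (fun u hu => hmem u (Finset.mem_union_right _ (by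
      rw [hE'def]
      exact Finset.mem_union_left _ hu))) (fun j => map θ (QA j))
      (fun l => ⟨y l, hmem _ (Finset.mem_union_left _ (hyE l))⟩) hQR (fun l => rfl) k' ε Yp ?_
    rw [hQε]
    have h1 : (fun l => ε ⟨y l, hmem _ (Finset.mem_union_left _ (hyE l))⟩) =
        fun l => algebraMap k k' (C.cf w 0 (s.v (y l)) ^ (p ^ e) ^ m) := by
      funext l
      rw [hε]
      rfl
    rw [h1]
    exact hYp
  · refine hEB (rr s C w) (fun u hu => hmem u (Finset.mem_union_right _ (by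
      rw [hE'def]
      exact Finset.mem_union_right _ hu))) (fun j => map θ (QA j)) hQR k' ε V U' ?_
    rw [hQε]
    exact hVU

end Pool.Agent.Lib.MP_410da7_agT
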