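import Pool.Agent.Lib.MP_410da7_agT.SpecE
import Pool.Agent.Lib.MP_410da7_agA.FG16
import Pool.Agent.Lib.MP_410da7_agA.FG15

/-!
# MP_410da7_ag, T2: FG16T

The theorem in characteristic `p`. The proof of `fG16L`.
-/

set_option autoImplicit false

namespace Pool.Agent.Lib.MP_410da7_agT

open Pool.Agent.Lib.MP_410da7_agA Pool.Agent.Lib.MP_410da7_agB
open MvPolynomial Module

open EvW fG16Aux in
theorem fG16T (hf4 : F4Stmt) (hf14n : F14NStmt) (hfg15n : FG15NStmt) (hgt7 : GT7Stmt) :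
    FG16TStmt := by
  classical
  intro k Λ _ _ _ _ p e₀ hpp _ C M κ r d n S tt y P R ℓ μ b₀ hM he hSF hSg hD hRatt hlog a' γ B ha
    hsum hlt hγ γQ Q dQ hQ hQF U hU hUP
  have hQ' : 2 ≤ p ^ e₀ := by
    calc 2 ≤ p := hpp.out.two_le
      _ = p ^ 1 := (pow_one p).symm
      _ ≤ p ^ e₀ := Nat.pow_le_pow_right hpp.out.pos he
  obtain ⟨m, b, hb, hb1, hb2⟩ := numbers n B a' γ (∑ᶠ w, P w) (p ^ e₀) hQ' ha hlt
  have hcast : ((p ^ e₀) ^ m : ℤ) = (((p ^ e₀) ^ m : ℕ) : ℤ) := by push_cast; rfl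
  set q : ℕ := (p ^ e₀) ^ m with hq
  have hq0 : 0 < q := pow_pos (pow_pos hpp.out.pos _) _
  have hD' := hfg15n k Λ p e₀ C M κ r d S tt y P R ℓ μ b₀ m he hSF hSg hD hlog
  rw [hcast] at hD'
  -- the points
  let c : Fin b → C.pt := fun i => (hU.natEmbedding U i : C.pt)
  have hcU : ∀ i, c i ∈ U := fun i => (hU.natEmbedding U i).2
  have hc : Function.Injective c := by
    intro i j h
    exact Fin.ext ((hU.natEmbedding U).injective (Subtype.ext h))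
  have hqPc : ∀ i, ((q : ℤ) • P) (c i) = 0 := fun i => by
    rw [Pi.smul_apply, hUP _ (hcU i), smul_zero]
  -- finite dimension
  have hfdq : FiniteDimensional k (C.L ((q : ℤ) • P)) := by
    refine f2 k Λ C (c ⟨0, hb⟩) _ (hD'.Pfin.subset fun w hw => ?_)
    exact ne_of_gt hw
  have hfd : FiniteDimensional k (C.L ((q : ℤ) • P - ptDiv c)) :=
    Submodule.finiteDimensional_of_le (L_sub_le C _ c)
  have hdim := hf4 k Λ C ((q : ℤ) • P) hfdq b c hc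
  set D := finrank k (C.L ((q : ℤ) • P - ptDiv c)) with hDdef
  let bas := finBasis k (C.L ((q : ℤ) • P - ptDiv c))
  let ω : Fin D → Λ := fun j => (bas j : Λ)
  have hω : LinearIndependent k ω :=
    bas.linearIndependent.map' (Submodule.subtype _) (Submodule.ker_subtype _)
  have hωspan : Submodule.span k (Set.range ω) = C.L ((q : ℤ) • P - ptDiv c) := by
    have h1 : Set.range ω = (C.L ((q : ℤ) • P - ptDiv c)).subtype '' Set.range bas := by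
      rw [← Set.range_comp]
      rfl
    rw [h1, Submodule.span_image, bas.span_eq, Submodule.map_top, Submodule.range_subtype]
  -- the sums
  have hsP : ∑ᶠ w, ((q : ℤ) • P) w = q * ∑ᶠ w, P w := (mul_finsum _ _).symm
  have hsR : ∑ᶠ w, ((q : ℤ) • R) w = q * ∑ᶠ w, R w := (mul_finsum _ _).symm
  have hsℓ : ∑ᶠ w, ((q : ℤ) • ℓ) w = q * ∑ᶠ w, ℓ w := (mul_finsum _ _).symm
  have hsμ : ∑ᶠ w, ((q : ℤ) • μ) w = q * ∑ᶠ w, μ w :=
    (mul_finsum _ _).symm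
  have hcount : ∑ᶠ w, ((q : ℤ) • ℓ) w + ∑ᶠ w, ((q : ℤ) • μ) w < (n + 1) * D := by
    rw [hsℓ, hsμ]
    have h1 : (q : ℤ) * ∑ᶠ w, P w ≤ D + b + γ := by
      have h2 := hγ q
      have h3 : (finrank k (C.L ((q : ℤ) • P)) : ℤ) ≤ D + b := by exact_mod_cast hdim
      linarith
    have h4 : (q : ℤ) * (∑ᶠ w, ℓ w + ∑ᶠ w, μ w + a') ≤ q * ((n + 1) * ∑ᶠ w, P w) :=
      mul_le_mul_of_nonneg_left hsum (by positivity)
    have h5 : ((n : ℤ) + 1) * (q * ∑ᶠ w, P w) ≤ (n + 1) * (D + b + γ) :=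
      mul_le_mul_of_nonneg_left h1 (by positivity)
    nlinarith
  obtain ⟨𝔓, p1, p2, p3, p4, p5⟩ := hf14n k Λ C M κ r d b D n S tt _ _ _ _ _ b₀ hD' c hc hb hqPc
    ω hω hωspan hM hcount
  have hineq : ∑ᶠ w, ((q : ℤ) • P) w < (B + 1) * b := by
    rw [hsP]
    exact hb2
  have hatt : ∀ w, 0 < ((q : ℤ) • R) w → ∃ t ∈ tt, C.ord w (y t ^ q) = - ((q : ℤ) • R) w := by
    intro w _
    obtain ⟨t, ht, hRt⟩ := hRatt w
    refine ⟨t, ht, ?_⟩
    rw [fG15Aux.ord_pow, Pi.smul_apply, smul_eq_mul, ← hRt]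
    ring
  obtain ⟨i, hdich⟩ := hgt7 k Λ C M κ D b B γQ S.F tt hD'.tt0 Q dQ hQ hQF
    _ hD'.Y0 ((q : ℤ) • P) ((q : ℤ) • R) hD'.R0 hD'.RP hD'.Pfin hD'.YP hD'.YR hatt c hc hqPc
    hineq ω hω
    (fun j => by
      rw [← hωspan]
      exact Submodule.subset_span ⟨j, rfl⟩) 𝔓 p1 p2 p3 p4 p5
  have hreg : ∀ l, ∀ i' < 0, C.cf (c i) i' (y l) = 0 := by
    intro l i' hi'
    apply hD.YP l (c i) i'
    rw [hUP _ (hcU i), neg_zero]
    exact hi'
  refine ⟨m, c i, hcU i, ?_⟩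
  have hfun : (fun l => C.cf (c i) 0 (y l) ^ (p ^ e₀) ^ m) =
      fun l => C.cf (c i) 0 (y l ^ (p ^ e₀) ^ m) := by
    funext l
    rw [← hq, cf_pow C (c i) (y l) (hreg l)]
  rw [hfun]
  exact hdich

end Pool.Agent.Lib.MP_410da7_agT
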