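import Pool.Agent.Lib.MP_410da7_agT.BiHom
import Pool.Agent.Lib.MP_410da7_agA.D5
import Pool.Agent.Lib.MP_410da7_agA.NG3
import Mathlib.Algebra.Group.Pointwise.Set.ListOfFn

/-!
# MP_410da7_ag, T2: a nef divisor is nonnegative on the rational curves

`f : ℙ¹ → Xbar` a morphism with the homogeneous coordinates `(V; U)`, of degree `a` with respect to `A` and
`u` with respect to `d₀ A - H`. If `u > d₀ a` then the line bundle `f^* (e (κ H + A))` of degree
`e (κ (d₀ a - u) + a)` has no sections for `κ > a`, so that `e (κ H + A)` is not generated by its sections.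
-/

set_option autoImplicit false

namespace Pool.Agent.Lib.MP_410da7_agT

open Pool.Agent.Lib.MP_410da7_agA Pool.Agent.Lib.MP_410da7_agB
open MvPolynomial

namespace nefRat

variable {K : Type} [Field K] [Algebra ℂ K] {M s : ℕ}

/-- The function `g` is a quotient of forms `P/Q`, `deg P = deg Q + E`. -/
structure Rep (Y : Fin (M + 1) → K) (g : K) (E : ℕ) (P Q : MvPolynomial (Fin (M + 1)) ℂ)
    (q : ℕ) : Prop where
  hP : P.IsHomogeneous (q + E)
  hQ : Q.IsHomogeneous q
  eq : aeval Y P = g * aeval Y Q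

theorem eval_hom {b : Fin (M + 1)} {c : Fin (M + 1) → ℂ} (hc : c b ≠ 0) {e : ℕ}
    {P : MvPolynomial (Fin (M + 1)) ℂ} (hP : P.totalDegree ≤ e) :
    eval c (hom b e P) = c b ^ e * eval (fun l => c l / c b) P :=
  (d5 ℂ ℂ M b e P hP).2 c hc

theorem isPoint {Y : Fin (M + 1) → K} {c : Fin (M + 1) → ℂ} {b : Fin (M + 1)} (hc : c b ≠ 0)
    (hrel : ∀ (d : ℕ) (P : MvPolynomial (Fin (M + 1)) ℂ), P.IsHomogeneous d → aeval Y P = 0 →
      eval c P = 0) : IsPoint Y b fun l => c l / c b := by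
  have hYb : Y b ≠ 0 := by
    intro h0
    have h1 := hrel 1 (X b) (isHomogeneous_X ℂ b) (by rw [aeval_X, h0])
    rw [eval_X] at h1
    exact hc h1
  refine ⟨hYb, fun P hP => ?_⟩
  obtain ⟨h1, h2⟩ := d5 ℂ K M b P.totalDegree P le_rfl
  have h3 := hrel _ _ h1 (by
    rw [h2 Y hYb]
    have h4 : aeval (aff Y b) P = 0 := hP
    rw [h4, mul_zero])
  rw [eval_hom hc le_rfl] at h3
  exact (mul_eq_zero.1 h3).resolve_left (pow_ne_zero _ hc)

/-- Elements of `O_p Y_b^E`. -/
theorem exists_rep {Y : Fin (M + 1) → K} {b : Fin (M + 1)} {c : Fin (M + 1) → ℂ} (hc : c b ≠ 0)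
    (hYb : Y b ≠ 0) {g : K} {E : ℕ}
    (hg : g ∈ Submodule.span (pointRing Y b fun l => c l / c b) {Y b ^ E}) :
    ∃ P Q q, Rep Y g E P Q q ∧ eval c Q ≠ 0 := by
  obtain ⟨⟨o, ho⟩, hog⟩ := Submodule.mem_span_singleton.1 hg
  obtain ⟨P₀, Q₀, hQ₀, h1⟩ := ho
  have hog' : o * Y b ^ E = g := hog
  have hd := d5 ℂ K M b
  let q := max P₀.totalDegree Q₀.totalDegree
  obtain ⟨h2, h3⟩ := hd q P₀ (le_max_left _ _)
  obtain ⟨h4, h5⟩ := hd q Q₀ (le_max_right _ _)
  refine ⟨hom b q P₀ * X b ^ E, hom b q Q₀, q, ⟨?_, h4, ?_⟩, ?_⟩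
  · have h6 : ((X b : MvPolynomial (Fin (M + 1)) ℂ) ^ E).IsHomogeneous E := by
      simpa using (isHomogeneous_X ℂ b).pow E
    exact h2.mul h6
  · rw [map_mul, map_pow, aeval_X, h3 Y hYb, h5 Y hYb, ← hog']
    have h6 : o * aeval (aff Y b) Q₀ = aeval (aff Y b) P₀ := h1
    rw [← h6]
    ring
  · rw [eval_hom hc (le_max_right _ _)]
    exact mul_ne_zero (pow_ne_zero _ hc) hQ₀

/-- The values at infinity of a form at polynomials. -/
theorem coeff_top {a : ℕ} {V : Fin (M + 1) → Polynomial ℂ} (hV : ∀ l, (V l).natDegree ≤ a)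
    {q : ℕ} {P : MvPolynomial (Fin (M + 1)) ℂ} (hP : P.IsHomogeneous q) :
    (aeval V P).natDegree ≤ a * q ∧ (aeval V P).coeff (a * q) = eval (fun l => (V l).coeff a) P := by
  have hmon : ∀ m : Fin (M + 1) →₀ ℕ, (∏ l, V l ^ m l).natDegree ≤ a * m.degree ∧
      (∏ l, V l ^ m l).coeff (a * m.degree) = ∏ l, (V l).coeff a ^ m l := by
    intro m
    have h1 : ∀ S : Finset (Fin (M + 1)), (∏ l ∈ S, V l ^ m l).natDegree ≤ a * ∑ l ∈ S, m l ∧
        (∏ l ∈ S, V l ^ m l).coeff (a * ∑ l ∈ S, m l) = ∏ l ∈ S, (V l).coeff a ^ m l := by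
      classical
      intro S
      induction S using Finset.induction_on with
      | empty => simp
      | insert l S hl ih =>
        rw [Finset.prod_insert hl, Finset.sum_insert hl, Finset.prod_insert hl, mul_add]
        have h2 : (V l ^ m l).natDegree ≤ a * m l := by
          rw [mul_comm]
          exact Polynomial.natDegree_pow_le_of_le _ (hV l)
        refine ⟨Polynomial.natDegree_mul_le_of_le h2 ih.1, ?_⟩
        rw [Polynomial.coeff_mul_add_eq_of_natDegree_le h2 ih.1, ih.2]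
        congr 1
        rw [mul_comm a]
        exact Polynomial.coeff_pow_of_natDegree_le (hV l)
    have h2 := h1 Finset.univ
    rw [← Finsupp.degree_eq_sum] at h2
    exact h2
  have hexp : aeval V P = ∑ m ∈ P.support, Polynomial.C (coeff m P) * ∏ l, V l ^ m l := by
    rw [aeval_def, eval₂_eq']
    rfl
  constructor
  · rw [hexp]
    refine Polynomial.natDegree_sum_le_of_forall_le _ _ fun m hm => ?_
    have h1 : m.degree = q := biHom.degree_eq hP (mem_support_iff.1 hm)
    refine (Polynomial.natDegree_C_mul_le _ _).trans ?_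
    rw [← h1]
    exact (hmon m).1
  · rw [hexp, Polynomial.finsetSum_coeff, eval_eq']
    refine Finset.sum_congr rfl fun m hm => ?_
    have h1 : m.degree = q := biHom.degree_eq hP (mem_support_iff.1 hm)
    rw [Polynomial.coeff_C_mul, ← h1, (hmon m).2]

theorem eval_aeval (V : Fin (M + 1) → Polynomial ℂ) (P : MvPolynomial (Fin (M + 1)) ℂ) (z : ℂ) :
    (aeval V P).eval z = eval (fun l => (V l).eval z) P := by
  have h1 := MvPolynomial.comp_aeval_apply (R := ℂ) (Polynomial.aeval (R := ℂ) z) (f := V) P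
  have h2 : ∀ q : Polynomial ℂ, Polynomial.aeval (R := ℂ) z q = q.eval z := fun q => by
    rw [Polynomial.coe_aeval_eq_eval]
  rw [h2] at h1
  rw [h1]
  have h3 : (fun l => Polynomial.aeval (R := ℂ) z (V l)) = fun l => (V l).eval z :=
    funext fun l => h2 _
  rw [h3]
  rfl

section

variable {Y : Fin (M + 1) → K} {G : Fin (s + 1) → MvPolynomial (Fin (M + 1)) ℂ}
  {V : Fin (M + 1) → Polynomial ℂ} {U : Fin (s + 1) → Polynomial ℂ}

theorem rel_V (hR : RatCurve ℂ Y G V U) {d : ℕ} {P : MvPolynomial (Fin (M + 1)) ℂ}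
    (hP : P.IsHomogeneous d) (h0 : aeval Y P = 0) : aeval V P = 0 := by
  have h1 := hR.rel (d, 0) _ (biHom.biH_inl hP) (by
    rw [aeval_rename]
    exact h0)
  rw [aeval_rename] at h1
  exact h1

/-- Comparison of two representations. -/
theorem compare (hR : RatCurve ℂ Y G V U) {N E : ℕ} {g : K} {α β : Fin N → Fin (s + 1)}
    {P Q P' Q' : MvPolynomial (Fin (M + 1)) ℂ} {q q' : ℕ}
    (h : Rep Y (g * ∏ k, aeval Y (G (α k))) E P Q q)
    (h' : Rep Y (g * ∏ k, aeval Y (G (β k))) E P' Q' q') :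
    aeval V P * aeval V Q' * ∏ k, U (β k) = aeval V P' * aeval V Q * ∏ k, U (α k) := by
  have hb : ∀ γ : Fin N → Fin (s + 1), BiH (∏ k, (X (Sum.inr (γ k)) :
      MvPolynomial (Fin (M + 1) ⊕ Fin (s + 1)) ℂ)) (0, N) := by
    intro γ
    have h1 := IsWeightedHomogeneous.prod (R := ℂ) (w := wt2 (ι₁ := Fin (M + 1)) (ι₂ := Fin (s + 1)))
      Finset.univ (fun k : Fin N => X (Sum.inr (γ k))) (fun _ => ((0, 1) : ℕ × ℕ))
      fun k _ => biHom.biH_Xr _
    rw [Finset.sum_const, Finset.card_univ, Fintype.card_fin] at h1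
    simpa using h1
  have h1 : BiH (rename Sum.inl (P * Q') * ∏ k, X (Sum.inr (β k)) -
      rename Sum.inl (P' * Q) * ∏ k, (X (Sum.inr (α k)) :
        MvPolynomial (Fin (M + 1) ⊕ Fin (s + 1)) ℂ)) (q + E + q', N) := by
    have h2 := (biHom.biH_inl (ι₂ := Fin (s + 1)) (h.hP.mul h'.hQ)).mul (hb β)
    have h3 := (biHom.biH_inl (ι₂ := Fin (s + 1)) (h'.hP.mul h.hQ)).mul (hb α)
    have e2 : ((q + E + q', 0) : ℕ × ℕ) + (0, N) = (q + E + q', N) := by simp
    have e3 : ((q' + E + q, 0) : ℕ × ℕ) + (0, N) = (q + E + q', N) := by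
      rw [Prod.mk_add_mk]
      congr 1
      · ring
      · exact zero_add _
    rw [e2] at h2
    rw [e3] at h3
    exact h2.sub h3
  have h2 := hR.rel _ _ h1 (by
    simp only [map_sub, map_mul, map_prod, aeval_rename, aeval_X, Sum.elim_inr,
      Sum.elim_comp_inl]
    rw [h.eq, h'.eq]
    ring)
  simp only [map_sub, map_mul, map_prod, aeval_rename, aeval_X, Sum.elim_inr,
    Sum.elim_comp_inl] at h2
  exact sub_eq_zero.1 h2

end

/-- The products `f_i G^α` generate the module. -/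
theorem mem_gen {A : Subalgebra ℂ K} {r t : ℕ} (f : Fin r → K) (g : Fin t → K) (N : ℕ)
    (i : Fin r) (α : Fin N → Fin t) :
    f i * ∏ k, g (α k) ∈ Submodule.span A (Set.range f) * Submodule.span A (Set.range g) ^ N := by
  refine Submodule.mul_mem_mul (Submodule.subset_span ⟨i, rfl⟩) ?_
  rw [Submodule.span_pow]
  refine Submodule.subset_span ?_
  rw [Set.mem_pow]
  exact ⟨fun k => ⟨g (α k), α k, rfl⟩, by rw [List.prod_ofFn]⟩

theorem gen_le {A : Subalgebra ℂ K} {r t : ℕ} (f : Fin r → K) (g : Fin t → K) (N : ℕ)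
    (S : Submodule A K) (h : ∀ (i : Fin r) (α : Fin N → Fin t), f i * ∏ k, g (α k) ∈ S) :
    Submodule.span A (Set.range f) * Submodule.span A (Set.range g) ^ N ≤ S := by
  rw [Submodule.span_pow, Submodule.span_mul_span, Submodule.span_le]
  rintro _ ⟨_, ⟨i, rfl⟩, y, hy, rfl⟩
  rw [Set.mem_pow] at hy
  obtain ⟨w, rfl⟩ := hy
  rw [List.prod_ofFn]
  have h1 : ∀ k, ∃ j, g j = (w k : K) := fun k => (w k).2
  choose α hα using h1
  have h2 := h i α
  simp only [hα] at h2
  exact h2

theorem exists_top {ι : Type} [Fintype ι] (V : ι → Polynomial ℂ) (h : ∃ l, V l ≠ 0) :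
    ∃ a, (∀ l, (V l).natDegree ≤ a) ∧ ∃ l, (V l).coeff a ≠ 0 := by
  obtain ⟨l₀, hl₀⟩ := h
  have : Nonempty ι := ⟨l₀⟩
  obtain ⟨l₁, hl₁⟩ := Finite.exists_max fun l => (V l).degree
  have h0 : V l₁ ≠ 0 := by
    intro h0
    have h1 := hl₁ l₀
    rw [h0, Polynomial.degree_zero, le_bot_iff, Polynomial.degree_eq_bot] at h1
    exact hl₀ h1
  exact ⟨(V l₁).natDegree, fun l => Polynomial.natDegree_le_natDegree (hl₁ l), l₁,
    Polynomial.leadingCoeff_ne_zero.2 h0⟩

end nefRat

open nefRat in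
/-- A nef divisor is nonnegative on all the rational curves. -/
theorem nonneg_of_isNef {K : Type} [Field K] [Algebra ℂ K] {M s d₀ : ℕ} {Y : Fin (M + 1) → K}
    {G : Fin (s + 1) → MvPolynomial (Fin (M + 1)) ℂ} (hnef : IsNef d₀ Y G)
    {V : Fin (M + 1) → Polynomial ℂ} {U : Fin (s + 1) → Polynomial ℂ} (hR : RatCurve ℂ Y G V U)
    (j₀ : Fin (s + 1)) : ∃ l, (U j₀).natDegree ≤ d₀ * (V l).natDegree := by
  classical
  by_contra hcon
  push Not at hcon
  obtain ⟨cV, hcV⟩ := hR.cV
  obtain ⟨cU, hcU⟩ := hR.cU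
  have hV0 : ∀ z : ℂ, ∃ l, (V l).eval z ≠ 0 := by
    intro z
    by_contra h0
    push Not at h0
    have h1 := congrArg (Polynomial.eval z) hcV
    rw [Polynomial.eval_finsetSum, Polynomial.eval_one] at h1
    simp only [Polynomial.eval_mul, h0, mul_zero, Finset.sum_const_zero] at h1
    exact zero_ne_one h1
  have hU0 : ∀ z : ℂ, ∃ j, (U j).eval z ≠ 0 := by
    intro z
    by_contra h0
    push Not at h0
    have h1 := congrArg (Polynomial.eval z) hcU
    rw [Polynomial.eval_finsetSum, Polynomial.eval_one] at h1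
    simp only [Polynomial.eval_mul, h0, mul_zero, Finset.sum_const_zero] at h1
    exact zero_ne_one h1
  obtain ⟨a, haV, b₁, hb₁⟩ := exists_top V (by
    obtain ⟨l, hl⟩ := hV0 0
    exact ⟨l, fun h0 => hl (by rw [h0, Polynomial.eval_zero])⟩)
  have hab : (V b₁).natDegree = a :=
    le_antisymm (haV b₁) (Polynomial.le_natDegree_of_ne_zero hb₁)
  have hu := hcon b₁
  rw [hab] at hu
  obtain ⟨e, r, f, he, hspan⟩ := hnef (a + 1) (by omega)
  set N := (a + 1) * e with hN
  set E := (d₀ * (a + 1) + 1) * e with hE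
  -- the points of the curve
  have hptz : ∀ (z : ℂ) (b : Fin (M + 1)), (V b).eval z ≠ 0 →
      IsPoint Y b fun l => (V l).eval z / (V b).eval z := by
    intro z b hb
    refine isPoint (c := fun l => (V l).eval z) hb fun d P hP h0 => ?_
    rw [← eval_aeval, rel_V hR hP h0, Polynomial.eval_zero]
  have hpti : IsPoint Y b₁ fun l => (V l).coeff a / (V b₁).coeff a := by
    refine isPoint (c := fun l => (V l).coeff a) hb₁ fun d P hP h0 => ?_
    rw [← (coeff_top haV hP).2, rel_V hR hP h0, Polynomial.coeff_zero]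
  -- representations at the points
  have hrepz : ∀ (i : Fin r) (α : Fin N → Fin (s + 1)) (z : ℂ), ∃ P Q q,
      Rep Y (f i * ∏ k, aeval Y (G (α k))) E P Q q ∧ (aeval V Q).eval z ≠ 0 := by
    intro i α z
    obtain ⟨b, hb⟩ := hV0 z
    have h1 := hptz z b hb
    obtain ⟨P, Q, q, h2, h3⟩ := exists_rep (c := fun l => (V l).eval z) hb h1.1
      (g := f i * ∏ k, aeval Y (G (α k))) (E := E) (by
        rw [← hspan b _ h1]
        exact mem_gen f (fun j => aeval Y (G j)) N i α)
    exact ⟨P, Q, q, h2, by rw [eval_aeval]; exact h3⟩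
  have hrepi : ∀ (i : Fin r) (α : Fin N → Fin (s + 1)), ∃ P Q q,
      Rep Y (f i * ∏ k, aeval Y (G (α k))) E P Q q ∧ (aeval V Q).coeff (a * q) ≠ 0 := by
    intro i α
    obtain ⟨P, Q, q, h2, h3⟩ := exists_rep (c := fun l => (V l).coeff a) hb₁ hpti.1
      (g := f i * ∏ k, aeval Y (G (α k))) (E := E) (by
        rw [← hspan b₁ _ hpti]
        exact mem_gen f (fun j => aeval Y (G j)) N i α)
    exact ⟨P, Q, q, h2, by rw [(coeff_top haV h2.hQ).2]; exact h3⟩
  -- the sections vanish on the curve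
  have hzero : ∀ (i : Fin r) (α : Fin N → Fin (s + 1)) P Q q,
      Rep Y (f i * ∏ k, aeval Y (G (α k))) E P Q q → aeval V Q ≠ 0 → aeval V P = 0 := by
    intro i α P Q q hrep hQ
    by_contra hP
    obtain ⟨P₁, Q₁, q₁, h1, h2⟩ := hrepi i fun _ => j₀
    have hQ₁ : aeval V Q₁ ≠ 0 := fun h0 => h2 (by rw [h0, Polynomial.coeff_zero])
    have hUj : U j₀ ≠ 0 := by
      intro h0
      rw [h0, Polynomial.natDegree_zero] at hu
      exact absurd hu (Nat.not_lt_zero _)
    have h3 := compare hR hrep h1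
    rw [Finset.prod_const, Finset.card_univ, Fintype.card_fin] at h3
    have hL : aeval V P * aeval V Q₁ * U j₀ ^ N ≠ 0 :=
      mul_ne_zero (mul_ne_zero hP hQ₁) (pow_ne_zero _ hUj)
    have hUα : ∏ k, U (α k) ≠ 0 := by
      intro h0
      rw [h0, mul_zero] at h3
      exact hL h3
    have hD : aeval V Q * ∏ k, U (α k) ≠ 0 := mul_ne_zero hQ hUα
    have hdvd : aeval V Q * ∏ k, U (α k) ∣ aeval V P := by
      refine (IsAlgClosed.splits _).dvd_of_roots_le_roots hD ?_
      rw [Multiset.le_iff_count]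
      intro z
      rw [Polynomial.count_roots, Polynomial.count_roots]
      obtain ⟨j, hj⟩ := hU0 z
      obtain ⟨P₂, Q₂, q₂, h4, h5⟩ := hrepz i (fun _ => j) z
      have h6 := compare hR hrep h4
      rw [Finset.prod_const, Finset.card_univ, Fintype.card_fin, mul_assoc,
        mul_assoc (aeval V P₂)] at h6
      have h7 : aeval V Q₂ * U j ^ N ≠ 0 := by
        intro h0
        have h8 := congrArg (Polynomial.eval z) h0
        rw [Polynomial.eval_mul, Polynomial.eval_pow, Polynomial.eval_zero] at h8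
        exact mul_ne_zero h5 (pow_ne_zero _ hj) h8
      have h8 : (aeval V Q₂ * U j ^ N).rootMultiplicity z = 0 := by
        refine Polynomial.rootMultiplicity_eq_zero ?_
        rw [Polynomial.IsRoot, Polynomial.eval_mul, Polynomial.eval_pow]
        exact mul_ne_zero h5 (pow_ne_zero _ hj)
      have h9 := Polynomial.rootMultiplicity_mul (x := z) (mul_ne_zero hP h7)
      rw [h6, Polynomial.rootMultiplicity_mul (by rw [← h6]; exact mul_ne_zero hP h7), h8,
        add_zero] at h9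
      omega
    obtain ⟨h, hh⟩ := hdvd
    have h0 : h ≠ 0 := by
      rintro rfl
      rw [mul_zero] at hh
      exact hP hh
    have h4 : h * aeval V Q₁ * U j₀ ^ N = aeval V P₁ := by
      apply mul_left_cancel₀ hD
      rw [hh] at h3
      linear_combination h3
    have h5 := congrArg Polynomial.natDegree h4
    rw [Polynomial.natDegree_mul (mul_ne_zero h0 hQ₁) (pow_ne_zero _ hUj),
      Polynomial.natDegree_mul h0 hQ₁, Polynomial.natDegree_pow] at h5
    have h6 : a * q₁ ≤ (aeval V Q₁).natDegree := Polynomial.le_natDegree_of_ne_zero h2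
    have h7 := (coeff_top haV h1.hP).1
    rw [← h5] at h7
    have h8 : N * (U j₀).natDegree ≤ a * E := by nlinarith
    have h9 : N * (d₀ * a + 1) ≤ N * (U j₀).natDegree := Nat.mul_le_mul_left _ hu
    have h10 : a * E = e * (a * (d₀ * (a + 1)) + a) := by rw [hE]; ring
    have h11 : N * (d₀ * a + 1) = e * (a * (d₀ * (a + 1)) + a + 1) := by rw [hN]; ring
    have h12 : e * (a * (d₀ * (a + 1)) + a + 1) ≤ e * (a * (d₀ * (a + 1)) + a) := by
      rw [← h10, ← h11]
      exact h9.trans h8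
    have h13 := Nat.le_of_mul_le_mul_left h12 he
    omega
  -- conclusion at the point `z = 0`
  obtain ⟨b, hb⟩ := hV0 0
  have hpt := hptz 0 b hb
  let S : Submodule (pointRing Y b fun l => (V l).eval 0 / (V b).eval 0) K :=
    { carrier := {g | ∃ P Q q, Rep Y g E P Q q ∧ (aeval V Q).eval 0 ≠ 0 ∧ aeval V P = 0}
      zero_mem' := ⟨0, 1, 0, ⟨isHomogeneous_zero _ _ _, isHomogeneous_one _ _, by simp⟩, by simp,
        map_zero _⟩
      add_mem' := by
        rintro g g' ⟨P, Q, q, h1, h2, h3⟩ ⟨P', Q', q', h1', h2', h3'⟩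
        refine ⟨P * Q' + P' * Q, Q * Q', q + q', ⟨?_, h1.hQ.mul h1'.hQ, ?_⟩, ?_, ?_⟩
        · have e1 : q + q' + E = q + E + q' := by ring
          have e2 : q' + E + q = q + E + q' := by ring
          have h4 := h1'.hP.mul h1.hQ
          rw [e2] at h4
          rw [e1]
          exact (h1.hP.mul h1'.hQ).add h4
        · rw [map_add, map_mul, map_mul, map_mul, h1.eq, h1'.eq]
          ring
        · rw [map_mul, Polynomial.eval_mul]
          exact mul_ne_zero h2 h2'
        · rw [map_add, map_mul, map_mul, h3, h3', zero_mul, zero_mul, add_zero]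
      smul_mem' := by
        rintro ⟨o, ho⟩ g ⟨P, Q, q, h1, h2, h3⟩
        obtain ⟨P', Q', q', h4, h5⟩ := exists_rep (c := fun l => (V l).eval 0) hb hpt.1
          (g := o) (E := 0) (by
            rw [pow_zero]
            exact Submodule.mem_span_singleton.2 ⟨⟨o, ho⟩, mul_one o⟩)
        refine ⟨P' * P, Q' * Q, q' + q, ⟨?_, h4.hQ.mul h1.hQ, ?_⟩, ?_, ?_⟩
        · have h6 := h4.hP.mul h1.hP
          have e1 : q' + 0 + (q + E) = q' + q + E := by ring
          rw [e1] at h6
          exact h6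
        · rw [map_mul, map_mul, h4.eq, h1.eq]
          show _ = o * g * _
          ring
        · rw [map_mul, Polynomial.eval_mul]
          refine mul_ne_zero ?_ h2
          rw [eval_aeval]
          exact h5
        · rw [map_mul, h3, mul_zero] }
  have hS : Y b ^ E ∈ S := by
    have h1 : Submodule.span (pointRing Y b fun l => (V l).eval 0 / (V b).eval 0)
        {Y b ^ E} ≤ S := by
      rw [← hspan b _ hpt]
      refine gen_le f (fun j => aeval Y (G j)) N S fun i α => ?_
      obtain ⟨P, Q, q, h1, h2⟩ := hrepz i α 0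
      exact ⟨P, Q, q, h1, h2, hzero i α P Q q h1 fun h0 => h2 (by
        rw [h0, Polynomial.eval_zero])⟩
    exact h1 (Submodule.subset_span (Set.mem_singleton _))
  obtain ⟨P, Q, q, h1, h2, h3⟩ := hS
  have h4 : (P - X b ^ E * Q).IsHomogeneous (q + E) := by
    have h6 : ((X b : MvPolynomial (Fin (M + 1)) ℂ) ^ E).IsHomogeneous E := by
      simpa using (isHomogeneous_X ℂ b).pow E
    have h7 := h6.mul h1.hQ
    rw [add_comm E q] at h7
    exact h1.hP.sub h7
  have h5 := rel_V hR h4 (by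
    rw [map_sub, map_mul, map_pow, aeval_X, h1.eq, sub_self])
  rw [map_sub, map_mul, map_pow, aeval_X, h3, zero_sub, neg_eq_zero] at h5
  have h6 := congrArg (Polynomial.eval 0) h5
  rw [Polynomial.eval_mul, Polynomial.eval_pow, Polynomial.eval_zero] at h6
  exact mul_ne_zero (pow_ne_zero _ hb) h2 h6

/-- Nef divisors satisfy the condition on the rational curves. -/
theorem nonnegOnRat_of_isNef {K : Type} [Field K] [Algebra ℂ K] {M s d₀ : ℕ} {Y : Fin (M + 1) → K}
    {G : Fin (s + 1) → MvPolynomial (Fin (M + 1)) ℂ} (hnef : IsNef d₀ Y G) :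
    NonnegOnRat d₀ Y G := fun _ _ hR _ j => nonneg_of_isNef hnef hR j

end Pool.Agent.Lib.MP_410da7_agT
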