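import Pool.Agent.Lib.MP_410da7_agT.EqsNe
import Pool.Agent.Lib.MP_410da7_agT.NefRat

/-!
# MP_410da7_ag, T2: the theorem, final form
-/

set_option autoImplicit false

namespace Pool.Agent.Lib.MP_410da7_agT

open MvPolynomial KaehlerDifferential Pool.Agent.Lib.MP_410da7_agA Pool.Agent.Lib.MP_410da7_agB

theorem t2Final (hT : T2Thm) {K : Type} [Field K] [Algebra ℂ K] {n M s d₀ : ℕ}
    (Y : Fin (M + 1) → K) (G : Fin (s + 1) → MvPolynomial (Fin (M + 1)) ℂ)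
    (Ψ : Ω[K⁄ℂ] [⋀^Fin n]→ₗ[K] K) (hY : Y 0 = 1)
    (hgen : IntermediateField.adjoin ℂ (Set.range Y) = ⊤) (hn : Algebra.trdeg ℂ K = n)
    (hΨ : Ψ ≠ 0) (hd : 1 ≤ d₀) (hG : ∀ j, (G j).IsHomogeneous d₀) (hs : LogSmoothPair n Y G) :
    (IsNef d₀ Y G → NonnegOnRat d₀ Y G) ∧
    (NonnegOnRat d₀ Y G →
      List.TFAE [A1UniruledCompl n Y G, PairNotPseff d₀ Y G Ψ, HasNegFamily Y G Ψ] ∧
      ((pairAdjointRing d₀ Y G Ψ).FG →
        (A1UniruledCompl n Y G ↔ PairKodairaNegInf d₀ Y G Ψ))) := by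
  obtain ⟨x, rfl⟩ : ∃ x : Fin M → K, Y = Fin.cons 1 x := by
    refine ⟨fun l => Y l.succ, ?_⟩
    funext l
    refine Fin.cases ?_ (fun l => ?_) l
    · rw [Fin.cons_zero, hY]
    · rw [Fin.cons_succ]
  have hx : IntermediateField.adjoin ℂ (Set.range x) = ⊤ := by
    rw [eq_top_iff, ← hgen, IntermediateField.adjoin_le_iff]
    rintro _ ⟨l, rfl⟩
    refine Fin.cases ?_ (fun l => ?_) l
    · rw [Fin.cons_zero]
      exact one_mem _
    · rw [Fin.cons_succ]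
      exact IntermediateField.subset_adjoin _ _ ⟨l, rfl⟩
  have hS : Sit Ψ x := ⟨hx, hn, hΨ⟩
  exact ⟨nonnegOnRat_of_isNef, fun hH =>
    hT K n M s d₀ x G Ψ hx hn hΨ hd hG (eqs_ne hS hG hs) hs hH⟩

end Pool.Agent.Lib.MP_410da7_agT
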