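import Pool.Agent.Lib.MP_410da7_agT.SpecG
import Pool.Agent.Lib.MP_410da7_agB.GN4

/-!
# MP_410da7_ag, T2: GT4, the bubble at a zero of `x_0`
-/

set_option autoImplicit false

namespace Pool.Agent.Lib.MP_410da7_agT

open Pool.Agent.Lib.MP_410da7_agA Pool.Agent.Lib.MP_410da7_agB
open MvPolynomial Module

namespace gT4Aux

/-- Homogeneity. -/
theorem smulG {k A σ : Type} [Field k] [CommRing A] [Algebra k A] {d : ℕ}
    {G : MvPolynomial σ k} (hG : G.IsHomogeneous d) (c : A) (g : σ → A) :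
    aeval (fun l => c * g l) G = c ^ d * aeval g G := by
  rw [aeval_def, aeval_def, eval₂_eq, eval₂_eq, Finset.mul_sum]
  refine Finset.sum_congr rfl fun m hm => ?_
  have h1 : ∑ i ∈ m.support, m i = d := (hG.degree_eq_sum_deg_support hm).symm
  simp only [mul_pow]
  rw [Finset.prod_mul_distrib, Finset.prod_pow_eq_pow_sum, h1]
  ring

/-- Bihomogeneous polynomials are homogeneous. -/
theorem homOf {k ι₁ ι₂ : Type} [CommSemiring k] {P : MvPolynomial (ι₁ ⊕ ι₂) k} {d : ℕ × ℕ}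
    (h : BiH P d) : P.IsHomogeneous (d.1 + d.2) := by
  intro m hm
  have h1 := h hm
  have h2 : Finsupp.weight (1 : ι₁ ⊕ ι₂ → ℕ) m =
      (Finsupp.weight (wt2 (ι₁ := ι₁) (ι₂ := ι₂)) m).1 +
        (Finsupp.weight (wt2 (ι₁ := ι₁) (ι₂ := ι₂)) m).2 := by
    simp only [Finsupp.weight_apply, Finsupp.sum, Prod.fst_sum, Prod.snd_sum,
      ← Finset.sum_add_distrib]
    refine Finset.sum_congr rfl fun i _ => ?_
    cases i <;> simp [wt2]
  rw [h2, h1]

/-- Reversal of a solution of homogeneous equations. -/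
theorem reflG {k K σ : Type} [Field k] [Field K] [Algebra k K] {d o : ℕ}
    {G : MvPolynomial σ k} (hG : G.IsHomogeneous d) (Q : σ → Polynomial K)
    (hQ : ∀ l, (Q l).natDegree ≤ o) (h : aeval Q G = 0) :
    aeval (fun l => Polynomial.reflect o (Q l)) G = 0 := by
  let x : RatFunc K := RatFunc.X⁻¹
  have hx0 : (RatFunc.X : RatFunc K) ≠ 0 := RatFunc.X_ne_zero
  let _ : Invertible x := invertibleOfNonzero (inv_ne_zero hx0)
  let ψ : Polynomial K →ₐ[k] RatFunc K :=
    (Polynomial.aeval (x : RatFunc K)).restrictScalars k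
  let ι : Polynomial K →ₐ[k] RatFunc K :=
    (Polynomial.aeval (RatFunc.X : RatFunc K)).restrictScalars k
  have hι : ∀ p, ι p = algebraMap (Polynomial K) (RatFunc K) p := by
    intro p
    show Polynomial.aeval (RatFunc.X : RatFunc K) p = _
    rw [← RatFunc.algebraMap_X, Polynomial.aeval_algebraMap_apply, Polynomial.aeval_X_left_apply]
  have hkey : ∀ l, ι (Polynomial.reflect o (Q l)) = RatFunc.X ^ o * ψ (Q l) := by
    intro l
    have h1 := Polynomial.eval₂_reflect_mul_pow (algebraMap K (RatFunc K)) x o (Q l) (hQ l)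
    have h2 : ⅟x = RatFunc.X := by
      rw [invOf_eq_inv, inv_inv]
    rw [h2] at h1
    have h3 : ψ (Q l) = Polynomial.eval₂ (algebraMap K (RatFunc K)) x (Q l) := rfl
    have h4 : ι (Polynomial.reflect o (Q l)) = Polynomial.eval₂ (algebraMap K (RatFunc K))
      RatFunc.X (Polynomial.reflect o (Q l)) := rfl
    rw [h3, ← h1, h4, mul_comm, mul_assoc, ← mul_pow, inv_mul_cancel₀ hx0, one_pow, mul_one]
  have h5 : ι (aeval (fun l => Polynomial.reflect o (Q l)) G) = 0 := by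
    rw [MvPolynomial.comp_aeval_apply]
    simp only [hkey]
    rw [smulG hG]
    have h6 := MvPolynomial.comp_aeval_apply Q ψ G
    rw [← h6, h, map_zero, mul_zero]
  rw [hι] at h5
  exact (map_eq_zero_iff _ (IsFractionRing.injective _ _)).1 h5

/-- Coprimality after reversal. -/
theorem miss {F : Type} [Field F] [IsAlgClosed F] {ι : Type} [Fintype ι] (h1 : Alg1Stmt)
    (h2 : Alg2Stmt) (V Z c : ι → Polynomial F) (o B : ℕ) (c0 : F) (hc0 : c0 ≠ 0)
    (hV : ∀ t, (V t).natDegree ≤ o) (hZ : ∀ t, Z t = Polynomial.C c0 * Polynomial.reflect o (V t))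
    (hZB : ∀ t, (Z t).natDegree ≤ B) (hc : ∑ t, c t * V t = 1) (t₀ : ι)
    (ht₀ : (Z t₀).coeff 0 = 1) :
    ∃ c' : ι → Polynomial F, (∀ t, (c' t).natDegree ≤ B) ∧ ∑ t, c' t * Z t = 1 := by
  have hne : Z t₀ ≠ 0 := by
    intro h
    rw [h, Polynomial.coeff_zero] at ht₀
    exact zero_ne_one ht₀
  obtain ⟨g, Z', e, hg0, hgZ, he⟩ := h1 F ι Z ⟨t₀, hne⟩
  have hdeg : g.natDegree = 0 := by
    by_contra hcon
    obtain ⟨x, hx⟩ := IsAlgClosed.exists_root g (fun h => hcon (Polynomial.natDegree_eq_of_degree_eq_some h))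
    have hx' : Polynomial.eval x g = 0 := hx
    have hZx : ∀ t, (Z t).eval x = 0 := by
      intro t
      rw [hgZ t, Polynomial.eval_mul, hx', zero_mul]
    have hx0 : x ≠ 0 := by
      rintro rfl
      have h3 := hZx t₀
      rw [← Polynomial.coeff_zero_eq_eval_zero, ht₀] at h3
      exact one_ne_zero h3
    let _ : Invertible x⁻¹ := invertibleOfNonzero (inv_ne_zero hx0)
    have hVx : ∀ t, (V t).eval x⁻¹ = 0 := by
      intro t
      have h3 := Polynomial.eval₂_reflect_mul_pow (RingHom.id F) x⁻¹ o (V t) (hV t)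
      have h4 : ⅟(x⁻¹) = x := by
        rw [invOf_eq_inv, inv_inv]
      rw [h4] at h3
      have h5 : Polynomial.eval₂ (RingHom.id F) x (Polynomial.reflect o (V t)) = 0 := by
        have h6 := hZx t
        rw [hZ t, Polynomial.eval_mul, Polynomial.eval_C] at h6
        exact (mul_eq_zero.1 h6).resolve_left hc0
      rw [h5, zero_mul] at h3
      exact h3.symm
    have h7 := congrArg (Polynomial.eval x⁻¹) hc
    rw [Polynomial.eval_finsetSum, Polynomial.eval_one] at h7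
    rw [Finset.sum_eq_zero] at h7
    · exact zero_ne_one h7
    · intro t _
      rw [Polynomial.eval_mul, hVx t, mul_zero]
  obtain ⟨a, ha⟩ : ∃ a, g = Polynomial.C a := ⟨_, Polynomial.eq_C_of_natDegree_eq_zero hdeg⟩
  have ha0 : a ≠ 0 := by
    rintro rfl
    rw [Polynomial.C_0] at ha
    exact hg0 ha
  refine h2 F ι Z (fun t => Polynomial.C a⁻¹ * e t) B hZB ?_
  rw [← he]
  refine Finset.sum_congr rfl fun t _ => ?_
  have h8 : Polynomial.C a⁻¹ * Polynomial.C a = (1 : Polynomial F) := by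
    rw [← Polynomial.C_mul, inv_mul_cancel₀ ha0, Polynomial.C_1]
  rw [hgZ t, ha]
  calc Polynomial.C a⁻¹ * e t * (Polynomial.C a * Z' t) =
      (Polynomial.C a⁻¹ * Polynomial.C a) * (e t * Z' t) := by ring
    _ = e t * Z' t := by rw [h8, one_mul]

end gT4Aux

open gN5Aux gN4Aux gT4Aux in
theorem gT4 (hcd : CrossDownStmt) (h1 : Alg1Stmt) (h2 : Alg2Stmt) (h4 : Alg4Stmt)
    (d4 : Disc4Stmt) (hs : SplitStmt) : GT4Stmt := by
  classical
  intro k Ω _ _ _ _ 𝒱 hk M γ B D₁ tt h0tt hD1B F dF hF y hy0 P₀ δ hdisc hP00 hu₀ hp₀ hp₀' hD1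
  set v := 𝒱.valuation with hv
  have hle1 : ∀ x : k, v (algebraMap k Ω x) ≤ 1 := fun x => (𝒱.valuation_le_one_iff _).2 (hk x)
  have hx0 : (P₀ 0).coeff D₁ ≠ 0 := by
    intro h
    rw [h, map_zero] at hD1
    exact not_lt_zero hD1
  -- the zero
  obtain ⟨z, hz0, hz1⟩ : ∃ z, (P₀ 0).eval z = 0 ∧ v z < 1 := by
    by_contra hcon
    push Not at hcon
    exact absurd (coeff_le_one 𝒱 (P₀ 0) hP00 hcon D₁) (not_le.2 hD1)
  have hz : v z ≤ 1 := hz1.le
  obtain ⟨P, hPdef⟩ : ∃ P : Fin (M + 1) → Polynomial Ω,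
      P = fun l => (P₀ l).comp (Polynomial.X + Polynomial.C z) := ⟨_, rfl⟩
  obtain ⟨u, hudef⟩ : ∃ u : Fin (M + 1) → Polynomial Ω,
      u = fun l => (P₀ l - Polynomial.C (algebraMap k Ω (y l)) * P₀ 0).comp
        (Polynomial.X + Polynomial.C z) := ⟨_, rfl⟩
  have hucoeff : ∀ l m, (P l).coeff m = (u l).coeff m + algebraMap k Ω (y l) * (P 0).coeff m := by
    intro l m
    rw [hudef, hPdef]
    simp only [Polynomial.sub_comp, Polynomial.mul_comp, Polynomial.C_comp, Polynomial.coeff_sub,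
      Polynomial.coeff_C_mul]
    ring
  have hPtop : v ((P 0).coeff D₁) = v ((P₀ 0).coeff D₁) := by
    rw [hPdef]
    exact comp_top 𝒱 hz D₁ hx0 hp₀'
  have hpz : (P 0).coeff 0 = 0 := by
    rw [hPdef]
    simp only
    rw [comp_coeff_zero, hz0]
  -- some value at the zero
  obtain ⟨b₀, hb₀⟩ := hdisc.nz z ((𝒱.valuation_le_one_iff _).1 hz)
  have hub : (u b₀).coeff 0 = (P₀ b₀).eval z := by
    rw [hudef]
    simp only
    rw [comp_coeff_zero]
    simp only [Polynomial.eval_sub, Polynomial.eval_mul, Polynomial.eval_C, hz0, mul_zero,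
      sub_zero]
  have hδ0 : 0 < v δ := (Valuation.pos_iff _).2 hdisc.ne
  have hub0 : (u b₀).coeff 0 ≠ 0 := by
    rw [hub]
    exact (Valuation.pos_iff _).1 (lt_of_lt_of_le hδ0 hb₀)
  obtain ⟨τ, ν, o, hτ0, hν0, hτ1, hoD, c1, c2, ⟨l₁, m₁, c3⟩, c4, c5, c6⟩ :=
    hcd Ω 𝒱 (M + 1) D₁ (P 0) u hpz ⟨b₀, hub0⟩
      (by
        intro m
        rw [hPtop, hPdef]
        exact comp_le 𝒱 hz hp₀ m)
      (by
        intro l m
        rw [hPtop, hudef]
        exact comp_lt 𝒱 hz hx0 (hu₀ l) m)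
  -- the scaled coefficients
  have hPle : ∀ l m, v ((P l).coeff m * τ ^ m) ≤ v ν := by
    intro l m
    have h1 : (P l).coeff m * τ ^ m = (u l).coeff m * τ ^ m +
        algebraMap k Ω (y l) * ((P 0).coeff m * τ ^ m) := by
      rw [hucoeff]
      ring
    rw [h1]
    refine v.map_add_le (c2 l m) ?_
    rw [map_mul]
    exact (mul_le_of_le_one_left' (hle1 _)).trans (c1 m)
  have hmem : ∀ l m, ν⁻¹ * ((P l).coeff m * τ ^ m) ∈ 𝒱 := fun l m => mem_of_le 𝒱 (hPle l m) hν0
  have humem : ∀ l m, ν⁻¹ * ((u l).coeff m * τ ^ m) ∈ 𝒱 := fun l m => mem_of_le 𝒱 (c2 l m) hν0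
  let φ : k →+* 𝒱 := (algebraMap k Ω).codRestrict 𝒱.toSubring hk
  let _ : Algebra k (IsLocalRing.ResidueField 𝒱) := ((IsLocalRing.residue 𝒱).comp φ).toAlgebra
  have hresk : ∀ x : k, res 𝒱 (algebraMap k Ω x) = algebraMap k (IsLocalRing.ResidueField 𝒱) x :=
    fun x => res_of 𝒱 (hk x)
  -- polynomials over the valuation ring
  have hlift : ∀ l, ∃ A : Polynomial 𝒱, A.map 𝒱.subtype =
      Polynomial.C ν⁻¹ * (P l).comp (Polynomial.C τ * Polynomial.X) := by
    intro l
    rw [← Polynomial.mem_lifts, Polynomial.lifts_iff_coeff_lifts]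
    intro m
    rw [Polynomial.coeff_C_mul, Polynomial.comp_C_mul_X_coeff]
    exact ⟨⟨_, hmem l m⟩, rfl⟩
  choose A hA using hlift
  have hAc : ∀ l m, (((A l).coeff m : 𝒱) : Ω) = ν⁻¹ * ((P l).coeff m * τ ^ m) := by
    intro l m
    have h1 := congrArg (fun p => Polynomial.coeff p m) (hA l)
    simp only [Polynomial.coeff_map, Polynomial.coeff_C_mul, Polynomial.comp_C_mul_X_coeff] at h1
    exact h1
  obtain ⟨Q, hQ⟩ : ∃ Q : Fin (M + 1) → Polynomial (IsLocalRing.ResidueField 𝒱),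
      Q = fun l => (A l).map (IsLocalRing.residue 𝒱) := ⟨_, rfl⟩
  have hQc : ∀ l m, (Q l).coeff m = res 𝒱 (ν⁻¹ * ((P l).coeff m * τ ^ m)) := by
    intro l m
    rw [hQ, res_of 𝒱 (hmem l m)]
    simp only [Polynomial.coeff_map]
    congr 1
    exact Subtype.ext (hAc l m)
  -- the coefficients of `Q`
  have hQdec : ∀ l m, (Q l).coeff m = res 𝒱 (ν⁻¹ * ((u l).coeff m * τ ^ m)) +
      algebraMap k (IsLocalRing.ResidueField 𝒱) (y l) * (Q 0).coeff m := by
    intro l m
    have h1 : ν⁻¹ * ((P l).coeff m * τ ^ m) = ν⁻¹ * ((u l).coeff m * τ ^ m) +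
        algebraMap k Ω (y l) * (ν⁻¹ * ((P 0).coeff m * τ ^ m)) := by
      rw [hucoeff]
      ring
    rw [hQc, hQc, h1, res_add 𝒱 (humem l m) (𝒱.mul_mem _ _ (hk _) (hmem 0 m)),
      res_mul 𝒱 (hk _) (hmem 0 m), hresk]
  have hQhigh : ∀ l m, o < m → (Q l).coeff m = 0 := by
    intro l m hm
    have h1 : (Q 0).coeff m = 0 := by
      rw [hQc, res_eq_zero 𝒱 (hmem 0 m), lt_one_iff 𝒱 hν0]
      exact c5 m hm
    rw [hQdec, h1, mul_zero, add_zero, res_eq_zero 𝒱 (humem l m), lt_one_iff 𝒱 hν0]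
    exact c6 l m hm.le
  obtain ⟨c, hc⟩ : ∃ c, c = (Q 0).coeff o := ⟨_, rfl⟩
  have hc0 : c ≠ 0 := by
    rw [hc, hQc, Ne, res_eq_zero 𝒱 (hmem 0 o), lt_one_iff 𝒱 hν0]
    exact not_lt.2 c4.ge
  have hQo : ∀ l, (Q l).coeff o = algebraMap k (IsLocalRing.ResidueField 𝒱) (y l) * c := by
    intro l
    rw [hQdec, ← hc]
    have h1 : res 𝒱 (ν⁻¹ * ((u l).coeff o * τ ^ o)) = 0 := by
      rw [res_eq_zero 𝒱 (humem l o), lt_one_iff 𝒱 hν0]
      exact c6 l o le_rfl
    rw [h1, zero_add]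
  have hQdeg : ∀ l, (Q l).natDegree ≤ o := by
    intro l
    rw [Polynomial.natDegree_le_iff_coeff_eq_zero]
    exact fun m hm => hQhigh l m hm
  have hQ0 : Q 0 ≠ 0 := by
    intro h
    rw [h, Polynomial.coeff_zero] at hc
    exact hc0 hc
  -- the reductions of the equations
  have hcomp : ∀ l, (P₀ l).comp (Polynomial.C ((⟨z, (𝒱.valuation_le_one_iff _).1 hz⟩ : 𝒱) : Ω) +
      Polynomial.C ((⟨τ, (𝒱.valuation_le_one_iff _).1 hτ1.le⟩ : 𝒱) : Ω) * Polynomial.X) =
      Polynomial.C ν * (A l).map 𝒱.subtype := by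
    intro l
    have e1 : Polynomial.C ν * Polynomial.C ν⁻¹ = (1 : Polynomial Ω) := by
      rw [← Polynomial.C_mul, mul_inv_cancel₀ hν0, Polynomial.C_1]
    rw [hA l, ← mul_assoc, e1, one_mul, hPdef]
    simp only
    rw [Polynomial.comp_assoc]
    congr 1
    simp only [Polynomial.add_comp, Polynomial.X_comp, Polynomial.C_comp]
    rw [add_comm]
  obtain ⟨δ₁, δ₁', hD⟩ := d4 k Ω 𝒱 φ (fun x => rfl) (Fin (M + 1)) tt γ F dF hF P₀
    (fun t : tt => P₀ t) δ δ hdisc ⟨z, (𝒱.valuation_le_one_iff _).1 hz⟩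
    ⟨τ, (𝒱.valuation_le_one_iff _).1 hτ1.le⟩ ν ν A (fun t : tt => A t) hν0 hν0 hcomp
    (fun t => hcomp t)
  have hA0 : (A 0).map (IsLocalRing.residue 𝒱) = Q 0 := by rw [hQ]
  rcases hs k Ω 𝒱 φ M γ B tt F dF hF A δ₁ δ₁' hD 0 h0tt (by rw [hA0]; exact hQ0)
    (by rw [hA0]; exact (hQdeg 0).trans (hoD.trans hD1B)) with hbeta | ⟨g, V, e, hg0, hgV, hrel, he⟩
  · obtain ⟨V, U, hVU⟩ := hbeta
    exact ⟨IsLocalRing.ResidueField 𝒱, inferInstance, inferInstance, Or.inr ⟨V, U, hVU⟩⟩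
  · have hgQ : ∀ l, Q l = g * V l := by
      intro l
      rw [← hgV l, hQ]
    have hV0 : V 0 ≠ 0 := by
      intro h
      apply hQ0
      rw [hgQ 0, h, mul_zero]
    have hQ0deg : (Q 0).natDegree = o := by
      refine le_antisymm (hQdeg 0) (Polynomial.le_natDegree_of_ne_zero ?_)
      rw [← hc]
      exact hc0
    have hsum : g.natDegree + (V 0).natDegree = o := by
      rw [← Polynomial.natDegree_mul hg0 hV0, ← hgQ 0, hQ0deg]
    obtain ⟨o', ho'⟩ : ∃ o', o' = (V 0).natDegree := ⟨_, rfl⟩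
    rw [← ho'] at hsum
    have hVdeg : ∀ l, (V l).natDegree ≤ o' := by
      intro l
      by_cases hVl : V l = 0
      · rw [hVl, Polynomial.natDegree_zero]
        exact Nat.zero_le _
      · have h3 := hQdeg l
        rw [hgQ l, Polynomial.natDegree_mul hg0 hVl] at h3
        omega
    have htop : ∀ l, (Q l).coeff o = g.leadingCoeff * (V l).coeff o' := by
      intro l
      rw [hgQ l, ← hsum, Polynomial.coeff_mul_add_eq_of_natDegree_le le_rfl (hVdeg l)]
      rfl
    have hlc : g.leadingCoeff ≠ 0 := Polynomial.leadingCoeff_ne_zero.2 hg0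
    obtain ⟨c0, hc0'⟩ : ∃ c0, c0 = (V 0).coeff o' := ⟨_, rfl⟩
    have hcc : c = g.leadingCoeff * c0 := by
      rw [hc, htop 0, hc0']
    have hc00 : c0 ≠ 0 := by
      rintro rfl
      rw [mul_zero] at hcc
      exact hc0 hcc
    have hVo : ∀ l, (V l).coeff o' = algebraMap k (IsLocalRing.ResidueField 𝒱) (y l) * c0 := by
      intro l
      have h3 := hQo l
      rw [htop l, hcc] at h3
      refine mul_left_cancel₀ hlc (h3.trans ?_)
      ring
    obtain ⟨Yp, hYp⟩ : ∃ Yp : Fin (M + 1) → Polynomial (IsLocalRing.ResidueField 𝒱),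
      Yp = fun l => Polynomial.C c0⁻¹ * Polynomial.reflect o' (V l) := ⟨_, rfl⟩
    have hrc : ∀ l m, m ≤ o' → (Polynomial.reflect o' (V l)).coeff m = (V l).coeff (o' - m) := by
      intro l m hm
      rw [Polynomial.coeff_reflect, Polynomial.revAt_le hm]
    have ho'B : o' ≤ B := by omega
    have hYdeg : ∀ l, (Yp l).natDegree ≤ B := by
      intro l
      rw [Polynomial.natDegree_le_iff_coeff_eq_zero]
      intro m hm
      have hm' : o' < m := lt_of_le_of_lt ho'B hm
      rw [hYp, Polynomial.coeff_C_mul, Polynomial.coeff_reflect,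
        Polynomial.revAt_eq_self_of_lt hm',
        Polynomial.coeff_eq_zero_of_natDegree_lt (lt_of_le_of_lt (hVdeg l) hm'), mul_zero]
    have hY0 : ∀ l, (Yp l).coeff 0 = algebraMap k (IsLocalRing.ResidueField 𝒱) (y l) := by
      intro l
      rw [hYp, Polynomial.coeff_C_mul, hrc l 0 (Nat.zero_le _), Nat.sub_zero, hVo]
      field_simp
    refine ⟨IsLocalRing.ResidueField 𝒱, inferInstance, inferInstance, Or.inl ⟨Yp, ?_⟩⟩
    have _ : IsAlgClosed (IsLocalRing.ResidueField 𝒱) := h4 Ω 𝒱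
    refine ⟨fun j => ?_, hYdeg, hY0, ⟨l₁, ?_⟩, ?_⟩
    · have e1 : (Sum.elim Yp fun t : tt => Yp t) = fun i => Polynomial.C c0⁻¹ *
          Polynomial.reflect o' ((Sum.elim V fun t : tt => V t) i) := by
        funext i
        rcases i with i | i
        · rw [hYp]
          rfl
        · rw [hYp]
          rfl
      have e2 : (MvPolynomial.map (algebraMap k (IsLocalRing.ResidueField 𝒱)) (F j)).IsHomogeneous
          ((dF j).1 + (dF j).2) := (homOf (hF j)).map _
      rw [e1, smulG e2, reflG e2 (Sum.elim V fun t : tt => V t) ?_ (hrel j), mul_zero]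
      rintro (i | i)
      · exact hVdeg i
      · exact hVdeg i
    · intro h
      have h3 : Polynomial.reflect o' (V l₁) =
          Polynomial.C (algebraMap k (IsLocalRing.ResidueField 𝒱) (y l₁)) *
            Polynomial.reflect o' (V 0) := by
        have e3 : Polynomial.C c0 * Polynomial.C c0⁻¹ =
            (1 : Polynomial (IsLocalRing.ResidueField 𝒱)) := by
          rw [← Polynomial.C_mul, mul_inv_cancel₀ hc00, Polynomial.C_1]
        have h4 := congrArg (fun p => Polynomial.C c0 * p) h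
        simp only [hYp] at h4
        calc Polynomial.reflect o' (V l₁) = (Polynomial.C c0 * Polynomial.C c0⁻¹) *
              Polynomial.reflect o' (V l₁) := by rw [e3, one_mul]
          _ = Polynomial.C c0 * (Polynomial.C c0⁻¹ * Polynomial.reflect o' (V l₁)) := by ring
          _ = Polynomial.C c0 * (Polynomial.C (algebraMap k (IsLocalRing.ResidueField 𝒱) (y l₁)) *
              (Polynomial.C c0⁻¹ * Polynomial.reflect o' (V 0))) := h4
          _ = (Polynomial.C c0 * Polynomial.C c0⁻¹) *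
              (Polynomial.C (algebraMap k (IsLocalRing.ResidueField 𝒱) (y l₁)) *
                Polynomial.reflect o' (V 0)) := by ring
          _ = _ := by rw [e3, one_mul]
      have h5 : V l₁ = Polynomial.C (algebraMap k (IsLocalRing.ResidueField 𝒱) (y l₁)) * V 0 := by
        ext m
        rw [Polynomial.coeff_C_mul]
        by_cases hm : m ≤ o'
        · have h6 := congrArg (fun p => Polynomial.coeff p (o' - m)) h3
          simp only [Polynomial.coeff_C_mul] at h6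
          rw [hrc l₁ _ (Nat.sub_le _ _), hrc 0 _ (Nat.sub_le _ _), Nat.sub_sub_self hm] at h6
          exact h6
        · rw [Polynomial.coeff_eq_zero_of_natDegree_lt (lt_of_le_of_lt (hVdeg l₁) (not_le.1 hm)),
            Polynomial.coeff_eq_zero_of_natDegree_lt (lt_of_le_of_lt (hVdeg 0) (not_le.1 hm)),
            mul_zero]
      have h6 : (Q l₁).coeff m₁ =
          algebraMap k (IsLocalRing.ResidueField 𝒱) (y l₁) * (Q 0).coeff m₁ := by
        rw [← Polynomial.coeff_C_mul]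
        congr 1
        rw [hgQ, hgQ, h5]
        ring
      rw [hQdec] at h6
      have h7 := add_eq_right.1 h6
      rw [res_eq_zero 𝒱 (humem l₁ m₁), lt_one_iff 𝒱 hν0] at h7
      exact absurd c3 (ne_of_lt h7)
    · exact miss h1 h2 (fun t : tt => V t) (fun t : tt => Yp t) e o' B c0⁻¹ (inv_ne_zero hc00)
        (fun t => hVdeg t) (fun t => by rw [hYp]) (fun t => hYdeg t) he ⟨0, h0tt⟩
        (by
          show (Yp 0).coeff 0 = 1
          rw [hY0, hy0, map_one])

end Pool.Agent.Lib.MP_410da7_agT
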