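import Pool.Agent.Lib.MP_410da7_agT.GT4

/-!
# MP_410da7_ag, T2: GT5, the bubble with centre `0`
-/

set_option autoImplicit false

namespace Pool.Agent.Lib.MP_410da7_agT

open Pool.Agent.Lib.MP_410da7_agA Pool.Agent.Lib.MP_410da7_agB
open MvPolynomial Module

open gN5Aux gT4Aux in
theorem gT5 (hcu : CrossUpStmt) (h2 : Alg2Stmt) (d4 : Disc4Stmt) (hs : SplitStmt) :
    GT5Stmt := by
  classical
  intro k Ω _ _ _ _ 𝒱 hk M γ B tt h0tt F dF hF y hy0 P δ hdisc hP0 hbig hu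
  set v := 𝒱.valuation with hv
  have hle1 : ∀ x : k, v (algebraMap k Ω x) ≤ 1 := fun x => (𝒱.valuation_le_one_iff _).2 (hk x)
  obtain ⟨u, hudef⟩ : ∃ u : Fin (M + 1) → Polynomial Ω,
      u = fun l => P l - Polynomial.C (algebraMap k Ω (y l)) * P 0 := ⟨_, rfl⟩
  have hucoeff : ∀ l m, (P l).coeff m = (u l).coeff m + algebraMap k Ω (y l) * (P 0).coeff m := by
    intro l m
    rw [hudef]
    simp only [Polynomial.coeff_sub, Polynomial.coeff_C_mul]
    ring
  have hp0 : (P 0).coeff 0 ≠ 0 := by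
    rw [hP0, hy0, map_one]
    exact one_ne_zero
  have hu0 : ∀ l, (u l).coeff 0 = 0 := by
    intro l
    have h1 := hucoeff l 0
    rw [hP0, hP0 0, hy0, map_one, mul_one] at h1
    exact left_eq_add.1 ((add_comm _ _).trans h1.symm).symm
  have hu' : ∃ l m, ∀ m', v ((P 0).coeff m') ≤ v ((u l).coeff m) := by
    rw [hudef]
    exact hu
  obtain ⟨τ, ν, o, hτ0, hν0, hτ1, c1, c2, ⟨l₁, m₁, c3⟩, c4, c5, c6⟩ :=
    hcu Ω 𝒱 (M + 1) (P 0) u hp0 hu0 hu'
  -- the scaled coefficients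
  have hPle : ∀ l m, v ((P l).coeff m * τ ^ m) ≤ v ν := by
    intro l m
    have h1 : (P l).coeff m * τ ^ m = (u l).coeff m * τ ^ m +
        algebraMap k Ω (y l) * ((P 0).coeff m * τ ^ m) := by
      rw [hucoeff]
      ring
    rw [h1]
    refine v.map_add_le (c2 l m) ?_
    rw [map_mul]
    exact (mul_le_of_le_one_left' (hle1 _)).trans (c1 m)
  have hmem : ∀ l m, ν⁻¹ * ((P l).coeff m * τ ^ m) ∈ 𝒱 := fun l m => mem_of_le 𝒱 (hPle l m) hν0
  have humem : ∀ l m, ν⁻¹ * ((u l).coeff m * τ ^ m) ∈ 𝒱 := fun l m => mem_of_le 𝒱 (c2 l m) hν0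
  let φ : k →+* 𝒱 := (algebraMap k Ω).codRestrict 𝒱.toSubring hk
  let _ : Algebra k (IsLocalRing.ResidueField 𝒱) := ((IsLocalRing.residue 𝒱).comp φ).toAlgebra
  have hresk : ∀ x : k, res 𝒱 (algebraMap k Ω x) = algebraMap k (IsLocalRing.ResidueField 𝒱) x :=
    fun x => res_of 𝒱 (hk x)
  -- polynomials over the valuation ring
  have hlift : ∀ l, ∃ A : Polynomial 𝒱, A.map 𝒱.subtype =
      Polynomial.C ν⁻¹ * (P l).comp (Polynomial.C τ * Polynomial.X) := by
    intro l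
    rw [← Polynomial.mem_lifts, Polynomial.lifts_iff_coeff_lifts]
    intro m
    rw [Polynomial.coeff_C_mul, Polynomial.comp_C_mul_X_coeff]
    exact ⟨⟨_, hmem l m⟩, rfl⟩
  choose A hA using hlift
  have hAc : ∀ l m, (((A l).coeff m : 𝒱) : Ω) = ν⁻¹ * ((P l).coeff m * τ ^ m) := by
    intro l m
    have h1 := congrArg (fun p => Polynomial.coeff p m) (hA l)
    simp only [Polynomial.coeff_map, Polynomial.coeff_C_mul, Polynomial.comp_C_mul_X_coeff] at h1
    exact h1
  obtain ⟨Q, hQ⟩ : ∃ Q : Fin (M + 1) → Polynomial (IsLocalRing.ResidueField 𝒱),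
      Q = fun l => (A l).map (IsLocalRing.residue 𝒱) := ⟨_, rfl⟩
  have hQc : ∀ l m, (Q l).coeff m = res 𝒱 (ν⁻¹ * ((P l).coeff m * τ ^ m)) := by
    intro l m
    rw [hQ, res_of 𝒱 (hmem l m)]
    simp only [Polynomial.coeff_map]
    congr 1
    exact Subtype.ext (hAc l m)
  -- the coefficients of `Q`
  have hQdec : ∀ l m, (Q l).coeff m = res 𝒱 (ν⁻¹ * ((u l).coeff m * τ ^ m)) +
      algebraMap k (IsLocalRing.ResidueField 𝒱) (y l) * (Q 0).coeff m := by
    intro l m
    have h1 : ν⁻¹ * ((P l).coeff m * τ ^ m) = ν⁻¹ * ((u l).coeff m * τ ^ m) +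
        algebraMap k Ω (y l) * (ν⁻¹ * ((P 0).coeff m * τ ^ m)) := by
      rw [hucoeff]
      ring
    rw [hQc, hQc, h1, res_add 𝒱 (humem l m) (𝒱.mul_mem _ _ (hk _) (hmem 0 m)),
      res_mul 𝒱 (hk _) (hmem 0 m), hresk]
  have hQhi : ∀ l m, B < m → (Q l).coeff m = 0 := by
    intro l m hm
    obtain ⟨l₂, m₂, hm₂, h1⟩ := hbig
    rw [hQc, res_eq_zero 𝒱 (hmem l m), lt_one_iff 𝒱 hν0]
    have hvτ : 0 < v τ := (Valuation.pos_iff _).2 hτ0
    calc v ((P l).coeff m * τ ^ m) = v ((P l).coeff m) * v τ ^ m := by rw [map_mul, map_pow]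
      _ ≤ v ((P l).coeff m) * v τ ^ m₂ :=
          mul_le_mul_right (pow_le_pow_right_of_le_one' hτ1 (by omega)) _
      _ < v ((P l₂).coeff m₂) * v τ ^ m₂ := mul_lt_mul_of_pos_right (h1 l m hm) (pow_pos hvτ _)
      _ = v ((P l₂).coeff m₂ * τ ^ m₂) := by rw [map_mul, map_pow]
      _ ≤ v ν := hPle l₂ m₂
  have hQdeg : ∀ l, (Q l).natDegree ≤ B := by
    intro l
    rw [Polynomial.natDegree_le_iff_coeff_eq_zero]
    exact fun m hm => hQhi l m hm
  have hQlow : ∀ l, ∀ m < o, (Q l).coeff m = 0 := by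
    intro l m hm
    have h1 : (Q 0).coeff m = 0 := by
      rw [hQc, res_eq_zero 𝒱 (hmem 0 m), lt_one_iff 𝒱 hν0]
      exact c5 m hm
    rw [hQdec, h1, mul_zero, add_zero, res_eq_zero 𝒱 (humem l m), lt_one_iff 𝒱 hν0]
    exact c6 l m hm.le
  obtain ⟨c, hc⟩ : ∃ c, c = (Q 0).coeff o := ⟨_, rfl⟩
  have hc0 : c ≠ 0 := by
    rw [hc, hQc, Ne, res_eq_zero 𝒱 (hmem 0 o), lt_one_iff 𝒱 hν0]
    exact not_lt.2 c4.ge
  have hQo : ∀ l, (Q l).coeff o = algebraMap k (IsLocalRing.ResidueField 𝒱) (y l) * c := by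
    intro l
    rw [hQdec, ← hc]
    have h1 : res 𝒱 (ν⁻¹ * ((u l).coeff o * τ ^ o)) = 0 := by
      rw [res_eq_zero 𝒱 (humem l o), lt_one_iff 𝒱 hν0]
      exact c6 l o le_rfl
    rw [h1, zero_add]
  have hQ0 : Q 0 ≠ 0 := by
    intro h
    rw [h, Polynomial.coeff_zero] at hc
    exact hc0 hc
  -- the reductions of the equations
  have hcomp : ∀ l, (P l).comp (Polynomial.C ((0 : 𝒱) : Ω) +
      Polynomial.C ((⟨τ, (𝒱.valuation_le_one_iff _).1 hτ1⟩ : 𝒱) : Ω) * Polynomial.X) =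
      Polynomial.C ν * (A l).map 𝒱.subtype := by
    intro l
    have e1 : Polynomial.C ν * Polynomial.C ν⁻¹ = (1 : Polynomial Ω) := by
      rw [← Polynomial.C_mul, mul_inv_cancel₀ hν0, Polynomial.C_1]
    rw [hA l, ← mul_assoc, e1, one_mul]
    congr 1
    rw [ZeroMemClass.coe_zero, Polynomial.C_0, zero_add]
  obtain ⟨δ₁, δ₁', hD⟩ := d4 k Ω 𝒱 φ (fun x => rfl) (Fin (M + 1)) tt γ F dF hF P
    (fun t : tt => P t) δ δ hdisc 0 ⟨τ, (𝒱.valuation_le_one_iff _).1 hτ1⟩ ν ν A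
    (fun t : tt => A t) hν0 hν0 hcomp (fun t => hcomp t)
  have hA0 : (A 0).map (IsLocalRing.residue 𝒱) = Q 0 := by rw [hQ]
  rcases hs k Ω 𝒱 φ M γ B tt F dF hF A δ₁ δ₁' hD 0 h0tt (by rw [hA0]; exact hQ0)
    (by rw [hA0]; exact hQdeg 0) with hbeta | ⟨g, V, e, hg0, hgV, hrel, he⟩
  · obtain ⟨V, U, hVU⟩ := hbeta
    exact ⟨IsLocalRing.ResidueField 𝒱, inferInstance, inferInstance, Or.inr ⟨V, U, hVU⟩⟩
  · have hgQ : ∀ l, Q l = g * V l := by
      intro l
      rw [← hgV l, hQ]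
    have hXg : (Polynomial.X : Polynomial (IsLocalRing.ResidueField 𝒱)) ^ o ∣ g := by
      have h3 : g = ∑ t : tt, e t * Q t := by
        calc g = g * ∑ t : tt, e t * V t := by rw [he, mul_one]
          _ = ∑ t : tt, e t * Q t := by
            rw [Finset.mul_sum]
            refine Finset.sum_congr rfl fun t _ => ?_
            rw [hgQ]
            ring
      rw [h3]
      exact Finset.dvd_sum fun t _ => (Polynomial.X_pow_dvd_iff.2 (hQlow t)).mul_left _
    obtain ⟨g₁, hg₁⟩ := hXg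
    have hQV : ∀ l, (Q l).coeff o = g₁.coeff 0 * (V l).coeff 0 := by
      intro l
      have h3 : Q l = Polynomial.X ^ o * (g₁ * V l) := by
        rw [hgQ l, hg₁, mul_assoc]
      rw [h3, Polynomial.coeff_X_pow_mul', if_pos le_rfl, Nat.sub_self,
        Polynomial.mul_coeff_zero]
    obtain ⟨c0, hc0'⟩ : ∃ c0, c0 = (V 0).coeff 0 := ⟨_, rfl⟩
    have hcc : c = g₁.coeff 0 * c0 := by
      rw [hc, hQV 0, hc0']
    have hc00 : c0 ≠ 0 := by
      rintro rfl
      rw [mul_zero] at hcc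
      exact hc0 hcc
    have hg10 : g₁.coeff 0 ≠ 0 := by
      intro h
      rw [h, zero_mul] at hcc
      exact hc0 hcc
    have hVo : ∀ l, (V l).coeff 0 = algebraMap k (IsLocalRing.ResidueField 𝒱) (y l) * c0 := by
      intro l
      have h3 := hQo l
      rw [hQV l, hcc] at h3
      refine mul_left_cancel₀ hg10 (h3.trans ?_)
      ring
    have hVdeg : ∀ l, (V l).natDegree ≤ B := by
      intro l
      by_cases hVl : V l = 0
      · rw [hVl, Polynomial.natDegree_zero]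
        exact Nat.zero_le _
      · have h3 := hQdeg l
        rw [hgQ l, Polynomial.natDegree_mul hg0 hVl] at h3
        omega
    obtain ⟨Yp, hYp⟩ : ∃ Yp : Fin (M + 1) → Polynomial (IsLocalRing.ResidueField 𝒱),
      Yp = fun l => Polynomial.C c0⁻¹ * V l := ⟨_, rfl⟩
    have hYdeg : ∀ l, (Yp l).natDegree ≤ B := by
      intro l
      rw [hYp]
      exact (Polynomial.natDegree_C_mul_le _ _).trans (hVdeg l)
    have hY0 : ∀ l, (Yp l).coeff 0 = algebraMap k (IsLocalRing.ResidueField 𝒱) (y l) := by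
      intro l
      rw [hYp, Polynomial.coeff_C_mul, hVo]
      field_simp
    have e3 : Polynomial.C c0 * Polynomial.C c0⁻¹ =
        (1 : Polynomial (IsLocalRing.ResidueField 𝒱)) := by
      rw [← Polynomial.C_mul, mul_inv_cancel₀ hc00, Polynomial.C_1]
    refine ⟨IsLocalRing.ResidueField 𝒱, inferInstance, inferInstance, Or.inl ⟨Yp, ?_⟩⟩
    refine ⟨fun j => ?_, hYdeg, hY0, ⟨l₁, ?_⟩, ?_⟩
    · have e1 : (Sum.elim Yp fun t : tt => Yp t) = fun i => Polynomial.C c0⁻¹ *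
          (Sum.elim V fun t : tt => V t) i := by
        funext i
        rcases i with i | i
        · rw [hYp]
          rfl
        · rw [hYp]
          rfl
      have e2 : (MvPolynomial.map (algebraMap k (IsLocalRing.ResidueField 𝒱)) (F j)).IsHomogeneous
          ((dF j).1 + (dF j).2) := (homOf (hF j)).map _
      have e4 := hrel j
      rw [e1, smulG e2]
      exact mul_eq_zero_of_right _ e4
    · intro h
      have h3 : V l₁ = Polynomial.C (algebraMap k (IsLocalRing.ResidueField 𝒱) (y l₁)) * V 0 := by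
        have h4 := congrArg (fun p => Polynomial.C c0 * p) h
        simp only [hYp] at h4
        calc V l₁ = (Polynomial.C c0 * Polynomial.C c0⁻¹) * V l₁ := by rw [e3, one_mul]
          _ = Polynomial.C c0 * (Polynomial.C c0⁻¹ * V l₁) := by ring
          _ = Polynomial.C c0 * (Polynomial.C (algebraMap k (IsLocalRing.ResidueField 𝒱) (y l₁)) *
              (Polynomial.C c0⁻¹ * V 0)) := h4
          _ = (Polynomial.C c0 * Polynomial.C c0⁻¹) *
              (Polynomial.C (algebraMap k (IsLocalRing.ResidueField 𝒱) (y l₁)) * V 0) := by ring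
          _ = _ := by rw [e3, one_mul]
      have h6 : (Q l₁).coeff m₁ =
          algebraMap k (IsLocalRing.ResidueField 𝒱) (y l₁) * (Q 0).coeff m₁ := by
        rw [← Polynomial.coeff_C_mul]
        congr 1
        rw [hgQ, hgQ, h3]
        ring
      rw [hQdec] at h6
      have h7 := add_eq_right.1 h6
      rw [res_eq_zero 𝒱 (humem l₁ m₁), lt_one_iff 𝒱 hν0] at h7
      exact absurd c3 (ne_of_lt h7)
    · refine h2 (IsLocalRing.ResidueField 𝒱) tt (fun t : tt => Yp t)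
        (fun t => Polynomial.C c0 * e t) B (fun t => hYdeg t) ?_
      rw [← he]
      refine Finset.sum_congr rfl fun t _ => ?_
      rw [hYp]
      calc Polynomial.C c0 * e t * (Polynomial.C c0⁻¹ * V t) =
          (Polynomial.C c0 * Polynomial.C c0⁻¹) * (e t * V t) := by ring
        _ = e t * V t := by rw [e3, one_mul]

end Pool.Agent.Lib.MP_410da7_agT
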