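import Pool.Agent.Lib.MP_410da7_agT.SpecG
import Pool.Agent.Lib.MP_410da7_agB.GN6

/-!
# MP_410da7_ag, T2: GT6, the bubble for power series
-/

set_option autoImplicit false

namespace Pool.Agent.Lib.MP_410da7_agT

open Pool.Agent.Lib.MP_410da7_agA Pool.Agent.Lib.MP_410da7_agB
open MvPolynomial Module

namespace gT6Aux

variable {Ω : Type} [Field Ω] {𝒱 : ValuationSubring Ω}

/-- Values at integral points. -/
theorem eval_le {z c : Ω} (hz : z ∈ 𝒱) (p : Polynomial Ω)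
    (h : ∀ m, 𝒱.valuation (p.coeff m) ≤ 𝒱.valuation c) :
    𝒱.valuation (p.eval z) ≤ 𝒱.valuation c := by
  have hz' : 𝒱.valuation z ≤ 1 := (𝒱.valuation_le_one_iff _).2 hz
  rw [Polynomial.eval_eq_sum_range]
  refine 𝒱.valuation.map_sum_le fun m _ => ?_
  rw [map_mul, map_pow]
  exact (mul_le_mul' (h m) (pow_le_one' hz' m)).trans_eq (mul_one _)

theorem eval_lt {z : Ω} (hz : z ∈ 𝒱) (p : Polynomial Ω)
    (h : ∀ m, 𝒱.valuation (p.coeff m) < 1) : 𝒱.valuation (p.eval z) < 1 := by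
  have hz' : 𝒱.valuation z ≤ 1 := (𝒱.valuation_le_one_iff _).2 hz
  rw [Polynomial.eval_eq_sum_range]
  refine 𝒱.valuation.map_sum_lt one_ne_zero fun m _ => ?_
  rw [map_mul, map_pow]
  exact lt_of_le_of_lt ((mul_le_mul' le_rfl (pow_le_one' hz' m)).trans_eq (mul_one _)) (h m)

end gT6Aux

open gN6Aux gT6Aux in
theorem gT6 (hr : Rename1Stmt) (hg5 : GT5Stmt) (hg4 : GT4Stmt) : GT6Stmt := by
  classical
  intro k Ω _ _ _ _ 𝒱 hk harch M γ B tt h0tt F dF hF y hy0 H hHy hHF θ hθ hHθ hatt G δ hδ hG hGb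
  have hle1 : ∀ x : k, 𝒱.valuation (algebraMap k Ω x) ≤ 1 := fun x =>
    (𝒱.valuation_le_one_iff _).2 (hk x)
  have hθ0 : θ ≠ 0 := by
    intro h
    rw [h, map_zero] at hθ
    exact not_lt_zero hθ
  -- the root `ϖ`
  obtain ⟨ϖ, hϖ⟩ := IsAlgClosed.exists_pow_nat_eq θ⁻¹ (Nat.succ_pos B)
  have hϖ0 : ϖ ≠ 0 := by
    intro h
    rw [h, zero_pow (Nat.succ_ne_zero _)] at hϖ
    exact inv_ne_zero hθ0 hϖ.symm
  have hϖ1 : 𝒱.valuation ϖ < 1 := by
    by_contra h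
    have h1 : 1 ≤ 𝒱.valuation ϖ := not_lt.1 h
    have h2 : 1 ≤ 𝒱.valuation (ϖ ^ (B + 1)) := by
      rw [map_pow]
      exact one_le_pow_of_one_le' h1 _
    have h3 : 𝒱.valuation (ϖ ^ (B + 1)) < 1 := by
      have : ϖ ^ (B + 1) = θ⁻¹ := hϖ
      rw [this, map_inv₀]
      exact inv_lt_one_of_one_lt₀ hθ
    exact absurd h2 (not_le.2 h3)
  -- the truncation degree
  obtain ⟨n₁, hn₁⟩ := harch (δ * θ⁻¹) ϖ (mul_ne_zero hδ (inv_ne_zero hθ0)) hϖ1
  have harch2 : ∀ j : Fin γ, ∃ n : ℕ, 𝒱.valuation (ϖ ^ n) <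
      𝒱.valuation (δ ^ ((dF j).1 + (dF j).2) * (θ ^ ((dF j).1 + (dF j).2))⁻¹) := fun j =>
    harch _ ϖ (mul_ne_zero (pow_ne_zero _ hδ) (inv_ne_zero (pow_ne_zero _ hθ0))) hϖ1
  choose n₂ hn₂ using harch2
  obtain ⟨T, hT1, hT2, hT4⟩ : ∃ T : ℕ, n₁ ≤ T ∧ (∀ j, n₂ j ≤ T) ∧ B ≤ T :=
    ⟨n₁ + ∑ j, n₂ j + B, by omega, fun j => by
      have := Finset.single_le_sum (f := n₂) (fun _ _ => Nat.zero_le _) (Finset.mem_univ j)
      omega, by omega⟩
  have hs1 : ∀ m, T < m → 𝒱.valuation (δ⁻¹ * θ * ϖ ^ m) < 1 := by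
    intro m hm
    have h1 : 𝒱.valuation (δ⁻¹ * θ * ϖ ^ m) ≤ 𝒱.valuation (δ⁻¹ * θ * ϖ ^ n₁) :=
      val_le hϖ0 hϖ1 (by omega) _
    refine lt_of_le_of_lt h1 ?_
    have h2 : 0 < 𝒱.valuation (δ⁻¹ * θ) :=
      zero_lt_iff.2 ((Valuation.ne_zero_iff _).2 (mul_ne_zero (inv_ne_zero hδ) hθ0))
    have h3 := mul_lt_mul_of_pos_left hn₁ h2
    rw [← map_mul, ← map_mul] at h3
    have h4 : δ⁻¹ * θ * (δ * θ⁻¹) = 1 := by
      field_simp
    rwa [h4, map_one] at h3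
  have hs2 : ∀ (j : Fin γ) (m : ℕ), T < m →
      𝒱.valuation (θ ^ ((dF j).1 + (dF j).2) * ϖ ^ m) <
        𝒱.valuation (δ ^ ((dF j).1 + (dF j).2)) := by
    intro j m hm
    obtain ⟨d, hd⟩ : ∃ d, d = (dF j).1 + (dF j).2 := ⟨_, rfl⟩
    have hn₂' := hn₂ j
    have hT2' := hT2 j
    rw [← hd] at hn₂' ⊢
    have h1 : 𝒱.valuation (θ ^ d * ϖ ^ m) ≤ 𝒱.valuation (θ ^ d * ϖ ^ n₂ j) :=
      val_le hϖ0 hϖ1 (by omega) _
    refine lt_of_le_of_lt h1 ?_
    have h2 : 0 < 𝒱.valuation (θ ^ d) :=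
      zero_lt_iff.2 ((Valuation.ne_zero_iff _).2 (pow_ne_zero _ hθ0))
    have h3 := mul_lt_mul_of_pos_left hn₂' h2
    rw [← map_mul, ← map_mul] at h3
    have h4 : θ ^ d * (δ ^ d * (θ ^ d)⁻¹) = δ ^ d := by
      have := pow_ne_zero d hθ0
      field_simp
    rwa [h4] at h3
  -- the polynomials
  obtain ⟨P, hPdef⟩ : ∃ P : Fin (M + 1) → Polynomial Ω, P = fun l => tr ϖ T (H l) := ⟨_, rfl⟩
  have hPc : ∀ l m, (P l).coeff m = if m ≤ T then ϖ ^ m * PowerSeries.coeff m (H l) else 0 :=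
    fun l m => by rw [hPdef]; exact tr_coeff ϖ T (H l) m
  have hP0 : ∀ l, (P l).coeff 0 = algebraMap k Ω (y l) := by
    intro l
    rw [hPc, if_pos (Nat.zero_le _), pow_zero, one_mul, hHy]
  have hP00 : (P 0).coeff 0 = 1 := by rw [hP0, hy0, map_one]
  have hPb : ∀ l, Bnd 𝒱 ϖ θ (P l) := fun l => by rw [hPdef]; exact bnd_tr T (hHθ l)
  -- the coefficient of absolute value greater than one
  obtain ⟨l₁, m₁, hm₁, hatt⟩ := hatt
  have hPl₁ : 𝒱.valuation ((P l₁).coeff m₁) = 𝒱.valuation (θ * ϖ ^ m₁) := by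
    rw [hPc, if_pos (by omega), map_mul, map_mul, hatt, mul_comm]
  have hPl₁' : 1 < 𝒱.valuation ((P l₁).coeff m₁) := by
    rw [hPl₁]
    refine lt_of_lt_of_le ?_ (val_le hϖ0 hϖ1 hm₁ θ)
    have h1 : θ * ϖ ^ B = ϖ⁻¹ := by
      have h2 : ϖ ^ (B + 1) = θ⁻¹ := hϖ
      have h3 : θ * ϖ ^ B * ϖ = 1 := by
        rw [mul_assoc, ← pow_succ, h2, mul_inv_cancel₀ hθ0]
      exact eq_inv_of_mul_eq_one_left h3
    rw [h1, map_inv₀]
    exact (one_lt_inv₀ (zero_lt_iff.2 ((Valuation.ne_zero_iff _).2 hϖ0))).2 hϖ1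
  -- the disc
  have hBG : ∀ t, Bnd 𝒱 ϖ δ⁻¹ (tr ϖ T (G t)) := by
    intro t
    refine bnd_tr T fun m => ?_
    have h1 : PowerSeries.coeff m (G t) = PowerSeries.coeff m (G t) * δ * δ⁻¹ := by
      rw [mul_assoc, mul_inv_cancel₀ hδ, mul_one]
    rw [h1, map_mul]
    exact (mul_le_mul' (hGb t m) le_rfl).trans_eq (one_mul _)
  have hE : ∀ m, 𝒱.valuation ((∑ t : tt, tr ϖ T (G t) * P t - 1).coeff m) < 1 := by
    intro m
    by_cases hm : m ≤ T
    · have h1 : (∑ t : tt, tr ϖ T (G t) * P t - 1).coeff m = 0 := by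
        refine coeff_of_qm ?_ m hm
        have h2 : ((∑ t : tt, tr ϖ T (G t) * P t - 1 : Polynomial Ω) : PowerSeries Ω) =
            ∑ t : tt, (tr ϖ T (G t) : PowerSeries Ω) * (tr ϖ T (H t) : PowerSeries Ω) - 1 := by
          rw [hPdef]
          have h3 := map_sum (Polynomial.coeToPowerSeries.ringHom (R := Ω))
            (fun t : tt => tr ϖ T (G t) * tr ϖ T (H t)) Finset.univ
          simp only [Polynomial.coeToPowerSeries.ringHom_apply, Polynomial.coe_mul] at h3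
          rw [Polynomial.coe_sub, Polynomial.coe_one, h3]
        have h3 : ∑ t : tt, PowerSeries.rescale ϖ (G t) * PowerSeries.rescale ϖ (H t) = 1 := by
          have h4 := congrArg (PowerSeries.rescale ϖ) hG
          rw [map_sum, map_one] at h4
          simpa only [map_mul] using h4
        have h4 := congrArg (qm Ω T) h3
        rw [map_sum (qm Ω T)] at h4
        simp only [map_mul (qm Ω T)] at h4
        rw [h2, map_sub, map_sum (qm Ω T)]
        simp only [map_mul (qm Ω T), qm_tr]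
        rw [h4, sub_self]
      rw [h1, map_zero]
      exact zero_lt_one
    · have h1 : Bnd 𝒱 ϖ (δ⁻¹ * θ) (∑ t : tt, tr ϖ T (G t) * P t) :=
        bnd_sum _ _ _ fun t _ => (hBG t).mul (hPb t)
      rw [Polynomial.coeff_sub, Polynomial.coeff_one, if_neg (by omega), sub_zero]
      exact lt_of_le_of_lt (h1 m) (hs1 m (by omega))
  have hnz : ∀ z ∈ 𝒱, ∃ t : tt, 𝒱.valuation δ ≤ 𝒱.valuation ((P t).eval z) := by
    intro z hz
    by_contra hcon
    push Not at hcon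
    have h1 := eval_lt hz _ hE
    have h2 : 𝒱.valuation ((∑ t : tt, tr ϖ T (G t) * P t).eval z) < 1 := by
      rw [Polynomial.eval_finsetSum]
      refine 𝒱.valuation.map_sum_lt one_ne_zero fun t _ => ?_
      rw [Polynomial.eval_mul, map_mul]
      have h3 : 𝒱.valuation ((tr ϖ T (G t)).eval z) ≤ 𝒱.valuation δ⁻¹ := by
        refine eval_le hz _ fun m => ((hBG t) m).trans ?_
        have h4 := val_le (𝒱 := 𝒱) hϖ0 hϖ1 (Nat.zero_le m) δ⁻¹
        rwa [pow_zero, mul_one] at h4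
      have h5 : 0 < 𝒱.valuation δ⁻¹ :=
        zero_lt_iff.2 ((Valuation.ne_zero_iff _).2 (inv_ne_zero hδ))
      calc 𝒱.valuation ((tr ϖ T (G t)).eval z) * 𝒱.valuation ((P t).eval z) ≤
          𝒱.valuation δ⁻¹ * 𝒱.valuation ((P t).eval z) := mul_le_mul' h3 le_rfl
        _ < 𝒱.valuation δ⁻¹ * 𝒱.valuation δ := mul_lt_mul_of_pos_left (hcon t) h5
        _ = 1 := by rw [← map_mul, inv_mul_cancel₀ hδ, map_one]
    rw [Polynomial.eval_sub, Polynomial.eval_one] at h1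
    have h3 : 𝒱.valuation (1 : Ω) < 1 := by
      have h4 : (1 : Ω) = (∑ t : tt, tr ϖ T (G t) * P t).eval z -
          ((∑ t : tt, tr ϖ T (G t) * P t).eval z - 1) := by ring
      rw [h4]
      exact 𝒱.valuation.map_sub_lt h2 h1
    rw [map_one] at h3
    exact lt_irrefl _ h3
  have hdisc : DiscO 𝒱 F dF P (fun t : tt => P t) δ δ := by
    refine ⟨hδ, hδ, fun z hz => ?_, hnz, fun j m => ?_⟩
    · obtain ⟨t, ht⟩ := hnz z hz
      exact ⟨t, ht⟩
    · obtain ⟨hom, hev⟩ := hr k M tt (F j) (dF j) (hF j)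
      have e1 : aeval (Sum.elim P fun t : tt => P t) (F j) = aeval P
          (rename (Sum.elim id Subtype.val : Fin (M + 1) ⊕ tt → Fin (M + 1)) (F j)) := by
        rw [aeval_def, aeval_def, hev]
      have e2 : eval₂ ((PowerSeries.C : Ω →+* PowerSeries Ω).comp (algebraMap k Ω)) H
          (rename (Sum.elim id Subtype.val : Fin (M + 1) ⊕ tt → Fin (M + 1)) (F j)) = 0 := by
        rw [hev]
        exact hHF j
      rw [e1, ← pow_add]
      by_cases hm : m ≤ T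
      · have h1 := coeff_aeval ϖ T H _ e2 m hm
        rw [hPdef, h1, map_zero]
        exact zero_lt_iff.2 ((Valuation.ne_zero_iff _).2 (pow_ne_zero _ hδ))
      · exact lt_of_le_of_lt (bnd_aeval hk _ hom θ P hPb m) (hs2 j m (by omega))
  by_cases hA : ∃ l m, ∀ m', 𝒱.valuation ((P 0).coeff m') ≤
      𝒱.valuation ((P l - Polynomial.C (algebraMap k Ω (y l)) * P 0).coeff m)
  · -- CASE A
    refine hg5 k Ω 𝒱 hk M γ B tt h0tt F dF hF y hy0 P δ hdisc hP0 ⟨l₁, m₁, hm₁, ?_⟩ hA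
    intro l m hm
    rw [hPl₁]
    exact lt_of_le_of_lt (hPb l m) (val_lt hϖ0 hϖ1 (by omega) hθ0)
  · -- CASE B
    push Not at hA
    -- the last maximal coefficient of `P 0`
    obtain ⟨D₁, hD₁T, hD₁⟩ := Finset.exists_max_image (Finset.range (T + 1))
      (fun m => toLex (𝒱.valuation ((P 0).coeff m), m)) ⟨0, Finset.mem_range.2 (Nat.succ_pos _)⟩
    have hmax : ∀ m, 𝒱.valuation ((P 0).coeff m) ≤ 𝒱.valuation ((P 0).coeff D₁) := by
      intro m
      by_cases hm : m ≤ T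
      · have h1 := hD₁ m (Finset.mem_range.2 (by omega))
        rw [Prod.Lex.toLex_le_toLex] at h1
        rcases h1 with h1 | h1
        · exact h1.le
        · exact h1.1.le
      · rw [hPc 0 m, if_neg hm, map_zero]
        exact zero_le
    have hpos : 1 ≤ 𝒱.valuation ((P 0).coeff D₁) := by
      have h1 := hmax 0
      rwa [hP00, map_one] at h1
    have hmax' : ∀ m, D₁ < m → 𝒱.valuation ((P 0).coeff m) < 𝒱.valuation ((P 0).coeff D₁) := by
      intro m hm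
      by_cases hmT : m ≤ T
      · have h1 := hD₁ m (Finset.mem_range.2 (by omega))
        rw [Prod.Lex.toLex_le_toLex] at h1
        rcases h1 with h1 | h1
        · exact h1
        · exact absurd h1.2 (by simp only; omega)
      · rw [hPc 0 m, if_neg hmT, map_zero]
        exact lt_of_lt_of_le zero_lt_one hpos
    have hu : ∀ l m, 𝒱.valuation ((P l - Polynomial.C (algebraMap k Ω (y l)) * P 0).coeff m) <
        𝒱.valuation ((P 0).coeff D₁) := by
      intro l m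
      obtain ⟨m', hm'⟩ := hA l m
      exact lt_of_lt_of_le hm' (hmax m')
    have hPle : ∀ l m, 𝒱.valuation ((P l).coeff m) ≤ 𝒱.valuation ((P 0).coeff D₁) := by
      intro l m
      have h1 : (P l).coeff m = (P l - Polynomial.C (algebraMap k Ω (y l)) * P 0).coeff m +
          algebraMap k Ω (y l) * (P 0).coeff m := by
        rw [Polynomial.coeff_sub, Polynomial.coeff_C_mul, sub_add_cancel]
      rw [h1]
      refine 𝒱.valuation.map_add_le (hu l m).le ?_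
      rw [map_mul]
      exact (mul_le_mul' (hle1 _) (hmax m)).trans_eq (one_mul _)
    have hgt : 1 < 𝒱.valuation ((P 0).coeff D₁) := lt_of_lt_of_le hPl₁' (hPle l₁ m₁)
    have hD₁B : D₁ ≤ B := by
      by_contra hcon
      have hcon : B < D₁ := not_le.1 hcon
      have h1 := lt_of_le_of_lt (hPb 0 D₁) (val_lt hϖ0 hϖ1 (show m₁ < D₁ by omega) hθ0)
      rw [← hPl₁] at h1
      exact absurd h1 (not_lt.2 (hPle l₁ m₁))
    exact hg4 k Ω 𝒱 hk M γ B D₁ tt h0tt hD₁B F dF hF y hy0 P δ hdisc hP00 hu hmax hmax' hgt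

end Pool.Agent.Lib.MP_410da7_agT
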