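import Pool.Agent.Lib.MP_410da7_agT.SpecG
import Pool.Agent.Lib.MP_410da7_agB.GN7

/-!
# MP_410da7_ag, T2, GT7: the bubble for the curve (helper58)

After `MP_410da7_agB/GN7.lean`.
-/

set_option autoImplicit false

namespace Pool.Agent.Lib.MP_410da7_agT

open Pool.Agent.Lib.MP_410da7_agA Pool.Agent.Lib.MP_410da7_agB
open MvPolynomial Module

namespace gT7Aux

theorem exists_delta' {Ω : Type} [Field Ω] (𝒱 : ValuationSubring Ω) {I : Type} [Finite I]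
    (f : I → Ω) : ∃ δ : Ω, δ ≠ 0 ∧ ∀ i, 𝒱.valuation (f i * δ) ≤ 1 := by
  let g : Option I → Ω := fun o => o.elim 1 f
  obtain ⟨o, ho⟩ := Finite.exists_max (fun o => 𝒱.valuation (g o))
  have h1 : 𝒱.valuation 1 ≤ 𝒱.valuation (g o) := ho none
  have h0 : g o ≠ 0 := by
    intro h
    rw [h, map_zero, map_one] at h1
    exact absurd h1 (not_le.2 zero_lt_one)
  have h2 : ∀ o', 𝒱.valuation (g o' * (g o)⁻¹) ≤ 1 := by
    intro o'
    rw [map_mul, map_inv₀]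
    have h3 : 𝒱.valuation (g o) ≠ 0 := (Valuation.ne_zero_iff _).2 h0
    calc 𝒱.valuation (g o') * (𝒱.valuation (g o))⁻¹ ≤
        𝒱.valuation (g o) * (𝒱.valuation (g o))⁻¹ := mul_le_mul_left (ho o') _
      _ = 1 := mul_inv_cancel₀ h3
  exact ⟨(g o)⁻¹, inv_ne_zero h0, fun i => h2 (some i)⟩

end gT7Aux

open EvW g4Aux gN7Aux gT7Aux in
theorem gT7 (hgn1 : GN1Stmt) (hg1n : G1NStmt) (ho3 : O3Stmt) (hr : Rename1Stmt)
    (hgt6 : GT6Stmt) : GT7Stmt := by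
  classical
  intro k Λ _ _ _ _ C M κ D b B γ F tt htt0 Q dQ hQ hrel Y hY0 P R hR0 hRP hPfin hYP hYR hatt c hc
    hPc hnum ω hω hωL 𝔓 hp hmx hne hFP hpush
  obtain ⟨Ω, _, _, _, s, 𝒱, hs, hk, ⟨v₁, hv₁⟩, harch⟩ :=
    hgn1 k (Fin (M + 1) × Fin D) 𝔓 hp hmx hne
  have hP0 : ∀ w, 0 ≤ P w := fun w => (hR0 w).trans (hRP w)
  have hωP : ∀ j, ω j ∈ C.L P := fun j => L_sub_le C P c (hωL j)
  have hRc : ∀ i, R (c i) = 0 := fun i => by
    have h1 := hR0 (c i)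
    have h2 := hRP (c i)
    rw [hPc] at h2
    omega
  let _ : Algebra k (IsLocalRing.ResidueField 𝒱) :=
    ((IsLocalRing.residue 𝒱).comp ((algebraMap k Ω).codRestrict 𝒱.toSubring hk)).toAlgebra
  -- the maximal coordinate
  have : Nonempty (Fin (M + 1) × Fin D) := ⟨v₁⟩
  obtain ⟨v₀, hv₀⟩ := Finite.exists_max (fun v => 𝒱.valuation (s v))
  have hθ : 1 < 𝒱.valuation (s v₀) := by
    have h2 : ¬ 𝒱.valuation (s v₁) ≤ 1 := fun h => hv₁ ((𝒱.valuation_le_one_iff _).1 h)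
    exact lt_of_lt_of_le (not_le.1 h2) (hv₀ v₁)
  have hθ0 : s v₀ ≠ 0 := by
    intro h0
    rw [h0, map_zero] at hθ
    exact not_lt_zero hθ
  have hρmem : ∀ j, s (v₀.1, j) / s v₀ ∈ 𝒱 := by
    intro j
    rw [← 𝒱.valuation_le_one_iff, map_div₀]
    exact div_le_one_of_le₀ (hv₀ _) zero_le
  have hρne : (fun j => IsLocalRing.residue 𝒱 ⟨s (v₀.1, j) / s v₀, hρmem j⟩) ≠ 0 := by
    intro h
    have h1 := congrFun h v₀.2
    have h2 : (⟨s (v₀.1, v₀.2) / s v₀, hρmem v₀.2⟩ : 𝒱) = 1 := Subtype.ext (div_self hθ0)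
    simp only [Pi.zero_apply] at h1
    rw [h2, map_one] at h1
    exact one_ne_zero h1
  -- the bad points
  obtain ⟨S₁, hS₁⟩ : ∃ S₁ : Finset (Fin b), S₁ = Finset.univ.filter fun i => ∀ m : ℕ, 1 ≤ m →
    m ≤ B → ∑ j, IsLocalRing.residue 𝒱 ⟨s (v₀.1, j) / s v₀, hρmem j⟩ *
      algebraMap k (IsLocalRing.ResidueField 𝒱) (C.cf (c i) m (ω j)) = 0 := ⟨_, rfl⟩
  have hc1 : (((B + 1) * S₁.card : ℕ) : ℤ) ≤ ∑ᶠ w, P w := by
    refine hg1n k Λ (IsLocalRing.ResidueField 𝒱) C D b B P P hP0 hPfin c hc hPc hPc ω hω hωL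
      (fun j => IsLocalRing.residue 𝒱 ⟨s (v₀.1, j) / s v₀, hρmem j⟩) hρne ?_ S₁ ?_
    · intro w i hi
      refine Finset.sum_eq_zero fun j _ => ?_
      have : C.cf w i (ω j) = 0 := hωP j w i hi
      rw [this, map_zero, mul_zero]
    · intro i hi m h1 h2
      rw [hS₁, Finset.mem_filter] at hi
      exact hi.2 m h1 h2
  obtain ⟨i, hi⟩ : ∃ i : Fin b, i ∉ S₁ := by
    by_contra h
    push Not at h
    have h1 : (Finset.univ : Finset (Fin b)) ⊆ S₁ := fun i _ => h i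
    have h2 := Finset.card_le_card h1
    rw [Finset.card_univ, Fintype.card_fin] at h2
    have h3 : (((B + 1) * b : ℕ) : ℤ) ≤ (((B + 1) * S₁.card : ℕ) : ℤ) := by
      exact_mod_cast Nat.mul_le_mul_left _ h2
    have h4 : (((B + 1) * b : ℕ) : ℤ) = (B + 1) * b := by push_cast; ring
    rw [h4] at h3
    linarith
  -- regularity at the points `c i`
  have hYi : ∀ l, ∀ i' < 0, C.cf (c i) i' (Y l) = 0 := by
    intro l i' hi'
    apply hYP l (c i) i'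
    rw [hPc, neg_zero]
    exact hi'
  have hωi : ∀ j, ∀ i' < 1, C.cf (c i) i' (ω j) = 0 := by
    intro j i' hi'
    apply hωL j (c i) i'
    rw [Pi.sub_apply, hPc, ptDiv_apply hc]
    omega
  obtain ⟨m₂, n, β, γ', hβ, hid⟩ := ho3 k Λ Ω C M D tt P R Y htt0 hR0 hRP hPfin hY0 hYR hatt ω hωP s
    (fun q hq => hmx ((hs q).2 hq)) (fun t ht w i hi => (hs _).1 (hpush t ht w i hi))
  obtain ⟨δ, hδ, hδ'⟩ := exists_delta' 𝒱 (fun x : tt × Fin n => γ' x.1 x.2)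
  have hβi : ∀ i₁, ∀ i' < 0, C.cf (c i) i' (β i₁) = 0 := by
    intro i₁ i' hi'
    apply hβ i₁ (c i) i'
    rw [Pi.smul_apply, hRc, smul_zero, neg_zero]
    exact hi'
  have hi2 : ∃ m : ℕ, 1 ≤ m ∧ m ≤ B ∧
      ∑ j, IsLocalRing.residue 𝒱 ⟨s (v₀.1, j) / s v₀, hρmem j⟩ *
        algebraMap k (IsLocalRing.ResidueField 𝒱) (C.cf (c i) m (ω j)) ≠ 0 := by
    by_contra h
    push Not at h
    apply hi
    rw [hS₁, Finset.mem_filter]
    exact ⟨Finset.mem_univ _, h⟩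
  obtain ⟨m, hm1, hmB, hm⟩ := hi2
  have hcf0 : ∀ l, PowerSeries.coeff 0 (Hs C (c i) s Y ω l) =
      algebraMap k Ω (C.cf (c i) 0 (Y l)) := by
    intro l
    rw [Hs_coeff, Finset.sum_eq_zero, add_zero]
    · rfl
    · intro j _
      have : C.cf (c i) ((0 : ℕ) : ℤ) (ω j) = 0 := hωi j _ (by simp)
      rw [this, map_zero, mul_zero]
  have hy0 : C.cf (c i) 0 (Y 0) = 1 := by
    rw [hY0]
    change (C.exp (c i) 1).coeff 0 = 1
    rw [map_one, HahnSeries.coeff_one, if_pos rfl]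
  have hω0 : ∀ j, ∀ i' < 0, C.cf (c i) i' (ω j) = 0 := fun j i' hi' =>
    hωi j i' (by omega)
  have hone : ∑ t : tt, gs Ω C (c i) β (γ' t) * Hs C (c i) s Y ω t = 1 := by
    apply HahnSeries.ofPowerSeries_injective (Γ := ℤ)
    rw [map_sum, map_one, ← hid (c i)]
    refine Finset.sum_congr rfl fun t _ => ?_
    rw [map_mul, gs_of C (c i) β (γ' t) hβi s, ofPowerSeries_Hs C (c i) s Y ω t (hYi t) hω0]
  have hH0 : Hs C (c i) s Y ω 0 ≠ 0 := by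
    intro h
    have h1 := hcf0 0
    rw [h, hy0, map_zero, map_one] at h1
    exact zero_ne_one h1
  have hQH : ∀ j, eval₂ ((PowerSeries.C : Ω →+* PowerSeries Ω).comp (algebraMap k Ω))
      (Sum.elim (Hs C (c i) s Y ω) fun t : tt => Hs C (c i) s Y ω t) (Q j) = 0 := by
    intro j
    obtain ⟨N, hN⟩ := hrel j
    have h1 : Ideal.span (Set.range F) ≤ RingHom.ker (eval₂Hom
        ((PowerSeries.C : Ω →+* PowerSeries Ω).comp (algebraMap k Ω)) (Hs C (c i) s Y ω)) := by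
      rw [Ideal.span_le]
      rintro _ ⟨j', rfl⟩
      change eval₂Hom _ _ (F j') = 0
      exact eval_Hs C (c i) s Y ω hYi hω0 (F j')
        (ev_ext C (c i) s (fun q hq => (hs q).1 hq) (hFP j'))
    have h2 := h1 hN
    rw [RingHom.mem_ker, map_mul, map_pow, coe_eval₂Hom, eval₂_X,
      (hr k M tt (Q j) (dQ j) (hQ j)).2] at h2
    exact (mul_eq_zero.1 h2).resolve_left (pow_ne_zero _ hH0)
  exact ⟨i, hgt6 k Ω 𝒱 hk harch M γ B tt htt0 Q dQ hQ (fun l => C.cf (c i) 0 (Y l)) hy0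
    (Hs C (c i) s Y ω) hcf0 hQH (s v₀) hθ
    (fun l m => Hs_bd 𝒱 hk C (c i) s Y ω l (s v₀) hθ.le (fun j => hv₀ _) m)
    ⟨v₀.1, m, hmB, Hs_att 𝒱 hk C (c i) s Y ω v₀.1 (s v₀) hθ0 hθ hρmem m hm⟩
    (fun t => gs Ω C (c i) β (γ' t)) δ hδ hone
    (fun t m => gs_bd 𝒱 hk C (c i) β (γ' t) δ (fun i₁ => hδ' (t, i₁)) m)⟩

end Pool.Agent.Lib.MP_410da7_agT
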