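import Pool.Agent.Lib.MP_410da7_agT.SpecH
import Pool.Agent.Lib.MP_410da7_agA.L.DL5

/-!
# MP_410da7_ag, T2: block HLT, the local rings of the two embeddings
-/

set_option autoImplicit false

namespace Pool.Agent.Lib.MP_410da7_agT

open Pool.Agent.Lib.MP_410da7_agA Pool.Agent.Lib.MP_410da7_agB
open MvPolynomial KaehlerDifferential WithZero Module

open dL5Aux in
/-- HLT. -/
theorem hLT : HLTStmt := by
  classical
  intro K _ _ n M s d₀ Mw Y G ω W tt b v z lam hG hv hW hY
  have hYb : Y b ≠ 0 := hY.reg.ne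
  have hω := hW.ne
  have hsum : ∀ m, ∑ i, ((if i = b then d₀ else 0) + if i = m then 1 else 0) = d₀ + 1 := by
    intro m
    rw [Finset.sum_add_distrib, Finset.sum_ite_eq' Finset.univ b, if_pos (Finset.mem_univ _),
      Finset.sum_ite_eq' Finset.univ m, if_pos (Finset.mem_univ _)]
  have hprod : ∀ (Z : Fin (M + 1) → K) m,
      ∏ i, Z i ^ ((if i = b then d₀ else 0) + if i = m then 1 else 0) = Z b ^ d₀ * Z m := by
    intro Z m
    have h1 : ∀ i, Z i ^ ((if i = b then d₀ else 0) + if i = m then 1 else 0) =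
        (if i = b then Z i ^ d₀ else 1) * if i = m then Z i else 1 := by
      intro i
      rw [pow_add]
      congr 1
      · split_ifs
        · rfl
        · exact pow_zero _
      · split_ifs
        · exact pow_one _
        · exact pow_zero _
    rw [Finset.prod_congr rfl fun i _ => h1 i, Finset.prod_mul_distrib,
      Finset.prod_ite_eq' Finset.univ b, if_pos (Finset.mem_univ _),
      Finset.prod_ite_eq' Finset.univ m, if_pos (Finset.mem_univ _)]
  obtain ⟨b', hb'⟩ := hW.mon _ (hsum b)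
  rw [hprod, ← pow_succ] at hb'
  have hYb1 : Y b ^ (d₀ + 1) ≠ 0 := pow_ne_zero _ hYb
  have hWb : W b' ≠ 0 := by
    intro h0
    rw [h0, zero_mul] at hb'
    exact hYb1 hb'.symm
  have hq : ∀ l, W l / W b' = (W l * ω) / Y b ^ (d₀ + 1) := by
    intro l
    rw [← hb', mul_div_mul_right _ _ hω]
  have haff : aff Y b b = 1 := div_self hYb
  have hmon : ∀ l (β : Fin (M + 1) → ℕ), ∑ i, β i = d₀ + 1 → W l * ω = ∏ i, Y i ^ β i →
      W l / W b' = ∏ i, aff Y b i ^ β i := by
    intro l β hβ hl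
    rw [hq, hl, ← hβ, ← Finset.prod_pow_eq_pow_sum, ← Finset.prod_div_distrib]
    exact Finset.prod_congr rfl fun i _ => (div_pow _ _ _).symm
  have hsec : ∀ l j m, W l * ω = aeval Y (G j) * Y m →
      W l / W b' = aeval (aff Y b) (G j) * aff Y b m := by
    intro l j m hl
    rw [hq, hl, ng_hom_aeval (hG j) hYb]
    show _ = _ * (Y m / Y b)
    field_simp
    ring
  have hmonmem : ∀ β : Fin (M + 1) → ℕ, ∏ i, aff Y b i ^ β i ∈ locRing Y b v := fun β =>
    Subalgebra.prod_mem _ fun i _ => Subalgebra.pow_mem _ (aff_mem Y b v i) _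
  have hGmem : ∀ j, aeval (aff Y b) (G j) ∈ locRing Y b v := by
    intro j
    obtain ⟨g, hg, h1⟩ := hY.bdl j
    rw [h1]
    exact Subalgebra.mul_mem _ hg (Subalgebra.prod_mem _ fun i _ =>
      Subalgebra.pow_mem _ (hY.reg.mem i) _)
  have hWmem : ∀ l, W l / W b' ∈ locRing Y b v := by
    intro l
    rcases hW.all l with ⟨β, hβ, hl⟩ | ⟨j, m, hl⟩
    · rw [hmon l β hβ hl]
      exact hmonmem β
    · rw [hsec l j m hl]
      exact Subalgebra.mul_mem _ (hGmem j) (aff_mem Y b v m)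
  have hle1 : ∀ g ∈ locRing Y b v, v g ≤ 1 := fun g hg =>
    ng_locRing_le hv hYb hY.reg.max hg
  have hEq : locRing W b' v = locRing Y b v := by
    apply le_antisymm
    · exact loc_le W b' v _ hWmem (fun g hg hg1 => inv_mem Y b v hg hg1)
    · refine loc_le Y b v _ ?_ (fun g hg hg1 => inv_mem W b' v hg hg1)
      intro m
      obtain ⟨l, hl⟩ := hW.mon _ (hsum m)
      have h1 : Y m / Y b = W l / W b' := by
        rw [hmon l _ (hsum m) hl, hprod, haff, one_pow, one_mul]
        rfl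
      rw [h1]
      exact aff_mem W b' v l
  refine ⟨b', ⟨hWb, ?_, ?_, ?_⟩, ?_, ?_⟩
  · intro l
    have h1 := hle1 _ (hWmem l)
    rw [map_div₀] at h1
    have h2 : 0 < v (W b') := (Valuation.pos_iff v).2 hWb
    exact (div_le_one₀ h2).1 h1
  · intro i
    rw [hEq]
    exact hY.reg.mem i
  · exact coord_of_eq _ _ z hEq hY.reg.coord
  · intro t ht
    obtain ⟨j, m, hl⟩ := hW.sec' t ht
    obtain ⟨g, hg, h1⟩ := hY.bdl j
    refine ⟨g * aff Y b m, ?_, ?_⟩
    · rw [hEq]
      exact Subalgebra.mul_mem _ hg (aff_mem Y b v m)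
    · rw [hsec t j m hl, h1]
      ring
  · obtain ⟨j, u, hu, hu1, h1⟩ := hY.bdu
    obtain ⟨t, ht, hl⟩ := hW.sec j b
    refine ⟨t, ht, ?_⟩
    rw [hsec t j b hl, haff, mul_one, h1, map_mul, hu1, one_mul]

end Pool.Agent.Lib.MP_410da7_agT
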