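import Pool.Agent.Lib.MP_410da7_agT.SpecH
import Pool.Agent.Lib.MP_410da7_agB.AssemblyH

/-!
# MP_410da7_ag, T2: block HNT, the negative family for the second embedding
-/

set_option autoImplicit false

namespace Pool.Agent.Lib.MP_410da7_agT

open Pool.Agent.Lib.MP_410da7_agA Pool.Agent.Lib.MP_410da7_agB
open MvPolynomial KaehlerDifferential WithZero Module

open asmAux in
/-- HNT. -/
theorem hNT (hL : HLTStmt) (hS : HSTStmt) : HNTStmt := by
  classical
  intro K _ _ n M s d₀ Mw m₀ e₀ Ψ Y G ω W tt hG hY0 hW hloc L Λ _ _ _ _ _ _ _ _ a hN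
  have hω := hW.ne
  have hω' : algebraMap K Λ ω ≠ 0 := (map_ne_zero _).2 hω
  refine ⟨?_, hN.e0, ?_, hN.trdeg, hN.fg, hN.gen, ?_⟩
  · exact Nat.one_le_iff_ne_zero.2 (Nat.mul_ne_zero (by omega) (by have := hN.m0; omega))
  · exact div_ne_zero (pow_ne_zero _ hN.a0) (pow_ne_zero _ hω')
  · intro w hw
    have hv : Triv (w.comap (algebraMap K Λ)) := DAux.triv_comap hw
    obtain ⟨b, p, z, lam, hat, hch, h1⟩ := hloc _ hv
    obtain ⟨b', h2⟩ := hL K n M s d₀ Mw Y G ω W tt b _ _ lam hG hv hW h1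
    have h3 := (hS K M s d₀ Mw Y G ω W tt hG hY0 hW).1 _ hv
    have h4 := hN.neg w hw b p z lam hat hch
    rw [← neg_iff Ψ w _ lam h1.ne0] at h4
    refine ⟨b', fun i => (z i : K), lam, h2, ?_⟩
    have hωw : w (algebraMap K Λ ω) ≠ 0 := (Valuation.ne_zero_iff w).2 hω'
    rw [map_div₀, map_pow, map_pow, le_div_iff₀ (zero_lt_iff.2 (pow_ne_zero _ hωw))]
    have h5 : (w.comap (algebraMap K Λ)) ω = w (algebraMap K Λ ω) := rfl
    rw [h5] at h3
    calc size W (w.comap (algebraMap K Λ)) ^ e₀ *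
          kSize Ψ (w.comap (algebraMap K Λ)) (fun i => (z i : K)) lam ^ ((d₀ + 1) * m₀) *
          w (algebraMap K Λ ω) ^ e₀
        = (size W (w.comap (algebraMap K Λ)) * w (algebraMap K Λ ω)) ^ e₀ *
          kSize Ψ (w.comap (algebraMap K Λ)) (fun i => (z i : K)) lam ^ ((d₀ + 1) * m₀) := by
          rw [mul_pow, mul_right_comm]
      _ = (vmax Y (w.comap (algebraMap K Λ)) ^ e₀ *
          kSize Ψ (w.comap (algebraMap K Λ)) (fun i => (z i : K)) lam ^ m₀) ^ (d₀ + 1) := by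
          rw [h3, mul_pow, ← pow_mul, ← pow_mul, ← pow_mul, mul_comm (d₀ + 1) e₀,
            mul_comm (d₀ + 1) m₀]
      _ ≤ w a ^ (d₀ + 1) := pow_le_pow_left' h4 _

end Pool.Agent.Lib.MP_410da7_agT
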