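import Pool.Agent.Lib.MP_410da7_agT.SpecH

/-!
# MP_410da7_ag, T2: block HST, sizes and generators of the second embedding
-/

set_option autoImplicit false

namespace Pool.Agent.Lib.MP_410da7_agT

open Pool.Agent.Lib.MP_410da7_agA Pool.Agent.Lib.MP_410da7_agB
open MvPolynomial KaehlerDifferential WithZero Module

theorem hST : HSTStmt := by
  classical
  intro K _ _ M s d₀ Mw Y G ω W tt hG hY0 hW
  have hω := hW.ne
  have hsum : ∀ b m : Fin (M + 1),
      ∑ i, ((if i = b then d₀ else 0) + if i = m then 1 else 0) = d₀ + 1 := by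
    intro b m
    rw [Finset.sum_add_distrib, Finset.sum_ite_eq' Finset.univ b, if_pos (Finset.mem_univ _),
      Finset.sum_ite_eq' Finset.univ m, if_pos (Finset.mem_univ _)]
  have hprod : ∀ b m : Fin (M + 1),
      ∏ i, Y i ^ ((if i = b then d₀ else 0) + if i = m then 1 else 0) = Y b ^ d₀ * Y m := by
    intro b m
    have h1 : ∀ i, Y i ^ ((if i = b then d₀ else 0) + if i = m then 1 else 0) =
        (if i = b then Y i ^ d₀ else 1) * if i = m then Y i else 1 := by
      intro i
      rw [pow_add]
      congr 1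
      · split_ifs
        · rfl
        · exact pow_zero _
      · split_ifs
        · exact pow_one _
        · exact pow_zero _
    rw [Finset.prod_congr rfl fun i _ => h1 i, Finset.prod_mul_distrib,
      Finset.prod_ite_eq' Finset.univ b, if_pos (Finset.mem_univ _),
      Finset.prod_ite_eq' Finset.univ m, if_pos (Finset.mem_univ _)]
  have hidx : ∀ b m : Fin (M + 1), ∃ l, W l * ω = Y b ^ d₀ * Y m := by
    intro b m
    obtain ⟨l, hl⟩ := hW.mon _ (hsum b m)
    exact ⟨l, by rw [hl, hprod]⟩
  constructor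
  · intro v hv
    obtain ⟨b, hb⟩ := Finite.exists_max fun l => v (Y l)
    have hvm : vmax Y v = v (Y b) := by
      rw [vmax]
      exact le_antisymm (Finset.sup_le fun i _ => hb i)
        (Finset.le_sup (f := fun i => v (Y i)) (Finset.mem_univ b))
    have hYb : Y b ≠ 0 := by
      intro h0
      have h1 := hb 0
      rw [h0, map_zero, hY0, map_one] at h1
      exact absurd h1 (not_le.2 zero_lt_one)
    have hGle : ∀ j, v (aeval Y (G j)) ≤ v (Y b) ^ d₀ := by
      intro j
      rw [ng_hom_aeval (hG j) hYb, map_mul, map_pow]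
      exact mul_le_of_le_one_right' (ng_aeval_le hv _ (ng_aff_le hYb hb) (G j))
    have hle : ∀ l, v (W l) * v ω ≤ v (Y b) ^ (d₀ + 1) := by
      intro l
      rw [← map_mul]
      rcases hW.all l with ⟨β, hβ, hl⟩ | ⟨j, m, hl⟩
      · rw [hl, map_prod, ← hβ, ← Finset.prod_pow_eq_pow_sum]
        refine Finset.prod_le_prod' fun i _ => ?_
        rw [map_pow]
        exact pow_le_pow_left' (hb i) _
      · rw [hl, map_mul, pow_succ]
        exact mul_le_mul' (hGle j) (hb m)
    rw [hvm]
    have hωv : 0 < v ω := (Valuation.pos_iff v).2 hω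
    refine le_antisymm ?_ ?_
    · rw [← le_div_iff₀ hωv, size]
      refine sup_le (Finset.sup_le fun l _ => ?_) ?_
      · rw [le_div_iff₀ hωv]
        exact hle l
      · rw [le_div_iff₀ hωv]
        have h1 := hle 0
        rw [hW.W0, map_one] at h1
        exact h1
    · obtain ⟨l, hl⟩ := hidx b b
      have h1 : v (Y b) ^ (d₀ + 1) = v (W l) * v ω := by
        rw [← map_mul, hl, ← pow_succ, map_pow]
      rw [h1]
      refine mul_le_mul' ?_ le_rfl
      rw [size]
      exact (Finset.le_sup (f := fun l => v (W l)) (Finset.mem_univ l)).trans le_sup_left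
  · intro hgen
    rw [eq_top_iff, ← hgen, IntermediateField.adjoin_le_iff]
    rintro _ ⟨m, rfl⟩
    obtain ⟨l, hl⟩ := hidx 0 m
    obtain ⟨l₀, hl₀⟩ := hidx 0 0
    rw [hY0, one_pow, one_mul] at hl
    rw [hY0, one_pow, one_mul] at hl₀
    have h1 : Y m = W l / W l₀ := by
      have h2 : W l₀ ≠ 0 := by
        intro h0
        rw [h0, zero_mul] at hl₀
        exact zero_ne_one hl₀
      rw [eq_div_iff h2, ← hl]
      linear_combination (W l) * hl₀
    rw [h1]
    exact div_mem (IntermediateField.subset_adjoin _ _ ⟨l, rfl⟩)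
      (IntermediateField.subset_adjoin _ _ ⟨l₀, rfl⟩)

end Pool.Agent.Lib.MP_410da7_agT
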