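import Pool.Agent.Lib.MP_410da7_agT.SpecH

/-!
# MP_410da7_ag, T2 (C46 without nefness): HTA, the curve alpha gives a curve which misses `D`
-/

set_option autoImplicit false

namespace Pool.Agent.Lib.MP_410da7_agT

open Pool.Agent.Lib.MP_410da7_agA Pool.Agent.Lib.MP_410da7_agB
open Pool.Agent.Lib.MP_410da7_agV (Line hom_smul)
open MvPolynomial (aeval IsHomogeneous)
open Polynomial

namespace hTAAux

/-- The product of the powers with the exponents of `Z_b^d Z_m`. -/
lemma prodPow {M : ℕ} {R : Type} [CommRing R] (Z : Fin (M + 1) → R) (d : ℕ) (b m : Fin (M + 1)) :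
    ∏ i, Z i ^ ((if i = b then d else 0) + (if i = m then 1 else 0)) = Z b ^ d * Z m := by
  simp only [pow_add]
  rw [Finset.prod_mul_distrib]
  congr 1
  · rw [Finset.prod_eq_single b]
    · rw [if_pos rfl]
    · intro i _ hi
      rw [if_neg hi, pow_zero]
    · intro h
      exact absurd (Finset.mem_univ b) h
  · rw [Finset.prod_eq_single m]
    · rw [if_pos rfl, pow_one]
    · intro i _ hi
      rw [if_neg hi, pow_zero]
    · intro h
      exact absurd (Finset.mem_univ m) h

/-- The sum of these exponents. -/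
lemma sumExp {M : ℕ} (d : ℕ) (b m : Fin (M + 1)) :
    ∑ i : Fin (M + 1), ((if i = b then d else 0) + (if i = m then 1 else 0)) = d + 1 := by
  rw [Finset.sum_add_distrib, Finset.sum_ite_eq' , Finset.sum_ite_eq', if_pos (Finset.mem_univ _),
    if_pos (Finset.mem_univ _)]

end hTAAux

open hTAAux in
theorem hTA (hv : HVStmt) : HTAStmt := by
  intro K _ _ M s d₀ Mw Y G ω W tt hG hY0 hW Ω' _ _ ι Yp hrel hmiss hc0 hnp
  have hYp0 : Yp 0 ≠ 0 := by
    intro h
    have h1 := hc0 0
    rw [h, Polynomial.coeff_zero, hW.W0, map_one] at h1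
    exact zero_ne_one h1
  obtain ⟨h, V, c, hh, hc, hVrel, hmon, hsec⟩ :=
    hv K M s d₀ Mw Y G ω W tt hG hW Ω' Yp hrel ⟨0, hYp0⟩
  have hi : ∀ m : Fin (M + 1), ∃ l, W l * ω = Y m ∧ Yp l = h * (V 0 ^ d₀ * V m) := by
    intro m
    obtain ⟨l, hl⟩ := hW.mon _ (sumExp d₀ 0 m)
    refine ⟨l, ?_, ?_⟩
    · rw [hl, prodPow, hY0, one_pow, one_mul]
    · rw [hmon l _ (sumExp d₀ 0 m) hl, prodPow]
  choose i hWi hYi using hi
  -- the values at `0`
  set q : Ω' := h.coeff 0 * (V 0).coeff 0 ^ d₀ * ι ω with hq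
  have hcp : ∀ (p : Ω'[X]) (n : ℕ), (p ^ n).coeff 0 = p.coeff 0 ^ n := by
    intro p n
    rw [Polynomial.coeff_zero_eq_eval_zero, Polynomial.coeff_zero_eq_eval_zero,
      Polynomial.eval_pow]
  have hVc : ∀ m, q * (V m).coeff 0 = ι (Y m) := by
    intro m
    have h1 := hc0 (i m)
    rw [hYi m, Polynomial.mul_coeff_zero, Polynomial.mul_coeff_zero, hcp] at h1
    rw [← hWi m, map_mul, ← h1, hq]
    ring
  have hq1 : q * (V 0).coeff 0 = 1 := by
    rw [hVc, hY0, map_one]
  have hV0 : (V 0).coeff 0 ≠ 0 := by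
    intro h
    rw [h, mul_zero] at hq1
    exact zero_ne_one hq1
  have hgen : ∀ (d : ℕ) (P : MvPolynomial (Fin (M + 1)) ℂ), P.IsHomogeneous d →
      aeval (fun l => (V l).coeff 0) P = 0 → aeval Y P = 0 := by
    intro d P hP h0
    have h1 : aeval (fun l => ι (Y l)) P = 0 := by
      have h2 : (fun l => ι (Y l)) = fun l => q * (V l).coeff 0 :=
        funext fun l => (hVc l).symm
      rw [h2, hom_smul _ _ hP, h0, mul_zero]
    have h2 := MvPolynomial.comp_aeval_apply (R := ℂ) ι (f := Y) P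
    rw [h1] at h2
    exact (map_eq_zero_iff ι ι.toRingHom.injective).1 h2
  refine ⟨V, ⟨hVrel, isUnit_iff_ne_zero.2 hV0, ?_, ?_⟩, hgen⟩
  · -- not constant
    by_contra hcon
    push Not at hcon
    have h1 : ∀ l, V l * Polynomial.C ((V 0).coeff 0) = Polynomial.C ((V l).coeff 0) * V 0 := by
      intro l
      ext j
      rw [Polynomial.coeff_mul_C, Polynomial.coeff_C_mul]
      have h2 := hcon l j
      rw [isUnit_iff_ne_zero, not_not, sub_eq_zero] at h2
      rw [h2, mul_comm]
    let ρ : K →ₐ[ℂ] Ω'[X] := (IsScalarTower.toAlgHom ℂ Ω' Ω'[X]).comp ι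
    have hρ : ∀ x : K, ρ x = Polynomial.C (ι x) := fun _ => rfl
    have h2 : ∀ l, V l = V 0 * ρ (Y l) := by
      intro l
      have h3 : Polynomial.C q * Polynomial.C ((V 0).coeff 0) = (1 : Ω'[X]) := by
        rw [← Polynomial.C_mul, hq1, Polynomial.C_1]
      rw [hρ, ← hVc l, Polynomial.C_mul]
      linear_combination (- V l) * h3 + Polynomial.C q * h1 l
    have h3 : ∀ l, Yp l = ρ (W l * ω) * (h * V 0 ^ (d₀ + 1)) := by
      intro l
      rcases hW.all l with ⟨β, hβ, hl⟩ | ⟨j, m, hl⟩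
      · rw [hmon l β hβ hl, hl, map_prod]
        have h4 : ∀ i, V i ^ β i = V 0 ^ β i * ρ (Y i) ^ β i := by
          intro i
          rw [← mul_pow, ← h2 i]
        rw [Finset.prod_congr rfl fun i _ => h4 i, Finset.prod_mul_distrib,
          Finset.prod_pow_eq_pow_sum, hβ]
        simp only [map_pow]
        ring
      · rw [hsec l j m hl, hl, map_mul]
        have h4 : aeval V (G j) = V 0 ^ d₀ * ρ (aeval Y (G j)) := by
          have h5 : V = fun l => V 0 * ρ (Y l) := funext h2
          have h6 := hom_smul (fun l => ρ (Y l)) (V 0) (hG j)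
          rw [← h5] at h6
          rw [h6]
          congr 1
          exact (MvPolynomial.comp_aeval_apply (R := ℂ) ρ (f := Y) (G j)).symm
        rw [h4, h2 m]
        ring
    obtain ⟨l, hl⟩ := hnp
    apply hl
    rw [h3 l, h3 0, hW.W0, one_mul, map_mul, ← hρ]
    ring
  · -- the curve misses `D`
    obtain ⟨b, hb⟩ := hmiss
    have h1 : (1 : Ω'[X]) ∈ Ideal.span (Set.range fun j => aeval V (G j)) := by
      rw [← hb]
      refine Ideal.sum_mem _ fun t _ => ?_
      obtain ⟨j, m, hjm⟩ := hW.sec' t t.2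
      rw [hsec t j m hjm]
      have h2 : b t * (h * (aeval V (G j) * V m)) = (b t * h * V m) * aeval V (G j) := by ring
      rw [h2]
      exact Ideal.mul_mem_left _ _ (Ideal.subset_span ⟨j, rfl⟩)
    exact Ideal.mem_span_range_iff_exists_fun.1 h1

end Pool.Agent.Lib.MP_410da7_agT
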