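import Pool.Agent.Lib.MP_410da7_agT.SpecG

/-!
# MP_410da7_ag, T2: bihomogeneous polynomials
-/

set_option autoImplicit false

namespace Pool.Agent.Lib.MP_410da7_agT

open MvPolynomial

namespace biHom

variable {k : Type} [CommSemiring k] {ι₁ ι₂ κ₁ κ₂ : Type}

theorem prod_scale {A : Type} [CommSemiring A] (a b : A) (m : ι₁ ⊕ ι₂ →₀ ℕ) :
    (m.prod fun x n => (Sum.elim (fun _ : ι₁ => a) (fun _ : ι₂ => b) x) ^ n) =
      a ^ (Finsupp.weight (wt2 (ι₁ := ι₁) (ι₂ := ι₂)) m).1 *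
        b ^ (Finsupp.weight (wt2 (ι₁ := ι₁) (ι₂ := ι₂)) m).2 := by
  classical
  induction m using Finsupp.induction_linear with
  | zero => simp
  | add f g hf hg =>
    rw [Finsupp.prod_add_index' (fun _ => pow_zero _) (fun _ _ _ => pow_add _ _ _), hf, hg,
      map_add, Prod.fst_add, Prod.snd_add, pow_add, pow_add]
    ring
  | single x n =>
    rw [Finsupp.prod_single_index (by exact pow_zero _), Finsupp.weight_single]
    rcases x with x | x
    · simp [wt2]
    · simp [wt2]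

/-- Scaling the two groups of variables. -/
theorem scale {A : Type} [CommSemiring A] (f : k →+* A) (a b : A) (v : ι₁ → A) (u : ι₂ → A)
    {Q : MvPolynomial (ι₁ ⊕ ι₂) k} {d : ℕ × ℕ} (hQ : BiH Q d) :
    eval₂ f (Sum.elim (fun l => a * v l) (fun l => b * u l)) Q =
      a ^ d.1 * b ^ d.2 * eval₂ f (Sum.elim v u) Q := by
  rw [eval₂_eq, eval₂_eq, Finset.mul_sum]
  refine Finset.sum_congr rfl fun m hm => ?_
  have h1 : Finsupp.weight (wt2 (ι₁ := ι₁) (ι₂ := ι₂)) m = d := hQ (mem_support_iff.1 hm)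
  have h2 : ∏ i ∈ m.support, (Sum.elim (fun l => a * v l) (fun l => b * u l) i) ^ m i =
      (∏ i ∈ m.support, (Sum.elim (fun _ : ι₁ => a) (fun _ : ι₂ => b) i) ^ m i) *
        ∏ i ∈ m.support, (Sum.elim v u i) ^ m i := by
    rw [← Finset.prod_mul_distrib]
    refine Finset.prod_congr rfl fun i _ => ?_
    rw [← mul_pow]
    congr 1
    rcases i with i | i
    · rfl
    · rfl
  have h3 : ∏ i ∈ m.support, (Sum.elim (fun _ : ι₁ => a) (fun _ : ι₂ => b) i) ^ m i =
      a ^ d.1 * b ^ d.2 := by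
    rw [← h1]
    exact prod_scale a b m
  rw [h2, h3]
  ring

/-- Scaling, for `aeval`. -/
theorem scale_aeval {k A : Type} [CommSemiring k] [CommSemiring A] [Algebra k A] (a b : A)
    (v : ι₁ → A) (u : ι₂ → A) {Q : MvPolynomial (ι₁ ⊕ ι₂) k} {d : ℕ × ℕ} (hQ : BiH Q d) :
    aeval (Sum.elim (fun l => a * v l) (fun l => b * u l)) Q =
      a ^ d.1 * b ^ d.2 * aeval (Sum.elim v u) Q :=
  scale (algebraMap k A) a b v u hQ

/-- Bihomogeneous polynomials and `rename`. -/
theorem weight_mapDomain {σ τ : Type} (g : σ → τ) (w : τ → ℕ × ℕ) (m : σ →₀ ℕ) :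
    Finsupp.weight w (m.mapDomain g) = Finsupp.weight (fun x => w (g x)) m := by
  classical
  rw [Finsupp.weight_apply, Finsupp.weight_apply, Finsupp.sum_mapDomain_index]
  · intro _
    exact zero_smul _ _
  · intro _ _ _
    exact add_smul _ _ _

theorem rename_wh {σ τ : Type} (g : σ → τ) (w : τ → ℕ × ℕ) {P : MvPolynomial σ k} {d : ℕ × ℕ}
    (hP : IsWeightedHomogeneous (fun x => w (g x)) P d) :
    IsWeightedHomogeneous w (rename g P) d := by
  classical
  intro m hm
  obtain ⟨u, hu, hu0⟩ := coeff_rename_ne_zero g P m hm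
  rw [← hu, weight_mapDomain]
  exact hP hu0

theorem biH_rename (f : ι₁ → κ₁) (g : ι₂ → κ₂) {P : MvPolynomial (ι₁ ⊕ ι₂) k} {d : ℕ × ℕ}
    (hP : BiH P d) : BiH (rename (Sum.map f g) P) d := by
  refine rename_wh _ _ ?_
  have h1 : (fun x : ι₁ ⊕ ι₂ => wt2 (ι₁ := κ₁) (ι₂ := κ₂) (Sum.map f g x)) = wt2 := by
    funext x
    rcases x with x | x
    · rfl
    · rfl
  rw [h1]
  exact hP

theorem weight_fst (m : ι₁ →₀ ℕ) :
    Finsupp.weight (fun _ : ι₁ => ((1, 0) : ℕ × ℕ)) m = (m.degree, 0) := by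
  classical
  induction m using Finsupp.induction_linear with
  | zero => rw [map_zero, map_zero]; rfl
  | add f g hf hg => rw [map_add, hf, hg, map_add]; rfl
  | single x n => rw [Finsupp.weight_single, Finsupp.degree_single]; simp

theorem weight_snd (m : ι₂ →₀ ℕ) :
    Finsupp.weight (fun _ : ι₂ => ((0, 1) : ℕ × ℕ)) m = (0, m.degree) := by
  classical
  induction m using Finsupp.induction_linear with
  | zero => rw [map_zero, map_zero]; rfl
  | add f g hf hg => rw [map_add, hf, hg, map_add]; rfl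
  | single x n => rw [Finsupp.weight_single, Finsupp.degree_single]; simp

theorem degree_eq {σ : Type} {P : MvPolynomial σ k} {n : ℕ} (hP : P.IsHomogeneous n)
    {m : σ →₀ ℕ} (hm : coeff m P ≠ 0) : m.degree = n := by
  have h1 := hP hm
  rw [Finsupp.degree_eq_weight_one]
  exact h1

/-- A homogeneous polynomial in the first group of variables. -/
theorem biH_inl {P : MvPolynomial ι₁ k} {n : ℕ} (hP : P.IsHomogeneous n) :
    BiH (rename (Sum.inl : ι₁ → ι₁ ⊕ ι₂) P) (n, 0) := by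
  refine rename_wh _ _ ?_
  intro m hm
  have h1 : (fun x : ι₁ => wt2 (ι₁ := ι₁) (ι₂ := ι₂) (Sum.inl x)) = fun _ => (1, 0) := rfl
  rw [h1, weight_fst, degree_eq hP hm]

/-- A homogeneous polynomial in the second group of variables. -/
theorem biH_inr {P : MvPolynomial ι₂ k} {n : ℕ} (hP : P.IsHomogeneous n) :
    BiH (rename (Sum.inr : ι₂ → ι₁ ⊕ ι₂) P) (0, n) := by
  refine rename_wh _ _ ?_
  intro m hm
  have h1 : (fun x : ι₂ => wt2 (ι₁ := ι₁) (ι₂ := ι₂) (Sum.inr x)) = fun _ => (0, 1) := rfl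
  rw [h1, weight_snd, degree_eq hP hm]

theorem biH_Xl (i : ι₁) : BiH (X (Sum.inl i) : MvPolynomial (ι₁ ⊕ ι₂) k) (1, 0) :=
  isWeightedHomogeneous_X k _ _

theorem biH_Xr (i : ι₂) : BiH (X (Sum.inr i) : MvPolynomial (ι₁ ⊕ ι₂) k) (0, 1) :=
  isWeightedHomogeneous_X k _ _

/-- Base change. -/
theorem biH_map {k' : Type} [CommSemiring k'] (f : k →+* k') {P : MvPolynomial (ι₁ ⊕ ι₂) k}
    {d : ℕ × ℕ} (hP : BiH P d) : BiH (map f P) d := by
  intro m hm
  refine hP fun h => hm ?_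
  rw [coeff_map, h, map_zero]

theorem weight_sum (m : ι₁ ⊕ ι₂ →₀ ℕ) :
    (Finsupp.weight (wt2 (ι₁ := ι₁) (ι₂ := ι₂)) m).1 +
      (Finsupp.weight (wt2 (ι₁ := ι₁) (ι₂ := ι₂)) m).2 = m.degree := by
  classical
  induction m using Finsupp.induction_linear with
  | zero => simp
  | add f g hf hg =>
    rw [map_add, map_add, Prod.fst_add, Prod.snd_add, ← hf, ← hg]
    ring
  | single x n =>
    rw [Finsupp.weight_single, Finsupp.degree_single]
    rcases x with x | x
    · simp [wt2]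
    · simp [wt2]

/-- Forgetting the second grading. -/
theorem isHomogeneous {P : MvPolynomial (ι₁ ⊕ ι₂) k} {d : ℕ × ℕ} (hP : BiH P d) :
    P.IsHomogeneous (d.1 + d.2) := by
  intro m hm
  have h1 := hP hm
  rw [← h1, weight_sum, Finsupp.degree_eq_weight_one]
  rfl

end biHom

open biHom in
theorem rename1 : Rename1Stmt := by
  intro k _ M tt Q d hQ
  refine ⟨(isHomogeneous hQ).rename_isHomogeneous, fun A _ f v => ?_⟩
  rw [eval₂_rename]
  congr 1
  funext x
  rcases x with x | x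
  · rfl
  · rfl

end Pool.Agent.Lib.MP_410da7_agT
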