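import Pool.Agent.Lib.MP_410da7_agT.SpecH
import Pool.Agent.Lib.MP_410da7_agT.BiHom
import Pool.Agent.Lib.MP_410da7_agB.GN5

/-!
# MP_410da7_ag, T2: the curve beta gives a rational curve `E` in `D` with `H · E < 0`
-/

set_option autoImplicit false

namespace Pool.Agent.Lib.MP_410da7_agT

open Pool.Agent.Lib.MP_410da7_agA Pool.Agent.Lib.MP_410da7_agB
open MvPolynomial Module

namespace hTBAux

/-- The monomial `Y_b^d Y_m`. -/
theorem prod_single {A : Type} [CommMonoid A] {M : ℕ} (f : Fin (M + 1) → A) (b m : Fin (M + 1))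
    (d : ℕ) : ∏ i, f i ^ (Pi.single b d + Pi.single m 1 : Fin (M + 1) → ℕ) i = f b ^ d * f m := by
  classical
  simp only [Pi.add_apply, pow_add, Finset.prod_mul_distrib]
  congr 1
  · rw [Finset.prod_eq_single b]
    · rw [Pi.single_eq_same]
    · intro j _ hj
      rw [Pi.single_eq_of_ne hj, pow_zero]
    · intro h; exact absurd (Finset.mem_univ _) h
  · rw [Finset.prod_eq_single m]
    · rw [Pi.single_eq_same, pow_one]
    · intro j _ hj
      rw [Pi.single_eq_of_ne hj, pow_zero]
    · intro h; exact absurd (Finset.mem_univ _) h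

theorem sum_single {M : ℕ} (b m : Fin (M + 1)) (d : ℕ) :
    ∑ i, (Pi.single b d + Pi.single m 1 : Fin (M + 1) → ℕ) i = d + 1 := by
  classical
  simp only [Pi.add_apply, Finset.sum_add_distrib, Finset.sum_pi_single', Finset.mem_univ,
    if_true]

end hTBAux

open hTBAux in
theorem hTB (hv : HVStmt) : HTBStmt := by
  classical
  intro K _ _ M s d₀ Mw Y G ω W tt hG hY0 hW F _ _ V' U' e hrel hcV' hcU' hdeg ht₁
  obtain ⟨c', hc'⟩ := hcV'
  obtain ⟨cU, hcU⟩ := hcU'
  obtain ⟨t₁, ht₁⟩ := ht₁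
  have hω := hW.ne
  -- the relations of the first group
  have hrel1 : ∀ (n : ℕ) (P : MvPolynomial (Fin (Mw + 1)) ℂ), P.IsHomogeneous n →
      aeval W P = 0 → aeval V' P = 0 := by
    intro n P hP h0
    have h1 := hrel (n, 0) (rename Sum.inl P) (biHom.biH_inl hP) (by
      rw [aeval_rename, Sum.elim_comp_inl]
      exact h0)
    rwa [aeval_rename, Sum.elim_comp_inl] at h1
  have hV'0 : ∃ l, V' l ≠ 0 := by
    by_contra h
    push Not at h
    rw [Finset.sum_eq_zero fun l _ => by rw [h l, mul_zero]] at hc'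
    exact zero_ne_one hc'
  obtain ⟨h, V, c, hh, hcV, hVrel, hmon, hsec⟩ := hv K M s d₀ Mw Y G ω W tt hG hW F V' hrel1 hV'0
  -- `h` is a constant
  have hunit : IsUnit h := by
    have hd : ∀ l, h ∣ V' l := by
      intro l
      rcases hW.all l with ⟨β, hβ, hl⟩ | ⟨j, m, hl⟩
      · exact ⟨_, hmon l β hβ hl⟩
      · exact ⟨_, hsec l j m hl⟩
    rw [isUnit_iff_dvd_one, ← hc']
    exact Finset.dvd_sum fun l _ => Dvd.dvd.mul_left (hd l) _
  have hdegh : h.natDegree = 0 := Polynomial.natDegree_eq_zero_of_isUnit hunit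
  -- the indices
  have hix : ∀ b m : Fin (M + 1), ∃ l, W l * ω = Y b ^ d₀ * Y m := by
    intro b m
    obtain ⟨l, hl⟩ := hW.mon _ (sum_single b m d₀)
    exact ⟨l, by rw [hl, prod_single]⟩
  choose ix hix using hix
  have hVix : ∀ b m, V' (ix b m) = h * (V b ^ d₀ * V m) := by
    intro b m
    rw [hmon (ix b m) _ (sum_single b m d₀) (by rw [hix, prod_single]), prod_single]
  choose tj htj htj' using hW.sec
  have hVtj : ∀ j m, V' (tj j m) = h * (aeval V (G j) * V m) := fun j m =>
    hsec _ j m (htj' j m)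
  obtain ⟨b, hb⟩ : ∃ b, V b ≠ 0 := by
    by_contra h1
    push Not at h1
    rw [Finset.sum_eq_zero fun l _ => by rw [h1 l, mul_zero]] at hcV
    exact zero_ne_one hcV
  -- the proportionality of the second group
  have hprop : ∀ (t t' : tt) (j : Fin (s + 1)) (m m' : Fin (M + 1)),
      W t * ω = aeval Y (G j) * Y m → W t' * ω = aeval Y (G j) * Y m' →
      U' t * V m' = U' t' * V m := by
    intro t t' j m m' ht ht'
    have h1 := hrel (1, 1) (X (Sum.inr t) * X (Sum.inl (ix b m')) -
      X (Sum.inr t') * X (Sum.inl (ix b m)))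
      ((((biHom.biH_Xr t).mul (biHom.biH_Xl (ix b m')))).sub
        ((biHom.biH_Xr t').mul (biHom.biH_Xl (ix b m)))) (by
      simp only [map_sub, map_mul, aeval_X, Sum.elim_inl, Sum.elim_inr]
      apply mul_right_cancel₀ (mul_ne_zero hω hω)
      rw [zero_mul]
      linear_combination (W (ix b m') * ω) * ht + (aeval Y (G j) * Y m) * hix b m' -
        (W (ix b m) * ω) * ht' - (aeval Y (G j) * Y m') * hix b m)
    simp only [map_sub, map_mul, aeval_X, Sum.elim_inl, Sum.elim_inr] at h1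
    rw [hVix, hVix] at h1
    have h2 : h * V b ^ d₀ ≠ 0 := mul_ne_zero hh (pow_ne_zero _ hb)
    apply mul_left_cancel₀ h2
    linear_combination h1
  -- the second group
  let U : Fin (s + 1) → Polynomial F := fun j => ∑ m, c m * U' ⟨tj j m, htj j m⟩
  have hU : ∀ (t : tt) (j : Fin (s + 1)) (m : Fin (M + 1)), W t * ω = aeval Y (G j) * Y m →
      U' t = U j * V m := by
    intro t j m ht
    calc U' t = U' t * ∑ m', c m' * V m' := by rw [hcV, mul_one]
      _ = ∑ m', c m' * (U' t * V m') := by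
          rw [Finset.mul_sum]
          exact Finset.sum_congr rfl fun m' _ => by ring
      _ = ∑ m', c m' * (U' ⟨tj j m', htj j m'⟩ * V m) := by
          refine Finset.sum_congr rfl fun m' _ => ?_
          rw [hprop t ⟨tj j m', htj j m'⟩ j m m' ht (htj' j m')]
      _ = U j * V m := by
          simp only [U]
          rw [Finset.sum_mul]
          exact Finset.sum_congr rfl fun m' _ => by ring
  have hcU2 : ∃ c₂ : Fin (s + 1) → Polynomial F, ∑ j, c₂ j * U j = 1 := by
    have h1 : (1 : Polynomial F) ∈ Ideal.span (Set.range U) := by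
      rw [← hcU]
      refine Ideal.sum_mem _ fun t _ => Ideal.mul_mem_left _ _ ?_
      obtain ⟨j, m, ht⟩ := hW.sec' t t.2
      rw [hU t j m ht]
      exact Ideal.mul_mem_right _ _ (Ideal.subset_span ⟨j, rfl⟩)
    exact Ideal.mem_span_range_iff_exists_fun.1 h1
  obtain ⟨c₂, hc₂⟩ := hcU2
  -- the degrees
  obtain ⟨lD, hlD⟩ := Finite.exists_max fun l => (V l).natDegree
  have hD : (d₀ + 1) * (V lD).natDegree < e := by
    by_cases h0 : V lD = 0
    · rw [h0, Polynomial.natDegree_zero, mul_zero]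
      exact lt_of_le_of_lt (Nat.zero_le _) (hdeg 0)
    · have h1 := hdeg (ix lD lD)
      rw [hVix, ← pow_succ, Polynomial.natDegree_mul hh (pow_ne_zero _ h0), hdegh, zero_add,
        Polynomial.natDegree_pow] at h1
      exact h1
  obtain ⟨j₁, m₁, hj₁⟩ := hW.sec' t₁ t₁.2
  have hUt₁ := hU t₁ j₁ m₁ hj₁
  have hUt₁0 : U' t₁ ≠ 0 := fun h1 => ht₁ (by rw [h1, Polynomial.coeff_zero])
  have hUj₁ : U j₁ ≠ 0 := fun h1 => hUt₁0 (by rw [hUt₁, h1, zero_mul])
  have hVm₁ : V m₁ ≠ 0 := fun h1 => hUt₁0 (by rw [hUt₁, h1, mul_zero])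
  have hdegU : d₀ * (V lD).natDegree < (U j₁).natDegree := by
    have h1 : e ≤ (U' t₁).natDegree := Polynomial.le_natDegree_of_ne_zero ht₁
    rw [hUt₁, Polynomial.natDegree_mul hUj₁ hVm₁] at h1
    have h2 := hlD m₁
    have h3 : (d₀ + 1) * (V lD).natDegree = d₀ * (V lD).natDegree + (V lD).natDegree := by ring
    omega
  -- the curve is in `D`
  have hGrel : ∀ j j', U j * aeval V (G j') = U j' * aeval V (G j) := by
    intro j j'
    have h1 := hrel (1, 1) (X (Sum.inr (⟨tj j b, htj j b⟩ : tt)) * X (Sum.inl (tj j' b)) -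
      X (Sum.inr (⟨tj j' b, htj j' b⟩ : tt)) * X (Sum.inl (tj j b)))
      ((((biHom.biH_Xr _).mul (biHom.biH_Xl _))).sub ((biHom.biH_Xr _).mul (biHom.biH_Xl _)))
      (by
        simp only [map_sub, map_mul, aeval_X, Sum.elim_inl, Sum.elim_inr]
        ring)
    simp only [map_sub, map_mul, aeval_X, Sum.elim_inl, Sum.elim_inr] at h1
    rw [hVtj, hVtj, hU ⟨tj j b, htj j b⟩ j b (htj' j b), hU ⟨tj j' b, htj j' b⟩ j' b (htj' j' b)]
      at h1
    have h2 : h * V b ^ 2 ≠ 0 := mul_ne_zero hh (pow_ne_zero _ hb)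
    apply mul_left_cancel₀ h2
    linear_combination h1
  have hGV : ∀ j', aeval V (G j') = U j' * ∑ j, c₂ j * aeval V (G j) := by
    intro j'
    calc aeval V (G j') = (∑ j, c₂ j * U j) * aeval V (G j') := by rw [hc₂, one_mul]
      _ = ∑ j, c₂ j * (U j * aeval V (G j')) := by
          rw [Finset.sum_mul]
          exact Finset.sum_congr rfl fun j _ => by ring
      _ = _ := by
          rw [Finset.mul_sum]
          refine Finset.sum_congr rfl fun j _ => ?_
          rw [hGrel j j']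
          ring
  have hq0 : ∑ j, c₂ j * aeval V (G j) = 0 := by
    by_contra hq
    have h1 := gN5Aux.natDegree_aeval (hG j₁) V (B := (V lD).natDegree) hlD
    rw [hGV j₁, Polynomial.natDegree_mul hUj₁ hq] at h1
    omega
  -- the relations
  refine ⟨V, U, ⟨fun d P hP h0 => ?_, ⟨c, hcV⟩, ⟨c₂, hc₂⟩⟩, fun j => ?_, j₁, fun l => ?_⟩
  · have h1 := hrel d (rename (Sum.map (ix b) fun j => (⟨tj j b, htj j b⟩ : tt)) P)
      (biHom.biH_rename _ _ hP) (by
      rw [aeval_rename]
      have h2 : (Sum.elim W (fun t : tt => W t) ∘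
          Sum.map (ix b) fun j => (⟨tj j b, htj j b⟩ : tt)) =
          Sum.elim (fun l => Y b ^ d₀ / ω * Y l) (fun j => Y b / ω * aeval Y (G j)) := by
        funext x
        rcases x with x | x
        · change W (ix b x) = Y b ^ d₀ / ω * Y x
          rw [div_mul_eq_mul_div, ← hix b x, mul_div_cancel_right₀ _ hω]
        · change W (tj x b) = Y b / ω * aeval Y (G x)
          rw [div_mul_eq_mul_div, mul_comm (Y b), ← htj' x b, mul_div_cancel_right₀ _ hω]
      rw [h2, biHom.scale_aeval _ _ _ _ hP, h0, mul_zero])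
    rw [aeval_rename] at h1
    have h2 : (Sum.elim V' U' ∘ Sum.map (ix b) fun j => (⟨tj j b, htj j b⟩ : tt)) =
        Sum.elim (fun l => h * V b ^ d₀ * V l) (fun j => V b * U j) := by
      funext x
      rcases x with x | x
      · change V' (ix b x) = h * V b ^ d₀ * V x
        rw [hVix, mul_assoc]
      · change U' ⟨tj x b, htj x b⟩ = V b * U x
        rw [hU _ x b (htj' x b), mul_comm]
    rw [h2, biHom.scale_aeval _ _ _ _ hP] at h1
    refine (mul_eq_zero.1 h1).resolve_left ?_
    exact mul_ne_zero (pow_ne_zero _ (mul_ne_zero hh (pow_ne_zero _ hb))) (pow_ne_zero _ hb)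
  · rw [hGV j, hq0, mul_zero]
  · exact lt_of_le_of_lt (Nat.mul_le_mul_left _ (hlD l)) hdegU

end Pool.Agent.Lib.MP_410da7_agT
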