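import Pool.Agent.Lib.MP_410da7_agT.SpecH

/-!
# MP_410da7_ag, T2: block HTC, from an extension field of `ℂ` to `ℂ`
-/

set_option autoImplicit false

namespace Pool.Agent.Lib.MP_410da7_agT

open MvPolynomial

namespace hTCns

theorem exists_point (A : Type) [CommRing A] [Nontrivial A] [Algebra ℂ A]
    [Algebra.FiniteType ℂ A] : Nonempty (A →ₐ[ℂ] ℂ) := by
  obtain ⟨m, hm⟩ := Ideal.exists_maximal A
  let _ : Field (A ⧸ m) := Ideal.Quotient.field m
  have : Algebra.FiniteType ℂ (A ⧸ m) :=
    Algebra.FiniteType.of_surjective (Ideal.Quotient.mkₐ ℂ m) (Ideal.Quotient.mkₐ_surjective ℂ m)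
  have : Module.Finite ℂ (A ⧸ m) := finite_of_finite_type_of_isJacobsonRing ℂ (A ⧸ m)
  have hb : Function.Bijective (algebraMap ℂ (A ⧸ m)) :=
    IsAlgClosed.algebraMap_bijective_of_isIntegral
  let e : ℂ ≃ₐ[ℂ] (A ⧸ m) := AlgEquiv.ofBijective (Algebra.ofId ℂ (A ⧸ m)) hb
  exact ⟨(e.symm : (A ⧸ m) →ₐ[ℂ] ℂ).comp (Ideal.Quotient.mkₐ ℂ m)⟩

theorem aeval_map {A B : Type} [CommRing A] [Algebra ℂ A] [CommRing B] [Algebra ℂ B]
    (g : A →ₐ[ℂ] B) {ι : Type} (W : ι → Polynomial A) (P : MvPolynomial ι ℂ) :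
    aeval (fun l => (W l).map (g : A →+* B)) P = (aeval W P).map (g : A →+* B) :=
  (MvPolynomial.comp_aeval_apply (R := ℂ) (Polynomial.mapAlgHom g) (f := W) P).symm

theorem elim_map {A B : Type} [CommRing A] [CommRing B] (g : A →+* B) {ι₁ ι₂ : Type}
    (V : ι₁ → Polynomial A) (U : ι₂ → Polynomial A) :
    (Sum.elim (fun l => (V l).map g) fun j => (U j).map g) =
      fun i => (Sum.elim V U i).map g := by
  funext i
  cases i <;> rfl

end hTCns

open hTCns

/-- HTC. -/
theorem hTC : HTCStmt := by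
  intro K _ _ M s d₀ Y G hN F _ _ V U hR hD j
  classical
  by_cases hj : U j = 0
  · exact ⟨0, by rw [hj, Polynomial.natDegree_zero]; exact Nat.zero_le _⟩
  obtain ⟨c, hc⟩ := hR.cV
  obtain ⟨c', hc'⟩ := hR.cU
  let S : Set F := (⋃ l, ((V l).coeffs : Set F)) ∪ (⋃ l, ((U l).coeffs : Set F)) ∪
    ((⋃ l, ((c l).coeffs : Set F)) ∪ (⋃ l, ((c' l).coeffs : Set F))) ∪ {((U j).leadingCoeff)⁻¹}
  have hSfin : S.Finite := by
    refine Set.Finite.union (Set.Finite.union (Set.Finite.union ?_ ?_)
      (Set.Finite.union ?_ ?_)) (Set.finite_singleton _)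
    all_goals exact Set.finite_iUnion fun l => Finset.finite_toSet _
  let A : Subalgebra ℂ F := Algebra.adjoin ℂ S
  have hA : Algebra.FiniteType ℂ A :=
    (Subalgebra.fg_iff_finiteType _).mp (Subalgebra.fg_def.2 ⟨S, hSfin, rfl⟩)
  have hSA : S ⊆ A := Algebra.subset_adjoin
  have hlift : ∀ p : Polynomial F, (p.coeffs : Set F) ⊆ S →
      ∃ q : Polynomial A, q.map (A.val : A →+* F) = p := by
    intro p hp
    have h1 : p ∈ Polynomial.lifts (A.val : A →+* F) := by
      rw [Polynomial.lifts_iff_coeff_lifts]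
      intro n
      by_cases h0 : p.coeff n = 0
      · exact ⟨0, by rw [map_zero, h0]⟩
      · exact ⟨⟨p.coeff n, hSA (hp (Polynomial.coeff_mem_coeffs h0))⟩, rfl⟩
    exact (Polynomial.mem_lifts p).1 h1
  have hV : ∀ l, ∃ q : Polynomial A, q.map (A.val : A →+* F) = V l := fun l =>
    hlift _ fun y hy => Or.inl (Or.inl (Or.inl (Set.mem_iUnion.2 ⟨l, hy⟩)))
  have hU : ∀ l, ∃ q : Polynomial A, q.map (A.val : A →+* F) = U l := fun l =>
    hlift _ fun y hy => Or.inl (Or.inl (Or.inr (Set.mem_iUnion.2 ⟨l, hy⟩)))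
  have hcA : ∀ l, ∃ q : Polynomial A, q.map (A.val : A →+* F) = c l := fun l =>
    hlift _ fun y hy => Or.inl (Or.inr (Or.inl (Set.mem_iUnion.2 ⟨l, hy⟩)))
  have hcA' : ∀ l, ∃ q : Polynomial A, q.map (A.val : A →+* F) = c' l := fun l =>
    hlift _ fun y hy => Or.inl (Or.inr (Or.inr (Set.mem_iUnion.2 ⟨l, hy⟩)))
  choose VA hVA using hV
  choose UA hUA using hU
  choose cA hcA using hcA
  choose cA' hcA' using hcA'
  have hinj : Function.Injective (A.val : A →+* F) := Subtype.coe_injective
  have hpinj : Function.Injective (Polynomial.map (A.val : A →+* F)) :=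
    Polynomial.map_injective _ hinj
  have hVe : V = fun l => (VA l).map (A.val : A →+* F) := funext fun l => (hVA l).symm
  have hUe : U = fun l => (UA l).map (A.val : A →+* F) := funext fun l => (hUA l).symm
  obtain ⟨g⟩ := exists_point A
  obtain ⟨l, hl⟩ := hN (fun l => (VA l).map (g : A →+* ℂ)) (fun l => (UA l).map (g : A →+* ℂ))
    { rel := by
        intro d P hP h0
        have h1 := hR.rel d P hP h0
        rw [hVe, hUe, elim_map, aeval_map] at h1
        have h2 : aeval (Sum.elim VA UA) P = 0 := hpinj (by rw [h1, Polynomial.map_zero])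
        rw [elim_map, aeval_map, h2, Polynomial.map_zero]
      cV := by
        refine ⟨fun l => (cA l).map (g : A →+* ℂ), ?_⟩
        have h1 : ∑ l, cA l * VA l = 1 := hpinj (by
          rw [Polynomial.map_sum, Polynomial.map_one, ← hc]
          refine Finset.sum_congr rfl fun l _ => ?_
          rw [Polynomial.map_mul, hcA, hVA])
        have h2 := congrArg (Polynomial.map (g : A →+* ℂ)) h1
        rw [Polynomial.map_sum, Polynomial.map_one] at h2
        rw [← h2]
        refine Finset.sum_congr rfl fun l _ => ?_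
        rw [Polynomial.map_mul]
      cU := by
        refine ⟨fun l => (cA' l).map (g : A →+* ℂ), ?_⟩
        have h1 : ∑ l, cA' l * UA l = 1 := hpinj (by
          rw [Polynomial.map_sum, Polynomial.map_one, ← hc']
          refine Finset.sum_congr rfl fun l _ => ?_
          rw [Polynomial.map_mul, hcA', hUA])
        have h2 := congrArg (Polynomial.map (g : A →+* ℂ)) h1
        rw [Polynomial.map_sum, Polynomial.map_one] at h2
        rw [← h2]
        refine Finset.sum_congr rfl fun l _ => ?_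
        rw [Polynomial.map_mul] }
    (by
      intro i
      have h1 := hD i
      rw [hVe, aeval_map] at h1
      have h2 : aeval VA (G i) = 0 := hpinj (by rw [h1, Polynomial.map_zero])
      rw [aeval_map, h2, Polynomial.map_zero]) j
  refine ⟨l, ?_⟩
  have hVl : (VA l).natDegree = (V l).natDegree := by
    rw [← hVA l]
    exact (Polynomial.natDegree_map_eq_of_injective hinj _).symm
  have hUj : (UA j).natDegree = (U j).natDegree := by
    rw [← hUA j]
    exact (Polynomial.natDegree_map_eq_of_injective hinj _).symm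
  have h1 : ((VA l).map (g : A →+* ℂ)).natDegree ≤ (V l).natDegree := by
    rw [← hVl]
    exact Polynomial.natDegree_map_le
  have hunit : IsUnit (UA j).leadingCoeff := by
    have h2 : ((UA j).leadingCoeff : F) = (U j).leadingCoeff := by
      have h3 : (U j).coeff (U j).natDegree = (((UA j).coeff (U j).natDegree : A) : F) := by
        conv_lhs => rw [← hUA j]
        rw [Polynomial.coeff_map, Polynomial.natDegree_map_eq_of_injective hinj]
        rw [← hUj]
        rfl
      rw [Polynomial.leadingCoeff, Polynomial.leadingCoeff, h3, hUj]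
    have h3 : ((U j).leadingCoeff)⁻¹ ∈ A := hSA (Or.inr rfl)
    refine IsUnit.of_mul_eq_one ⟨_, h3⟩ ?_
    apply Subtype.ext
    show ((UA j).leadingCoeff : F) * ((U j).leadingCoeff)⁻¹ = 1
    rw [h2, mul_inv_cancel₀ (Polynomial.leadingCoeff_ne_zero.2 hj)]
  have h4 : ((UA j).map (g : A →+* ℂ)).natDegree = (U j).natDegree := by
    rw [← hUj]
    apply Polynomial.natDegree_map_of_leadingCoeff_ne_zero
    exact (hunit.map (g : A →+* ℂ)).ne_zero
  rw [← h4]
  exact hl.trans (Nat.mul_le_mul_left _ h1)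

end Pool.Agent.Lib.MP_410da7_agT
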