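import Pool.Agent.Lib.MP_410da7_agT.SpecH

/-!
# MP_410da7_ag, T2: HV, the Veronese lemma
-/

set_option autoImplicit false

namespace Pool.Agent.Lib.MP_410da7_agT

open MvPolynomial Module

namespace HVAux

variable {K : Type} [Field K] [Algebra ℂ K] {M Mw d₀ : ℕ} {Y : Fin (M + 1) → K}
  {W' : Fin (Mw + 1) → K} {A : Type} [CommRing A] [Algebra ℂ A]
  {Z : Fin (Mw + 1) → A}

/-- Homogeneity. -/
theorem hsmul {N : ℕ} {B : Type} [CommRing B] [Algebra ℂ B] (W : Fin (N + 1) → B) (a : B) {d : ℕ}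
    {P : MvPolynomial (Fin (N + 1)) ℂ} (hP : P.IsHomogeneous d) :
    aeval (fun l => a * W l) P = a ^ d * aeval W P := by
  rw [MvPolynomial.aeval_def, MvPolynomial.aeval_def, MvPolynomial.eval₂_eq',
    MvPolynomial.eval₂_eq', Finset.mul_sum]
  refine Finset.sum_congr rfl fun m hm => ?_
  have h1 : m.degree = d := by
    have := hP (MvPolynomial.mem_support_iff.mp hm)
    rw [← this]
    simp [Finsupp.degree, Finsupp.weight_apply, Finsupp.sum]
  have h2 : ∏ i, (a * W i) ^ m i = a ^ d * ∏ i, W i ^ m i := by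
    simp only [mul_pow]
    rw [Finset.prod_mul_distrib, Finset.prod_pow_eq_pow_sum, ← h1, Finsupp.degree_eq_sum]
  rw [h2]; ring

theorem deg_sum {N : ℕ} {d : ℕ} {P : MvPolynomial (Fin (N + 1)) ℂ} (hP : P.IsHomogeneous d)
    {m : Fin (N + 1) →₀ ℕ} (hm : m ∈ P.support) : ∑ i, m i = d := by
  have := hP (MvPolynomial.mem_support_iff.mp hm)
  rw [← this]
  simp [Finsupp.weight_apply, Finsupp.sum_fintype]

/-- The relation between a coordinate and the coordinates of the first embedding. -/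
theorem rel2 (hrel : ∀ (e : ℕ) (P : MvPolynomial (Fin (Mw + 1)) ℂ), P.IsHomogeneous e →
      aeval W' P = 0 → aeval Z P = 0)
    {b : Fin (M + 1)} {S : Fin (M + 1) → Fin (Mw + 1)} (hS : ∀ m, W' (S m) = Y b ^ d₀ * Y m)
    {Q : MvPolynomial (Fin (M + 1)) ℂ} (hQ : Q.IsHomogeneous (d₀ + 1)) {l : Fin (Mw + 1)}
    (hl : W' l = aeval Y Q) :
    Z l * Z (S b) ^ d₀ = aeval (fun m => Z (S m)) Q := by
  have hP : (X l * X (S b) ^ d₀ - rename S Q : MvPolynomial (Fin (Mw + 1)) ℂ).IsHomogeneous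
      (d₀ + 1) := by
    refine IsHomogeneous.sub ?_ hQ.rename_isHomogeneous
    rw [add_comm d₀ 1]
    exact (isHomogeneous_X ℂ l).mul (isHomogeneous_X_pow (S b) d₀)
  have h0 := hrel _ _ hP ?_
  · rw [map_sub, map_mul, map_pow, aeval_X, aeval_X, aeval_rename] at h0
    exact sub_eq_zero.1 h0
  · rw [map_sub, map_mul, map_pow, aeval_X, aeval_X, aeval_rename, hl, hS b]
    have h2 : (W' ∘ S) = fun m => Y b ^ d₀ * Y m := funext fun m => hS m
    rw [h2, hsmul Y _ hQ]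
    ring

/-- The relations of the first embedding. -/
theorem rel3 (hrel : ∀ (e : ℕ) (P : MvPolynomial (Fin (Mw + 1)) ℂ), P.IsHomogeneous e →
      aeval W' P = 0 → aeval Z P = 0)
    {b : Fin (M + 1)} {S : Fin (M + 1) → Fin (Mw + 1)} (hS : ∀ m, W' (S m) = Y b ^ d₀ * Y m)
    {e : ℕ} {P : MvPolynomial (Fin (M + 1)) ℂ} (hP : P.IsHomogeneous e) (h0 : aeval Y P = 0) :
    aeval (fun m => Z (S m)) P = 0 := by
  have h1 := hrel e (rename S P) hP.rename_isHomogeneous ?_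
  · rw [aeval_rename] at h1
    exact h1
  · rw [aeval_rename]
    have h2 : (W' ∘ S) = fun m => Y b ^ d₀ * Y m := funext fun m => hS m
    rw [h2, hsmul Y _ hP, h0, mul_zero]

theorem zmon [IsDomain A] (hrel : ∀ (e : ℕ) (P : MvPolynomial (Fin (Mw + 1)) ℂ), P.IsHomogeneous e →
      aeval W' P = 0 → aeval Z P = 0)
    {T : Fin (M + 1) → Fin (Mw + 1)} (hT : ∀ m, W' (T m) = Y m ^ (d₀ + 1))
    {β : Fin (M + 1) → ℕ} (hβ : ∑ i, β i = d₀ + 1) {l : Fin (Mw + 1)}
    (hl : W' l = ∏ i, Y i ^ β i) (h0 : ∀ m, Z (T m) = 0) : Z l = 0 := by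
  have hP : (X l ^ (d₀ + 1) - ∏ m, X (T m) ^ β m : MvPolynomial (Fin (Mw + 1)) ℂ).IsHomogeneous
      (d₀ + 1) := by
    refine IsHomogeneous.sub (isHomogeneous_X_pow l (d₀ + 1)) ?_
    rw [← hβ]
    exact IsHomogeneous.prod _ _ _ fun m _ => isHomogeneous_X_pow (T m) (β m)
  have h1 := hrel _ _ hP ?_
  · rw [map_sub, map_pow, aeval_X, map_prod] at h1
    obtain ⟨m, hm⟩ : ∃ m, β m ≠ 0 := by
      by_contra hc
      push Not at hc
      rw [Finset.sum_eq_zero fun i _ => hc i] at hβ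
      exact absurd hβ (by omega)
    rw [Finset.prod_eq_zero (Finset.mem_univ m)
      (by rw [map_pow, aeval_X, h0 m, zero_pow hm]), sub_zero] at h1
    exact eq_zero_of_pow_eq_zero h1
  · rw [map_sub, map_pow, aeval_X, map_prod, hl, ← Finset.prod_pow, sub_eq_zero]
    refine Finset.prod_congr rfl fun m _ => ?_
    rw [map_pow, aeval_X, hT m, ← pow_mul, ← pow_mul, mul_comm]

theorem zlin (hrel : ∀ (e : ℕ) (P : MvPolynomial (Fin (Mw + 1)) ℂ), P.IsHomogeneous e →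
      aeval W' P = 0 → aeval Z P = 0)
    {I : (Fin (M + 1) → ℕ) → Fin (Mw + 1)}
    (hI : ∀ β : Fin (M + 1) → ℕ, ∑ i, β i = d₀ + 1 → W' (I β) = ∏ i, Y i ^ β i)
    {Q : MvPolynomial (Fin (M + 1)) ℂ} (hQ : Q.IsHomogeneous (d₀ + 1)) {l : Fin (Mw + 1)}
    (hl : W' l = aeval Y Q)
    (h0 : ∀ β : Fin (M + 1) → ℕ, ∑ i, β i = d₀ + 1 → Z (I β) = 0) : Z l = 0 := by
  have hP : (X l - ∑ d ∈ Q.support, C (Q.coeff d) * X (I d) :
      MvPolynomial (Fin (Mw + 1)) ℂ).IsHomogeneous 1 := by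
    refine IsHomogeneous.sub (isHomogeneous_X ℂ l) ?_
    exact IsHomogeneous.sum _ _ _ fun d _ => isHomogeneous_C_mul_X _ _
  have h1 := hrel _ _ hP ?_
  · rw [map_sub, aeval_X, map_sum, Finset.sum_eq_zero, sub_zero] at h1
    · exact h1
    · intro d hd
      rw [map_mul, aeval_X, h0 d (deg_sum hQ hd), mul_zero]
  · rw [map_sub, aeval_X, map_sum, hl, aeval_def, eval₂_eq', sub_eq_zero]
    refine Finset.sum_congr rfl fun d hd => ?_
    rw [map_mul, aeval_X, aeval_C, hI d (deg_sum hQ hd)]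

theorem mon_isHom {N : ℕ} (β : Fin (N + 1) → ℕ) {d : ℕ} (hβ : ∑ i, β i = d) :
    (∏ i, X i ^ β i : MvPolynomial (Fin (N + 1)) ℂ).IsHomogeneous d := by
  rw [← hβ]
  exact IsHomogeneous.prod _ _ _ fun m _ => isHomogeneous_X_pow m (β m)

theorem mon_aeval {N : ℕ} {B : Type} [CommRing B] [Algebra ℂ B] (β : Fin (N + 1) → ℕ)
    (W : Fin (N + 1) → B) :
    aeval W (∏ i, X i ^ β i : MvPolynomial (Fin (N + 1)) ℂ) = ∏ i, W i ^ β i := by
  rw [map_prod]
  exact Finset.prod_congr rfl fun i _ => by rw [map_pow, aeval_X]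

end HVAux

open HVAux in
/-- HV. The Veronese lemma. -/
theorem hV (h1 : Alg1Stmt) : HVStmt := by
  classical
  intro K _ _ M s d₀ Mw Y G ω W tt hG hW F _ _ Z hrel hZ
  obtain ⟨W', hW'⟩ : ∃ W' : Fin (Mw + 1) → K, W' = fun l => W l * ω := ⟨_, rfl⟩
  have hW'' : ∀ l, W' l = W l * ω := fun l => by rw [hW']
  have hrel' : ∀ (e : ℕ) (P : MvPolynomial (Fin (Mw + 1)) ℂ), P.IsHomogeneous e →
      aeval W' P = 0 → aeval Z P = 0 := by
    intro e P hP h0
    apply hrel e P hP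
    have h2 : W' = fun l => ω * W l := by
      rw [hW']
      exact funext fun l => mul_comm _ _
    rw [h2, hsmul W ω hP] at h0
    exact (mul_eq_zero.1 h0).resolve_left (pow_ne_zero _ hW.ne)
  -- the indices of the monomials
  have hex : ∀ β : Fin (M + 1) → ℕ, ∃ l, ∑ i, β i = d₀ + 1 → W' l = ∏ i, Y i ^ β i := by
    intro β
    by_cases hβ : ∑ i, β i = d₀ + 1
    · obtain ⟨l, hl⟩ := hW.mon β hβ
      exact ⟨l, fun _ => by rw [hW'' l, hl]⟩
    · exact ⟨0, fun h => absurd h hβ⟩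
  choose I hI using hex
  have hex2 : ∀ b m : Fin (M + 1), ∃ l, W' l = Y b ^ d₀ * Y m := by
    intro b m
    obtain ⟨l, hl⟩ := hW.mon (fun i => (if i = b then d₀ else 0) + if i = m then 1 else 0) (by
      rw [Finset.sum_add_distrib, Finset.sum_ite_eq' Finset.univ b, Finset.sum_ite_eq' Finset.univ m,
        if_pos (Finset.mem_univ _), if_pos (Finset.mem_univ _)])
    refine ⟨l, ?_⟩
    rw [hW'' l, hl]
    simp only [pow_add, pow_ite, pow_zero, pow_one]
    rw [Finset.prod_mul_distrib, Finset.prod_ite_eq' Finset.univ b, Finset.prod_ite_eq' Finset.univ m,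
      if_pos (Finset.mem_univ _), if_pos (Finset.mem_univ _)]
  choose S hS using hex2
  -- the homogeneous forms of degree d₀ + 1 given by the second kind
  have hsec : ∀ j m, (G j * X m : MvPolynomial (Fin (M + 1)) ℂ).IsHomogeneous (d₀ + 1) :=
    fun j m => (hG j).mul (isHomogeneous_X ℂ m)
  -- step 1
  obtain ⟨b, hb⟩ : ∃ b, Z (S b b) ≠ 0 := by
    by_contra hc
    push Not at hc
    obtain ⟨l, hl⟩ := hZ
    have h0 : ∀ β : Fin (M + 1) → ℕ, ∑ i, β i = d₀ + 1 → ∀ l, W' l = ∏ i, Y i ^ β i → Z l = 0 := by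
      intro β hβ l hl
      exact zmon (T := fun m => S m m) hrel' (fun m => by rw [hS m m, pow_succ]) hβ hl hc
    rcases hW.all l with ⟨β, hβ, h2⟩ | ⟨j, m, h2⟩
    · exact hl (h0 β hβ l (by rw [hW'' l, h2]))
    · refine hl (zlin hrel' (I := I) hI (hsec j m) (l := l) ?_ ?_)
      · rw [hW'' l, h2, map_mul, aeval_X]
      · intro β hβ
        exact h0 β hβ _ (hI β hβ)
  -- step 2
  obtain ⟨g, V, c, hg0, hgV, hcV⟩ := h1 F (Fin (M + 1)) (fun m => Z (S b m)) ⟨b, hb⟩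
  have hgV' : (fun m => Z (S b m)) = fun m => g * V m := funext hgV
  have hVb : V b ≠ 0 := by
    intro h
    apply hb
    rw [hgV b, h, mul_zero]
  -- step 4
  have key : ∀ (Q : MvPolynomial (Fin (M + 1)) ℂ), Q.IsHomogeneous (d₀ + 1) → ∀ l,
      W' l = aeval Y Q → Z l * V b ^ d₀ = g * aeval V Q := by
    intro Q hQ l hl
    have h2 := rel2 hrel' (hS b) hQ hl
    rw [hgV b, hgV', hsmul V g hQ] at h2
    apply mul_left_cancel₀ (pow_ne_zero d₀ hg0)
    rw [mul_pow] at h2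
    calc g ^ d₀ * (Z l * V b ^ d₀) = Z l * (g ^ d₀ * V b ^ d₀) := by ring
      _ = g ^ (d₀ + 1) * aeval V Q := h2
      _ = g ^ d₀ * (g * aeval V Q) := by ring
  -- step 5
  obtain ⟨a, ha⟩ : ∃ a : Fin (M + 1) → Polynomial F, ∑ m, a m * V m ^ (d₀ + 1) = 1 := by
    have h2 : Ideal.span (Set.range V) = ⊤ := by
      rw [Ideal.eq_top_iff_one, Ideal.mem_span_range_iff_exists_fun]
      exact ⟨c, hcV⟩
    have h3 := Ideal.span_pow_eq_top (Set.range V) h2 (d₀ + 1)
    rw [← Set.range_comp, Ideal.eq_top_iff_one, Ideal.mem_span_range_iff_exists_fun] at h3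
    exact h3
  obtain ⟨h, hh⟩ : ∃ h : Polynomial F, h = ∑ m, a m * Z (S m m) := ⟨_, rfl⟩
  have hgh : g = V b ^ d₀ * h := by
    calc g = g * ∑ m, a m * V m ^ (d₀ + 1) := by rw [ha, mul_one]
      _ = ∑ m, a m * (g * V m ^ (d₀ + 1)) := by
        rw [Finset.mul_sum]
        exact Finset.sum_congr rfl fun m _ => by ring
      _ = ∑ m, a m * (Z (S m m) * V b ^ d₀) := by
        refine Finset.sum_congr rfl fun m _ => ?_
        rw [key (X m ^ (d₀ + 1)) (isHomogeneous_X_pow m (d₀ + 1)) (S m m)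
          (by rw [hS m m, map_pow, aeval_X, pow_succ]), map_pow, aeval_X]
      _ = V b ^ d₀ * h := by
        rw [hh, Finset.mul_sum]
        exact Finset.sum_congr rfl fun m _ => by ring
  have hh0 : h ≠ 0 := by
    rintro rfl
    exact hg0 (by rw [hgh, mul_zero])
  have key2 : ∀ (Q : MvPolynomial (Fin (M + 1)) ℂ), Q.IsHomogeneous (d₀ + 1) → ∀ l,
      W' l = aeval Y Q → Z l = h * aeval V Q := by
    intro Q hQ l hl
    apply mul_right_cancel₀ (pow_ne_zero d₀ hVb)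
    rw [key Q hQ l hl]
    nth_rewrite 1 [hgh]
    ring
  refine ⟨h, V, c, hh0, hcV, ?_, ?_, ?_⟩
  · intro e P hP h0
    have h2 := rel3 hrel' (hS b) hP h0
    rw [hgV', hsmul V g hP] at h2
    exact (mul_eq_zero.1 h2).resolve_left (pow_ne_zero _ hg0)
  · intro l β hβ hl
    rw [← mon_aeval β V]
    exact key2 _ (mon_isHom β hβ) l (by rw [hW'' l, hl, mon_aeval])
  · intro l j m hl
    rw [key2 _ (hsec j m) l (by rw [hW'' l, hl, map_mul, aeval_X]), map_mul, aeval_X]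

end Pool.Agent.Lib.MP_410da7_agT
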