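import Pool.Agent.Lib.MP_410da7_agT.SpecH

/-!
# MP_410da7_ag, T2: block HWT, existence of the second system of coordinates
-/

set_option autoImplicit false

namespace Pool.Agent.Lib.MP_410da7_agT

open Pool.Agent.Lib.MP_410da7_agA Pool.Agent.Lib.MP_410da7_agB
open MvPolynomial KaehlerDifferential WithZero Module

theorem hWT : HWTStmt := by
  classical
  intro K _ _ M s d₀ Y G hY0 hG0
  obtain ⟨j₀, hj₀⟩ := hG0
  let A : Type := (Fin (s + 1) × Fin (M + 1)) ⊕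
    {β : Fin (M + 1) → Fin (d₀ + 2) // ∑ i, (β i : ℕ) = d₀ + 1}
  let a₀ : A := Sum.inl (j₀, 0)
  have hcard : 0 < Fintype.card A := Fintype.card_pos_iff.2 ⟨a₀⟩
  obtain ⟨Mw, hMw⟩ : ∃ Mw, Fintype.card A = Mw + 1 := ⟨Fintype.card A - 1, by omega⟩
  let σ₀ : A ≃ Fin (Mw + 1) := Fintype.equivFinOfCardEq hMw
  let σ : A ≃ Fin (Mw + 1) := σ₀.trans (Equiv.swap (σ₀ a₀) 0)
  have hσ : σ a₀ = 0 := Equiv.swap_apply_left _ _
  have hσ' : σ.symm 0 = a₀ := by rw [← hσ, Equiv.symm_apply_apply]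
  let ω : K := aeval Y (G j₀)
  let val : A → K := Sum.elim (fun q => aeval Y (G q.1) * Y q.2) (fun β => ∏ i, Y i ^ (β.1 i : ℕ))
  have hval : ∀ a, val a / ω * ω = val a := fun a => div_mul_cancel₀ _ hj₀
  refine ⟨ω, Mw, fun l => val (σ.symm l) / ω,
    Finset.univ.filter fun l => (σ.symm l).isLeft = true, ?_⟩
  refine ⟨hj₀, ?_, ?_, ?_, ?_, ?_, ?_⟩
  · rw [hσ']
    show aeval Y (G j₀) * Y 0 / aeval Y (G j₀) = 1
    rw [hY0, mul_one, div_self hj₀]
  · rw [Finset.mem_filter]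
    refine ⟨Finset.mem_univ _, ?_⟩
    rw [hσ']
    rfl
  · intro β hβ
    have hlt : ∀ i, β i < d₀ + 2 := by
      intro i
      have h1 : β i ≤ ∑ i, β i := Finset.single_le_sum (f := β) (fun _ _ => Nat.zero_le _)
        (Finset.mem_univ i)
      omega
    refine ⟨σ (Sum.inr ⟨fun i => ⟨β i, hlt i⟩, hβ⟩), ?_⟩
    rw [Equiv.symm_apply_apply, hval]
    rfl
  · intro j m
    refine ⟨σ (Sum.inl (j, m)), ?_, ?_⟩
    · rw [Finset.mem_filter]
      refine ⟨Finset.mem_univ _, ?_⟩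
      rw [Equiv.symm_apply_apply]
      rfl
    · rw [Equiv.symm_apply_apply, hval]
      rfl
  · intro l
    rcases hq : σ.symm l with q | β
    · right
      refine ⟨q.1, q.2, ?_⟩
      rw [hval]
      rfl
    · left
      refine ⟨fun i => (β.1 i : ℕ), β.2, ?_⟩
      rw [hval]
      rfl
  · intro l hl
    rw [Finset.mem_filter] at hl
    obtain ⟨q, hq⟩ := Sum.isLeft_iff.1 hl.2
    refine ⟨q.1, q.2, ?_⟩
    rw [hq, hval]
    rfl

end Pool.Agent.Lib.MP_410da7_agT
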