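import Pool.Agent.Lib.MP_410da7_agT.SpecG

/-!
# MP_410da7_ag, T2: the order at a point of the reduction
-/

set_option autoImplicit false

namespace Pool.Agent.Lib.MP_410da7_agT

open MvPolynomial

namespace liftR

theorem map_taylor' {A B : Type} [CommRing A] [CommRing B] (ρ : A →+* B) (z : A)
    (f : Polynomial A) :
    (Polynomial.taylor z f).map ρ = Polynomial.taylor (ρ z) (f.map ρ) := by
  rw [Polynomial.taylor_apply, Polynomial.taylor_apply, Polynomial.map_comp, Polynomial.map_add,
    Polynomial.map_X, Polynomial.map_C]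

theorem taylor_pow_mul {F : Type} [Field F] (z : F) (a : ℕ) (g V : Polynomial F) :
    Polynomial.taylor z ((Polynomial.X - Polynomial.C z) ^ a * g * V) =
      Polynomial.X ^ a * (Polynomial.taylor z g * Polynomial.taylor z V) := by
  rw [Polynomial.taylor_mul, Polynomial.taylor_mul, Polynomial.taylor_pow]
  have h : Polynomial.taylor z (Polynomial.X - Polynomial.C z) = Polynomial.X := by
    rw [map_sub, Polynomial.taylor_X, Polynomial.taylor_C]
    ring
  rw [h, mul_assoc]

end liftR

open liftR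

theorem liftR : LiftRStmt := by
  intro Ω _ 𝒱 ι _ R g V c hg hR hc z
  obtain ⟨g₁, hg₁, hnd⟩ := Polynomial.exists_eq_pow_rootMultiplicity_mul_and_not_dvd g hg
    (IsLocalRing.residue 𝒱 z)
  obtain ⟨a, ha⟩ : ∃ a : ℕ, a = g.rootMultiplicity (IsLocalRing.residue 𝒱 z) := ⟨_, rfl⟩
  rw [← ha] at hg₁ ⊢
  have hmap : ∀ l m, IsLocalRing.residue 𝒱 ((Polynomial.taylor z (R l)).coeff m) =
      (Polynomial.X ^ a * (Polynomial.taylor (IsLocalRing.residue 𝒱 z) g₁ *
        Polynomial.taylor (IsLocalRing.residue 𝒱 z) (V l))).coeff m := by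
    intro l m
    rw [← Polynomial.coeff_map, map_taylor', hR l, ← taylor_pow_mul, ← hg₁]
  refine ⟨fun l m hm => ?_, ?_⟩
  · rw [← IsLocalRing.residue_eq_zero_iff, hmap, Polynomial.coeff_X_pow_mul', if_neg (by omega)]
  · have hV : ∃ l, (V l).eval (IsLocalRing.residue 𝒱 z) ≠ 0 := by
      by_contra hcon
      have h1 : ∀ l, (V l).eval (IsLocalRing.residue 𝒱 z) = 0 := fun l => by
        by_contra h2
        exact hcon ⟨l, h2⟩
      have h3 := congrArg (Polynomial.eval (IsLocalRing.residue 𝒱 z)) hc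
      rw [Polynomial.eval_finsetSum, Polynomial.eval_one] at h3
      have h4 : ∑ l, (c l * V l).eval (IsLocalRing.residue 𝒱 z) = 0 := by
        refine Finset.sum_eq_zero fun l _ => ?_
        rw [Polynomial.eval_mul, h1 l, mul_zero]
      rw [h4] at h3
      exact zero_ne_one h3
    obtain ⟨l, hl⟩ := hV
    refine ⟨l, ?_⟩
    rw [← IsLocalRing.residue_eq_zero_iff, hmap, Polynomial.coeff_X_pow_mul', if_pos le_rfl,
      Nat.sub_self, Polynomial.mul_coeff_zero, Polynomial.taylor_coeff_zero,
      Polynomial.taylor_coeff_zero]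
    refine mul_ne_zero ?_ hl
    intro h
    exact hnd (Polynomial.dvd_iff_isRoot.2 h)

end Pool.Agent.Lib.MP_410da7_agT
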