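import Pool.Agent.Lib.MP_410da7_agT.SpecG

/-!
# MP_410da7_ag, T2: O3, the sections of the second line bundle have no common zero
-/

set_option autoImplicit false

namespace Pool.Agent.Lib.MP_410da7_agT

open Pool.Agent.Lib.MP_410da7_agA Pool.Agent.Lib.MP_410da7_agB
open MvPolynomial Module

namespace o3Aux

open EvW

variable {k Λ Ω : Type} [Field k] [Field Λ] [Algebra k Λ] [Field Ω] [Algebra k Ω]

lemma mem_L (C : Curve k Λ) (R : C.pt → ℤ) (y : Λ) :
    y ∈ C.L R ↔ ∀ w, ∀ i < - R w, C.cf w i y = 0 := Iff.rfl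

/-- The choice of `z'`. -/
lemma exists_z [Infinite k] (C : Curve k Λ) {M : ℕ} (tt : Finset (Fin (M + 1)))
    (R : C.pt → ℤ) (Y : Fin (M + 1) → Λ) (hR : ∀ w, 0 ≤ R w) (hfin : {w | R w ≠ 0}.Finite)
    (hYR : ∀ t ∈ tt, Y t ∈ C.L R) (hY : ∀ w, 0 < R w → ∃ t ∈ tt, C.ord w (Y t) = - R w) :
    ∃ c : tt → k, ∀ w, 0 < R w → (∑ t : tt, c t • Y t) ≠ 0 ∧
      C.ord w (∑ t : tt, c t • Y t) = - R w := by
  classical
  let S : Set C.pt := {w | R w ≠ 0}
  have hS : Finite S := hfin
  let g : S → Dual k (tt → k) := fun w =>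
    { toFun := fun c => C.cf w (- R w) (∑ t : tt, c t • Y t)
      map_add' := fun c c' => by
        simp only [Pi.add_apply, add_smul, Finset.sum_add_distrib, map_add]
      map_smul' := fun a c => by
        simp only [Pi.smul_apply, smul_eq_mul, mul_smul, ← Finset.smul_sum, map_smul,
          RingHom.id_apply] }
  have hg : ∀ w : S, ∃ c, g w c ≠ 0 := by
    intro w
    have hw : 0 < R w := lt_of_le_of_ne (hR w) (Ne.symm w.2)
    obtain ⟨t, ht, hord⟩ := hY w hw
    refine ⟨fun t' => if t' = ⟨t, ht⟩ then 1 else 0, ?_⟩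
    change C.cf w (- R w) (∑ t' : tt, (if t' = ⟨t, ht⟩ then (1 : k) else 0) • Y t') ≠ 0
    have h1 : (∑ t' : tt, (if t' = ⟨t, ht⟩ then (1 : k) else 0) • Y t') = Y t := by
      rw [Finset.sum_eq_single (⟨t, ht⟩ : tt)]
      · rw [if_pos rfl, one_smul]
      · intro t' _ h
        rw [if_neg h, zero_smul]
      · intro h
        exact absurd (Finset.mem_univ _) h
    rw [h1, ← hord]
    change (C.exp w (Y t)).coeff (C.exp w (Y t)).order ≠ 0
    apply HahnSeries.coeff_order_eq_zero.not.2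
    intro h0
    have h2 : C.ord w (Y t) = 0 := by
      unfold Curve.ord
      rw [h0, HahnSeries.order_zero]
    omega
  obtain ⟨c, hc⟩ := Module.Dual.exists_forall_ne_zero_of_forall_exists g hg
  refine ⟨c, fun w hw => ?_⟩
  have h1 : C.cf w (- R w) (∑ t : tt, c t • Y t) ≠ 0 := hc ⟨w, ne_of_gt hw⟩
  have h2 : (∑ t : tt, c t • Y t) ∈ C.L R :=
    Submodule.sum_mem _ fun t _ => Submodule.smul_mem _ _ (hYR t t.2)
  have h3 : C.exp w (∑ t : tt, c t • Y t) ≠ 0 := by
    intro h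
    apply h1
    change (C.exp w (∑ t : tt, c t • Y t)).coeff _ = 0
    rw [h, HahnSeries.coeff_zero]
  refine ⟨fun h => h3 (by rw [h, map_zero]), ?_⟩
  unfold Curve.ord
  apply le_antisymm
  · exact HahnSeries.order_le_of_coeff_ne_zero h1
  · by_contra hcon
    have h4 := (mem_L C R _).1 h2 w _ (not_le.1 hcon)
    exact HahnSeries.coeff_order_eq_zero.not.2 h3 h4

/-- The replacement of `ω` by its projection to `L(R)`. -/
lemma claim (C : Curve k Λ) {M D : ℕ} (tt : Finset (Fin (M + 1))) (R : C.pt → ℤ)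
    (Y : Fin (M + 1) → Λ) (hYR : ∀ t ∈ tt, Y t ∈ C.L R) (ω : Fin D → Λ)
    (s : Fin (M + 1) × Fin D → Ω) (hpush : ∀ t ∈ tt, ∀ w, ∀ i < - R w,
      aeval s (push (C.cf w i) (hpt Y ω t)) = 0) (π : Λ →ₗ[k] Λ) (hπ : ∀ y, π y ∈ C.L R)
    (hπ' : ∀ y ∈ C.L R, π y = y) (t : Fin (M + 1)) (ht : t ∈ tt) (w : C.pt) :
    ev C w s (hpt Y ω t) = ev C w s (hpt Y (fun j => π (ω j)) t) := by
  have hlow : ∀ w', ∀ i < - R w',
      ∑ j, s (t, j) * algebraMap k Ω (C.cf w' i (ω j - π (ω j))) = 0 := by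
    intro w' i hi
    have h1 := hpush t ht w' i hi
    rw [← ev_coeff, ev_hpt_coeff, (mem_L C R _).1 (hYR t ht) w' i hi, map_zero, zero_add] at h1
    refine (Finset.sum_congr rfl fun j _ => ?_).trans h1
    rw [map_sub, (mem_L C R _).1 (hπ (ω j)) w' i hi, sub_zero]
  have hψ : ∀ (ψ : Dual k Ω) (w' : C.pt) (i : ℤ),
      ψ (∑ j, s (t, j) * algebraMap k Ω (C.cf w' i (ω j - π (ω j)))) =
        C.cf w' i (∑ j, ψ (s (t, j)) • (ω j - π (ω j))) := by
    intro ψ w' i
    rw [map_sum, map_sum]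
    refine Finset.sum_congr rfl fun j _ => ?_
    rw [mul_comm, ← Algebra.smul_def, map_smul, map_smul, smul_eq_mul, smul_eq_mul, mul_comm]
  have hE : ∀ ψ : Dual k Ω, ∑ j, ψ (s (t, j)) • (ω j - π (ω j)) = 0 := by
    intro ψ
    have h1 : ∑ j, ψ (s (t, j)) • (ω j - π (ω j)) ∈ C.L R := by
      rw [mem_L]
      intro w' i hi
      rw [← hψ, hlow w' i hi, map_zero]
    rw [← hπ' _ h1, map_sum]
    refine Finset.sum_eq_zero fun j _ => ?_
    rw [map_smul, map_sub, hπ' _ (hπ (ω j)), sub_self, smul_zero]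
  ext i
  rw [ev_hpt_coeff, ev_hpt_coeff]
  congr 1
  have h2 : ∑ j, s (t, j) * algebraMap k Ω (C.cf w i (ω j - π (ω j))) = 0 := by
    rw [← Module.forall_dual_apply_eq_zero_iff k]
    intro ψ
    rw [hψ, hE, map_zero]
  rw [← sub_eq_zero, ← Finset.sum_sub_distrib, ← h2]
  refine Finset.sum_congr rfl fun j _ => ?_
  rw [map_sub, map_sub, mul_sub]

end o3Aux

open EvW o3Aux in
theorem o3 (h2 : O2Stmt) : O3Stmt := by
  classical
  intro k Λ Ω _ _ _ _ _ _ C M D tt P R Y h0 hR hRP hfin hY0 hYR hY ω hω s hs hpush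
  have hRfin : {w | R w ≠ 0}.Finite := by
    refine hfin.subset fun w hw h => ?_
    have h3 := hR w
    have h4 := hRP w
    have h5 : R w ≠ 0 := hw
    omega
  obtain ⟨c, hc⟩ := exists_z C tt R Y hR hRfin hYR hY
  obtain ⟨q, hq⟩ := Submodule.exists_isCompl (C.L R)
  let π : Λ →ₗ[k] Λ := (C.L R).subtype ∘ₗ Submodule.projectionOnto (C.L R) q hq
  have hπ : ∀ y, π y ∈ C.L R := fun y => (Submodule.projectionOnto (C.L R) q hq y).2
  have hπ' : ∀ y ∈ C.L R, π y = y := fun y hy => by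
    have := Submodule.projectionOnto_apply_left hq (⟨y, hy⟩ : C.L R)
    exact congrArg Subtype.val this
  have hcl := claim C tt R Y hYR ω s hpush π hπ hπ'
  set z : Λ := ∑ t : tt, c t • Y t with hz
  have hzR : z ∈ C.L R := Submodule.sum_mem _ fun t _ => Submodule.smul_mem _ _ (hYR t t.2)
  have h1R : (1 : Λ) ∈ C.L R := by
    intro w i hi
    rw [map_one, HahnSeries.coeff_one, if_neg]
    have := hR w
    omega
  let Y₂ : Fin (1 + 1) → Λ := ![1, z]
  let s₂ : Fin (1 + 1) × Fin D → Ω := fun x =>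
    if x.1 = 0 then s (0, x.2) else ∑ t : tt, algebraMap k Ω (c t) * s (t, x.2)
  have hs₂ : ∀ q : MvPolynomial (Fin (1 + 1) × Fin D) k, aeval s₂ q = 0 → q ∈ mx _ k := by
    intro q hq0
    let φ : MvPolynomial (Fin (1 + 1) × Fin D) k →ₐ[k] MvPolynomial (Fin (M + 1) × Fin D) k :=
      aeval fun x => if x.1 = 0 then X (0, x.2) else
        ∑ t : tt, MvPolynomial.C (c t) * X ((t : Fin (M + 1)), x.2)
    have e1 : (aeval s).comp φ = aeval s₂ := by
      apply MvPolynomial.algHom_ext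
      intro x
      rw [AlgHom.comp_apply, aeval_X, aeval_X]
      simp only [s₂]
      split_ifs with h
      · rw [aeval_X]
      · rw [map_sum]
        refine Finset.sum_congr rfl fun t _ => ?_
        rw [map_mul, aeval_X, ← MvPolynomial.algebraMap_eq, AlgHom.commutes]
    have e2 : (constantCoeff : MvPolynomial (Fin (M + 1) × Fin D) k →+* k).comp
        (φ : MvPolynomial (Fin (1 + 1) × Fin D) k →+* MvPolynomial (Fin (M + 1) × Fin D) k) =
        constantCoeff := by
      apply MvPolynomial.ringHom_ext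
      · intro a
        simp [φ]
      · intro x
        simp only [φ, RingHom.comp_apply, RingHom.coe_coe, aeval_X, constantCoeff_X]
        split_ifs with h
        · rw [constantCoeff_X]
        · rw [map_sum]
          refine Finset.sum_eq_zero fun t _ => ?_
          rw [map_mul, constantCoeff_X, mul_zero]
    have e3 : aeval s (φ q) = 0 := by
      rw [← AlgHom.comp_apply, e1, hq0]
    have e4 := hs _ e3
    rw [mx, RingHom.mem_ker] at e4 ⊢
    rw [← e2]
    exact e4
  obtain ⟨m, n, β, γ₀, γ₁, hβ, hγ⟩ := h2 k Λ Ω C 1 D R Y₂ 1 hR hRfin rfl (by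
    intro l
    fin_cases l
    · exact h1R
    · exact hzR) (fun w hw => hc w hw) (fun j => π (ω j)) (fun j => hπ (ω j)) s₂ hs₂
  refine ⟨m, n, β, fun t i => (if (t : Fin (M + 1)) = 0 then γ₀ i else 0) +
    algebraMap k Ω (c t) * γ₁ i, hβ, fun w => ?_⟩
  have hw := hγ w
  have f0 : ev C w s₂ (hpt Y₂ (fun j => π (ω j)) 0) = ev C w s (hpt Y ω 0) := by
    rw [hcl 0 h0 w]
    ext i
    rw [ev_hpt_coeff, ev_hpt_coeff, hY0]
    rfl
  have f1 : ev C w s₂ (hpt Y₂ (fun j => π (ω j)) 1) =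
      ∑ t : tt, HahnSeries.C (algebraMap k Ω (c t)) * ev C w s (hpt Y ω t) := by
    ext i
    rw [ev_hpt_coeff, HahnSeries.coeff_sum]
    have g1 : ∀ t : tt, (HahnSeries.C (algebraMap k Ω (c t)) * ev C w s (hpt Y ω t)).coeff i =
        algebraMap k Ω (c t) * algebraMap k Ω (C.cf w i (Y t)) +
          ∑ j, algebraMap k Ω (c t) * s (t, j) * algebraMap k Ω (C.cf w i (π (ω j))) := by
      intro t
      rw [hcl t t.2 w, HahnSeries.C_mul_eq_smul, HahnSeries.coeff_smul, ev_hpt_coeff, smul_eq_mul,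
        mul_add, Finset.mul_sum]
      congr 1
      refine Finset.sum_congr rfl fun j _ => ?_
      rw [mul_assoc]
    rw [Finset.sum_congr rfl fun t _ => g1 t, Finset.sum_add_distrib]
    congr 1
    · change algebraMap k Ω (C.cf w i z) = _
      rw [hz, map_sum, map_sum]
      refine Finset.sum_congr rfl fun t _ => ?_
      rw [map_smul, smul_eq_mul, map_mul]
    · rw [Finset.sum_comm]
      refine Finset.sum_congr rfl fun j _ => ?_
      rw [← Finset.sum_mul]
      rfl
  have fC : ∀ b : Λ, ev C w s₂ (MvPolynomial.C b) = ev C w s (MvPolynomial.C b) := by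
    intro b
    rw [ev_C, ev_C]
  rw [f0, f1] at hw
  simp only [fC] at hw
  rw [← hw]
  have f2 : ∀ t : tt, (∑ i, HahnSeries.C ((if (t : Fin (M + 1)) = 0 then γ₀ i else 0) +
      algebraMap k Ω (c t) * γ₁ i) * ev C w s (MvPolynomial.C (β i))) * ev C w s (hpt Y ω t) =
      (if (t : Fin (M + 1)) = 0 then (∑ i, HahnSeries.C (γ₀ i) *
        ev C w s (MvPolynomial.C (β i))) * ev C w s (hpt Y ω 0) else 0) +
      (∑ i, HahnSeries.C (γ₁ i) * ev C w s (MvPolynomial.C (β i))) *
        (HahnSeries.C (algebraMap k Ω (c t)) * ev C w s (hpt Y ω t)) := by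
    intro t
    have g2 : ∑ i, HahnSeries.C ((if (t : Fin (M + 1)) = 0 then γ₀ i else 0) +
        algebraMap k Ω (c t) * γ₁ i) * ev C w s (MvPolynomial.C (β i)) =
        (if (t : Fin (M + 1)) = 0 then (∑ i, HahnSeries.C (γ₀ i) *
          ev C w s (MvPolynomial.C (β i))) else 0) +
        HahnSeries.C (algebraMap k Ω (c t)) *
          ∑ i, HahnSeries.C (γ₁ i) * ev C w s (MvPolynomial.C (β i)) := by
      rw [Finset.mul_sum]
      split_ifs with h
      · rw [← Finset.sum_add_distrib]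
        refine Finset.sum_congr rfl fun i _ => ?_
        rw [map_add, map_mul]
        ring
      · rw [zero_add]
        refine Finset.sum_congr rfl fun i _ => ?_
        rw [zero_add, map_mul]
        ring
    rw [g2]
    split_ifs with h
    · rw [h]
      ring
    · ring
  rw [Finset.sum_congr rfl fun t _ => f2 t, Finset.sum_add_distrib, ← Finset.mul_sum]
  congr 1
  rw [Finset.sum_eq_single (⟨0, h0⟩ : tt)]
  · rw [if_pos rfl]
  · intro t _ ht
    rw [if_neg fun h => ht (Subtype.ext h)]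
  · intro h
    exact absurd (Finset.mem_univ _) h

end Pool.Agent.Lib.MP_410da7_agT
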