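import Pool.Agent.Lib.MP_410da7_agT.SpecE

/-!
# MP_410da7_ag, T2, PSYS: systems of equations for polynomials of bounded degree (helper57)
-/

set_option autoImplicit false

namespace Pool.Agent.Lib.MP_410da7_agT

open MvPolynomial

namespace pSysAux

variable {A₀ A A' : Type} [CommRing A₀] [CommRing A] [CommRing A'] {ι I : Type} {Bd : ι → ℕ}

/-- The polynomials with the coefficients `a`. -/
noncomputable def xg (a : (Σ i, Fin (Bd i + 1)) → A) (i : ι) : Polynomial A :=
  ∑ m : Fin (Bd i + 1), Polynomial.C (a ⟨i, m⟩) * Polynomial.X ^ (m : ℕ)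

theorem xg_coeff (a : (Σ i, Fin (Bd i + 1)) → A) (i : ι) (n : ℕ) :
    (xg a i).coeff n = if h : n < Bd i + 1 then a ⟨i, ⟨n, h⟩⟩ else 0 := by
  rw [xg, Polynomial.finsetSum_coeff]
  simp only [Polynomial.coeff_C_mul, Polynomial.coeff_X_pow, mul_ite, mul_one, mul_zero]
  split_ifs with h
  · rw [Finset.sum_eq_single (⟨n, h⟩ : Fin (Bd i + 1))]
    · simp
    · intro m _ hm
      rw [if_neg]
      intro h1
      exact hm (Fin.ext h1.symm)
    · intro h1
      exact absurd (Finset.mem_univ _) h1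
  · refine Finset.sum_eq_zero fun m _ => ?_
    rw [if_neg]
    intro h1
    exact h (h1 ▸ m.2)

theorem xg_natDegree_le (a : (Σ i, Fin (Bd i + 1)) → A) (i : ι) :
    (xg a i).natDegree ≤ Bd i := by
  rw [Polynomial.natDegree_le_iff_coeff_eq_zero]
  intro n hn
  rw [xg_coeff, dif_neg (by omega)]

theorem xg_map (ψ : A →+* A') (a : (Σ i, Fin (Bd i + 1)) → A) (i : ι) :
    (xg a i).map ψ = xg (fun v => ψ (a v)) i := by
  simp [xg, Polynomial.map_sum]

theorem eq_xg (x : ι → Polynomial A) (hx : ∀ i, (x i).natDegree ≤ Bd i) (i : ι) :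
    xg (Bd := Bd) (fun v => (x v.1).coeff (v.2 : ℕ)) i = x i := by
  ext n
  rw [xg_coeff]
  split_ifs with h
  · rfl
  · exact (Polynomial.coeff_eq_zero_of_natDegree_lt (by have := hx i; omega)).symm

/-- The point `(X, x)`. -/
noncomputable def pt (x : ι → Polynomial A) (o : Option ι) : Polynomial A :=
  o.elim Polynomial.X x

theorem pt_map (ψ : A →+* A') (x : ι → Polynomial A) (o : Option ι) :
    (pt x o).map ψ = pt (fun i => (x i).map ψ) o := by
  cases o with
  | none => exact Polynomial.map_X ψ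
  | some i => rfl

/-- The value of `p` at the polynomials `Y`. -/
noncomputable def tv (f : A₀ →+* A) (Y : Option ι → Polynomial A)
    (p : MvPolynomial (Option ι) A₀) : Polynomial A :=
  p.eval₂ (Polynomial.C.comp f) Y

theorem tv_map (ψ : A →+* A') (f : A₀ →+* A) (Y : Option ι → Polynomial A)
    (p : MvPolynomial (Option ι) A₀) :
    (tv f Y p).map ψ = tv (ψ.comp f) (fun l => (Y l).map ψ) p := by
  unfold tv
  rw [← Polynomial.coe_mapRingHom, MvPolynomial.eval₂_comp_left]
  congr 1
  ext a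
  simp

theorem tv_mapLeft (f : A₀ →+* A) (g : A →+* A') (Y : Option ι → Polynomial A')
    (p : MvPolynomial (Option ι) A₀) : tv g Y (map f p) = tv (g.comp f) Y p := by
  unfold tv
  rw [eval₂_map]
  rfl

/-- The coefficient of degree `n` of the value at the generic polynomials. -/
noncomputable def gc (Bd : ι → ℕ) (n : ℕ) (p : MvPolynomial (Option ι) A) :
    MvPolynomial (Σ i, Fin (Bd i + 1)) A :=
  (tv C (pt (xg X)) p).coeff n

theorem gc_map (f : A →+* A') (n : ℕ) (p : MvPolynomial (Option ι) A) :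
    map f (gc Bd n p) = gc Bd n (map f p) := by
  unfold gc
  rw [← Polynomial.coeff_map, tv_map, tv_mapLeft]
  congr 2
  · ext a
    simp
  · funext o
    rw [pt_map]
    congr 1
    funext i
    rw [xg_map]
    simp

theorem gc_eval (φ : MvPolynomial (Σ i, Fin (Bd i + 1)) A →+* A') (n : ℕ)
    (p : MvPolynomial (Option ι) A) :
    φ (gc Bd n p) = (tv (φ.comp C) (pt (xg fun v => φ (X v))) p).coeff n := by
  unfold gc
  rw [← Polynomial.coeff_map, tv_map]
  congr 2
  funext o
  rw [pt_map]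
  congr 1
  funext i
  rw [xg_map]

end pSysAux

open pSysAux

theorem pSys : PSysStmt := by
  intro Λ _ ι I _ _ Bd F h n H
  classical
  -- the certificate
  obtain ⟨K, c, hc⟩ : ∃ (K : ℕ) (c : (I × ℕ) →₀ MvPolynomial (Σ i, Fin (Bd i + 1)) Λ),
      (c.sum fun i a => a * gc Bd i.2 (F i.1)) = gc Bd n h ^ K := by
    have hrad : (gc Bd n h : MvPolynomial (Σ i, Fin (Bd i + 1)) Λ) ∈
        (Ideal.span (Set.range fun i : I × ℕ => gc Bd i.2 (F i.1))).radical := by
      by_contra hnot
      rw [Ideal.radical_eq_sInf, Ideal.mem_sInf] at hnot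
      push Not at hnot
      obtain ⟨J, ⟨hIJ, hJ⟩, hvJ⟩ := hnot
      let ψ : MvPolynomial (Σ i, Fin (Bd i + 1)) Λ →+*
          FractionRing (MvPolynomial (Σ i, Fin (Bd i + 1)) Λ ⧸ J) :=
        (algebraMap (MvPolynomial (Σ i, Fin (Bd i + 1)) Λ ⧸ J) _).comp (Ideal.Quotient.mk J)
      have hψ : ∀ s, ψ s = 0 ↔ s ∈ J := by
        intro s
        simp only [ψ, RingHom.comp_apply]
        rw [map_eq_zero_iff _ (IsFractionRing.injective _ _), Ideal.Quotient.eq_zero_iff_mem]
      let _ : Algebra Λ (FractionRing (MvPolynomial (Σ i, Fin (Bd i + 1)) Λ ⧸ J)) :=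
        (ψ.comp C).toAlgebra
      have h1 := H (FractionRing (MvPolynomial (Σ i, Fin (Bd i + 1)) Λ ⧸ J))
        (xg fun v => ψ (X v)) (fun i => xg_natDegree_le _ i) (by
          intro j
          change tv (ψ.comp C) (pt (xg fun v => ψ (X v))) (F j) = 0
          ext i
          rw [← gc_eval ψ i (F j), Polynomial.coeff_zero, hψ]
          exact hIJ (Ideal.subset_span ⟨(j, i), rfl⟩))
      have h2 : (tv (ψ.comp C) (pt (xg fun v => ψ (X v))) h).coeff n = 0 := h1
      rw [← gc_eval ψ n h, hψ] at h2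
      exact hvJ h2
    obtain ⟨K, hK⟩ := hrad
    rw [Finsupp.mem_ideal_span_range_iff_exists_finsupp] at hK
    obtain ⟨c, hc⟩ := hK
    exact ⟨K, c, hc⟩
  refine ⟨c.support.biUnion fun i => (c i).support.image fun m => coeff m (c i), ?_⟩
  intro R hR FR hRp hFR hhR k' _ ε x hxd hxF
  -- lifts to `R`
  have hlift : ∀ p : MvPolynomial (Σ i, Fin (Bd i + 1)) Λ, (∀ m ∈ p.support, coeff m p ∈ R) →
      ∃ q : MvPolynomial (Σ i, Fin (Bd i + 1)) R, map R.subtype q = p := by
    intro p hp
    have h1 : p ∈ Set.range (map R.subtype) := by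
      rw [mem_range_map_iff_coeffs_subset]
      intro a ha
      obtain ⟨m, hm, rfl⟩ := mem_coeffs_iff.1 ha
      exact ⟨⟨_, hp m hm⟩, rfl⟩
    exact h1
  have hcR : ∀ i, ∃ q : MvPolynomial (Σ i, Fin (Bd i + 1)) R, map R.subtype q = c i := by
    intro i
    by_cases hi : i ∈ c.support
    · refine hlift _ fun m hm => hR _ ?_
      rw [Finset.mem_biUnion]
      exact ⟨i, hi, Finset.mem_image_of_mem _ hm⟩
    · rw [Finsupp.notMem_support_iff] at hi
      exact ⟨0, by rw [hi, map_zero]⟩
  choose cR hcR using hcR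
  -- the identity over `R`
  have hid : ∑ i ∈ c.support, cR i * gc Bd i.2 (FR i.1) = gc Bd n hRp ^ K := by
    apply map_injective R.subtype Subtype.val_injective
    rw [map_sum, map_pow, gc_map, hhR, ← hc, Finsupp.sum]
    refine Finset.sum_congr rfl fun i _ => ?_
    rw [map_mul, hcR, gc_map, hFR]
  -- evaluation
  let φ : MvPolynomial (Σ i, Fin (Bd i + 1)) R →+* k' :=
    eval₂Hom ε (fun v => (x v.1).coeff (v.2 : ℕ))
  have hφC : φ.comp C = ε := by
    ext a
    exact eval₂Hom_C _ _ _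
  have hφX : (pt (xg fun v => φ (X v)) : Option ι → Polynomial k') =
      fun o : Option ι => o.elim Polynomial.X x := by
    funext o
    have h1 : (xg fun v => φ (X v) : ι → Polynomial k') = x := by
      funext i
      rw [← eq_xg x hxd i]
      congr 1
      funext v
      exact eval₂Hom_X' _ _ _
    rw [h1]
    rfl
  have hφ : ∀ (i : ℕ) (p : MvPolynomial (Option ι) R), φ (gc Bd i p) =
      (eval₂ (Polynomial.C.comp ε) (fun o : Option ι => o.elim Polynomial.X x) p).coeff i := by
    intro i p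
    rw [gc_eval, hφC, hφX]
    rfl
  rw [← hφ]
  have h1 := congrArg φ hid
  rw [map_sum, map_pow] at h1
  have h2 : ∑ i ∈ c.support, φ (cR i * gc Bd i.2 (FR i.1)) = 0 :=
    Finset.sum_eq_zero fun i _ => by rw [map_mul, hφ, hxF, Polynomial.coeff_zero, mul_zero]
  rw [h2] at h1
  exact eq_zero_of_pow_eq_zero h1.symm

end Pool.Agent.Lib.MP_410da7_agT
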