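import Pool.Agent.Lib.MP_410da7_agT.SpecG

/-!
# MP_410da7_ag, T2: the tree lemma
-/

set_option autoImplicit false

namespace Pool.Agent.Lib.MP_410da7_agT

open Pool.Agent.Lib.MP_410da7_agA Pool.Agent.Lib.MP_410da7_agB
open MvPolynomial Module

namespace treeAux

variable {Ω : Type} [Field Ω] {𝒱 : ValuationSubring Ω}

theorem res0 (x : 𝒱) : IsLocalRing.residue 𝒱 x = 0 ↔ x ∈ IsLocalRing.maximalIdeal 𝒱 :=
  IsLocalRing.residue_eq_zero_iff x

theorem coeff_res (f : Polynomial 𝒱) (m : ℕ) :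
    (f.map (IsLocalRing.residue 𝒱)).coeff m = 0 ↔ f.coeff m ∈ IsLocalRing.maximalIdeal 𝒱 := by
  rw [Polynomial.coeff_map, res0]

theorem map_taylor_res (f : Polynomial 𝒱) (z : 𝒱) (hz : z ∈ IsLocalRing.maximalIdeal 𝒱) :
    (Polynomial.taylor z f).map (IsLocalRing.residue 𝒱) = f.map (IsLocalRing.residue 𝒱) := by
  rw [Polynomial.taylor_apply, Polynomial.map_comp, Polynomial.map_add, Polynomial.map_X,
    Polynomial.map_C, (res0 z).2 hz, Polynomial.C_0, add_zero, Polynomial.comp_X]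

theorem ord0_taylor {ι : Type} {P : ι → Polynomial 𝒱} {a : ℕ} (h : Ord0 𝒱 P a) (z : 𝒱)
    (hz : z ∈ IsLocalRing.maximalIdeal 𝒱) : Ord0 𝒱 (fun l => Polynomial.taylor z (P l)) a := by
  refine ⟨fun l m hm => ?_, ?_⟩
  · rw [← coeff_res, map_taylor_res _ z hz, coeff_res]
    exact h.lt l m hm
  · obtain ⟨l, hl⟩ := h.eq
    refine ⟨l, fun h1 => hl ?_⟩
    rw [← coeff_res, map_taylor_res _ z hz, coeff_res] at h1
    exact h1

theorem Beta.mono {F : Type} [Field F] {ι₁ ι₂ : Type} [Fintype ι₁] [Fintype ι₂] {γ : ℕ}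
    {Q : Fin γ → MvPolynomial (ι₁ ⊕ ι₂) F} {B B' : ℕ} {V : ι₁ → Polynomial F}
    {U : ι₂ → Polynomial F} (h : Beta Q B V U) (hB : B ≤ B') : Beta Q B' V U := by
  obtain ⟨h1, ⟨c, hc, hc'⟩, ⟨c₂, hc₂, hc₂'⟩, ⟨e, he, h2⟩⟩ := h
  exact ⟨h1, ⟨c, fun l => (hc l).trans hB, hc'⟩, ⟨c₂, fun l => (hc₂ l).trans hB, hc₂'⟩,
    ⟨e, he.trans hB, h2⟩⟩

/-- The coefficients after scaling. -/
theorem coeff_scale {f R : Polynomial 𝒱} {τ : 𝒱} {a : ℕ} (hτ : τ ≠ 0)
    (h : f.comp (Polynomial.C τ * Polynomial.X) = Polynomial.C (τ ^ a) * R) :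
    (∀ m, a ≤ m → R.coeff m = τ ^ (m - a) * f.coeff m) ∧
      ∀ m, f.coeff m * τ ^ m = τ ^ a * R.coeff m := by
  have h1 : ∀ m, f.coeff m * τ ^ m = τ ^ a * R.coeff m := by
    intro m
    have h2 := congrArg (fun p => Polynomial.coeff p m) h
    simp only [Polynomial.comp_C_mul_X_coeff, Polynomial.coeff_C_mul] at h2
    exact h2
  refine ⟨fun m hm => ?_, h1⟩
  apply mul_left_cancel₀ (pow_ne_zero a hτ)
  rw [← h1 m, ← mul_assoc, ← pow_add, Nat.add_sub_cancel' hm, mul_comm]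

/-- The degree of the reduction after scaling. -/
theorem natDegree_scale {f R : Polynomial 𝒱} {τ : 𝒱} {a : ℕ} (hτ : τ ≠ 0)
    (hτ' : τ ∈ IsLocalRing.maximalIdeal 𝒱)
    (h : f.comp (Polynomial.C τ * Polynomial.X) = Polynomial.C (τ ^ a) * R) :
    (R.map (IsLocalRing.residue 𝒱)).natDegree ≤ a ∧
      (R.map (IsLocalRing.residue 𝒱)).coeff a = IsLocalRing.residue 𝒱 (f.coeff a) := by
  obtain ⟨h1, -⟩ := coeff_scale hτ h
  refine ⟨?_, ?_⟩
  · rw [Polynomial.natDegree_le_iff_coeff_eq_zero]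
    intro m hm
    rw [Polynomial.coeff_map, h1 m hm.le, map_mul, map_pow, (res0 τ).2 hτ',
      zero_pow (by omega), zero_mul]
  · rw [Polynomial.coeff_map, h1 a le_rfl, Nat.sub_self, pow_zero, one_mul]

theorem rootMult_le {F : Type} [Field F] {g f : Polynomial F} (hf : f ≠ 0) (hgf : g ∣ f) (z : F) :
    g.rootMultiplicity z ≤ f.natDegree := by
  have h1 : (Polynomial.X - Polynomial.C z) ^ g.rootMultiplicity z ∣ f :=
    (Polynomial.pow_rootMultiplicity_dvd g z).trans hgf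
  have h2 := Polynomial.natDegree_le_of_dvd h1 hf
  rwa [Polynomial.natDegree_pow, Polynomial.natDegree_X_sub_C, mul_one] at h2

theorem natDegree_factor {F : Type} [Field F] {f g V : Polynomial F} (hg : g ≠ 0) (hV : V ≠ 0)
    (h : f = g * V) : f.natDegree = g.natDegree + V.natDegree := by
  rw [h, Polynomial.natDegree_mul hg hV]

end treeAux

open treeAux in
theorem tree (h1 : Alg1Stmt) (h2 : Alg2Stmt) (h3 : Alg3Stmt) (h4 : Alg4Stmt) (h5 : Alg5Stmt)
    (d1 : Disc1Stmt) (d2 : Disc2Stmt) (d3 : Disc3Stmt) (hc : CrossTStmt) (hl : LiftRStmt) :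
    TreeStmt := by
  intro k Ω _ _ _ 𝒱 φ ι₁ ι₂ _ _ γ Q dQ hQ
  have : IsAlgClosed (IsLocalRing.ResidueField 𝒱) := h4 Ω 𝒱
  have key : ∀ (N : ℕ) (P : ι₁ → Polynomial 𝒱) (P' : ι₂ → Polynomial 𝒱) (δ δ' : 𝒱),
      Disc 𝒱 φ Q dQ P P' δ δ' → ∀ (a b : ℕ), a + b = N → Ord0 𝒱 P a → Ord0 𝒱 P' b → a < b →
      ∃ (V : ι₁ → Polynomial (IsLocalRing.ResidueField 𝒱))
        (U : ι₂ → Polynomial (IsLocalRing.ResidueField 𝒱)),
        Beta (fun j => map ((IsLocalRing.residue 𝒱).comp φ) (Q j)) b V U := by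
    intro N
    induction N using Nat.strong_induction_on with
    | _ N ih =>
    intro P P' δ δ' hD a b hab hP hP' hlt
    -- the new centre
    obtain ⟨t, ht⟩ := hP'.eq
    obtain ⟨z, hz, hz0⟩ := h5 Ω 𝒱 (P' t) b (hP'.lt t 0 (by omega)) ht
    have hD1 := d1 k Ω 𝒱 φ ι₁ ι₂ γ Q dQ P P' δ δ' hD z
    have hP1 := ord0_taylor hP z hz
    have hP1' := ord0_taylor hP' z hz
    have ht1 : (Polynomial.taylor z (P' t)).coeff b ∉ IsLocalRing.maximalIdeal 𝒱 := by
      rw [← coeff_res, map_taylor_res _ z hz, coeff_res]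
      exact ht
    have ht0 : (Polynomial.taylor z (P' t)).coeff 0 = 0 := by
      rw [Polynomial.taylor_coeff_zero, hz0]
    generalize hP1e : (fun l => Polynomial.taylor z (P l)) = P1 at hD1 hP1
    generalize hP1'e : (fun l => Polynomial.taylor z (P' l)) = P1' at hD1 hP1'
    have ht1' : (P1' t).coeff b ∉ IsLocalRing.maximalIdeal 𝒱 := by rw [← hP1'e]; exact ht1
    have ht0' : (P1' t).coeff 0 = 0 := by rw [← hP1'e]; exact ht0
    clear hP1e hP1'e ht1 ht0
    -- the crossing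
    have hne : ∃ l, (P1' l).coeff 0 ≠ 0 := by
      obtain ⟨l, hl0⟩ := hD1.nz' 0
      refine ⟨l, fun h0 => hD1.ne' ?_⟩
      rw [← Polynomial.coeff_zero_eq_eval_zero, h0, zero_dvd_iff] at hl0
      exact hl0
    obtain ⟨τ, R, R', hτ, hτm, hR, hR', hcr⟩ := hc Ω 𝒱 ι₁ ι₂ P1 P1' a b hP1 hP1' (by omega) hne
    obtain ⟨δ₁, δ₁', hD2⟩ := d2 k Ω 𝒱 φ ι₁ ι₂ γ Q dQ hQ P1 P1' δ δ' hD1 τ a b R R' hτ hR hR'
    set ρ := IsLocalRing.residue 𝒱 with hρ
    have hdR : ∀ l, ((R l).map ρ).natDegree ≤ a := fun l => (natDegree_scale hτ hτm (hR l)).1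
    have hdR' : ∀ l, ((R' l).map ρ).natDegree ≤ b := fun l => (natDegree_scale hτ hτm (hR' l)).1
    obtain ⟨l₀, hl₀⟩ := hP1.eq
    have hl₀' : ((R l₀).map ρ).coeff a ≠ 0 := by
      rw [(natDegree_scale hτ hτm (hR l₀)).2]
      exact fun h => hl₀ ((res0 _).1 h)
    have htb : ((R' t).map ρ).coeff b ≠ 0 := by
      rw [(natDegree_scale hτ hτm (hR' t)).2]
      exact fun h => ht1' ((res0 _).1 h)
    have hRl₀ : (R l₀).map ρ ≠ 0 := fun h => hl₀' (by rw [h, Polynomial.coeff_zero])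
    have hR't : (R' t).map ρ ≠ 0 := fun h => htb (by rw [h, Polynomial.coeff_zero])
    have hdt : ((R' t).map ρ).natDegree = b :=
      le_antisymm (hdR' t) (Polynomial.le_natDegree_of_ne_zero htb)
    have hdl₀ : ((R l₀).map ρ).natDegree = a :=
      le_antisymm (hdR l₀) (Polynomial.le_natDegree_of_ne_zero hl₀')
    have ht00 : ((R' t).map ρ).coeff 0 = 0 := by
      have h6 := (coeff_scale hτ (hR' t)).2 0
      rw [ht0', zero_mul] at h6
      have h7 : (R' t).coeff 0 = 0 := (mul_eq_zero.1 h6.symm).resolve_left (pow_ne_zero _ hτ)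
      rw [Polynomial.coeff_map, h7, map_zero]
    -- the factors
    obtain ⟨g, V, c, hg, hV, hcV⟩ := h1 _ ι₁ (fun l => (R l).map ρ) ⟨l₀, hRl₀⟩
    obtain ⟨g', U, c', hg', hU, hcU⟩ := h1 _ ι₂ (fun l => (R' l).map ρ) ⟨t, hR't⟩
    have hrel := d3 k Ω 𝒱 φ ι₁ ι₂ γ Q dQ hQ R R' δ₁ δ₁' hD2 g g' V U hg hg' hV hU
    have hVl₀ : V l₀ ≠ 0 := fun h => hRl₀ (by
      have h6 := hV l₀
      rw [h6, h, mul_zero])
    have hUt : U t ≠ 0 := fun h => hR't (by
      have h6 := hU t
      rw [h6, h, mul_zero])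
    have hgle : g.natDegree + (V l₀).natDegree = a := by
      rw [← hdl₀]
      exact (natDegree_factor hg hVl₀ (hV l₀)).symm
    have hg'le : g'.natDegree + (U t).natDegree = b := by
      rw [← hdt]
      exact (natDegree_factor hg' hUt (hU t)).symm
    by_cases hdeg : a + g'.natDegree < b + g.natDegree
    · -- the curve beta
      have hVd : ∀ l, (V l).natDegree < b - g'.natDegree := by
        intro l
        by_cases hVl : V l = 0
        · rw [hVl, Polynomial.natDegree_zero]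
          omega
        · have h6 := natDegree_factor hg hVl (hV l)
          have h7 := hdR l
          omega
      have hUd : ∀ l, (U l).natDegree ≤ b - g'.natDegree := by
        intro l
        by_cases hUl : U l = 0
        · rw [hUl, Polynomial.natDegree_zero]
          omega
        · have h6 := natDegree_factor hg' hUl (hU l)
          have h7 := hdR' l
          omega
      refine ⟨V, U, hrel, ?_, ?_, b - g'.natDegree, Nat.sub_le _ _, hVd, hUd, t, ?_⟩
      · exact h2 _ ι₁ V c b (fun l => by have := hVd l; omega) hcV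
      · exact h2 _ ι₂ U c' b (fun l => by have := hUd l; omega) hcU
      · have h6 : b - g'.natDegree = (U t).natDegree := by omega
        rw [h6]
        exact fun h7 => hUt (Polynomial.leadingCoeff_eq_zero.1 h7)
    · -- a smaller disc
      have hndvd : ¬ g' ∣ g := fun h6 => by
        have := Polynomial.natDegree_le_of_dvd h6 hg
        omega
      obtain ⟨z₂, hz₂⟩ := h3 _ g g' hg hg' hndvd
      obtain ⟨zh, hzh⟩ : ∃ zh : 𝒱, ρ zh = z₂ := Ideal.Quotient.mk_surjective z₂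
      have hD3 := d1 k Ω 𝒱 φ ι₁ ι₂ γ Q dQ R R' δ₁ δ₁' hD2 zh
      have hO := hl Ω 𝒱 ι₁ R g V c hg hV hcV zh
      have hO' := hl Ω 𝒱 ι₂ R' g' U c' hg' hU hcU zh
      rw [← hρ, hzh] at hO hO'
      have ha₂ : g.rootMultiplicity z₂ ≤ a := by
        rw [← hdl₀]
        exact rootMult_le hRl₀ ⟨V l₀, hV l₀⟩ z₂
      have hb₂ : g'.rootMultiplicity z₂ ≤ b := by
        rw [← hdt]
        exact rootMult_le hR't ⟨U t, hU t⟩ z₂
      have hsum : g.rootMultiplicity z₂ + g'.rootMultiplicity z₂ < N := by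
        by_contra hge
        have hae : g.rootMultiplicity z₂ = a := by omega
        have hbe : g'.rootMultiplicity z₂ = b := by omega
        have hdvd : (Polynomial.X - Polynomial.C z₂) ^ b ∣ (R' t).map ρ := by
          rw [← hbe]
          exact (Polynomial.pow_rootMultiplicity_dvd g' z₂).trans ⟨U t, hU t⟩
        have hz20 : z₂ = 0 := by
          obtain ⟨q, hq⟩ := hdvd
          have hq0 : q ≠ 0 := fun h6 => hR't (by rw [hq, h6, mul_zero])
          have h6 : ((R' t).map ρ).natDegree = b + q.natDegree := by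
            rw [hq, Polynomial.natDegree_mul (pow_ne_zero _ (Polynomial.X_sub_C_ne_zero z₂)) hq0,
              Polynomial.natDegree_pow, Polynomial.natDegree_X_sub_C, mul_one]
          have h7 : q.natDegree = 0 := by omega
          obtain ⟨x, rfl⟩ := Polynomial.natDegree_eq_zero.1 h7
          have hx : x ≠ 0 := fun h8 => hq0 (by rw [h8, Polynomial.C_0])
          have h9 := ht00
          rw [hq, Polynomial.mul_coeff_zero, Polynomial.coeff_C_zero,
            Polynomial.coeff_zero_eq_eval_zero, Polynomial.eval_pow, Polynomial.eval_sub,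
            Polynomial.eval_X, Polynomial.eval_C, zero_sub] at h9
          have h10 := (mul_eq_zero.1 h9).resolve_right hx
          have h11 := eq_zero_of_pow_eq_zero h10
          exact neg_eq_zero.1 h11
        have hX : ∀ (n : ℕ) (f : Polynomial (IsLocalRing.ResidueField 𝒱)),
            (Polynomial.X - Polynomial.C z₂) ^ n ∣ f → ∀ m < n, f.coeff m = 0 := by
          intro n f hf m hm
          rw [hz20, Polynomial.C_0, sub_zero] at hf
          exact Polynomial.X_pow_dvd_iff.1 hf m hm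
        rcases hcr with ⟨l, m, hm, hlm⟩ | ⟨l, m, hm, hlm⟩
        · apply hlm
          rw [← coeff_res]
          refine hX a _ ?_ m hm
          rw [← hae]
          exact (Polynomial.pow_rootMultiplicity_dvd g z₂).trans ⟨V l, hV l⟩
        · apply hlm
          rw [← coeff_res]
          refine hX b _ ?_ m hm
          rw [← hbe]
          exact (Polynomial.pow_rootMultiplicity_dvd g' z₂).trans ⟨U l, hU l⟩
      obtain ⟨V₂, U₂, hB⟩ := ih _ hsum _ _ δ₁ δ₁' hD3 _ _ rfl hO hO' hz₂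
      exact ⟨V₂, U₂, Beta.mono hB hb₂⟩
  intro P P' δ δ' hD a b hP hP' hlt
  exact key _ P P' δ δ' hD a b rfl hP hP' hlt

end Pool.Agent.Lib.MP_410da7_agT
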