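import Pool.Agent.Lib.MP_410da7_agB.AllH
import Pool.Agent.Lib.MP_410da7_agT.AssemblyT
import Pool.Agent.Lib.MP_410da7_agT.FinalT
import Pool.Agent.Lib.MP_410da7_agT.Alg
import Pool.Agent.Lib.MP_410da7_agT.AlgV
import Pool.Agent.Lib.MP_410da7_agT.DiscL
import Pool.Agent.Lib.MP_410da7_agT.DiscM
import Pool.Agent.Lib.MP_410da7_agT.CrossT
import Pool.Agent.Lib.MP_410da7_agT.LiftR
import Pool.Agent.Lib.MP_410da7_agT.Tree
import Pool.Agent.Lib.MP_410da7_agT.Split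
import Pool.Agent.Lib.MP_410da7_agT.GT4
import Pool.Agent.Lib.MP_410da7_agT.GT5
import Pool.Agent.Lib.MP_410da7_agT.GT6
import Pool.Agent.Lib.MP_410da7_agT.O3
import Pool.Agent.Lib.MP_410da7_agT.GT7
import Pool.Agent.Lib.MP_410da7_agT.FG16T
import Pool.Agent.Lib.MP_410da7_agT.E8T
import Pool.Agent.Lib.MP_410da7_agT.PSys
import Pool.Agent.Lib.MP_410da7_agT.E9A
import Pool.Agent.Lib.MP_410da7_agT.E9B
import Pool.Agent.Lib.MP_410da7_agT.EFGT
import Pool.Agent.Lib.MP_410da7_agT.CT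
import Pool.Agent.Lib.MP_410da7_agT.HWT
import Pool.Agent.Lib.MP_410da7_agT.HLT
import Pool.Agent.Lib.MP_410da7_agT.HST
import Pool.Agent.Lib.MP_410da7_agT.HNT
import Pool.Agent.Lib.MP_410da7_agT.HV
import Pool.Agent.Lib.MP_410da7_agT.HTA
import Pool.Agent.Lib.MP_410da7_agT.HTB
import Pool.Agent.Lib.MP_410da7_agT.HTC

/-!
# MP_410da7_ag, T2: the theorem
-/

set_option autoImplicit false

namespace Pool.Agent.Lib.MP_410da7_agT

open Pool.Agent.Lib.MP_410da7_agA Pool.Agent.Lib.MP_410da7_agB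

theorem treeAll : TreeStmt := tree alg1 alg2 alg3 alg4 alg5 disc1 disc2 disc3 crossT liftR

theorem splitAll : SplitStmt := split alg1 alg3 alg4 disc1 disc3 liftR treeAll

theorem gt5All : GT5Stmt := gT5 crossUp alg2 disc4 splitAll

theorem gt4All : GT4Stmt := gT4 crossDown alg1 alg2 alg4 disc4 splitAll

theorem gt6All : GT6Stmt := gT6 rename1 gt5All gt4All

theorem gt7All : GT7Stmt := gT7 gN1 g1N (o3 (o2 o1)) rename1 gt6All

theorem fg16All : FG16TStmt :=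
  fG16T f4 (f14N f2 f5 f6 f7 (f9 f8) f10 (f11 f10) (f12 f10) (f13N f10)) fG15N gt7All

theorem efgAll : EFGTStmt := eFGT e3N (e8T e7N) (e9A pSys) (e9B pSys) fg16All

theorem ctAll : CTStmt :=
  cT rename1 (dN18 dNg (dN16 dN5 dN13) (dN17 dN5 dN13 dN15)) efgAll

/-- The theorem T2. -/
theorem t2All : T2Thm :=
  t2Thm hA (hF nThmIfAll hC hD hE) hS hH hG hWT hST (hNT hLT hST) ctAll (hTA (hV alg1))
    (hTB (hV alg1)) hTC

end Pool.Agent.Lib.MP_410da7_agT
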