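import Pool.Agent.Lib.MP_410da7_agT.SpecE

/-!
# MP_410da7_ag, T2 (C46 without nefness): CT, a curve alpha through the generic point or a curve beta
-/

set_option autoImplicit false

namespace Pool.Agent.Lib.MP_410da7_agT

open Pool.Agent.Lib.MP_410da7_agA Pool.Agent.Lib.MP_410da7_agB
open MvPolynomial KaehlerDifferential WithZero Module

namespace cTAux

/-- Bihomogeneity is inherited by a change of the coefficients. -/
lemma biMap {k k' ι₁ ι₂ : Type} [CommSemiring k] [CommSemiring k'] (f : k →+* k')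
    {P : MvPolynomial (ι₁ ⊕ ι₂) k} {d : ℕ × ℕ} (h : BiH P d) : BiH (map f P) d := by
  intro m hm
  apply h
  intro h0
  apply hm
  rw [coeff_map, h0, map_zero]

/-- Bihomogeneity is inherited by a change of the variables. -/
lemma biRename {k κ ι₁ ι₂ : Type} [CommSemiring k] (w : κ → ℕ × ℕ) (f : κ → ι₁ ⊕ ι₂)
    (hf : ∀ i, wt2 (f i) = w i) {P : MvPolynomial κ k} {d : ℕ × ℕ}
    (h : IsWeightedHomogeneous w P d) : BiH (rename f P) d := by
  intro m hm
  obtain ⟨u, hu, hu'⟩ := coeff_rename_ne_zero f P m hm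
  rw [← h hu', ← hu, Finsupp.weight_apply, Finsupp.weight_apply,
    Finsupp.sum_mapDomain_index (h := fun i (c : ℕ) => c • wt2 i) (fun _ => zero_smul _ _)
      (fun _ _ _ => add_smul _ _ _)]
  simp only [hf]

/-- Homogeneous polynomials in the first group of variables. -/
lemma ofHom {k κ ι₁ ι₂ : Type} [CommSemiring k] (f : κ → ι₁) {P : MvPolynomial κ k} {e : ℕ}
    (h : P.IsHomogeneous e) : BiH (rename (Sum.inl ∘ f : κ → ι₁ ⊕ ι₂) P) (e, 0) := by
  refine biRename (fun _ => (1, 0)) _ (fun _ => rfl) ?_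
  intro m hm
  have h1 := h hm
  ext
  · simp only [Finsupp.weight_apply, Finsupp.sum, Prod.fst_sum] at h1 ⊢
    rw [← h1]
    exact Finset.sum_congr rfl fun i _ => rfl
  · simp [Finsupp.weight_apply, Finsupp.sum, Prod.snd_sum]

/-- The bihomogeneous relations are generated by finitely many of them. -/
lemma finRel {K ι₁ ι₂ : Type} [Field K] [Algebra ℂ K] [Finite ι₁] [Finite ι₂]
    (v : ι₁ ⊕ ι₂ → K) :
    ∃ (γ : ℕ) (P : Fin γ → MvPolynomial (ι₁ ⊕ ι₂) ℂ) (dQ : Fin γ → ℕ × ℕ),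
      (∀ j, BiH (P j) (dQ j) ∧ aeval v (P j) = 0) ∧
      ∀ (d : ℕ × ℕ) (R : MvPolynomial (ι₁ ⊕ ι₂) ℂ), BiH R d → aeval v R = 0 →
        R ∈ Ideal.span (Set.range P) := by
  set s : Set (MvPolynomial (ι₁ ⊕ ι₂) ℂ) := {P | ∃ d : ℕ × ℕ, BiH P d ∧ aeval v P = 0} with hs
  have hfg : (Ideal.span s).FG := IsNoetherian.noetherian _
  obtain ⟨t, hts, ht⟩ := (Submodule.fg_span_iff_fg_span_finset_subset s).1 hfg
  have h1 : ∀ j : Fin t.card, ∃ d : ℕ × ℕ,
      BiH ((t.equivFin.symm j : MvPolynomial (ι₁ ⊕ ι₂) ℂ)) d ∧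
        aeval v ((t.equivFin.symm j : MvPolynomial (ι₁ ⊕ ι₂) ℂ)) = 0 :=
    fun j => hts (t.equivFin.symm j).2
  choose dQ hdQ using h1
  refine ⟨t.card, fun j => (t.equivFin.symm j : MvPolynomial (ι₁ ⊕ ι₂) ℂ), dQ, hdQ, ?_⟩
  intro d R hR hR0
  have h2 : R ∈ Ideal.span s := Ideal.subset_span ⟨d, hR, hR0⟩
  have h3 : Ideal.span s = Ideal.span (t : Set (MvPolynomial (ι₁ ⊕ ι₂) ℂ)) := ht
  rw [h3] at h2
  refine Ideal.span_mono ?_ h2
  intro q hq
  exact ⟨t.equivFin ⟨q, hq⟩, congrArg Subtype.val (Equiv.symm_apply_apply _ _)⟩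

end cTAux

open cTAux in
theorem cT (hr : Rename1Stmt) (hdn18 : DN18Stmt) (hefgt : EFGTStmt) : CTStmt := by
  intro K _ _ n N Mw m₀ e₀ E₂ Ψ W tt x hs L Λ _ _ _ _ _ _ _ _ a hN
  have : CharZero L := charZero_of_injective_algebraMap (algebraMap ℂ L).injective
  obtain ⟨c, κ, r, d, E₁, S, α, g, hC, hker⟩ := hdn18 K n N Mw m₀ e₀ E₂ Ψ W tt x hs L Λ a hN
  set Y : Fin (Mw + 2) → K := Fin.snoc W (∑ l, c l • W l) with hY
  have hYc : ∀ l : Fin (Mw + 1), Y l.castSucc = W l := by
    intro l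
    rw [hY, Fin.snoc_castSucc]
  have hYl : Y (Fin.last (Mw + 1)) = ∑ l, c l • W l := by
    rw [hY, Fin.snoc_last]
  set tt' : Finset (Fin (Mw + 2)) := tt.map Fin.castSuccEmb with htt'
  obtain ⟨γ, P, dQ, hP, hPs⟩ := finRel (Sum.elim Y fun t : tt' => Y t)
  have hB : (n + 1) * m₀ * E₁ < ((n + 1) * m₀ * E₁ + 1) * e₀ := by
    have h1 := Nat.mul_le_mul_left ((n + 1) * m₀ * E₁ + 1) hN.e0
    omega
  obtain ⟨Λ', _, _, hD⟩ := hefgt L Λ (Mw + 1) κ r d n m₀ e₀ E₁ E₂ ((n + 1) * m₀ * E₁) S tt' _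
    (Fin.last (Mw + 1)) α g hC hB γ (fun j => map (algebraMap ℂ L) (P j)) dQ
    (fun j => biMap _ (hP j).1) (fun j => ⟨d, by
      rw [← map_rename]
      have h1 := hr ℂ (Mw + 1) tt' (P j) (dQ j) (hP j).1
      refine hker _ _ h1.1 ?_
      have h2 := h1.2 K (algebraMap ℂ K) Y
      rw [← aeval_def, ← aeval_def] at h2
      rw [h2]
      exact (hP j).2⟩)
  let _ : Algebra ℂ Λ' := ((algebraMap Λ Λ').comp (algebraMap ℂ Λ)).toAlgebra
  have : IsScalarTower ℂ Λ Λ' := IsScalarTower.of_algebraMap_eq (fun _ => rfl)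
  let ι : K →ₐ[ℂ] Λ' := (IsScalarTower.toAlgHom ℂ Λ Λ').comp (IsScalarTower.toAlgHom ℂ K Λ)
  have hι : ∀ f : K, ι f = algebraMap Λ Λ' (algebraMap K Λ f) := fun _ => rfl
  -- the bihomogeneous relations
  have key : ∀ z : Fin (Mw + 2) ⊕ tt' → Polynomial Λ',
      (∀ j, aeval z (map (algebraMap Λ Λ') (map (algebraMap L Λ)
        (map (algebraMap ℂ L) (P j)))) = 0) →
      ∀ (b : ℕ × ℕ) (R : MvPolynomial (Fin (Mw + 2) ⊕ tt') ℂ), BiH R b →
        aeval (Sum.elim Y fun t : tt' => Y t) R = 0 → aeval z R = 0 := by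
    intro z hz b R hR hR0
    have h1 : Ideal.span (Set.range P) ≤
        RingHom.ker (aeval z : MvPolynomial (Fin (Mw + 2) ⊕ tt') ℂ →ₐ[ℂ] Polynomial Λ') := by
      rw [Ideal.span_le]
      rintro q ⟨j, rfl⟩
      have h2 := hz j
      rw [map_map, map_map] at h2
      have h3 : ((algebraMap Λ Λ').comp (algebraMap L Λ)).comp (algebraMap ℂ L) =
          algebraMap ℂ Λ' := by
        rw [RingHom.comp_assoc, ← IsScalarTower.algebraMap_eq ℂ L Λ]
        rfl
      rw [h3, aeval_map_algebraMap] at h2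
      exact h2
    exact h1 (hPs b R hR hR0)
  -- the last coordinate
  have klast : ∀ z : Fin (Mw + 2) ⊕ tt' → Polynomial Λ',
      (∀ j, aeval z (map (algebraMap Λ Λ') (map (algebraMap L Λ)
        (map (algebraMap ℂ L) (P j)))) = 0) →
      z (Sum.inl (Fin.last (Mw + 1))) =
        ∑ l : Fin (Mw + 1), Polynomial.C (algebraMap ℂ Λ' (c l)) * z (Sum.inl l.castSucc) := by
    intro z hz
    have h1 := key z hz (1, 0) (rename (Sum.inl ∘ id)
      (X (Fin.last (Mw + 1)) - ∑ l : Fin (Mw + 1), C (c l) * X l.castSucc)) (by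
        refine ofHom id ?_
        refine (isHomogeneous_X _ _).sub ?_
        refine IsHomogeneous.sum _ _ _ fun l _ => ?_
        have h2 := (isHomogeneous_C (Fin (Mw + 2)) (c l)).mul
          (isHomogeneous_X ℂ (l.castSucc : Fin (Mw + 2)))
        rwa [zero_add] at h2) (by
        rw [aeval_rename, map_sub, aeval_X, map_sum, sub_eq_zero]
        show Y (Fin.last (Mw + 1)) = _
        rw [hYl]
        refine Finset.sum_congr rfl fun l _ => ?_
        rw [map_mul, aeval_C, aeval_X]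
        show _ = _ * Y l.castSucc
        rw [hYc, Algebra.smul_def])
    rw [aeval_rename, map_sub, aeval_X, map_sum, sub_eq_zero] at h1
    refine h1.trans (Finset.sum_congr rfl fun l _ => ?_)
    rw [map_mul, aeval_C, aeval_X]
    rfl
  -- the indices in `tt`
  let ε : tt ≃ tt' := Equiv.ofBijective
    (fun t => ⟨(t : Fin (Mw + 1)).castSucc, Finset.mem_map_of_mem Fin.castSuccEmb t.2⟩) (by
      constructor
      · intro t₁ t₂ h
        have h1 := congrArg Subtype.val h
        exact Subtype.ext (Fin.castSucc_injective _ h1)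
      · rintro ⟨t', ht'⟩
        obtain ⟨t, ht, rfl⟩ := Finset.mem_map.1 ht'
        exact ⟨⟨t, ht⟩, rfl⟩)
  have hε : ∀ t : tt, (ε t : Fin (Mw + 2)) = (t : Fin (Mw + 1)).castSucc := fun _ => rfl
  refine ⟨Λ', inferInstance, inferInstance, ?_⟩
  rcases hD with ⟨Yp, hA⟩ | ⟨V, U, hB'⟩
  · left
    have hcf : ∀ l, (Yp l).coeff 0 = ι (Y l) := hA.start
    refine ⟨ι, fun l => Yp l.castSucc, ?_, ?_, ?_, ?_⟩
    · intro e R hR hR0
      have h1 := key _ hA.rel (e, 0) (rename (Sum.inl ∘ Fin.castSucc) R) (ofHom _ hR) (by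
        rw [aeval_rename]
        have e1 : (Sum.elim Y fun t : tt' => Y t) ∘ (Sum.inl ∘ Fin.castSucc) = W := funext hYc
        rw [e1]
        exact hR0)
      rw [aeval_rename] at h1
      exact h1
    · obtain ⟨b, -, hb⟩ := hA.miss
      refine ⟨fun t => b (ε t), ?_⟩
      rw [← hb, ← ε.sum_comp fun t => b t * Yp t]
      rfl
    · intro l
      rw [hcf, hYc]
    · by_contra hcon
      push Not at hcon
      obtain ⟨l₀, hl₀⟩ := hA.moves
      apply hl₀
      have hcon' : ∀ l : Fin (Mw + 1), Yp l.castSucc = Polynomial.C (ι (W l)) * Yp 0 := by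
        intro l
        have h1 := hcon l
        rw [Fin.castSucc_zero] at h1
        exact h1
      rw [← hι]
      refine Fin.lastCases ?_ (fun l => ?_) l₀
      · have h1 := klast _ hA.rel
        simp only [Sum.elim_inl] at h1
        rw [hYl, h1, map_sum, map_sum, Finset.sum_mul]
        refine Finset.sum_congr rfl fun l _ => ?_
        rw [hcon' l, map_smul, Algebra.smul_def, map_mul, mul_assoc]
      · rw [hYc]
        exact hcon' l
  · right
    obtain ⟨e, -, hVe, hUe, t₀, ht₀⟩ := hB'.deg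
    refine ⟨fun l => V l.castSucc, fun t => U (ε t), e, ?_, ?_, ?_, fun l => hVe _,
      fun t => hUe _, ε.symm t₀, ?_⟩
    · intro b R hR hR0
      have h1 := key _ hB'.rel b (rename (Sum.map Fin.castSucc ε) R) (biRename _ _ (by
        rintro (l | t) <;> rfl) hR) (by
        rw [aeval_rename]
        have e1 : (Sum.elim Y fun t : tt' => Y t) ∘ (Sum.map Fin.castSucc ε) =
            Sum.elim W fun t : tt => W t := by
          funext i
          rcases i with l | t
          · exact hYc l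
          · exact hYc t
        rw [e1]
        exact hR0)
      rw [aeval_rename] at h1
      have e2 : (Sum.elim V U) ∘ (Sum.map Fin.castSucc ε) =
          Sum.elim (fun l : Fin (Mw + 1) => V l.castSucc) fun t => U (ε t) := by
        funext i
        rcases i with l | t <;> rfl
      rw [e2] at h1
      exact h1
    · obtain ⟨b, -, hb⟩ := hB'.cV
      refine ⟨fun l => b l.castSucc + b (Fin.last (Mw + 1)) *
        Polynomial.C (algebraMap ℂ Λ' (c l)), ?_⟩
      have hl : V (Fin.last (Mw + 1)) =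
          ∑ l : Fin (Mw + 1), Polynomial.C (algebraMap ℂ Λ' (c l)) * V l.castSucc :=
        klast _ hB'.rel
      rw [Fin.sum_univ_castSucc, hl, Finset.mul_sum, ← Finset.sum_add_distrib] at hb
      rw [← hb]
      refine Finset.sum_congr rfl fun l _ => ?_
      ring
    · obtain ⟨b, -, hb⟩ := hB'.cU
      refine ⟨fun t => b (ε t), ?_⟩
      rw [← hb, ← ε.sum_comp fun t => b t * U t]
    · show (U (ε (ε.symm t₀))).coeff e ≠ 0
      rw [Equiv.apply_symm_apply]
      exact ht₀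

end Pool.Agent.Lib.MP_410da7_agT
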