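import Pool.Agent.Lib.MP_410da7_agB.Final

/-!
# MP_410da7_ag: definitions for the theorem on divisors which are nonnegative on rational curves

The setting is that of `MP_410da7_agB/Statement3.lean`: `Xbar ⊆ ℙ^M` with homogeneous coordinates `Y`, the
effective divisor `H` defined by the forms `G_0, ..., G_s` of degree `d₀`, its support `D`.

The ideal of `H` is invertible and generated by the `G_j`, so `(G_0 : ... : G_s)` is a morphism
`Xbar → ℙ^s` with line bundle `d₀ A - H`, and `Xbar` is identified with its graph in `ℙ^M × ℙ^s`.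
-/

set_option autoImplicit false

namespace Pool.Agent.Lib.MP_410da7_agT

open MvPolynomial KaehlerDifferential
open Pool.Agent.Lib.MP_410da7_agB

/-- The bidegrees of the two groups of variables. -/
def wt2 {ι₁ ι₂ : Type} : ι₁ ⊕ ι₂ → ℕ × ℕ
  | Sum.inl _ => (1, 0)
  | Sum.inr _ => (0, 1)

/-- Bihomogeneous polynomials of bidegree `d`. -/
abbrev BiH {k ι₁ ι₂ : Type} [CommSemiring k] (P : MvPolynomial (ι₁ ⊕ ι₂) k) (d : ℕ × ℕ) : Prop :=
  IsWeightedHomogeneous (wt2 (ι₁ := ι₁) (ι₂ := ι₂)) P d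

section

variable {K : Type} [Field K] [Algebra ℂ K] {M s : ℕ}

/-- `V_0, ..., V_M` and `U_0, ..., U_s`, polynomials in one variable over the field `F`, are the
homogeneous coordinates of a morphism `f : ℙ¹ → Xbar ⊆ ℙ^M × ℙ^s` (over `F`): all the bihomogeneous
polynomials which vanish on the graph vanish at `(V; U)`, the `V_l` have no common zero, and the `U_j`
have no common zero. -/
structure RatCurve (F : Type) [Field F] [Algebra ℂ F] (Y : Fin (M + 1) → K)
    (G : Fin (s + 1) → MvPolynomial (Fin (M + 1)) ℂ) (V : Fin (M + 1) → Polynomial F)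
    (U : Fin (s + 1) → Polynomial F) : Prop where
  rel : ∀ (d : ℕ × ℕ) (P : MvPolynomial (Fin (M + 1) ⊕ Fin (s + 1)) ℂ), BiH P d →
    aeval (Sum.elim Y fun j => aeval Y (G j)) P = 0 → aeval (Sum.elim V U) P = 0
  cV : ∃ c : Fin (M + 1) → Polynomial F, ∑ l, c l * V l = 1
  cU : ∃ c : Fin (s + 1) → Polynomial F, ∑ j, c j * U j = 1

/-- `H · E ≥ 0` for all rational curves `E` in `D`: for a morphism `f : ℙ¹ → D` with the homogeneous
coordinates `(V; U)` the degree of `f^* A` is the maximum of the degrees of the `V_l`, the degree of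
`f^* (d₀ A - H)` is the maximum of the degrees of the `U_j`, and `deg f^* H` is nonnegative if and only if
`max deg U_j ≤ d₀ max deg V_l`. -/
def NonnegOnRat (d₀ : ℕ) (Y : Fin (M + 1) → K)
    (G : Fin (s + 1) → MvPolynomial (Fin (M + 1)) ℂ) : Prop :=
  ∀ (V : Fin (M + 1) → Polynomial ℂ) (U : Fin (s + 1) → Polynomial ℂ), RatCurve ℂ Y G V U →
    (∀ j, aeval V (G j) = 0) → ∀ j, ∃ l, (U j).natDegree ≤ d₀ * (V l).natDegree

end

/-- THEOREM T2. -/
def T2Thm : Prop :=
  ∀ (K : Type) [Field K] [Algebra ℂ K] (n M s d₀ : ℕ) (x : Fin M → K)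
    (G : Fin (s + 1) → MvPolynomial (Fin (M + 1)) ℂ) (Ψ : Ω[K⁄ℂ] [⋀^Fin n]→ₗ[K] K),
    IntermediateField.adjoin ℂ (Set.range x) = ⊤ → Algebra.trdeg ℂ K = n → Ψ ≠ 0 → 1 ≤ d₀ →
    (∀ j, (G j).IsHomogeneous d₀) → (∃ j, aeval (Fin.cons 1 x : Fin (M + 1) → K) (G j) ≠ 0) →
    LogSmoothPair n (Fin.cons 1 x) G → NonnegOnRat d₀ (Fin.cons 1 x) G →
    List.TFAE [A1UniruledCompl n (Fin.cons 1 x) G, PairNotPseff d₀ (Fin.cons 1 x) G Ψ,
      HasNegFamily (Fin.cons 1 x) G Ψ] ∧
    ((pairAdjointRing d₀ (Fin.cons 1 x) G Ψ).FG →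
      (A1UniruledCompl n (Fin.cons 1 x) G ↔ PairKodairaNegInf d₀ (Fin.cons 1 x) G Ψ))

end Pool.Agent.Lib.MP_410da7_agT
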