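import Pool.Agent.Lib.MP_410da7_agB.AllH
import Pool.Agent.Lib.MP_410da7_agT.Statement4

/-!
# MP_410da7_ag, T2: the equations of a log smooth pair do not vanish on `Xbar`

If they do then some `z_i` is `0` at every point; but the `dz_i` are a basis of the differentials.
-/

set_option autoImplicit false

namespace Pool.Agent.Lib.MP_410da7_agT

open Pool.Agent.Lib.MP_410da7_agA Pool.Agent.Lib.MP_410da7_agB
open MvPolynomial KaehlerDifferential WithZero Module

theorem eqs_ne {K : Type} [Field K] [Algebra ℂ K] {n N s d₀ : ℕ} {x : Fin N → K}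
    {G : Fin (s + 1) → MvPolynomial (Fin (N + 1)) ℂ} {Ψ : Ω[K⁄ℂ] [⋀^Fin n]→ₗ[K] K}
    (hS : Sit Ψ x) (hG : ∀ j, (G j).IsHomogeneous d₀) (hsm : LogSmoothPair n (cons1 x) G) :
    ∃ j, aeval (cons1 x) (G j) ≠ 0 := by
  classical
  by_contra hcon
  push Not at hcon
  have htriv : Triv (1 : Valuation K ℤᵐ⁰) := by
    intro c hc
    exact Valuation.one_apply_of_ne_zero (by simpa using hc)
  obtain ⟨b, p, hat, hpt⟩ := exists_atPoint x htriv
  obtain ⟨z, lam, hch⟩ := hsm b p hpt
  -- the differentials are independent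
  have hch' : IsPairChart (cons1 x) (fun _ : Fin (0 + 1) => X b) b p z fun _ => 0 := by
    have h1 : monIdeal z (fun _ => 0) = ⊤ := by
      rw [monIdeal, Ideal.eq_top_iff_one]
      refine Ideal.subset_span ?_
      rw [Set.mem_singleton_iff]
      exact (Finset.prod_eq_one fun i _ => pow_zero _).symm
    refine ⟨hch.coord, ?_, ?_⟩
    · rw [h1, divIdeal, Ideal.eq_top_iff_one]
      refine Ideal.subset_span ⟨0, ?_⟩
      apply Subtype.ext
      show aeval (fun l => cons1 x l / cons1 x b) (X b : MvPolynomial (Fin (N + 1)) ℂ) = 1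
      rw [aeval_X, div_self hpt.1]
    · rw [h1, Ideal.radical_top]
      symm
      rw [redIdeal, Ideal.eq_top_iff_one]
      refine Ideal.subset_span ?_
      rw [Set.mem_singleton_iff]
      symm
      refine Finset.prod_eq_one fun i hi => ?_
      rw [Finset.mem_filter] at hi
      exact absurd hi.2 (by omega)
  have hls := hA K n N 0 1 (cons1 x) (fun _ => X b) (fun _ => isHomogeneous_X ℂ b)
    ⟨0, by rw [aeval_X]; exact hpt.1⟩ b p 1 htriv hat z (fun _ => 0) hch'
  obtain ⟨W, hW⟩ := hC K n N Ψ x hS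
  have h1 := hW 1 htriv b _ hls.reg
  have h2 : (1 : Valuation K ℤᵐ⁰) (Ψ fun i => D ℂ K (z i : K)) ≠ 0 := by
    intro h0
    rw [h0, mul_zero] at h1
    exact rsize_ne_zero W 1 h1
  have h3 : Ψ (fun i => D ℂ K (z i : K)) ≠ 0 := fun h0 => h2 (by rw [h0, map_zero])
  have hz : ∀ i, z i ≠ 0 := by
    intro i h0
    apply h3
    refine Ψ.map_coord_zero i ?_
    rw [h0]
    exact map_zero _
  -- the ideal of the divisor
  have h4 : divIdeal (cons1 x) G b p = ⊥ := by
    rw [divIdeal, Ideal.span_eq_bot]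
    rintro _ ⟨j, rfl⟩
    apply Subtype.ext
    show aeval (aff (cons1 x) b) (G j) = 0
    have h5 := ng_hom_aeval (hG j) hpt.1
    rw [hcon j] at h5
    exact (mul_eq_zero.1 h5.symm).resolve_left (pow_ne_zero _ hpt.1)
  have h5 : monIdeal z lam = ⊥ := by rw [← hch.div, h4]
  rw [monIdeal, Ideal.span_singleton_eq_bot] at h5
  exact Finset.prod_ne_zero_iff.2 (fun i _ => pow_ne_zero _ (hz i)) h5

end Pool.Agent.Lib.MP_410da7_agT
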