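import Pool.Agent.Lib.MP_410da7_agT.SpecG
import Pool.Agent.Lib.MP_410da7_agB.SpecD

/-!
# MP_410da7_ag, T2 (C46 without nefness): blocks F, E, D

Unchanged and used as they are: F4, F13N, F14N, FG15N, E3N, E7N, DN18 (`MP_410da7_agB`), E4, E5, FF1, ..., FF10
(`MP_410da7_agA`).
-/

set_option autoImplicit false

namespace Pool.Agent.Lib.MP_410da7_agT

open Pool.Agent.Lib.MP_410da7_agA Pool.Agent.Lib.MP_410da7_agB
open MvPolynomial KaehlerDifferential WithZero Module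

/-- FG16T. THE THEOREM IN CHARACTERISTIC `p`.
PROOF. The proof of `fG16N` (`MP_410da7_agB/FG16N.lean`): `numbers` with `B` and `s = ∑ P`, and GT7 instead of
GN7. The condition on `R` for the twisted point: `C.ord w (y ^ q) = q * C.ord w y` (`ord_pow` in `FG15`). -/
def FG16TStmt : Prop :=
  ∀ (k Λ : Type) [Field k] [Infinite k] [Field Λ] [Algebra k Λ] (p e₀ : ℕ) [Fact p.Prime]
    [CharP k p] (C : Curve k Λ) (M κ r d n : ℕ) (S : System k M κ r d)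
    (tt : Finset (Fin (M + 1))) (y : Fin (M + 1) → Λ) (P R ℓ μ : C.pt → ℤ) (b₀ : Fin (M + 1)),
    M = n + r → 0 < e₀ → (∀ j, FixedBy (p ^ e₀) (S.F j)) →
    FixedBy (p ^ e₀) S.g → PtDataN C S tt y P R ℓ μ b₀ →
    (∀ w, ∃ t ∈ tt, - (C.ord w (y t)) = R w) →
    (∀ w, 0 < P w → ∃ (T : LogPolyN S.F b₀ tt) (μ' : Fin T.s → ℕ),
      (∀ i, FixedBy (p ^ e₀) (T.a i)) ∧ FixedBy (p ^ e₀) T.χ ∧ ∑ i, (μ' i : ℤ) ≤ μ w ∧
      aeval y T.χ ≠ 0 ∧ C.ord w (aeval y T.χ) = - (T.e₁ * P w) ∧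
      (∀ i, ∀ j < (μ' i : ℤ) - T.e i * P w, C.cf w j (aeval y (T.a i)) = 0) ∧
      P w ≤ R w + ∑ i, (T.lam i : ℤ) * μ' i) →
    ∀ (a' c' : ℤ) (B : ℕ), 1 ≤ a' →
    ∑ᶠ w, ℓ w + ∑ᶠ w, μ w + a' ≤ (n + 1) * ∑ᶠ w, P w →
    (n + 1) * ∑ᶠ w, P w < (B + 1) * a' →
    (∀ m : ℕ, (m : ℤ) * ∑ᶠ w, P w ≤ finrank k (C.L ((m : ℤ) • P)) + c') →
    ∀ (γ : ℕ) (Q : Fin γ → MvPolynomial (Fin (M + 1) ⊕ tt) k) (dQ : Fin γ → ℕ × ℕ),
    (∀ j, BiH (Q j) (dQ j)) →
    (∀ j, ∃ N : ℕ, X 0 ^ N * rename (Sum.elim id Subtype.val) (Q j) ∈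
      Ideal.span (Set.range S.F)) →
    ∀ (U : Set C.pt), U.Infinite → (∀ w ∈ U, P w = 0) →
    ∃ (m : ℕ) (w : C.pt) (_ : w ∈ U), Dich Q (fun l => C.cf w 0 (y l) ^ (p ^ e₀) ^ m) B

/-- E8T. The numerical data (E8N without `∑ R`, but with `R` attained).
PROOF. The proof of `e8N` (`MP_410da7_agB/E8N.lean`), simplified. -/
def E8TStmt : Prop :=
  ∀ (k Λ : Type) [Field k] [Field Λ] [Algebra k Λ] (C : Curve k Λ)
    (q M κ r d n m₀ e₀ E₁ E₂ B : ℕ) (S : System k M κ r d) (tt : Finset (Fin (M + 1)))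
    (y : Fin (M + 1) → Λ) (b₀ : Fin (M + 1)) (α g : Λ),
    CertCQ q S tt n m₀ e₀ E₁ E₂ y b₀ α g →
    (n + 1) * m₀ * E₁ < (B + 1) * e₀ →
    (∃ w, C.ord w (y b₀) < 0) → ∀ P : C.pt → ℤ, (∀ w, P w = max 0 (-(C.ord w (y b₀)))) →
    ∃ (R ℓ μ : C.pt → ℤ) (a' : ℤ), PtDataN C S tt y P R ℓ μ b₀ ∧
      (∀ w, ∃ t ∈ tt, - (C.ord w (y t)) = R w) ∧
      (∀ w, 0 < P w → ∃ (T : LogPolyN S.F b₀ tt) (μ' : Fin T.s → ℕ),
        (∀ i, FixedBy q (T.a i)) ∧ FixedBy q T.χ ∧ ∑ i, (μ' i : ℤ) ≤ μ w ∧ aeval y T.χ ≠ 0 ∧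
        C.ord w (aeval y T.χ) = - (T.e₁ * P w) ∧
        (∀ i, ∀ j < (μ' i : ℤ) - T.e i * P w, C.cf w j (aeval y (T.a i)) = 0) ∧
        P w ≤ R w + ∑ i, (T.lam i : ℤ) * μ' i) ∧
      1 ≤ a' ∧ ∑ᶠ w, ℓ w + ∑ᶠ w, μ w + a' ≤ (n + 1) * ∑ᶠ w, P w ∧
      (n + 1) * ∑ᶠ w, P w < (B + 1) * a'

/-- PSYS. Systems of equations for polynomials of bounded degree: if all the solutions `x` over all the extension
fields satisfy `coeff_n h(x) = 0`, this is inherited by specializations. (`none ↦ X`, `some i ↦ x_i`.)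
PROOF. As `e9N` (`MP_410da7_agB/E9N.lean`). `V = Σ i, Fin (Bd i + 1)`, generic polynomials
`x_i = ∑_m C(a_{i,m}) X^m` over `Λ[V]`, `I ⊆ Λ[V]` generated by all the coefficients of the `F_j(X, x)`. In the
field of fractions of `Λ[V]/J`, `J ⊇ I` prime, we get a solution, so `coeff_n h(X, x) ∈ J`; hence a power of it
is in `I` (`Ideal.radical_eq_sInf`): `(coeff_n h(X, x))^K = ∑ c_i g_i`. `E` = the coefficients of the `c_i`. For
`R ⊇ E` the identity holds over `R` (`map R.subtype` is injective); apply `ε` and evaluate at the coefficients of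
the given `x`. -/
def PSysStmt : Prop :=
  ∀ (Λ : Type) [Field Λ] (ι I : Type) [Fintype ι] [Fintype I] (Bd : ι → ℕ)
    (F : I → MvPolynomial (Option ι) Λ) (h : MvPolynomial (Option ι) Λ) (n : ℕ),
    (∀ (Ω : Type) [Field Ω] [Algebra Λ Ω] (x : ι → Polynomial Ω), (∀ i, (x i).natDegree ≤ Bd i) →
      (∀ j, aeval (fun o : Option ι => o.elim Polynomial.X x) (F j) = 0) →
      (aeval (fun o : Option ι => o.elim Polynomial.X x) h).coeff n = 0) →
    ∃ E : Finset Λ, ∀ (R : Subring Λ), (∀ e ∈ E, e ∈ R) →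
      ∀ (FR : I → MvPolynomial (Option ι) R) (hR : MvPolynomial (Option ι) R),
      (∀ j, map R.subtype (FR j) = F j) → map R.subtype hR = h →
      ∀ (k' : Type) [Field k'] (ε : R →+* k') (x : ι → Polynomial k'),
      (∀ i, (x i).natDegree ≤ Bd i) →
      (∀ j, eval₂ (Polynomial.C.comp ε) (fun o : Option ι => o.elim Polynomial.X x)
        (FR j) = 0) →
      (eval₂ (Polynomial.C.comp ε) (fun o : Option ι => o.elim Polynomial.X x) hR).coeff n = 0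

/-- E9A. Nonexistence of the curves alpha is inherited by specializations.
PROOF. If `B = 0` then `Yp_l = C y_l` for all `l` (`deg`, `start`), which contradicts `moves` (`y_0 = 1`). Let
`B ≥ 1`. For every `l₂ ≤ M`, `1 ≤ n ≤ B`: PSYS with the unknowns `z_l` (`l ≤ M`, `Bd = B - 1`;
`Yp_l = C y_l + X z_l`) and `c_t` (`t ∈ tt`, `Bd = B`), the equations `Q_j(Yp; Yp|tt) = 0` and
`∑ c_t Yp_t - 1 = 0` (polynomials in `none ↦ X` and the unknowns), and `h = Yp_{l₂} - y_{l₂} Yp_0`, the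
coefficient of degree `n` (that of degree `0` vanishes because `y_0 = 1`). By hypothesis no solution `Yp` moves,
so `coeff_n h = 0`. `E` = the union. -/
def E9AStmt : Prop :=
  ∀ (Λ : Type) [Field Λ] (M γ B : ℕ) (tt : Finset (Fin (M + 1)))
    (Q : Fin γ → MvPolynomial (Fin (M + 1) ⊕ tt) Λ) (y : Fin (M + 1) → Λ), y 0 = 1 →
    (¬ ∃ (Ω : Type) (_ : Field Ω) (_ : Algebra Λ Ω) (Yp : Fin (M + 1) → Polynomial Ω),
      Alpha (fun j => map (algebraMap Λ Ω) (Q j)) (fun l => algebraMap Λ Ω (y l)) B Yp) →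
    ∃ E : Finset Λ, ∀ (R : Subring Λ), (∀ e ∈ E, e ∈ R) →
      ∀ (QR : Fin γ → MvPolynomial (Fin (M + 1) ⊕ tt) R) (yR : Fin (M + 1) → R),
      (∀ j, map R.subtype (QR j) = Q j) → (∀ l, (yR l : Λ) = y l) →
      ∀ (k' : Type) [Field k'] (ε : R →+* k') (Yp : Fin (M + 1) → Polynomial k'),
      ¬ Alpha (fun j => map ε (QR j)) (fun l => ε (yR l)) B Yp

/-- E9B. Nonexistence of the curves beta is inherited by specializations.
PROOF. PSYS for every `e ≤ B` and `l₂ : ι₂`, with the unknowns `V_l` (`Bd = e - 1`, `e ≥ 1`; for `e = 0` there is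
no curve beta, because `ι₁` is not empty by `cV`, or if it is empty then `∑ = 0 ≠ 1`), `U_l` (`Bd = e`), `c_l`,
`c'_l` (`Bd = B`), the equations `Q_j(V; U) = 0`, `∑ c_l V_l - 1 = 0`, `∑ c'_l U_l - 1 = 0`, and `h = U_{l₂}`, the
coefficient of degree `e`. -/
def E9BStmt : Prop :=
  ∀ (Λ : Type) [Field Λ] (ι₁ ι₂ : Type) [Fintype ι₁] [Fintype ι₂] (γ B : ℕ)
    (Q : Fin γ → MvPolynomial (ι₁ ⊕ ι₂) Λ),
    (¬ ∃ (Ω : Type) (_ : Field Ω) (_ : Algebra Λ Ω) (V : ι₁ → Polynomial Ω)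
      (U : ι₂ → Polynomial Ω), Beta (fun j => map (algebraMap Λ Ω) (Q j)) B V U) →
    ∃ E : Finset Λ, ∀ (R : Subring Λ), (∀ e ∈ E, e ∈ R) →
      ∀ (QR : Fin γ → MvPolynomial (ι₁ ⊕ ι₂) R), (∀ j, map R.subtype (QR j) = Q j) →
      ∀ (k' : Type) [Field k'] (ε : R →+* k') (V : ι₁ → Polynomial k')
      (U : ι₂ → Polynomial k'), ¬ Beta (fun j => map ε (QR j)) B V U

/-- EFGT. THE END THEOREM OF THE BLOCKS E, F, G.
PROOF. As `eFGN` (`MP_410da7_agB/EFGN.lean`). Suppose that `Dich` does not hold. E9A and E9B for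
`map (algebraMap L Λ) (Q j)`: the finite sets `E_A`, `E_B`. E3N: `CL`, `E`. Add to `CL` the coefficients of the
`Q_j` and of the `w_i` in `X_0^N Q_j = ∑ w_i F_i` (`Ideal.mem_span_range_iff_exists_fun`). E4 for `z = y_{b₀}`,
this `CL` and `E ∪ E_A ∪ E_B`; `k` is algebraically closed, hence infinite. `S'`, `CertCQ`; the curve `C`
(FF1, FF5, FF7); E8T; FF10; `U` as in `eFGN`. FG16T for `Q'_j = s.red (Q_j)` (E5: `red` is multiplicative and
additive, commutes with `rename` (write everything as `map s.A.subtype`, `map s.χ`), `BiH` is inherited, and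
`X_0^N Q'_j = ∑ s.red w_i S'.F_i`): `m`, `w ∈ U`, `k'` and a curve alpha or beta over `k'` for
`map (algebraMap k k') Q'_j`. The ring homomorphism `ε` on `R = rr s C w` is as in `eFGN`, `QR_j` = `Q_j` with
coefficients in `R`, and `map ε QR_j = map (algebraMap k k') Q'_j` (the images of the elements of `s.A` are fixed
by `x ↦ x^q`). Contradiction with E9A or E9B. -/
def EFGTStmt : Prop :=
  ∀ (L Λ : Type) [Field L] [CharZero L] [Field Λ] [Algebra L Λ]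
    (M κ r d n m₀ e₀ E₁ E₂ B : ℕ) (S : System L M κ r d) (tt : Finset (Fin (M + 1)))
    (y : Fin (M + 1) → Λ) (b₀ : Fin (M + 1)) (α g : Λ), CertC S tt n m₀ e₀ E₁ E₂ y b₀ α g →
    (n + 1) * m₀ * E₁ < (B + 1) * e₀ →
    ∀ (γ : ℕ) (Q : Fin γ → MvPolynomial (Fin (M + 1) ⊕ tt) L) (dQ : Fin γ → ℕ × ℕ),
    (∀ j, BiH (Q j) (dQ j)) →
    (∀ j, ∃ N : ℕ, X 0 ^ N * rename (Sum.elim id Subtype.val) (Q j) ∈
      Ideal.span (Set.range S.F)) →
    Dich (fun j => map (algebraMap L Λ) (Q j)) y B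

/-- CT. THE END OF THE BLOCKS D, E, F, G: over some extension field there is a curve alpha through the generic
point, or a curve beta; now with all the relations of the `W` over `ℂ`.
PROOF. As `cN` (`MP_410da7_agB/CN.lean`). DN18: `c, κ, r, d, E₁, S, α, g`, the certificate for
`Y = Fin.snoc W (∑ c_l W_l)`, `tt' = tt.map Fin.castSuccEmb`, `b₀` = last. The ideal of
`MvPolynomial (Fin (Mw + 2) ⊕ tt') ℂ` generated by the bihomogeneous `P` with `P(Y; Y|tt') = 0` is finitely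
generated by finitely many of these (`Submodule.fg_span_iff_fg_span_finset_subset`, Noetherian): `P_1..P_γ` of
bidegrees `dQ`. `Q_j = map (algebraMap ℂ L) P_j`: `rename P_j` is homogeneous and vanishes at `Y` (RENAME1), so
`X_0^d Q_j ∈ (S.F)` by DN18 (`map` and `rename` commute). `B` with `(n+1) m₀ E₁ < (B+1) e₀` (`1 ≤ e₀`).
EFGT: `Λ'`. `Ω' = Λ'` as an algebra over `ℂ` through `Λ`, `ι` as in `cN`. Every bihomogeneous relation of
`(Y; Y|tt')` is in the ideal, hence vanishes at the curve. CURVE ALPHA: drop the last coordinate: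
`Yp_l := Yp_{castSucc l}`; homogeneous relations of `W` as in `cN` (bidegree `(e, 0)`: `rename Sum.inl`);
`c`: transport along `tt ≃ tt'`; the last claim as in `cN`. CURVE BETA: `V_l := V_{castSucc l}`, `U_t := U_{t'}`;
`V_last = ∑ c_l V_l` (linear relation), so the `V_l` still generate the unit ideal. -/
def CTStmt : Prop :=
  ∀ (K : Type) [Field K] [Algebra ℂ K] (n N Mw m₀ e₀ E₂ : ℕ)
    (Ψ : Ω[K⁄ℂ] [⋀^Fin n]→ₗ[K] K) (W : Fin (Mw + 1) → K) (tt : Finset (Fin (Mw + 1)))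
    (x : Fin N → K), SitN Ψ W tt x E₂ →
    ∀ (L Λ : Type) [Field L] [Field Λ] [Algebra ℂ L] [Algebra L Λ] [Algebra K Λ]
      [Algebra ℂ Λ] [IsScalarTower ℂ L Λ] [IsScalarTower ℂ K Λ] (a : Λ),
    NegCurveN Ψ W tt x m₀ e₀ L Λ a →
    ∃ (Ω' : Type) (_ : Field Ω') (_ : Algebra ℂ Ω'),
      (∃ (ι : K →ₐ[ℂ] Ω') (Yp : Fin (Mw + 1) → Polynomial Ω'),
        (∀ (e : ℕ) (P : MvPolynomial (Fin (Mw + 1)) ℂ), P.IsHomogeneous e → aeval W P = 0 →
          aeval Yp P = 0) ∧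
        (∃ c : tt → Polynomial Ω', ∑ t, c t * Yp t = 1) ∧ (∀ l, (Yp l).coeff 0 = ι (W l)) ∧
        ∃ l, Yp l ≠ Polynomial.C (ι (W l)) * Yp 0) ∨
      ∃ (V : Fin (Mw + 1) → Polynomial Ω') (U : tt → Polynomial Ω') (e : ℕ),
        (∀ (d : ℕ × ℕ) (P : MvPolynomial (Fin (Mw + 1) ⊕ tt) ℂ), BiH P d →
          aeval (Sum.elim W fun t : tt => W t) P = 0 → aeval (Sum.elim V U) P = 0) ∧
        (∃ c : Fin (Mw + 1) → Polynomial Ω', ∑ l, c l * V l = 1) ∧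
        (∃ c : tt → Polynomial Ω', ∑ t, c t * U t = 1) ∧
        (∀ l, (V l).natDegree < e) ∧ (∀ t, (U t).natDegree ≤ e) ∧ ∃ t, (U t).coeff e ≠ 0

end Pool.Agent.Lib.MP_410da7_agT
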