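import Pool.Agent.Lib.MP_410da7_agT.Statement4
import Pool.Agent.Lib.MP_410da7_agB.SpecG

/-!
# MP_410da7_ag, T2 (C46 without nefness): block G, the bubble tree

NOTATION of the docstrings: `|x| = 𝒱.valuation x`, `𝔪` = the maximal ideal of the valuation ring `𝒱`,
`k'` = the residue field, `ρ : 𝒱 → k'`; `τ X` is the polynomial `C τ * X`. All the polynomials in one variable.
-/

set_option autoImplicit false

namespace Pool.Agent.Lib.MP_410da7_agT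

open Pool.Agent.Lib.MP_410da7_agA Pool.Agent.Lib.MP_410da7_agB
open MvPolynomial Module

/-! ## The two kinds of curves -/

section

variable {F : Type} [Field F] {M γ : ℕ} {tt : Finset (Fin (M + 1))}

/-- CURVE ALPHA. A rational curve `Yp` (degree at most `B`) with `Yp(0) = y` on the variety of the `Q_j`, not
constant, whose coordinates in `tt` have no common zero. -/
structure Alpha (Q : Fin γ → MvPolynomial (Fin (M + 1) ⊕ tt) F) (y : Fin (M + 1) → F) (B : ℕ)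
    (Yp : Fin (M + 1) → Polynomial F) : Prop where
  rel : ∀ j, aeval (Sum.elim Yp fun t : tt => Yp t) (Q j) = 0
  deg : ∀ l, (Yp l).natDegree ≤ B
  start : ∀ l, (Yp l).coeff 0 = y l
  moves : ∃ l, Yp l ≠ Polynomial.C (y l) * Yp 0
  miss : ∃ c : tt → Polynomial F, (∀ t, (c t).natDegree ≤ B) ∧ ∑ t, c t * Yp t = 1

/-- CURVE BETA. A rational curve `(V; U)` on the variety of the `Q_j` in `ℙ × ℙ'` whose degree with respect
to the second group of coordinates is `e ≤ B` and greater than that with respect to the first group. -/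
structure Beta {ι₁ ι₂ : Type} [Fintype ι₁] [Fintype ι₂] (Q : Fin γ → MvPolynomial (ι₁ ⊕ ι₂) F)
    (B : ℕ) (V : ι₁ → Polynomial F) (U : ι₂ → Polynomial F) : Prop where
  rel : ∀ j, aeval (Sum.elim V U) (Q j) = 0
  cV : ∃ c : ι₁ → Polynomial F, (∀ l, (c l).natDegree ≤ B) ∧ ∑ l, c l * V l = 1
  cU : ∃ c : ι₂ → Polynomial F, (∀ l, (c l).natDegree ≤ B) ∧ ∑ l, c l * U l = 1
  deg : ∃ e ≤ B, (∀ l, (V l).natDegree < e) ∧ (∀ l, (U l).natDegree ≤ e) ∧ ∃ l, (U l).coeff e ≠ 0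

/-- Over some extension field there is a curve alpha through `y` or a curve beta. -/
def Dich (Q : Fin γ → MvPolynomial (Fin (M + 1) ⊕ tt) F) (y : Fin (M + 1) → F) (B : ℕ) : Prop :=
  ∃ (k' : Type) (_ : Field k') (_ : Algebra F k'),
    (∃ Yp, Alpha (fun j => map (algebraMap F k') (Q j)) (fun l => algebraMap F k' (y l)) B Yp) ∨
      ∃ V U, Beta (fun j => map (algebraMap F k') (Q j)) B V U

end

/-! ## Algebra -/

/-- ALG1. Greatest common divisors.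
PROOF. `HKAux.exists_gcd` (`MP_410da7_agB/HK1.lean`) for a general index type. -/
def Alg1Stmt : Prop :=
  ∀ (F ι : Type) [Field F] [Fintype ι] (V : ι → Polynomial F), (∃ l, V l ≠ 0) →
    ∃ (g : Polynomial F) (V' c : ι → Polynomial F), g ≠ 0 ∧ (∀ l, V l = g * V' l) ∧
      ∑ l, c l * V' l = 1

/-- ALG2. Coefficients of bounded degree.
PROOF. Some `V_{l₁} ≠ 0`, of degree `d₁ ≤ B`. For `l ≠ l₁` let `r_l = c_l % V_{l₁}` (`EuclideanDomain`,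
`Polynomial.degree_mod_lt`), `c_l = q_l V_{l₁} + r_l`, `r_{l₁} = c_{l₁} + ∑_{l ≠ l₁} q_l V_l`: `∑ r_l V_l = 1`.
If `d₁ = 0` then `r_l = 0` for `l ≠ l₁` and `r_{l₁}` is a constant. Otherwise `deg r_l < d₁` and
`r_{l₁} V_{l₁} = 1 - ∑_{l ≠ l₁} r_l V_l` has degree `≤ B + d₁`, so `deg r_{l₁} ≤ B`. -/
def Alg2Stmt : Prop :=
  ∀ (F ι : Type) [Field F] [Fintype ι] (V c : ι → Polynomial F) (B : ℕ),
    (∀ l, (V l).natDegree ≤ B) → ∑ l, c l * V l = 1 →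
    ∃ c' : ι → Polynomial F, (∀ l, (c' l).natDegree ≤ B) ∧ ∑ l, c' l * V l = 1

/-- ALG3. A root of greater multiplicity.
PROOF. `g'` splits (`IsAlgClosed.splits`). If `rootMultiplicity z g' ≤ rootMultiplicity z g` for all `z` then
`g'.roots ≤ g.roots` (`Multiset.le_iff_count`, `Polynomial.count_roots`), and
`g' = C (leadingCoeff g') * (g'.roots.map (X - C ·)).prod` divides `g`
(`Multiset.prod_X_sub_C_dvd_iff_le_roots`; `g' = 0` is excluded: `rootMultiplicity z 0 = 0`, so treat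
`g' = 0` by hypothesis `g' ≠ 0`). -/
def Alg3Stmt : Prop :=
  ∀ (F : Type) [Field F] [IsAlgClosed F] (g g' : Polynomial F), g ≠ 0 → g' ≠ 0 → ¬ g' ∣ g →
    ∃ z : F, g.rootMultiplicity z < g'.rootMultiplicity z

/-- ALG4. The residue field is algebraically closed.
PROOF. `IsAlgClosed.of_exists_root`: a monic irreducible `p` over `k'` lifts to a monic polynomial over `𝒱`
(`Polynomial.lifts_and_degree_eq_and_monic` with `IsLocalRing.residue_surjective`); its image in `Ω[X]` has a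
root, which is integral over `𝒱`, hence in `𝒱` (`ValuationSubring` is integrally closed:
`IsIntegrallyClosed.isIntegral_iff` / `𝒱.valuation.Integers`, or estimate absolute values); reduce. -/
def Alg4Stmt : Prop :=
  ∀ (Ω : Type) [Field Ω] [IsAlgClosed Ω] (𝒱 : ValuationSubring Ω),
    IsAlgClosed (IsLocalRing.ResidueField 𝒱)

/-- ALG5. A root in the open unit disc.
PROOF. If `f(0) = 0` take `z = 0`. Otherwise `f = f(0) ∏ (1 - X/z_i)` over `Ω`; if all `|z_i| ≥ 1` then all the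
coefficients of `f` have absolute value `≤ |f(0)| < 1` (see `coeff_le_one` in `MP_410da7_agB/GN4.lean`, applied
to `f / f(0)`), but `f.coeff b` is a unit. So `|z_i| < 1` for some `i`. -/
def Alg5Stmt : Prop :=
  ∀ (Ω : Type) [Field Ω] [IsAlgClosed Ω] (𝒱 : ValuationSubring Ω) (f : Polynomial 𝒱) (b : ℕ),
    f.coeff 0 ∈ IsLocalRing.maximalIdeal 𝒱 → f.coeff b ∉ IsLocalRing.maximalIdeal 𝒱 →
    ∃ z ∈ IsLocalRing.maximalIdeal 𝒱, f.eval z = 0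

/-! ## Discs -/

section

variable {k Ω : Type} [Field k] [Field Ω]

/-- The reductions of the `P_l` vanish to the order exactly `a` at `0`. -/
structure Ord0 (𝒱 : ValuationSubring Ω) {ι : Type} (P : ι → Polynomial 𝒱) (a : ℕ) : Prop where
  lt : ∀ l, ∀ m < a, (P l).coeff m ∈ IsLocalRing.maximalIdeal 𝒱
  eq : ∃ l, (P l).coeff a ∉ IsLocalRing.maximalIdeal 𝒱

/-- A map `(P; P')` of the closed unit disc to the variety of the `Q_j` in `ℙ × ℙ'`, up to a small error,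
without common zeros. -/
structure Disc (𝒱 : ValuationSubring Ω) (φ : k →+* 𝒱) {ι₁ ι₂ : Type} {γ : ℕ}
    (Q : Fin γ → MvPolynomial (ι₁ ⊕ ι₂) k) (dQ : Fin γ → ℕ × ℕ) (P : ι₁ → Polynomial 𝒱)
    (P' : ι₂ → Polynomial 𝒱) (δ δ' : 𝒱) : Prop where
  ne : δ ≠ 0
  ne' : δ' ≠ 0
  nz : ∀ z : 𝒱, ∃ l, (P l).eval z ∣ δ
  nz' : ∀ z : 𝒱, ∃ l, (P' l).eval z ∣ δ'
  small : ∀ j m, (eval₂ (Polynomial.C.comp φ) (Sum.elim P P') (Q j)).coeff m ∈
    IsLocalRing.maximalIdeal 𝒱 * Ideal.span {δ ^ (dQ j).1 * δ' ^ (dQ j).2}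

/-- The same for polynomials over `Ω`, with absolute values. -/
structure DiscO (𝒱 : ValuationSubring Ω) [Algebra k Ω] {ι₁ ι₂ : Type} {γ : ℕ}
    (Q : Fin γ → MvPolynomial (ι₁ ⊕ ι₂) k) (dQ : Fin γ → ℕ × ℕ) (P : ι₁ → Polynomial Ω)
    (P' : ι₂ → Polynomial Ω) (δ δ' : Ω) : Prop where
  ne : δ ≠ 0
  ne' : δ' ≠ 0
  nz : ∀ z ∈ 𝒱, ∃ l, 𝒱.valuation δ ≤ 𝒱.valuation ((P l).eval z)
  nz' : ∀ z ∈ 𝒱, ∃ l, 𝒱.valuation δ' ≤ 𝒱.valuation ((P' l).eval z)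
  small : ∀ j m, 𝒱.valuation ((aeval (Sum.elim P P') (Q j)).coeff m) <
    𝒱.valuation (δ ^ (dQ j).1 * δ' ^ (dQ j).2)

end

/-- DISC1. Translation.
PROOF. `Polynomial.taylor z` is a ring homomorphism (`Polynomial.taylorAlgHom`) which fixes the constants, so it
commutes with `eval₂`; the coefficients of `taylor z f` are linear combinations of those of `f`
(`Polynomial.taylor_coeff`; or: the polynomials with all coefficients in the ideal `I` are the ideal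
`I.map C`, `Ideal.mem_map_C_iff`, mapped to itself). `eval z' (taylor z f) = eval (z' + z) f`. -/
def Disc1Stmt : Prop :=
  ∀ (k Ω : Type) [Field k] [Field Ω] (𝒱 : ValuationSubring Ω) (φ : k →+* 𝒱) (ι₁ ι₂ : Type) (γ : ℕ)
    (Q : Fin γ → MvPolynomial (ι₁ ⊕ ι₂) k) (dQ : Fin γ → ℕ × ℕ) (P : ι₁ → Polynomial 𝒱)
    (P' : ι₂ → Polynomial 𝒱) (δ δ' : 𝒱), Disc 𝒱 φ Q dQ P P' δ δ' → ∀ z : 𝒱,
    Disc 𝒱 φ Q dQ (fun l => Polynomial.taylor z (P l)) (fun l => Polynomial.taylor z (P' l)) δ δ'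

/-- DISC2. Scaling.
PROOF. `nz` at `0`: `P_l(0) = τ^a R_l(0)` divides `δ` for some `l`, so `δ = τ^a δ₁`, `δ₁ ≠ 0`; in the same way
`δ' = τ^b δ₁'`. `nz` at `τ z`: `P_l(τ z) = τ^a R_l(z)` divides `τ^a δ₁`; cancel. `small`: with
`N = a (dQ j).1 + b (dQ j).2`, `Q_j(P; P')(τ X) = Q_j(τ^a R; τ^b R') = τ^N Q_j(R; R')` (bihomogeneity; compare
`aeval_smul` in `MP_410da7_agB/GN5.lean`), so `τ^N coeff_m Q_j(R; R') = τ^m coeff_m Q_j(P; P')` is in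
`𝔪 δ^{..} δ'^{..} = 𝔪 τ^N δ₁^{..} δ₁'^{..}`; cancel. -/
def Disc2Stmt : Prop :=
  ∀ (k Ω : Type) [Field k] [Field Ω] (𝒱 : ValuationSubring Ω) (φ : k →+* 𝒱) (ι₁ ι₂ : Type) (γ : ℕ)
    (Q : Fin γ → MvPolynomial (ι₁ ⊕ ι₂) k) (dQ : Fin γ → ℕ × ℕ), (∀ j, BiH (Q j) (dQ j)) →
    ∀ (P : ι₁ → Polynomial 𝒱) (P' : ι₂ → Polynomial 𝒱) (δ δ' : 𝒱), Disc 𝒱 φ Q dQ P P' δ δ' →
    ∀ (τ : 𝒱) (a b : ℕ) (R : ι₁ → Polynomial 𝒱) (R' : ι₂ → Polynomial 𝒱), τ ≠ 0 →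
    (∀ l, (P l).comp (Polynomial.C τ * Polynomial.X) = Polynomial.C (τ ^ a) * R l) →
    (∀ l, (P' l).comp (Polynomial.C τ * Polynomial.X) = Polynomial.C (τ ^ b) * R' l) →
    ∃ δ₁ δ₁' : 𝒱, Disc 𝒱 φ Q dQ R R' δ₁ δ₁'

/-- DISC3. Reduction.
PROOF. By `small` the coefficients of `Q_j(P; P')` are in `𝔪` (`Ideal.mul_le_right`), so
`0 = Q_j(g V; g' U) = g^{(dQ j).1} g'^{(dQ j).2} Q_j(V; U)` over `k'` (apply `Polynomial.mapRingHom ρ`;
bihomogeneity); cancel. -/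
def Disc3Stmt : Prop :=
  ∀ (k Ω : Type) [Field k] [Field Ω] (𝒱 : ValuationSubring Ω) (φ : k →+* 𝒱) (ι₁ ι₂ : Type) (γ : ℕ)
    (Q : Fin γ → MvPolynomial (ι₁ ⊕ ι₂) k) (dQ : Fin γ → ℕ × ℕ), (∀ j, BiH (Q j) (dQ j)) →
    ∀ (P : ι₁ → Polynomial 𝒱) (P' : ι₂ → Polynomial 𝒱) (δ δ' : 𝒱), Disc 𝒱 φ Q dQ P P' δ δ' →
    ∀ (g g' : Polynomial (IsLocalRing.ResidueField 𝒱))
      (V : ι₁ → Polynomial (IsLocalRing.ResidueField 𝒱))
      (U : ι₂ → Polynomial (IsLocalRing.ResidueField 𝒱)), g ≠ 0 → g' ≠ 0 →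
    (∀ l, (P l).map (IsLocalRing.residue 𝒱) = g * V l) →
    (∀ l, (P' l).map (IsLocalRing.residue 𝒱) = g' * U l) →
    ∀ j, aeval (Sum.elim V U) (map ((IsLocalRing.residue 𝒱).comp φ) (Q j)) = 0

/-- DISC4. From `Ω` to `𝒱`.
PROOF. `δ₁ = δ/ν`: by `nz` at `z ∈ 𝒱`, `|δ| ≤ |P_l(z)| = |ν| |R_l(0)| ≤ |ν|`, so `δ₁ ∈ 𝒱`; `δ₁' = δ'/ν'`.
`nz`: for `z' ∈ 𝒱`, `|δ| ≤ |P_l(z + τ z')| = |ν R_l(z')|`, so `R_l(z')` divides `δ₁` (in a valuation ring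
`|x| ≤ |y|` iff `y ∣ x`, `ValuationSubring.valuation_le_iff`). `small`: `ν^{(dQ j).1} ν'^{(dQ j).2} Q_j(R; R') =
Q_j(P; P')(z + τ X)` over `Ω`; the coefficients of `f(z + τ X)` are bounded by the maximum of those of `f`
(`comp_lt` in `GN4.lean`), here `< |δ^{..} δ'^{..}|`; an element `x` of `𝒱` with `|x| < |y|`, `y ∈ 𝒱`, is in
`𝔪 * (y)`. -/
def Disc4Stmt : Prop :=
  ∀ (k Ω : Type) [Field k] [Field Ω] [Algebra k Ω] (𝒱 : ValuationSubring Ω) (φ : k →+* 𝒱),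
    (∀ x, (φ x : Ω) = algebraMap k Ω x) → ∀ (ι₁ ι₂ : Type) (γ : ℕ)
    (Q : Fin γ → MvPolynomial (ι₁ ⊕ ι₂) k) (dQ : Fin γ → ℕ × ℕ), (∀ j, BiH (Q j) (dQ j)) →
    ∀ (P : ι₁ → Polynomial Ω) (P' : ι₂ → Polynomial Ω) (δ δ' : Ω), DiscO 𝒱 Q dQ P P' δ δ' →
    ∀ (z τ : 𝒱) (ν ν' : Ω) (R : ι₁ → Polynomial 𝒱) (R' : ι₂ → Polynomial 𝒱), ν ≠ 0 → ν' ≠ 0 →
    (∀ l, (P l).comp (Polynomial.C (z : Ω) + Polynomial.C (τ : Ω) * Polynomial.X) =
      Polynomial.C ν * (R l).map 𝒱.subtype) →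
    (∀ l, (P' l).comp (Polynomial.C (z : Ω) + Polynomial.C (τ : Ω) * Polynomial.X) =
      Polynomial.C ν' * (R' l).map 𝒱.subtype) →
    ∃ δ₁ δ₁' : 𝒱, Disc 𝒱 φ Q dQ R R' δ₁ δ₁'

/-- CROSST. The largest smaller radius where an order drops.
PROOF. Let `S` be the set of the nonzero coefficients `x = (P_l)_m`, `m < a`, with the exponent `e = a - m`, and
of the nonzero coefficients `x = (P'_l)_m`, `m < b`, with the exponent `e = b - m`; it is finite, and not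
empty: `(P'_l)_0 ≠ 0`, `b ≥ 1`. All `x ∈ 𝔪`. For each of them choose `τ_x ∈ Ω` with `τ_x^e = x` (`Ω` is
algebraically closed); `|τ_x| < 1`, `τ_x ≠ 0`, so `τ_x ∈ 𝔪`. Let `τ` be a `τ_x` of maximal absolute value. Then
`|(P_l)_m| ≤ |τ|^(a-m)` for `m < a`, so `τ^a` divides `(P_l)_m τ^m` for all `m` (for `m ≥ a` clear); define
`R_l` by the quotients (`∑ m ∈ support, monomial m _`); in the same way `R'_l`. For the maximizing `x` the
quotient `x τ^m/τ^a = x/τ^e` is a unit. -/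
def CrossTStmt : Prop :=
  ∀ (Ω : Type) [Field Ω] [IsAlgClosed Ω] (𝒱 : ValuationSubring Ω) (ι₁ ι₂ : Type) [Finite ι₁]
    [Finite ι₂] (P : ι₁ → Polynomial 𝒱) (P' : ι₂ → Polynomial 𝒱) (a b : ℕ), Ord0 𝒱 P a →
    Ord0 𝒱 P' b → 1 ≤ b → (∃ l, (P' l).coeff 0 ≠ 0) →
    ∃ (τ : 𝒱) (R : ι₁ → Polynomial 𝒱) (R' : ι₂ → Polynomial 𝒱), τ ≠ 0 ∧
      τ ∈ IsLocalRing.maximalIdeal 𝒱 ∧
      (∀ l, (P l).comp (Polynomial.C τ * Polynomial.X) = Polynomial.C (τ ^ a) * R l) ∧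
      (∀ l, (P' l).comp (Polynomial.C τ * Polynomial.X) = Polynomial.C (τ ^ b) * R' l) ∧
      ((∃ l, ∃ m < a, (R l).coeff m ∉ IsLocalRing.maximalIdeal 𝒱) ∨
        ∃ l, ∃ m < b, (R' l).coeff m ∉ IsLocalRing.maximalIdeal 𝒱)

/-- LIFTR. The order at a point of the reduction.
PROOF. `map ρ (taylor z R_l) = taylor z̄ (g V_l) = taylor z̄ g * taylor z̄ V_l`, `z̄ = ρ z` (`Polynomial.map_taylor`
or `taylor = comp (X + C z)`). With `a = rootMultiplicity z̄ g`: `g = (X - C z̄)^a g₁`, `g₁(z̄) ≠ 0`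
(`Polynomial.exists_eq_pow_rootMultiplicity_mul_and_not_dvd`), `taylor z̄ g = X^a (taylor z̄ g₁)`. Coefficients of
degree `< a` vanish; the coefficient of degree `a` is `g₁(z̄) V_l(z̄)`, and `V_l(z̄) ≠ 0` for some `l` by the
Bezout relation. `x ∈ 𝔪 ↔ ρ x = 0` (`IsLocalRing.residue_eq_zero_iff`). -/
def LiftRStmt : Prop :=
  ∀ (Ω : Type) [Field Ω] (𝒱 : ValuationSubring Ω) (ι : Type) [Fintype ι] (R : ι → Polynomial 𝒱)
    (g : Polynomial (IsLocalRing.ResidueField 𝒱))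
    (V c : ι → Polynomial (IsLocalRing.ResidueField 𝒱)), g ≠ 0 →
    (∀ l, (R l).map (IsLocalRing.residue 𝒱) = g * V l) → ∑ l, c l * V l = 1 → ∀ z : 𝒱,
    Ord0 𝒱 (fun l => Polynomial.taylor z (R l)) (g.rootMultiplicity (IsLocalRing.residue 𝒱 z))

/-- TREE. THE TREE LEMMA.
PROOF. Induction on `a + b` (all the data vary: `P, P', δ, δ'`). (1) `b ≥ 1`. Choose `t` with
`(P'_t)_b ∉ 𝔪` and, by ALG5, a zero `z ∈ 𝔪` of `P'_t`. Replace `P, P'` by `taylor z P`, `taylor z P'`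
(DISC1): `Ord0` is preserved, because the reduction does not change (`ρ z = 0`, `taylor 0 = id`), and
`(P'_t)_b ∉ 𝔪` as well; now `(P'_t)_0 = 0`. (2) `(P'_l)_0 ≠ 0` for some `l` by `nz'` at `0`. CROSST: `τ`, `R`, `R'`;
DISC2: `Disc R R'`. For `m > a`: `(R_l)_m = τ^(m-a) (P_l)_m ∈ 𝔪`; `(R_l)_a = (P_l)_a`; the same for `R'`, `b`. So
the reductions `R̄_l` have degree `≤ a`, with equality for some `l`, and the `R̄'_l` have degree `≤ b`; `R̄'_t`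
has degree exactly `b` and constant term `0`. (3) ALG1: `R̄ = g V`, `R̄' = g' U`. DISC3: `Q_j(V; U) = 0`.
`max deg V_l = a - deg g`, `max deg U_l = b - deg g'`. If `a - deg g < b - deg g' =: e`: curve beta
(`(U_t)_e ≠ 0`; the Bezout coefficients by ALG2 with `B = b`). (4) Otherwise `deg g < deg g'`, so `g' ∤ g`, and
ALG3, ALG4 give `z₂ ∈ k'` with `a₂ = rootMultiplicity z₂ g < b₂ = rootMultiplicity z₂ g'`; let `ẑ₂ ∈ 𝒱` be a lift.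
DISC1 and LIFTR: `Disc`, `Ord0 a₂`, `Ord0 b₂` for `taylor ẑ₂ R`, `taylor ẑ₂ R'`. `a₂ ≤ deg g ≤ a`,
`b₂ ≤ deg g' ≤ b`. `a₂ + b₂ < a + b`: otherwise `a₂ = a`, `b₂ = b`; if `z₂ = 0` then `X^a ∣ R̄_l`, `X^b ∣ R̄'_l` for
all `l`, contradiction with the last claim of CROSST; if `z₂ ≠ 0` then `(X - z₂)^b ∣ R̄'_t`, which has degree `b`,
so `R̄'_t = c (X - z₂)^b` with `c ≠ 0`, `(R̄'_t)(0) ≠ 0`, contradiction. The induction hypothesis gives a curve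
beta with the bound `b₂ ≤ b` (`Beta` is monotone in `B`). -/
def TreeStmt : Prop :=
  ∀ (k Ω : Type) [Field k] [Field Ω] [IsAlgClosed Ω] (𝒱 : ValuationSubring Ω) (φ : k →+* 𝒱)
    (ι₁ ι₂ : Type) [Fintype ι₁] [Fintype ι₂] (γ : ℕ) (Q : Fin γ → MvPolynomial (ι₁ ⊕ ι₂) k)
    (dQ : Fin γ → ℕ × ℕ), (∀ j, BiH (Q j) (dQ j)) →
    ∀ (P : ι₁ → Polynomial 𝒱) (P' : ι₂ → Polynomial 𝒱) (δ δ' : 𝒱), Disc 𝒱 φ Q dQ P P' δ δ' →
    ∀ (a b : ℕ), Ord0 𝒱 P a → Ord0 𝒱 P' b → a < b →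
    ∃ (V : ι₁ → Polynomial (IsLocalRing.ResidueField 𝒱))
      (U : ι₂ → Polynomial (IsLocalRing.ResidueField 𝒱)),
      Beta (fun j => map ((IsLocalRing.residue 𝒱).comp φ) (Q j)) b V U

/-- SPLIT. The component `R` of the bubble tree: either a curve beta, or the common zeros of the coordinates in
`tt` are the common zeros of all the coordinates.
PROOF. ALG1: `R̄_l = g V_l` (all `l`), `R̄_t = g' U_t` (`t ∈ tt`; `R̄_{t₀} ≠ 0`). If `g' ∤ g`: ALG3, ALG4: `z₂` with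
`rootMultiplicity z₂ g < rootMultiplicity z₂ g' =: b`; lift `z₂` to `ẑ₂`; DISC1, LIFTR, TREE for
`taylor ẑ₂ R`, `taylor ẑ₂ R|tt` give a curve beta with the bound `b ≤ deg g' ≤ deg R̄_{t₀} ≤ B`. If `g' ∣ g`:
`g = g' h`, and `g' = ∑ c'_t R̄_t = g ∑ c'_t V_t` (`∑ c'_t U_t = 1`), so `∑_{t ∈ tt} (h c'_t) V_t = 1`
(`g ∑ (h c'_t) V_t = h g' = g`). `rel`: DISC3 with `g' := g`, `U := V|tt`. -/
def SplitStmt : Prop :=
  ∀ (k Ω : Type) [Field k] [Field Ω] [IsAlgClosed Ω] (𝒱 : ValuationSubring Ω) (φ : k →+* 𝒱)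
    (M γ B : ℕ) (tt : Finset (Fin (M + 1))) (Q : Fin γ → MvPolynomial (Fin (M + 1) ⊕ tt) k)
    (dQ : Fin γ → ℕ × ℕ), (∀ j, BiH (Q j) (dQ j)) →
    ∀ (R : Fin (M + 1) → Polynomial 𝒱) (δ δ' : 𝒱), Disc 𝒱 φ Q dQ R (fun t : tt => R t) δ δ' →
    ∀ t₀ ∈ tt, (R t₀).map (IsLocalRing.residue 𝒱) ≠ 0 →
    ((R t₀).map (IsLocalRing.residue 𝒱)).natDegree ≤ B →
    (∃ V U, Beta (fun j => map ((IsLocalRing.residue 𝒱).comp φ) (Q j)) B V U) ∨
      ∃ (g : Polynomial (IsLocalRing.ResidueField 𝒱))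
        (V : Fin (M + 1) → Polynomial (IsLocalRing.ResidueField 𝒱))
        (c : tt → Polynomial (IsLocalRing.ResidueField 𝒱)), g ≠ 0 ∧
        (∀ l, (R l).map (IsLocalRing.residue 𝒱) = g * V l) ∧
        (∀ j, aeval (Sum.elim V fun t : tt => V t)
          (map ((IsLocalRing.residue 𝒱).comp φ) (Q j)) = 0) ∧
        ∑ t, c t * V t = 1

/-! ## The bubble for polynomials -/

/-- GT5. The bubble with centre `0` (compare GN5).
PROOF. CrossUp (`crossUp`) with `p = P_0`, `u_l = P_l - y_l P_0`: `τ`, `ν`, `o`. As `P_l = u_l + y_l P_0` and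
`|y_l| ≤ 1`: `|(P_l)_m τ^m| ≤ |ν|`; `R_l ∈ 𝒱[X]` with the coefficients `(P_l)_m τ^m/ν`,
`P_l(τ X) = ν R_l`. DISC4 with `z = 0`, `ν' = ν`: `Disc R R|tt`. `R̄_0 ≠ 0`: its coefficient of degree `o` is
`c ≠ 0`. `deg R̄_l ≤ B` for all `l`: for `m > B`, `|(P_l)_m τ^m| ≤ |(P_l)_m| |τ|^{m₁} < |(P_{l₁})_{m₁} τ^{m₁}| ≤ |ν|`.
SPLIT with `t₀ = 0`: a curve beta (done: `k'` = the residue field with the algebra structure given by
`ρ ∘ φ`), or `R̄_l = g V_l`, `∑ c_t V_t = 1`. The coefficients of degree `< o` of all `R̄_l` vanish, and that of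
degree `o` is `y_l c` (`(u_l)_m τ^m/ν ∈ 𝔪` for `m ≤ o`, `(P_0)_m τ^m/ν ∈ 𝔪` for `m < o`). So `X^o` divides
`g = ∑ c_t R̄_t`; `g = X^o g₁` and `g₁(0) V_l(0) = y_l c`; in particular `g₁(0) V_0(0) = c ≠ 0`. Put
`Yp_l = V_l / V_0(0)`: `Yp_l(0) = y_l`, `deg Yp_l ≤ deg V_l ≤ deg R̄_l ≤ B` (or `V_l = 0`); `rel` by homogeneity
(divide both groups by the constant); `moves`: some `u_l` has a monomial of absolute value `|ν|`, so
`R̄_l ≠ y_l R̄_0` and `V_l ≠ y_l V_0`; `miss`: ALG2. -/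
def GT5Stmt : Prop :=
  ∀ (k Ω : Type) [Field k] [Field Ω] [IsAlgClosed Ω] [Algebra k Ω] (𝒱 : ValuationSubring Ω)
    (_hk : ∀ x : k, algebraMap k Ω x ∈ 𝒱) (M γ B : ℕ) (tt : Finset (Fin (M + 1))), 0 ∈ tt →
    ∀ (Q : Fin γ → MvPolynomial (Fin (M + 1) ⊕ tt) k) (dQ : Fin γ → ℕ × ℕ),
    (∀ j, BiH (Q j) (dQ j)) → ∀ (y : Fin (M + 1) → k), y 0 = 1 →
    ∀ (P : Fin (M + 1) → Polynomial Ω) (δ : Ω), DiscO 𝒱 Q dQ P (fun t : tt => P t) δ δ →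
    (∀ l, (P l).coeff 0 = algebraMap k Ω (y l)) →
    (∃ l₁, ∃ m₁ ≤ B, ∀ l m, B < m →
      𝒱.valuation ((P l).coeff m) < 𝒱.valuation ((P l₁).coeff m₁)) →
    (∃ l m, ∀ m', 𝒱.valuation ((P 0).coeff m') ≤
      𝒱.valuation ((P l - Polynomial.C (algebraMap k Ω (y l)) * P 0).coeff m)) →
    Dich Q y B

/-- GT4. The bubble at a zero of `x_0` (compare GN4).
PROOF. `P_0` has a zero `z`, `|z| < 1`, as in `GN4.lean`. `P'_l = P_l(z + X)`, `u'_l = P'_l - y_l P'_0`; the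
conditions on the coefficients are inherited (`comp_lt`, `comp_le`, `comp_top`). `(P'_0)_0 = 0`, and by `nz` at
`z` some `P_l(z) ≠ 0`, so `(u'_l)_0 ≠ 0`. CrossDown: `τ`, `ν`, `o ≤ D₁`. `P_l(z + τ X) = ν R_l`, DISC4 with
`ν' = ν`: `Disc R R|tt`; `deg R̄_l ≤ o`, the coefficient of degree `o` is `y_l c`, `c ≠ 0`; `R̄_l ≠ y_l R̄_0` for some
`l`. SPLIT with `t₀ = 0`: a curve beta (the bound is `o ≤ D₁ ≤ B`), or `R̄_l = g V_l`, `∑ c_t V_t = 1`. Put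
`o' = o - deg g` (`deg g + deg V_0 = deg R̄_0 = o`); `deg V_l ≤ o'`, `lc(g) (V_l)_{o'} = y_l c`. `Yp_l` =
`reflect o' V_l` divided by the constant `(V_0)_{o'}`: `Yp_l(0) = y_l`, `deg Yp_l ≤ o' ≤ B`. `rel`:
`reflect_zero` in `GN4.lean` for both groups (or in `k'(X)`: `reflect o' V = X^{o'} V(1/X)` and
bihomogeneity). `moves`: `reflect` is injective. `miss`: the `Yp_t`, `t ∈ tt`, have no common zero in the
algebraically closed `k'` (ALG4): not at `0` (`Yp_0(0) = 1`), and `Yp_t(x) = 0` for all `t`, `x ≠ 0`, implies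
`V_t(1/x) = 0` (`Polynomial.eval₂_reflect_mul_pow`), contradiction to `∑ c_t V_t = 1`. So they are coprime:
by ALG1 `Yp_t = h Y'_t`, and `h` has no root, hence is a constant. Then ALG2. -/
def GT4Stmt : Prop :=
  ∀ (k Ω : Type) [Field k] [Field Ω] [IsAlgClosed Ω] [Algebra k Ω] (𝒱 : ValuationSubring Ω)
    (_hk : ∀ x : k, algebraMap k Ω x ∈ 𝒱) (M γ B D₁ : ℕ) (tt : Finset (Fin (M + 1))), 0 ∈ tt →
    D₁ ≤ B → ∀ (Q : Fin γ → MvPolynomial (Fin (M + 1) ⊕ tt) k) (dQ : Fin γ → ℕ × ℕ),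
    (∀ j, BiH (Q j) (dQ j)) → ∀ (y : Fin (M + 1) → k), y 0 = 1 →
    ∀ (P : Fin (M + 1) → Polynomial Ω) (δ : Ω), DiscO 𝒱 Q dQ P (fun t : tt => P t) δ δ →
    (P 0).coeff 0 = 1 →
    (∀ l m, 𝒱.valuation ((P l - Polynomial.C (algebraMap k Ω (y l)) * P 0).coeff m) <
      𝒱.valuation ((P 0).coeff D₁)) →
    (∀ m, 𝒱.valuation ((P 0).coeff m) ≤ 𝒱.valuation ((P 0).coeff D₁)) →
    (∀ m, D₁ < m → 𝒱.valuation ((P 0).coeff m) < 𝒱.valuation ((P 0).coeff D₁)) →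
    1 < 𝒱.valuation ((P 0).coeff D₁) → Dich Q y B

/-! ## The bubble for power series -/

/-- GT6 (compare GN6).
PROOF. As GN6 (`MP_410da7_agB/GN6.lean`, with its lemmas). `ϖ^(B+1) = θ⁻¹`, `P_l` = the truncation of
`H_l(ϖ X)` at degree `T`, `G'_t` that of `G_t(ϖ X)`. `DiscO` for `(P; P|tt)` and `δ`: `∑_{t ∈ tt} G'_t P_t = 1 + E`,
the coefficients of `E` of degree `≤ T` vanish and the others are bounded by `|δ|⁻¹ |θ| |ϖ|^(T+1) < 1`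
(`T` large, `Arch`); for `z ∈ 𝒱`: `|∑ G'_t(z) P_t(z)| = 1`, `|G'_t(z)| ≤ |δ|⁻¹`, so `|P_t(z)| ≥ |δ|` for some
`t ∈ tt`: both `nz` and `nz'`. `small`: the coefficients of `Q_j(P; P|tt)` of degree `≤ T` vanish, the others are
bounded by `|θ|^{d₁+d₂} |ϖ|^(T+1) < |δ|^{d₁+d₂}` (`(d₁, d₂) = dQ j`; `bnd_aeval` for the polynomial
`rename (Sum.elim id Subtype.val) (Q j)`, homogeneous of degree `d₁ + d₂`, see RENAME1 below). (1)
`|(P_{l₁})_{m₁}| > 1` for the `(l₁, m₁)`, `m₁ ≤ B`, where `|θ|` is attained, and `|(P_l)_m| < |(P_{l₁})_{m₁}|` for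
`m > B`. CASE A: some `u_l` has a coefficient `≥` all those of `P_0`: GT5. CASE B: otherwise let `D₁` be the
highest degree of a maximal coefficient of `P_0`: `|(P_0)_{D₁}| ≥ |(P_{l₁})_{m₁}| > 1`, so `D₁ ≤ B`; GT4. -/
def GT6Stmt : Prop :=
  ∀ (k Ω : Type) [Field k] [Field Ω] [IsAlgClosed Ω] [Algebra k Ω] (𝒱 : ValuationSubring Ω)
    (_hk : ∀ x : k, algebraMap k Ω x ∈ 𝒱), Arch 𝒱 → ∀ (M γ B : ℕ) (tt : Finset (Fin (M + 1))),
    0 ∈ tt → ∀ (Q : Fin γ → MvPolynomial (Fin (M + 1) ⊕ tt) k) (dQ : Fin γ → ℕ × ℕ),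
    (∀ j, BiH (Q j) (dQ j)) → ∀ (y : Fin (M + 1) → k), y 0 = 1 →
    ∀ (H : Fin (M + 1) → PowerSeries Ω),
    (∀ l, PowerSeries.coeff 0 (H l) = algebraMap k Ω (y l)) →
    (∀ j, eval₂ ((PowerSeries.C : Ω →+* PowerSeries Ω).comp (algebraMap k Ω))
      (Sum.elim H fun t : tt => H t) (Q j) = 0) →
    ∀ (θ : Ω), 1 < 𝒱.valuation θ →
    (∀ l m, 𝒱.valuation (PowerSeries.coeff m (H l)) ≤ 𝒱.valuation θ) →
    (∃ l, ∃ m ≤ B, 𝒱.valuation (PowerSeries.coeff m (H l)) = 𝒱.valuation θ) →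
    ∀ (G : tt → PowerSeries Ω) (δ : Ω), δ ≠ 0 → ∑ t, G t * H t = 1 →
    (∀ t m, 𝒱.valuation (PowerSeries.coeff m (G t) * δ) ≤ 1) → Dich Q y B

/-- RENAME1. Identifying the second group of variables with some of the first.
PROOF. `IsHomogeneous` of the monomials: `rename f (monomial m c) = monomial (m.mapDomain f) c`, and the degree
of `m` is `(wt2-degree).1 + (wt2-degree).2`. `aeval_rename`. -/
def Rename1Stmt : Prop :=
  ∀ (k : Type) [CommRing k] (M : ℕ) (tt : Finset (Fin (M + 1)))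
    (Q : MvPolynomial (Fin (M + 1) ⊕ tt) k) (d : ℕ × ℕ), BiH Q d →
    (rename (Sum.elim id Subtype.val : Fin (M + 1) ⊕ tt → Fin (M + 1)) Q).IsHomogeneous
      (d.1 + d.2) ∧
    ∀ (A : Type) [CommRing A] (f : k →+* A) (v : Fin (M + 1) → A),
      eval₂ f v (rename (Sum.elim id Subtype.val : Fin (M + 1) ⊕ tt → Fin (M + 1)) Q) =
        eval₂ f (Sum.elim v fun t : tt => v t) Q

/-! ## The sections of the second line bundle have no common zero -/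

open EvW in
/-- O3. Near `Y` the coordinates `x_t(h)`, `t ∈ tt`, have no common zero (as sections of the line bundle of the
divisor `R`).
PROOF. (1) The set of the `w` with `R w > 0` is finite and for each of them the linear form
`c ↦ ∑_{t ∈ tt} c_t cf_w^{-R w}(Y_t)` is not zero; `k` is infinite, so there is `c : Fin (M+1) → k`, zero outside
of `tt`, such that `z' = ∑ c_t Y_t ∈ L(R)` has `z' ≠ 0`, `ord_w z' = - R w` for all `w` with `R w > 0`. (2) Choose a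
`k`-linear `π : Λ → Λ` with image in `L(R)` and `π = id` on `L(R)` (`Submodule.exists_isCompl`), and put
`ω'_j = π(ω_j)`. CLAIM: for `t ∈ tt` and all `w`: `ev C w s (hpt Y ω t) = ev C w s (hpt Y ω' t)`. The difference is
`∑_j s_{t,j} ev(C e_j)`, `e_j = ω_j - ω'_j`. For `i < - R w`: `cf_w^i(Y_t) = 0`, `cf_w^i(ω'_j) = 0`, and
`aeval s (push (cf_w^i) (hpt Y ω t)) = 0` (`ev_coeff`, `ev_hpt_coeff`), so `∑_j s_{t,j} cf_w^i(e_j) = 0` for all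
`w`, `i < - R w`. For a `k`-linear form `ψ` on `Ω` let `E = ∑_j ψ(s_{t,j}) e_j`: `cf_w^i(E) = 0` for all
`i < - R w`, so `E ∈ L(R)` and `E = π(E) = ∑ ψ(s_{t,j}) π(e_j) = 0`. Hence
`ψ(∑_j s_{t,j} cf_w^i(e_j)) = cf_w^i(E) = 0` for all `w, i, ψ` (`Module.forall_dual_apply_eq_zero_iff`). (3) O2
(`O2Stmt`) for `M = 1`, the divisor `R`, `Y'' = (1, z')`, `b₀ = 1`, `ω'`, and `s''_{0,j} = s_{0,j}`,
`s''_{1,j} = ∑_t c_t s_{t,j}`: if `aeval s'' q = 0` let `q'' ∈ k[a]` be obtained by the substitution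
`a_{0,j} ↦ X (0, j)`, `a_{1,j} ↦ ∑_t C(c_t) X (t, j)`: `aeval s q'' = 0`, so `q'' ∈ mx` and `q(0) = q''(0) = 0`.
It gives `m, n, β, γ₀, γ₁`. `ev s'' (hpt Y'' ω' 0) = ev s (hpt Y ω' 0) = ev s (hpt Y ω 0)`, and
`ev s'' (hpt Y'' ω' 1) = ∑_t c_t ev s (hpt Y ω' t) = ∑_t c_t ev s (hpt Y ω t)`. Put
`γ t = c_t γ₁`, plus `γ₀` for `t = 0`. -/
def O3Stmt : Prop :=
  ∀ (k Λ Ω : Type) [Field k] [Infinite k] [Field Λ] [Algebra k Λ] [Field Ω] [Algebra k Ω]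
    (C : Curve k Λ) (M D : ℕ) (tt : Finset (Fin (M + 1))) (P R : C.pt → ℤ)
    (Y : Fin (M + 1) → Λ), 0 ∈ tt → (∀ w, 0 ≤ R w) → (∀ w, R w ≤ P w) → {w | P w ≠ 0}.Finite →
    Y 0 = 1 → (∀ t ∈ tt, Y t ∈ C.L R) →
    (∀ w, 0 < R w → ∃ t ∈ tt, C.ord w (Y t) = - R w) →
    ∀ (ω : Fin D → Λ), (∀ j, ω j ∈ C.L P) → ∀ (s : Fin (M + 1) × Fin D → Ω),
    (∀ q : MvPolynomial (Fin (M + 1) × Fin D) k, aeval s q = 0 → q ∈ mx _ k) →
    (∀ t ∈ tt, ∀ w, ∀ i < - R w, aeval s (push (C.cf w i) (hpt Y ω t)) = 0) →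
    ∃ (m n : ℕ) (β : Fin n → Λ) (γ : tt → Fin n → Ω), (∀ i, β i ∈ C.L ((m : ℤ) • R)) ∧
      ∀ w, ∑ t : tt, (∑ i, HahnSeries.C (γ t i) * ev C w s (MvPolynomial.C (β i))) *
        ev C w s (hpt Y ω t) = 1

/-- GT7. THE BUBBLE FOR THE CURVE (compare GN7, `MP_410da7_agB/GN7.lean`).
PROOF. The proof of `gN7`, shorter. GN1: `Ω`, `s`, `𝒱`. `θ = s_{v₀}` of maximal absolute value, `|θ| > 1`; G1N
for `Q = P`: at most `∑ P/(B+1) < b` of the `c i` are bad, so some `c i` is good. `H_l = Hs C (c i) s Y ω l`: the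
constant term is `Y_l(c i)`, bounded by `|θ|`, attained in a degree `≤ B` (`Hs_bd`, `Hs_att`). O3 at `w = c i`:
`G_t = gs Ω C (c i) β (γ t)` (`β_i ∈ L(m R)` is regular at `c i`, `R (c i) = 0`), `δ` as `exists_delta`;
`∑ G_t H_t = 1` by injectivity of `ofPowerSeries` (`gs_of`, `ofPowerSeries_Hs`). The hypothesis of O3 on `push`:
`(hs _).1 (hpush ..)`. Relations: `eval_Hs` gives `F_j(H) = 0`, so `X_0^N Q_j` (renamed) vanishes at `H`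
(`RENAME1`, membership in the ideal of the `F_j`), and `H_0 ≠ 0` (constant term `1`) in the domain
`PowerSeries Ω`. GT6. -/
def GT7Stmt : Prop :=
  ∀ (k Λ : Type) [Field k] [Infinite k] [Field Λ] [Algebra k Λ] (C : Curve k Λ)
    (M κ D b B γ : ℕ) (F : Fin κ → MvPolynomial (Fin (M + 1)) k) (tt : Finset (Fin (M + 1))),
    0 ∈ tt → ∀ (Q : Fin γ → MvPolynomial (Fin (M + 1) ⊕ tt) k) (dQ : Fin γ → ℕ × ℕ),
    (∀ j, BiH (Q j) (dQ j)) →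
    (∀ j, ∃ N : ℕ, X 0 ^ N * rename (Sum.elim id Subtype.val) (Q j) ∈
      Ideal.span (Set.range F)) →
    ∀ (Y : Fin (M + 1) → Λ), Y 0 = 1 →
    ∀ (P R : C.pt → ℤ), (∀ w, 0 ≤ R w) → (∀ w, R w ≤ P w) → {w | P w ≠ 0}.Finite →
    (∀ l, Y l ∈ C.L P) → (∀ t ∈ tt, Y t ∈ C.L R) →
    (∀ w, 0 < R w → ∃ t ∈ tt, C.ord w (Y t) = - R w) →
    ∀ (c : Fin b → C.pt), Function.Injective c → (∀ i, P (c i) = 0) →
    ∑ᶠ w, P w < (B + 1) * b →
    ∀ (ω : Fin D → Λ), LinearIndependent k ω → (∀ j, ω j ∈ C.L (P - ptDiv c)) →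
    ∀ (𝔓 : Ideal (MvPolynomial (Fin (M + 1) × Fin D) k)), 𝔓.IsPrime →
    𝔓 ≤ mx (Fin (M + 1) × Fin D) k → 𝔓 ≠ mx (Fin (M + 1) × Fin D) k →
    (∀ j, hval Y ω (F j) ∈ ext Λ 𝔓) →
    (∀ t ∈ tt, ∀ w, ∀ i < - R w, push (C.cf w i) (hpt Y ω t) ∈ 𝔓) →
    ∃ i : Fin b, Dich Q (fun l => C.cf (c i) 0 (Y l)) B

end Pool.Agent.Lib.MP_410da7_agT
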