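import Pool.Agent.Lib.MP_410da7_agT.SpecE
import Pool.Agent.Lib.MP_410da7_agB.SpecH

/-!
# MP_410da7_ag, T2 (C46 without nefness): block H, the geometry

`Y = cons1 x` are the homogeneous coordinates of `Xbar`, `H` is the divisor of the `G_j` (homogeneous of
degree `d₀`). The second embedding is given by the monomials of degree `d₀ + 1` in the `Y_m` and by the
`G_j Y_m`; the latter are the coordinates in `tt`, they generate the ideal of `H` times `O((d₀ + 1) A)`.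
Everything is divided by `ω = G_{j₀}(Y)`, so that the coordinate `G_{j₀} Y_0` becomes `1`.
-/

set_option autoImplicit false

namespace Pool.Agent.Lib.MP_410da7_agT

open Pool.Agent.Lib.MP_410da7_agA Pool.Agent.Lib.MP_410da7_agB
open Pool.Agent.Lib.MP_410da7_ag (regDiff logDiff)
open Pool.Agent.Lib.MP_410da7_agV (Line)
open MvPolynomial KaehlerDifferential WithZero Module

section

variable {K : Type} [Field K] [Algebra ℂ K] {M s : ℕ}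

/-- The coordinates of the second embedding. -/
structure WSysT {Mw : ℕ} (d₀ : ℕ) (Y : Fin (M + 1) → K)
    (G : Fin (s + 1) → MvPolynomial (Fin (M + 1)) ℂ) (ω : K) (W : Fin (Mw + 1) → K)
    (tt : Finset (Fin (Mw + 1))) : Prop where
  ne : ω ≠ 0
  W0 : W 0 = 1
  tt0 : 0 ∈ tt
  mon : ∀ β : Fin (M + 1) → ℕ, ∑ i, β i = d₀ + 1 → ∃ l, W l * ω = ∏ i, Y i ^ β i
  sec : ∀ j m, ∃ t ∈ tt, W t * ω = aeval Y (G j) * Y m
  all : ∀ l, (∃ β : Fin (M + 1) → ℕ, ∑ i, β i = d₀ + 1 ∧ W l * ω = ∏ i, Y i ^ β i) ∨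
    ∃ j m, W l * ω = aeval Y (G j) * Y m
  sec' : ∀ t ∈ tt, ∃ j m, W t * ω = aeval Y (G j) * Y m

end

/-- HWT. Existence of the second system of coordinates.
PROOF. Compare `hW` (`MP_410da7_agB/HW.lean`). `ω = G_{j₀}(Y)`, `Y_0 = 1`. Enumerate the finite type
`(Fin (s+1) × Fin (M+1)) ⊕ {β : Fin (M + 1) → Fin (d₀ + 2) // ∑ β_i = d₀ + 1}` by `Fin (Mw + 1)` with
`(j₀, 0)` first; `tt` = the elements of the first summand. -/
def HWTStmt : Prop :=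
  ∀ (K : Type) [Field K] [Algebra ℂ K] (M s d₀ : ℕ) (Y : Fin (M + 1) → K)
    (G : Fin (s + 1) → MvPolynomial (Fin (M + 1)) ℂ), Y 0 = 1 → (∃ j, aeval Y (G j) ≠ 0) →
    ∃ (ω : K) (Mw : ℕ) (W : Fin (Mw + 1) → K) (tt : Finset (Fin (Mw + 1))),
      WSysT d₀ Y G ω W tt

/-- HLT. The local rings of the two embeddings (compare `hL`, `MP_410da7_agB/HL.lean`).
PROOF. `v(Y_m) ≤ v(Y_b)`. Let `W_{b'} ω = Y_b^{d₀+1}` (`mon`). `W_l/W_{b'}` is a monomial in the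
`Y_m/Y_b`, or `G_j(Y) Y_m/Y_b^{d₀+1} = G_j(aff Y b) (Y_m/Y_b)` (`hom_smul`), of value `≤ 1`: `max`. The rings
`locRing W b' v` and `locRing Y b v` are equal: every `W_l/W_{b'}` is a polynomial in the `Y_m/Y_b`, and
`Y_m/Y_b = Y_b^{d₀} Y_m/Y_b^{d₀+1}` is one of the `W_l/W_{b'}`. `coord` is transported along the equality. `div`:
`G_j(aff) (Y_m/Y_b) = g_j (Y_m/Y_b) ∏ z^λ` (`LSP.bdl`). `gen`: the `j` of `LSP.bdu` and `m = b`. -/
def HLTStmt : Prop :=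
  ∀ (K : Type) [Field K] [Algebra ℂ K] (n M s d₀ Mw : ℕ) (Y : Fin (M + 1) → K)
    (G : Fin (s + 1) → MvPolynomial (Fin (M + 1)) ℂ) (ω : K) (W : Fin (Mw + 1) → K)
    (tt : Finset (Fin (Mw + 1))) (b : Fin (M + 1)) (v : Valuation K ℤᵐ⁰) (z : Fin n → K)
    (lam : Fin n → ℕ), (∀ j, (G j).IsHomogeneous d₀) → Triv v → WSysT d₀ Y G ω W tt →
    LSP Y G b v z lam → ∃ b', LSW W tt b' v z lam

/-- HST. Sizes and generators.
PROOF. `size W v` is the maximum of `1` and the `v(W_l)`, `W_0 = 1`. `≤`: `v(W_l ω)` is the value of a monomial of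
degree `d₀ + 1`, or of `G_j(Y) Y_m`, a combination of such monomials with coefficients in `ℂ` (value `≤ 1`);
`≥`: the monomial `Y_b^{d₀+1}`, `v(Y_b)` maximal. Generators: `Y_m = (Y_0^{d₀} Y_m)/Y_0^{d₀+1}` (`Y_0 = 1`) is a
quotient of two of the `W_l`. -/
def HSTStmt : Prop :=
  ∀ (K : Type) [Field K] [Algebra ℂ K] (M s d₀ Mw : ℕ) (Y : Fin (M + 1) → K)
    (G : Fin (s + 1) → MvPolynomial (Fin (M + 1)) ℂ) (ω : K) (W : Fin (Mw + 1) → K)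
    (tt : Finset (Fin (Mw + 1))), (∀ j, (G j).IsHomogeneous d₀) → Y 0 = 1 →
    WSysT d₀ Y G ω W tt →
    (∀ v : Valuation K ℤᵐ⁰, Triv v → size W v * v ω = vmax Y v ^ (d₀ + 1)) ∧
    (IntermediateField.adjoin ℂ (Set.range Y) = ⊤ →
      IntermediateField.adjoin ℂ (Set.range W) = ⊤)

/-- HNT. The negative family for the second embedding.
PROOF. `m₀' = (d₀+1) m₀`, `a' = a^{d₀+1}/ω^{e₀}`. `neg`: for `w` let `v = w|K` (`Triv`, `DAux.triv_comap`), by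
hypothesis `hloc` there are `b, p, z, lam` with `LSP` and `vmax^e₀ kSize^m₀ ≤ w a` (`neg_iff` in
`MP_410da7_agB/AssemblyH.lean`); HLT: `LSW`; HST: `size W v = vmax^{d₀+1}/v(ω)`, and raise the inequality to the
power `d₀ + 1`. -/
def HNTStmt : Prop :=
  ∀ (K : Type) [Field K] [Algebra ℂ K] (n M s d₀ Mw m₀ e₀ : ℕ) (Ψ : Ω[K⁄ℂ] [⋀^Fin n]→ₗ[K] K)
    (Y : Fin (M + 1) → K) (G : Fin (s + 1) → MvPolynomial (Fin (M + 1)) ℂ) (ω : K)
    (W : Fin (Mw + 1) → K) (tt : Finset (Fin (Mw + 1))), (∀ j, (G j).IsHomogeneous d₀) →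
    Y 0 = 1 → WSysT d₀ Y G ω W tt →
    (∀ v : Valuation K ℤᵐ⁰, Triv v → ∃ (b : Fin (M + 1)) (p : Fin (M + 1) → ℂ)
      (z : Fin n → pointRing Y b p) (lam : Fin n → ℕ), AtPoint Y b p v ∧
      IsPairChart Y G b p z lam ∧ LSP Y G b v (fun i => (z i : K)) lam) →
    ∀ (L Λ : Type) [Field L] [Field Λ] [Algebra ℂ L] [Algebra L Λ] [Algebra K Λ]
      [Algebra ℂ Λ] [IsScalarTower ℂ L Λ] [IsScalarTower ℂ K Λ] (a : Λ),
    PairNegFamily Y G Ψ m₀ e₀ L Λ a →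
    NegCurveN Ψ W tt W ((d₀ + 1) * m₀) e₀ L Λ
      (a ^ (d₀ + 1) / algebraMap K Λ ω ^ e₀)

/-- HV. VERONESE. A point `Z` of the second embedding with polynomial coordinates over a field `F` comes from a
point `V` of the first.
PROOF. (1) Let `i(β)` be an index with `W_{i(β)} ω = Y^β`. Some `Z_{i(β)} ≠ 0`, `β = (d₀+1) δ_b`: some `Z_l ≠ 0`; if
`l` is of the second kind then `Z_l` is a linear combination of the `Z_{i(β)}` (`G_j Y_m` is a combination of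
monomials: a linear relation of the `W`), so some `Z_{i(β)} ≠ 0`; and
`(Z_{i(β)})^{d₀+1} = ∏_m (Z_{i((d₀+1)δ_m)})^{β_m}` (homogeneous relation of the `W`, multiplied by
`ω^{d₀+1}`). (2) `V'_m = Z_{i(d₀ δ_b + δ_m)}`; `V'_b ≠ 0`. `V' = g V`, `∑ c V = 1` (ALG1). (3) The relations of `Y`:
`P(Y) = 0`, `P` homogeneous, implies `P(W_{i(d₀ δ_b + δ_m)}) = (Y_b^{d₀}/ω)^{deg P} P(Y) = 0`, so
`0 = P(V') = g^{deg P} P(V)`. (4) `Z_{i(β)} (V'_b)^{d₀} = ∏ (V'_m)^{β_m}` (relation: both sides times `ω^{d₀+1}` are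
`Y^β Y_b^{(d₀+1) d₀}`), so `Z_{i(β)} V_b^{d₀} = g V^β`; for a second index `l` with `W_l ω = Y^β` the linear
relation `X_l - X_{i(β)}`. In the same way `Z_l V_b^{d₀} = g G_j(V) V_m` if `W_l ω = G_j(Y) Y_m`. (5) `V_b^{d₀}`
divides `g`: the `V^β`, `|β| = d₀ + 1`, generate the unit ideal (expand `(∑ c_l V_l)^{d₀+1}`, or
`Ideal.span_pow_eq_top`: already the `V_l^{d₀+1}`), `1 = ∑ a_l V_l^{d₀+1}`, so
`g = ∑ a_l g V_l^{d₀+1} = V_b^{d₀} ∑ a_l Z_{i((d₀+1)δ_l)}`. `g = V_b^{d₀} h`; cancel `V_b^{d₀} ≠ 0`. -/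
def HVStmt : Prop :=
  ∀ (K : Type) [Field K] [Algebra ℂ K] (M s d₀ Mw : ℕ) (Y : Fin (M + 1) → K)
    (G : Fin (s + 1) → MvPolynomial (Fin (M + 1)) ℂ) (ω : K) (W : Fin (Mw + 1) → K)
    (tt : Finset (Fin (Mw + 1))), (∀ j, (G j).IsHomogeneous d₀) → WSysT d₀ Y G ω W tt →
    ∀ (F : Type) [Field F] [Algebra ℂ F] (Z : Fin (Mw + 1) → Polynomial F),
    (∀ (e : ℕ) (P : MvPolynomial (Fin (Mw + 1)) ℂ), P.IsHomogeneous e → aeval W P = 0 →
      aeval Z P = 0) → (∃ l, Z l ≠ 0) →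
    ∃ (h : Polynomial F) (V c : Fin (M + 1) → Polynomial F), h ≠ 0 ∧ ∑ l, c l * V l = 1 ∧
      (∀ (e : ℕ) (P : MvPolynomial (Fin (M + 1)) ℂ), P.IsHomogeneous e → aeval Y P = 0 →
        aeval V P = 0) ∧
      (∀ l (β : Fin (M + 1) → ℕ), ∑ i, β i = d₀ + 1 → W l * ω = ∏ i, Y i ^ β i →
        Z l = h * ∏ i, V i ^ β i) ∧
      ∀ l j m, W l * ω = aeval Y (G j) * Y m → Z l = h * (aeval V (G j) * V m)

/-- HTA. The curve alpha gives a curve which misses `D`.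
PROOF. HV for `Z = Yp` (`Yp_0(0) = ι(1) = 1`): `h, V`. `∑ c_t Yp_t = 1` and `Yp_t = h G_j(V) V_m` (`sec'`): `h` is a
unit, and the `G_j(V)` generate the unit ideal: `miss`. With `i_m` an index with `W_{i_m} ω = Y_0^{d₀} Y_m = Y_m`:
`Yp_{i_m} = h V_0^{d₀} V_m`; at `0`: `ι(Y_m/ω) = h(0) V_0(0)^{d₀} V_m(0)`; for `m = 0`: `V_0(0) ≠ 0`, `h(0) ≠ 0`
(`unit`); so `V_m(0) = V_0(0) ι(Y_m)`: generic (as `hgen` in `MP_410da7_agB/HK.lean`). `nonconst`: otherwise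
`V_m = V_m(0)/V_0(0) V_0 = C(ι Y_m) V_0` for all `m` (see HK), and then for `W_l ω = Y^β`:
`Yp_l = h V^β = C(ι(Y^β)) h V_0^{d₀+1}`, for `W_l ω = G_j(Y) Y_m`: `Yp_l = C(ι(G_j(Y) Y_m)) h V_0^{d₀+1}`, so
`Yp_l = C(ι(W_l ω)) h V_0^{d₀+1}` for all `l`, and `Yp_0 = C(ι(ω)) h V_0^{d₀+1}`: `Yp_l = C(ι(W_l)) Yp_0`. -/
def HTAStmt : Prop :=
  ∀ (K : Type) [Field K] [Algebra ℂ K] (M s d₀ Mw : ℕ) (Y : Fin (M + 1) → K)
    (G : Fin (s + 1) → MvPolynomial (Fin (M + 1)) ℂ) (ω : K) (W : Fin (Mw + 1) → K)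
    (tt : Finset (Fin (Mw + 1))), (∀ j, (G j).IsHomogeneous d₀) → Y 0 = 1 →
    WSysT d₀ Y G ω W tt →
    ∀ (Ω' : Type) [Field Ω'] [Algebra ℂ Ω'] (ι : K →ₐ[ℂ] Ω') (Yp : Fin (Mw + 1) → Polynomial Ω'),
    (∀ (e : ℕ) (P : MvPolynomial (Fin (Mw + 1)) ℂ), P.IsHomogeneous e → aeval W P = 0 →
      aeval Yp P = 0) →
    (∃ c : tt → Polynomial Ω', ∑ t, c t * Yp t = 1) → (∀ l, (Yp l).coeff 0 = ι (W l)) →
    (∃ l, Yp l ≠ Polynomial.C (ι (W l)) * Yp 0) →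
    ∃ V : Fin (M + 1) → Polynomial Ω', Line Ω' Y G V ∧
      ∀ (d : ℕ) (P : MvPolynomial (Fin (M + 1)) ℂ), P.IsHomogeneous d →
        aeval (fun l => (V l).coeff 0) P = 0 → aeval Y P = 0

/-- HTB. The curve beta gives a rational curve `E` in `D` with `H · E < 0`.
PROOF. HV for `Z = V'` (bidegree `(e, 0)`): `V' l = h V^β` etc.; the `V'_l` generate the unit ideal, so `h` is a
unit, a constant. `U'_t V_{m'} = U'_{t'} V_m` if `W_t ω = G_j(Y) Y_m`, `W_{t'} ω = G_j(Y) Y_{m'}`: the bihomogeneous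
relation (bidegree `(1, 1)`) `Z_t X_{i(β')} - Z_{t'} X_{i(β)}`, `β' = d₀ δ_b + δ_{m'}`, `β = d₀ δ_b + δ_m` for every
`b`, gives `(U'_t V_{m'} - U'_{t'} V_m) h V_b^{d₀} = 0`; take `b` with `V_b ≠ 0`. Let `t(j, m) ∈ tt` be an index with
`W_{t(j,m)} ω = G_j(Y) Y_m`. With `∑ c_m V_m = 1` put `U_j = ∑_m c_m U'_{t(j,m)}`; then `U'_{t(j,m)} = U_j V_m`
(`U'_{t(j,m)} = ∑_{m'} c_{m'} V_{m'} U'_{t(j,m)} = ∑ c_{m'} V_m U'_{t(j,m')}`); and `U'_t = U_j V_m` for every `t` with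
`W_t ω = G_j(Y) Y_m` (linear relation). The `U_j` generate the unit ideal, since the `U'_t` do. DEGREES:
`V'_{i((d₀+1)δ_m)} = h V_m^{d₀+1}`, so `(d₀+1) deg V_m < e` for all `m` with... (`natDegree_pow`, `h` constant), and
`e = deg U'_t = deg (U_j V_m) ≤ deg U_j + deg V_m` for the `t` with `(U'_t)_e ≠ 0`, `W_t ω = G_j(Y) Y_m`
(`V_m ≠ 0`): with `D` the maximum of the `deg V_l`: `(d₀+1) D < e ≤ deg U_j + D`, so `d₀ D < deg U_j`. `G_j(V) = 0`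
for all `j`: the relation (bidegree `(d₀, 1)`; multiply by suitable coordinates) gives
`U_j G_{j'}(V) = U_{j'} G_j(V)`: here is one way: `Z_{t(j,b)} X_{i'} - Z_{t(j',b)} X_{i}` with `W_{i'} ω = G_{j'}(Y) Y_b`,
`W_i ω = G_j(Y) Y_b` (these are coordinates as well), so `U_j V_b h G_{j'}(V) V_b = U_{j'} V_b h G_j(V) V_b`.
With `∑ c'_j U_j = 1`: `G_{j'}(V) = q U_{j'}`, `q = ∑ c'_j G_j(V)`; if `q ≠ 0` then for the `j` above
`deg U_j ≤ deg G_j(V) ≤ d₀ D`, contradiction; so all `G_j(V) = 0`. RELATIONS: `P` of bidegree `(p, q)` with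
`P(Y; G(Y)) = 0`. Choose `b` with `V_b ≠ 0`, and let `P'` be `P` with `X_l ↦ X_{i(d₀ δ_b + δ_l)}`, `Z_j ↦ Z_{t(j,b)}`
(`rename`): `P'(W; W|tt) = (Y_b^{d₀}/ω)^p (Y_b/ω)^q P(Y; G(Y)) = 0`, so `0 = P'(V'; U') =
(h V_b^{d₀})^p V_b^q P(V; U)`. -/
def HTBStmt : Prop :=
  ∀ (K : Type) [Field K] [Algebra ℂ K] (M s d₀ Mw : ℕ) (Y : Fin (M + 1) → K)
    (G : Fin (s + 1) → MvPolynomial (Fin (M + 1)) ℂ) (ω : K) (W : Fin (Mw + 1) → K)
    (tt : Finset (Fin (Mw + 1))), (∀ j, (G j).IsHomogeneous d₀) → Y 0 = 1 →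
    WSysT d₀ Y G ω W tt →
    ∀ (F : Type) [Field F] [Algebra ℂ F] (V' : Fin (Mw + 1) → Polynomial F)
      (U' : tt → Polynomial F) (e : ℕ),
    (∀ (d : ℕ × ℕ) (P : MvPolynomial (Fin (Mw + 1) ⊕ tt) ℂ), BiH P d →
      aeval (Sum.elim W fun t : tt => W t) P = 0 → aeval (Sum.elim V' U') P = 0) →
    (∃ c : Fin (Mw + 1) → Polynomial F, ∑ l, c l * V' l = 1) →
    (∃ c : tt → Polynomial F, ∑ t, c t * U' t = 1) →
    (∀ l, (V' l).natDegree < e) → (∃ t, (U' t).coeff e ≠ 0) →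
    ∃ (V : Fin (M + 1) → Polynomial F) (U : Fin (s + 1) → Polynomial F),
      RatCurve F Y G V U ∧ (∀ j, aeval V (G j) = 0) ∧
      ∃ j, ∀ l, d₀ * (V l).natDegree < (U j).natDegree

/-- HTC. From an extension field of `ℂ` to `ℂ`.
PROOF. By contradiction: `∀ l, d₀ deg V_l < deg U_j =: e` (for some `j`; `e ≥ 1`). Let `A ⊆ F` be the `ℂ`-algebra
generated by all the coefficients of the `V_l`, `U_j`, of the Bezout coefficients `c_l`, `c'_j` and by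
`((U_j)_e)⁻¹`: of finite type, a domain. There is a `ℂ`-algebra homomorphism `A → ℂ` (Nullstellensatz:
a maximal ideal of `A` has residue field `ℂ`; see the end of `MP_410da7_agV/LineMain.lean` or
`MP_410da7_agA/H1.lean` for such a statement). The polynomials have coefficients in `A`
(`Polynomial.lifts`/`toSubring`); their images over `ℂ` form a `RatCurve ℂ` in `D` with
`d₀ deg V_l < e = deg U_j` (the degree of the image of `V_l` is at most that of `V_l`). -/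
def HTCStmt : Prop :=
  ∀ (K : Type) [Field K] [Algebra ℂ K] (M s d₀ : ℕ) (Y : Fin (M + 1) → K)
    (G : Fin (s + 1) → MvPolynomial (Fin (M + 1)) ℂ), NonnegOnRat d₀ Y G →
    ∀ (F : Type) [Field F] [Algebra ℂ F] (V : Fin (M + 1) → Polynomial F)
      (U : Fin (s + 1) → Polynomial F), RatCurve F Y G V U → (∀ j, aeval V (G j) = 0) →
    ∀ j, ∃ l, (U j).natDegree ≤ d₀ * (V l).natDegree

/-! ## The assembly (HMT)

`T2Thm` from the statements of the blocks, as `t1Thm` in `MP_410da7_agB/AssemblyH.lean`: 1 → 2 is `hH`, 2 → 3 is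
`hF`, the last clause is `hG`; 3 → 1: HWT, HST, `SitN Ψ W tt W 1` (`tt_le`: `v(W_t) ≤ size W v`), HNT, CT; curve
alpha: HTA and `Line.cut`; curve beta: HTB, HTC, contradiction. -/

end Pool.Agent.Lib.MP_410da7_agT
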