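import Pool.Agent.Lib.MP_410da7_agT.SpecG

/-!
# MP_410da7_ag, T2: the component of the bubble tree
-/

set_option autoImplicit false

namespace Pool.Agent.Lib.MP_410da7_agT

open MvPolynomial

namespace splitAux

theorem beta_mono {F : Type} [Field F] {γ : ℕ} {ι₁ ι₂ : Type} [Fintype ι₁] [Fintype ι₂]
    {Q : Fin γ → MvPolynomial (ι₁ ⊕ ι₂) F} {b B : ℕ} (h : b ≤ B) {V : ι₁ → Polynomial F}
    {U : ι₂ → Polynomial F} (hB : Beta Q b V U) : Beta Q B V U := by
  obtain ⟨c, hc, hc1⟩ := hB.cV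
  obtain ⟨c', hc', hc1'⟩ := hB.cU
  obtain ⟨e, he, he1, he2, he3⟩ := hB.deg
  exact ⟨hB.rel, ⟨c, fun l => (hc l).trans h, hc1⟩, ⟨c', fun l => (hc' l).trans h, hc1'⟩,
    ⟨e, he.trans h, he1, he2, he3⟩⟩

theorem rootMult_le {F : Type} [Field F] (g : Polynomial F) (z : F) :
    g.rootMultiplicity z ≤ g.natDegree := by
  classical
  rw [← Polynomial.count_roots]
  exact (Multiset.count_le_card z g.roots).trans (Polynomial.card_roots' g)

end splitAux

open splitAux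

theorem split (h1 : Alg1Stmt) (h3 : Alg3Stmt) (h4 : Alg4Stmt) (d1 : Disc1Stmt) (d3 : Disc3Stmt)
    (hl : LiftRStmt) (ht : TreeStmt) : SplitStmt := by
  intro k Ω _ _ _ 𝒱 φ M γ B tt Q dQ hQ R δ δ' hD t₀ ht₀ hR0 hRB
  obtain ⟨g, V, c, hg, hV, hc⟩ := h1 (IsLocalRing.ResidueField 𝒱) (Fin (M + 1))
    (fun l => (R l).map (IsLocalRing.residue 𝒱)) ⟨t₀, hR0⟩
  obtain ⟨g', U, c', hg', hU, hc'⟩ := h1 (IsLocalRing.ResidueField 𝒱) tt
    (fun t => (R t).map (IsLocalRing.residue 𝒱)) ⟨⟨t₀, ht₀⟩, hR0⟩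
  by_cases hdvd : g' ∣ g
  · right
    obtain ⟨h, hh⟩ := hdvd
    refine ⟨g, V, fun t => h * c' t, hg, hV, ?_, ?_⟩
    · exact d3 k Ω 𝒱 φ (Fin (M + 1)) tt γ Q dQ hQ R (fun t : tt => R t) δ δ' hD g g V
        (fun t : tt => V t) hg hg hV (fun t => hV t)
    · refine mul_left_cancel₀ hg ?_
      have e1 : g' = g * ∑ t : tt, c' t * V t := by
        calc g' = g' * ∑ t : tt, c' t * U t := by rw [hc', mul_one]
          _ = ∑ t : tt, c' t * (g' * U t) := by
              rw [Finset.mul_sum]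
              exact Finset.sum_congr rfl fun t _ => by ring
          _ = ∑ t : tt, c' t * (g * V t) := by
              refine Finset.sum_congr rfl fun t _ => ?_
              rw [← hU t, ← hV t]
          _ = g * ∑ t : tt, c' t * V t := by
              rw [Finset.mul_sum]
              exact Finset.sum_congr rfl fun t _ => by ring
      calc g * ∑ t : tt, h * c' t * V t = h * (g * ∑ t : tt, c' t * V t) := by
            rw [Finset.mul_sum, Finset.mul_sum, Finset.mul_sum]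
            exact Finset.sum_congr rfl fun t _ => by ring
        _ = g * 1 := by
            rw [← e1, hh]
            ring
  · left
    have := h4 Ω 𝒱
    obtain ⟨z₂, hz₂⟩ := h3 (IsLocalRing.ResidueField 𝒱) g g' hg hg' hdvd
    obtain ⟨z, hz⟩ := IsLocalRing.residue_surjective z₂
    have hD2 := d1 k Ω 𝒱 φ (Fin (M + 1)) tt γ Q dQ R (fun t : tt => R t) δ δ' hD z
    have hO1 := hl Ω 𝒱 (Fin (M + 1)) R g V c hg hV hc z
    have hO2 := hl Ω 𝒱 tt (fun t : tt => R t) g' U c' hg' hU hc' z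
    rw [hz] at hO1 hO2
    obtain ⟨V', U', hB⟩ := ht k Ω 𝒱 φ (Fin (M + 1)) tt γ Q dQ hQ _ _ δ δ' hD2 _ _ hO1 hO2 hz₂
    refine ⟨V', U', beta_mono ?_ hB⟩
    refine (rootMult_le g' z₂).trans (le_trans ?_ hRB)
    refine Polynomial.natDegree_le_of_dvd ?_ hR0
    exact ⟨U ⟨t₀, ht₀⟩, hU ⟨t₀, ht₀⟩⟩

end Pool.Agent.Lib.MP_410da7_agT
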